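import Pool.Agent.SelDeg2.TargetsB

/-!
# B-BIL: the bilinear estimate (MP_995735_nt)

Blueprint of helper72, formalised by helper92.
-/

namespace Pool.Agent.SelDeg2

open Complex Filter Topology MeasureTheory
open Pool.Agent.SelPole Pool.Agent.SelTwo

noncomputable section

namespace BIL

lemma wt_nonneg (η : ℝ) (n : ℕ) : 0 ≤ wt η n := Real.rpow_nonneg (Nat.cast_nonneg n) _

lemma step (η : ℝ) (hη : 0 ≤ η) (n : ℕ) (hn : 1 ≤ n) :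
    η * wt η (n + 1) ≤ (n : ℝ) ^ (-η) - ((n + 1 : ℕ) : ℝ) ^ (-η) := by
  have hx : (0 : ℝ) < n := by exact_mod_cast hn
  have hy : (0 : ℝ) < ((n + 1 : ℕ) : ℝ) := by positivity
  unfold wt
  have h1 : ((n + 1 : ℕ) : ℝ) ^ (-1 - η) = ((n + 1 : ℕ) : ℝ) ^ (-η) * (1 / ((n + 1 : ℕ) : ℝ)) := by
    rw [show (-1 - η : ℝ) = -η + (-1) by ring, Real.rpow_add hy, Real.rpow_neg_one, one_div]
  have h2 : (n : ℝ) ^ (-η) = ((n + 1 : ℕ) : ℝ) ^ (-η) * ((n : ℝ) / ((n + 1 : ℕ) : ℝ)) ^ (-η) := by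
    rw [← Real.mul_rpow hy.le (by positivity)]
    congr 1
    field_simp
  have h3 : 1 + η * (1 / ((n + 1 : ℕ) : ℝ)) ≤ ((n : ℝ) / ((n + 1 : ℕ) : ℝ)) ^ (-η) := by
    have hq : (0 : ℝ) < (n : ℝ) / ((n + 1 : ℕ) : ℝ) := by positivity
    have hl := Real.log_le_sub_one_of_pos hq
    rw [Real.rpow_def_of_pos hq]
    have he := Real.add_one_le_exp (Real.log ((n : ℝ) / ((n + 1 : ℕ) : ℝ)) * (-η))
    have hs : (n : ℝ) / ((n + 1 : ℕ) : ℝ) - 1 = -(1 / ((n + 1 : ℕ) : ℝ)) := by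
      field_simp; push_cast; ring
    rw [hs] at hl
    nlinarith [mul_le_mul_of_nonneg_left hl hη]
  rw [h1, h2]
  have h4 : 0 ≤ ((n + 1 : ℕ) : ℝ) ^ (-η) := Real.rpow_nonneg hy.le _
  nlinarith [mul_le_mul_of_nonneg_left h3 h4]

lemma sum_Ioc (η : ℝ) (hη : 0 ≤ η) (N : ℕ) :
    η * ∑ n ∈ Finset.Ioc 1 (N + 1), wt η n ≤ 1 - ((N + 1 : ℕ) : ℝ) ^ (-η) := by
  induction N with
  | zero => simp
  | succ k ih =>
    rw [← Finset.insert_Ioc_right_eq_Ioc_add_one (by omega), Finset.sum_insert (by simp), mul_add]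
    have := step η hη (k + 1) (by omega)
    linarith

/-- the sum of the weights over a finite set of integers `≥ 2` -/
lemma sum_le (η : ℝ) (hη : 0 < η) (A : Finset ℕ) (hA : ∀ n ∈ A, 1 < n) :
    ∑ n ∈ A, wt η n ≤ 1 / η := by
  have h1 : A ⊆ Finset.Ioc 1 (A.sup id + 1) := by
    intro n hn
    have := Finset.le_sup (f := id) hn
    simp only [id] at this
    exact Finset.mem_Ioc.2 ⟨hA n hn, by omega⟩
  have h2 := sum_Ioc η hη.le (A.sup id)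
  have h3 : (0 : ℝ) ≤ ((A.sup id + 1 : ℕ) : ℝ) ^ (-η) := Real.rpow_nonneg (Nat.cast_nonneg _) _
  have h4 := Finset.sum_le_sum_of_subset_of_nonneg h1 (fun n _ _ => wt_nonneg η n)
  rw [le_div_iff₀ hη]
  nlinarith

lemma ee_conj (x : ℝ) : (starRingEnd ℂ) (ee x) = ee (-x) := by
  unfold ee
  rw [← exp_conj]
  congr 1
  simp only [map_mul, conj_ofReal, conj_I, map_ofNat, ofReal_neg]
  ring

lemma ee_add (x y : ℝ) : ee (x + y) = ee x * ee y := by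
  unfold ee
  rw [← exp_add]
  congr 1
  push_cast
  ring

lemma norm_ee (x : ℝ) : ‖ee x‖ = 1 := by
  unfold ee
  rw [show (2 * (Real.pi : ℂ) * I * x) = ((2 * Real.pi * x : ℝ) : ℂ) * I by push_cast; ring]
  exact norm_exp_ofReal_mul_I _

/-- the kernel -/
def G (κ η : ℝ) (M₀ M n n' : ℕ) : ℂ :=
  ∑ m ∈ Finset.Ioc M₀ M, ((wt η m : ℝ) : ℂ) * ee (m * ((n : ℝ) * κ - n' * κ))

lemma G_symm (κ η : ℝ) (M₀ M n n' : ℕ) : ‖G κ η M₀ M n n'‖ = ‖G κ η M₀ M n' n‖ := by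
  rw [← Complex.norm_conj (G κ η M₀ M n n')]
  congr 1
  unfold G
  rw [map_sum]
  refine Finset.sum_congr rfl fun m _ => ?_
  rw [map_mul, conj_ofReal, ee_conj]
  congr 2
  ring

lemma G_le (κ η : ℝ) (hη : 0 < η) (M₀ M n n' : ℕ) (hM : 1 ≤ M₀) :
    ‖G κ η M₀ M n n'‖ ≤ 1 / η := by
  unfold G
  refine (norm_sum_le _ _).trans ?_
  refine le_trans (le_of_eq (Finset.sum_congr rfl fun m _ => ?_))
    (sum_le η hη (Finset.Ioc M₀ M) fun m hm => ?_)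
  · rw [norm_mul, norm_ee, mul_one, Complex.norm_real, Real.norm_of_nonneg (wt_nonneg η m)]
  · have := (Finset.mem_Ioc.1 hm).1
    omega

/-- expansion of the square -/
lemma sq_expand (κ η : ℝ) (M₀ M : ℕ) (c : ℕ → ℂ) (A : Finset ℕ) :
    ∑ m ∈ Finset.Ioc M₀ M, wt η m *
      ‖∑ n ∈ A, c n * ((wt η n : ℝ) : ℂ) * ee ((n * m : ℕ) * κ)‖ ^ 2 ≤
    ∑ n ∈ A, ∑ n' ∈ A, ‖c n‖ * ‖c n'‖ * (wt η n * wt η n') * ‖G κ η M₀ M n n'‖ := by
  have h1 : ((∑ m ∈ Finset.Ioc M₀ M, wt η m *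
      ‖∑ n ∈ A, c n * ((wt η n : ℝ) : ℂ) * ee ((n * m : ℕ) * κ)‖ ^ 2 : ℝ) : ℂ) =
    ∑ n ∈ A, ∑ n' ∈ A, c n * (starRingEnd ℂ) (c n') * ((wt η n * wt η n' : ℝ) : ℂ) *
      G κ η M₀ M n n' := by
    rw [ofReal_sum]
    have h2 : ∀ m ∈ Finset.Ioc M₀ M, ((wt η m : ℝ) : ℂ) *
        ((‖∑ n ∈ A, c n * ((wt η n : ℝ) : ℂ) * ee ((n * m : ℕ) * κ)‖ : ℝ) : ℂ) ^ 2 =
        ∑ n ∈ A, ∑ n' ∈ A, c n * (starRingEnd ℂ) (c n') * ((wt η n * wt η n' : ℝ) : ℂ) *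
          (((wt η m : ℝ) : ℂ) * ee (m * ((n : ℝ) * κ - n' * κ))) := by
      intro m _
      rw [← Complex.mul_conj', map_sum, Finset.sum_mul_sum, Finset.mul_sum]
      refine Finset.sum_congr rfl fun n _ => ?_
      rw [Finset.mul_sum]
      refine Finset.sum_congr rfl fun n' _ => ?_
      rw [map_mul, map_mul, conj_ofReal, ee_conj]
      rw [show (m * ((n : ℝ) * κ - n' * κ) : ℝ) = ((n * m : ℕ) * κ) + (-((n' * m : ℕ) * κ)) by
        push_cast; ring, ee_add]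
      push_cast
      ring
    have h2' : ∀ m ∈ Finset.Ioc M₀ M, ((wt η m *
        ‖∑ n ∈ A, c n * ((wt η n : ℝ) : ℂ) * ee ((n * m : ℕ) * κ)‖ ^ 2 : ℝ) : ℂ) =
        ∑ n ∈ A, ∑ n' ∈ A, c n * (starRingEnd ℂ) (c n') * ((wt η n * wt η n' : ℝ) : ℂ) *
          (((wt η m : ℝ) : ℂ) * ee (m * ((n : ℝ) * κ - n' * κ))) := by
      intro m hm
      rw [← h2 m hm, ofReal_mul, ofReal_pow]
    rw [Finset.sum_congr rfl h2', Finset.sum_comm]
    refine Finset.sum_congr rfl fun n _ => ?_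
    rw [Finset.sum_comm]
    refine Finset.sum_congr rfl fun n' _ => ?_
    rw [← Finset.mul_sum]
    rfl
  have h3 : 0 ≤ ∑ m ∈ Finset.Ioc M₀ M, wt η m *
      ‖∑ n ∈ A, c n * ((wt η n : ℝ) : ℂ) * ee ((n * m : ℕ) * κ)‖ ^ 2 :=
    Finset.sum_nonneg fun m _ => mul_nonneg (wt_nonneg η m) (by positivity)
  rw [← Real.norm_of_nonneg h3, ← Complex.norm_real, h1]
  refine (norm_sum_le _ _).trans (Finset.sum_le_sum fun n _ => ?_)
  refine (norm_sum_le _ _).trans (Finset.sum_le_sum fun n' _ => ?_)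
  rw [norm_mul, norm_mul, norm_mul, Complex.norm_conj, Complex.norm_real,
    Real.norm_of_nonneg (mul_nonneg (wt_nonneg η n) (wt_nonneg η n'))]

/-- the inner sum -/
lemma inner_le (hGEO : T_GEO) (hSPC : T_SPC) (κ δ η : ℝ) (J P₀ M₀ M : ℕ) (hδ : 0 < δ) (hη : 0 < η)
    (hη1 : η ≤ 1) (hJ : 1 ≤ J) (hP : 1 ≤ P₀) (hM : 1 ≤ M₀)
    (hκ : ∀ j : ℕ, 1 ≤ j → j ≤ J → ∀ z : ℤ, 2 * δ ≤ |j * κ - z|) (A : Finset ℕ)
    (hA : ∀ n ∈ A, P₀ < n) (n : ℕ) :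
    ∑ n' ∈ A, wt η n' * ‖G κ η M₀ M n' n‖ ≤ BF η δ J P₀ M₀ := by
  classical
  have hM' : (0 : ℝ) < M₀ := by exact_mod_cast hM
  set near : ℕ → Prop := fun n' => ∃ z : ℤ, |(n' : ℝ) * κ - n * κ - z| < δ with hnear
  have h1 : ∀ n' ∈ A, wt η n' * ‖G κ η M₀ M n' n‖ ≤
      (if near n' then wt η n' else 0) * (1 / η) + wt η n' * (1 / (δ * M₀)) := by
    intro n' _
    have hw := wt_nonneg η n'
    have hp : 0 ≤ wt η n' * (1 / (δ * M₀)) := by positivity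
    by_cases hc : near n'
    · rw [if_pos hc]
      have := mul_le_mul_of_nonneg_left (G_le κ η hη M₀ M n' n hM) hw
      linarith
    · rw [if_neg hc, zero_mul, zero_add]
      refine mul_le_mul_of_nonneg_left ?_ hw
      refine hGEO ((n' : ℝ) * κ - n * κ) δ η M₀ M hδ hη hη1 hM fun z => ?_
      by_contra hlt
      exact hc ⟨z, not_le.1 hlt⟩
  refine (Finset.sum_le_sum h1).trans ?_
  rw [Finset.sum_add_distrib, ← Finset.sum_mul, ← Finset.sum_mul, ← Finset.sum_filter]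
  have h2 : ∑ n' ∈ A.filter near, wt η n' ≤ 1 / P₀ + 2 / (J * η) := by
    refine hSPC κ (n * κ) δ η J P₀ hδ hη hη1 hJ hP hκ _ fun n' hn' => ?_
    obtain ⟨h3, h4⟩ := Finset.mem_filter.1 hn'
    exact ⟨hA n' h3, h4⟩
  have h3 : ∑ n' ∈ A, wt η n' ≤ 1 / η := sum_le η hη A fun n' hn' => by
    have := hA n' hn'
    omega
  have hJ' : (0 : ℝ) < J := by exact_mod_cast hJ
  have hP' : (0 : ℝ) < P₀ := by exact_mod_cast hP
  have h4 := mul_le_mul_of_nonneg_right h2 (one_div_nonneg.2 hη.le)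
  have h5 := mul_le_mul_of_nonneg_right h3 (one_div_nonneg.2 (mul_pos hδ hM').le)
  have h6 : 0 ≤ (1 / P₀ + 2 / (J * η)) * (1 / η) := by positivity
  have h7 : 0 ≤ 1 / η * (1 / (δ * M₀)) := by positivity
  have h8 : BF η δ J P₀ M₀ = 2 * ((1 / P₀ + 2 / (J * η)) * (1 / η)) + 2 * (1 / η * (1 / (δ * M₀))) := by
    unfold BF
    field_simp
  rw [h8]
  linarith

end BIL

open BIL in
theorem p_BIL (hGEO : T_GEO) (hSPC : T_SPC) : T_BIL := by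
  intro κ δ η J P₀ M₀ M hδ hη hη1 hJ hP hM hκ c d A hA
  set s : ℕ → ℂ := fun m => ∑ n ∈ A, c n * ((wt η n : ℝ) : ℂ) * ee ((n * m : ℕ) * κ) with hs
  have h1 : ∑ n ∈ A, ∑ m ∈ Finset.Ioc M₀ M, c n * d m * ee ((n * m : ℕ) * κ) *
      ((wt η n * wt η m : ℝ) : ℂ) = ∑ m ∈ Finset.Ioc M₀ M, (d m * (Real.sqrt (wt η m) : ℂ)) *
        ((Real.sqrt (wt η m) : ℂ) * s m) := by
    rw [Finset.sum_comm]
    refine Finset.sum_congr rfl fun m _ => ?_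
    rw [hs]
    simp only []
    rw [Finset.mul_sum, Finset.mul_sum]
    refine Finset.sum_congr rfl fun n _ => ?_
    have h2 : ((wt η m : ℝ) : ℂ) = (Real.sqrt (wt η m) : ℂ) * (Real.sqrt (wt η m) : ℂ) := by
      rw [← ofReal_mul, Real.mul_self_sqrt (wt_nonneg η m)]
    push_cast
    rw [h2]
    ring
  have hCS : ‖∑ m ∈ Finset.Ioc M₀ M, (d m * (Real.sqrt (wt η m) : ℂ)) *
        ((Real.sqrt (wt η m) : ℂ) * s m)‖ ^ 2 ≤
      (∑ m ∈ Finset.Ioc M₀ M, ‖d m‖ ^ 2 * wt η m) *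
        (∑ m ∈ Finset.Ioc M₀ M, wt η m * ‖s m‖ ^ 2) := by
    have h2 : ‖∑ m ∈ Finset.Ioc M₀ M, (d m * (Real.sqrt (wt η m) : ℂ)) *
        ((Real.sqrt (wt η m) : ℂ) * s m)‖ ≤
        ∑ m ∈ Finset.Ioc M₀ M, (‖d m‖ * Real.sqrt (wt η m)) * (Real.sqrt (wt η m) * ‖s m‖) := by
      refine (norm_sum_le _ _).trans (le_of_eq (Finset.sum_congr rfl fun m _ => ?_))
      rw [norm_mul, norm_mul, norm_mul, Complex.norm_real, Real.norm_of_nonneg (Real.sqrt_nonneg _)]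
    have h3 := Finset.sum_mul_sq_le_sq_mul_sq (Finset.Ioc M₀ M)
      (fun m => ‖d m‖ * Real.sqrt (wt η m)) (fun m => Real.sqrt (wt η m) * ‖s m‖)
    refine (pow_le_pow_left₀ (norm_nonneg _) h2 2).trans (h3.trans (le_of_eq ?_))
    congr 1
    · refine Finset.sum_congr rfl fun m _ => ?_
      rw [mul_pow, Real.sq_sqrt (wt_nonneg η m)]
    · refine Finset.sum_congr rfl fun m _ => ?_
      rw [mul_pow, Real.sq_sqrt (wt_nonneg η m)]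
  rw [h1]
  refine hCS.trans ?_
  rw [mul_assoc]
  refine mul_le_mul_of_nonneg_left ?_
    (Finset.sum_nonneg fun m _ => mul_nonneg (by positivity) (wt_nonneg η m))
  refine (sq_expand κ η M₀ M c A).trans ?_
  -- symmetrise
  have h2 : ∑ n ∈ A, ∑ n' ∈ A, ‖c n‖ * ‖c n'‖ * (wt η n * wt η n') * ‖G κ η M₀ M n n'‖ ≤
      ∑ n ∈ A, ∑ n' ∈ A, (‖c n‖ ^ 2 / 2) * (wt η n * wt η n') * ‖G κ η M₀ M n n'‖ +
      ∑ n ∈ A, ∑ n' ∈ A, (‖c n'‖ ^ 2 / 2) * (wt η n * wt η n') * ‖G κ η M₀ M n n'‖ := by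
    rw [← Finset.sum_add_distrib]
    refine Finset.sum_le_sum fun n _ => ?_
    rw [← Finset.sum_add_distrib]
    refine Finset.sum_le_sum fun n' _ => ?_
    rw [← add_mul, ← add_mul]
    refine mul_le_mul_of_nonneg_right ?_ (norm_nonneg _)
    refine mul_le_mul_of_nonneg_right ?_ (mul_nonneg (wt_nonneg η n) (wt_nonneg η n'))
    nlinarith [sq_nonneg (‖c n‖ - ‖c n'‖)]
  have h3 : ∑ n ∈ A, ∑ n' ∈ A, (‖c n'‖ ^ 2 / 2) * (wt η n * wt η n') * ‖G κ η M₀ M n n'‖ =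
      ∑ n ∈ A, ∑ n' ∈ A, (‖c n‖ ^ 2 / 2) * (wt η n * wt η n') * ‖G κ η M₀ M n n'‖ := by
    rw [Finset.sum_comm]
    refine Finset.sum_congr rfl fun n _ => Finset.sum_congr rfl fun n' _ => ?_
    rw [G_symm κ η M₀ M n' n, mul_comm (wt η n')]
  rw [h3, ← Finset.sum_add_distrib] at h2
  refine h2.trans ?_
  rw [Finset.sum_mul]
  refine Finset.sum_le_sum fun n _ => ?_
  have h4 := inner_le hGEO hSPC κ δ η J P₀ M₀ M hδ hη hη1 hJ hP hM hκ A hA n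
  have h5 : ∑ n' ∈ A, (‖c n‖ ^ 2 / 2) * (wt η n * wt η n') * ‖G κ η M₀ M n n'‖ +
      ∑ n' ∈ A, (‖c n‖ ^ 2 / 2) * (wt η n * wt η n') * ‖G κ η M₀ M n n'‖ =
      (‖c n‖ ^ 2 * wt η n) * ∑ n' ∈ A, wt η n' * ‖G κ η M₀ M n' n‖ := by
    rw [← Finset.sum_add_distrib, Finset.mul_sum]
    refine Finset.sum_congr rfl fun n' _ => ?_
    rw [G_symm κ η M₀ M n' n]
    ring
  rw [h5]
  exact mul_le_mul_of_nonneg_left h4 (mul_nonneg (by positivity) (wt_nonneg η n))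

end

end Pool.Agent.SelDeg2
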