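import Pool.Agent.SelDeg2.TargetsB

/-!
# B-DIO: Diophantine gaps of an irrational number
-/

namespace Pool.Agent.SelDeg2

namespace DIO_

theorem exists_large (κ : ℝ) (hκ : Irrational κ) (D : ℕ) :
    ∃ q : ℚ, |κ - q| < 1 / (q.den : ℝ) ^ 2 ∧ D < q.den := by
  by_contra hcon
  push Not at hcon
  have hinf := Real.infinite_rat_abs_sub_lt_one_div_den_sq_of_irrational hκ
  apply hinf
  obtain ⟨M, hM⟩ := exists_nat_ge (D * (|κ| + 1))
  have hsub : {q : ℚ | |κ - q| < 1 / (q.den : ℝ) ^ 2} ⊆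
      (fun p : ℤ × ℕ => (p.1 / p.2 : ℚ)) '' ((Set.Icc (-(M : ℤ)) M) ×ˢ (Set.Icc 0 D)) := by
    intro q hq
    have hq1 : |κ - q| < 1 / (q.den : ℝ) ^ 2 := hq
    have hD : q.den ≤ D := hcon q hq1
    refine ⟨(q.num, q.den), ⟨?_, ⟨Nat.zero_le _, hD⟩⟩, ?_⟩
    · have hd1 : (1 : ℝ) ≤ (q.den : ℝ) := by exact_mod_cast q.den_pos
      have hle1 : 1 / (q.den : ℝ) ^ 2 ≤ 1 := by
        rw [div_le_one (by positivity)]
        nlinarith
      have hqabs : |(q : ℝ)| ≤ |κ| + 1 := by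
        have h1 : |(q : ℝ)| ≤ |κ| + |κ - q| := by
          have h2 : (q : ℝ) = κ - (κ - q) := by ring
          calc |(q : ℝ)| = |κ - (κ - q)| := by rw [← h2]
            _ ≤ |κ| + |κ - q| := abs_sub _ _
        linarith
      have hnum : |(q.num : ℝ)| ≤ (M : ℝ) := by
        have h3 : (q.num : ℝ) = (q : ℝ) * q.den := by
          have h4 := Rat.mul_den_eq_num q
          have h5 : ((q * q.den : ℚ) : ℝ) = ((q.num : ℚ) : ℝ) := by rw [h4]
          push_cast at h5
          exact h5.symm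
        rw [h3, abs_mul, abs_of_nonneg (by positivity : (0 : ℝ) ≤ (q.den : ℝ))]
        have hDr : (q.den : ℝ) ≤ D := by exact_mod_cast hD
        calc |(q : ℝ)| * q.den ≤ (|κ| + 1) * D := by
              apply mul_le_mul hqabs hDr (by positivity) (by positivity)
          _ = D * (|κ| + 1) := by ring
          _ ≤ M := hM
      have h6 := abs_le.1 hnum
      constructor
      · have : (-(M : ℝ)) ≤ q.num := h6.1
        exact_mod_cast this
      · have : (q.num : ℝ) ≤ M := h6.2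
        exact_mod_cast this
    · simp only
      exact Rat.num_div_den q
  exact ((Set.finite_Icc _ _).prod (Set.finite_Icc _ _)).image _ |>.subset hsub

theorem gap (κ : ℝ) (q : ℚ) (hq : |κ - q| < 1 / (q.den : ℝ) ^ 2) (j : ℕ) (hj : 1 ≤ j)
    (hj2 : 2 * j ≤ q.den) (hr : 1 < q.den) (z : ℤ) :
    1 / (2 * (q.den : ℝ)) ≤ |j * κ - z| := by
  have hd0 : (0 : ℝ) < (q.den : ℝ) := by exact_mod_cast q.den_pos
  have hj0 : (0 : ℝ) ≤ (j : ℝ) := Nat.cast_nonneg j
  -- integer j * num - z * den is nonzero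
  have hne : (j : ℤ) * q.num - z * q.den ≠ 0 := by
    intro h0
    have h1 : (q.den : ℤ) ∣ (j : ℤ) * q.num := ⟨z, by linarith⟩
    have hcop : IsCoprime (q.den : ℤ) q.num := by
      have h2 : Nat.Coprime q.num.natAbs q.den := q.reduced
      rw [Int.isCoprime_iff_gcd_eq_one]
      have h3 : Int.gcd (q.den : ℤ) q.num = Nat.gcd q.den q.num.natAbs := by
        simp [Int.gcd]
      rw [h3]
      exact h2.symm
    have h4 : (q.den : ℤ) ∣ (j : ℤ) := hcop.dvd_of_dvd_mul_right h1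
    have h5 : q.den ∣ j := by exact_mod_cast h4
    have h6 := Nat.le_of_dvd (by omega) h5
    omega
  have h1 : (1 : ℝ) ≤ |((j : ℤ) * q.num - z * q.den : ℤ)| := by
    exact_mod_cast Int.one_le_abs hne
  have hqn : (q : ℝ) * q.den = q.num := by
    have h4 := Rat.mul_den_eq_num q
    have h5 : ((q * q.den : ℚ) : ℝ) = ((q.num : ℚ) : ℝ) := by rw [h4]
    push_cast at h5
    exact h5
  have h2 : (1 : ℝ) / q.den ≤ |j * (q : ℝ) - z| := by
    rw [div_le_iff₀ hd0]
    have h3 : |j * (q : ℝ) - z| * q.den = |(j * (q : ℝ) - z) * q.den| := by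
      rw [abs_mul, abs_of_pos hd0]
    have h4 : (j * (q : ℝ) - z) * q.den = (((j : ℤ) * q.num - z * q.den : ℤ) : ℝ) := by
      push_cast
      rw [← hqn]
      ring
    rw [h3, h4]
    exact_mod_cast h1
  have h3 : |j * (κ - q)| ≤ 1 / (2 * (q.den : ℝ)) := by
    rw [abs_mul, abs_of_nonneg hj0]
    have hj3 : (j : ℝ) ≤ q.den / 2 := by
      have : ((2 * j : ℕ) : ℝ) ≤ (q.den : ℝ) := by exact_mod_cast hj2
      push_cast at this
      linarith
    calc (j : ℝ) * |κ - q| ≤ (q.den / 2) * (1 / (q.den : ℝ) ^ 2) :=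
          mul_le_mul hj3 hq.le (abs_nonneg _) (by positivity)
      _ = 1 / (2 * (q.den : ℝ)) := by
          field_simp
  have h4 : |j * (q : ℝ) - z| ≤ |j * κ - z| + |j * (κ - q)| := by
    have h5 : j * (q : ℝ) - z = (j * κ - z) - j * (κ - q) := by ring
    rw [h5]
    exact abs_sub _ _
  have h5 : (1 : ℝ) / q.den = 1 / (2 * (q.den : ℝ)) + 1 / (2 * (q.den : ℝ)) := by
    field_simp
    norm_num
  linarith

end DIO_

theorem p_DIO : T_DIO := by
  intro κ hκ N
  obtain ⟨q, hq, hD⟩ := DIO_.exists_large κ hκ (2 * N + 3)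
  refine ⟨q.den / 2, by omega, by omega, fun j hj hjJ z => ?_⟩
  have h1 := DIO_.gap κ q hq j hj (by omega) (by omega) z
  refine le_trans ?_ h1
  have h2 : (q.den : ℝ) ≤ 2 * ((q.den / 2 : ℕ) : ℝ) + 1 := by
    have h3 : q.den ≤ 2 * (q.den / 2) + 1 := by omega
    exact_mod_cast h3
  have hd0 : (0 : ℝ) < (q.den : ℝ) := by exact_mod_cast q.den_pos
  apply one_div_le_one_div_of_le (by positivity)
  linarith

end Pool.Agent.SelDeg2
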