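import Pool.Agent.SelDeg2.TargetsB
import Pool.Agent.SelDeg2.REL

/-! The modular relation in terms of Dirichlet series (DREL1, DREL). -/

namespace Pool.Agent.SelDeg2

open Complex Filter Topology MeasureTheory
open Pool.Agent.SelPole Pool.Agent.SelTwo

noncomputable section

namespace DREL_

theorem ee_conj (x : ℝ) : (starRingEnd ℂ) (ee x) = ee (-x) := by
  unfold ee
  rw [← Complex.exp_conj]
  congr 1
  simp only [map_mul, conj_I, conj_ofReal, map_ofNat]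
  push_cast
  ring

theorem norm_cpow_I (n : ℕ) (hn : n ≠ 0) (θ : ℝ) : ‖(n : ℂ) ^ (-((θ : ℂ) * I))‖ = 1 := by
  have h : (0 : ℝ) < n := by exact_mod_cast Nat.pos_of_ne_zero hn
  rw [← Complex.ofReal_natCast, Complex.norm_cpow_eq_rpow_re_of_pos h]
  simp

theorem tw_cj_summable {a : ℕ → ℂ} (θ : ℝ) (h : ∀ s : ℂ, 1 < s.re → LSeriesSummable a s) :
    ∀ s : ℂ, 1 < s.re → LSeriesSummable (tw θ (cj a)) s := by
  intro s hs
  have h1 := h s hs
  rw [LSeriesSummable, ← summable_norm_iff] at h1 ⊢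
  refine h1.congr fun n => ?_
  rw [LSeries.norm_term_eq, LSeries.norm_term_eq]
  by_cases hn : n = 0
  · simp [hn]
  · rw [if_neg hn, if_neg hn, tw, norm_mul, norm_cpow_I n hn, mul_one]
    simp [cj]

theorem conj_natCast_cpow (n : ℕ) (s : ℂ) :
    (starRingEnd ℂ) ((n : ℂ) ^ s) = (n : ℂ) ^ ((starRingEnd ℂ) s) := by
  have hpi : arg (n : ℂ) ≠ Real.pi := by
    rw [Complex.natCast_arg]
    exact Real.pi_pos.ne
  have h := Complex.conj_cpow (n : ℂ) ((starRingEnd ℂ) s) hpi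
  rw [Complex.conj_conj, Complex.conj_natCast] at h
  exact h.symm

theorem SS_tw (a : ℕ → ℂ) (θ β η : ℝ) :
    SS (tw θ (cj a)) (-β) η = (starRingEnd ℂ) (SS (gth θ a) β η) := by
  unfold SS LSeries
  rw [Complex.conj_tsum]
  refine tsum_congr fun n => ?_
  rcases Nat.eq_zero_or_pos n with rfl | hn
  · simp
  · have hn' : n ≠ 0 := hn.ne'
    rw [LSeries.term_of_ne_zero hn', LSeries.term_of_ne_zero hn', map_div₀]
    have e1 : (starRingEnd ℂ) ((n : ℂ) ^ (1 + (η : ℂ))) = (n : ℂ) ^ (1 + (η : ℂ)) := by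
      rw [conj_natCast_cpow]
      simp
    have e2 : (starRingEnd ℂ) ((n : ℂ) ^ ((θ : ℂ) * I)) = (n : ℂ) ^ (-((θ : ℂ) * I)) := by
      rw [conj_natCast_cpow]
      simp
    rw [e1]
    congr 1
    simp only [tw, cj, gth, map_mul, e2, ee_conj]
    rw [mul_neg]

theorem gamma_low : ∃ m : ℝ, 0 < m ∧ ∀ η : ℝ, 0 ≤ η → η ≤ 1 → m ≤ Real.Gamma (1 + η) := by
  have hc : ContinuousOn (fun η : ℝ => Real.Gamma (1 + η)) (Set.Icc 0 1) := by
    intro η hη
    have h1 : DifferentiableAt ℝ Real.Gamma (1 + η) := by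
      refine Real.differentiableAt_Gamma fun m => ?_
      have : (0 : ℝ) ≤ m := Nat.cast_nonneg m
      have := hη.1
      linarith
    exact (ContinuousAt.comp (f := fun η : ℝ => 1 + η) h1.continuousAt
      (by fun_prop)).continuousWithinAt
  obtain ⟨x, hx, hx2⟩ := isCompact_Icc.exists_isMinOn (Set.nonempty_Icc.2 zero_le_one) hc
  refine ⟨Real.Gamma (1 + x), Real.Gamma_pos_of_pos (by have := hx.1; linarith), ?_⟩
  intro η h0 h1
  exact hx2 ⟨h0, h1⟩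

theorem rcpow_mul {r : ℝ} (hr : 0 < r) {z : ℂ} (hz : z ≠ 0) (w : ℂ) :
    ((r : ℂ) * z) ^ w = (r : ℂ) ^ w * z ^ w := by
  have hr0 : (r : ℂ) ≠ 0 := by exact_mod_cast hr.ne'
  rw [Complex.cpow_def_of_ne_zero (mul_ne_zero hr0 hz), Complex.cpow_def_of_ne_zero hr0,
    Complex.cpow_def_of_ne_zero hz, Complex.log_ofReal_mul hr hz, ← Complex.exp_add,
    Complex.ofReal_log hr.le]
  congr 1
  ring

theorem const_eq (A : ℂ) {q α : ℝ} (θ η : ℝ) (hq : 0 < q) (hα : 0 < α) :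
    A / (-(2 * Real.pi * I * α)) * (2 * Real.pi * I / (q * α)) ^ (-((θ : ℂ) * I)) *
      (((q * α ^ 2) ^ (1 + η) : ℝ) : ℂ) =
    (q * A / (-(2 * Real.pi * I)) * (2 * Real.pi * I / q) ^ (-((θ : ℂ) * I))) *
      (α : ℂ) ^ (1 + (θ : ℂ) * I) * (((q * α ^ 2) ^ η : ℝ) : ℂ) := by
  have hα0 : (α : ℂ) ≠ 0 := by exact_mod_cast hα.ne'
  have hq0 : (q : ℂ) ≠ 0 := by exact_mod_cast hq.ne'
  have hpi : (Real.pi : ℂ) ≠ 0 := by exact_mod_cast Real.pi_ne_zero
  have e1 : (2 * Real.pi * I / (q * α) : ℂ) ^ (-((θ : ℂ) * I)) =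
      (2 * Real.pi * I / q) ^ (-((θ : ℂ) * I)) * (α : ℂ) ^ ((θ : ℂ) * I) := by
    have h1 : (2 * Real.pi * I / (q * α) : ℂ) = ((α⁻¹ : ℝ) : ℂ) * (2 * Real.pi * I / q) := by
      push_cast
      field_simp
    have h2 : (2 * Real.pi * I / q : ℂ) ≠ 0 :=
      div_ne_zero (mul_ne_zero (mul_ne_zero two_ne_zero hpi) I_ne_zero) hq0
    have h3 : ((α⁻¹ : ℝ) : ℂ) ^ (-((θ : ℂ) * I)) = (α : ℂ) ^ ((θ : ℂ) * I) := by
      have harg : (α : ℂ).arg ≠ Real.pi := by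
        rw [Complex.arg_ofReal_of_nonneg hα.le]
        exact Real.pi_pos.ne
      rw [Complex.ofReal_inv, Complex.inv_cpow _ _ harg, Complex.cpow_neg, inv_inv]
    rw [h1, rcpow_mul (by positivity) h2, h3, mul_comm]
  have e2 : (((q * α ^ 2) ^ (1 + η) : ℝ) : ℂ) =
      (q * α ^ 2) * (((q * α ^ 2) ^ η : ℝ) : ℂ) := by
    rw [Real.rpow_add (by positivity), Real.rpow_one]
    push_cast
    ring
  rw [e1, e2, Complex.cpow_add _ _ hα0, Complex.cpow_one]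
  field_simp

end DREL_

open DREL_ in
theorem p_DREL1 (hMEL : T_MEL) (hPT : T_PT) : T_DREL1 := by
  intro a A₁ A q θ α C ha hs hq hα hrel
  obtain ⟨C', hC'⟩ := hPT a A₁ A q θ α C ha hq hα hrel
  set c : ℕ → ℂ := tw θ (cj a) with hc
  have hcs := tw_cj_summable θ hs
  set β : ℝ := q * α ^ 2 with hβ
  have hβ0 : 0 < β := by positivity
  obtain ⟨K1, hK1⟩ := hMEL a α 1 hs one_pos
  obtain ⟨K2, hK2⟩ := hMEL c (-1 / (q * α)) (1 / β) hcs (by positivity)
  obtain ⟨m, hm0, hm⟩ := gamma_low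
  set B0 : ℂ := A / (-(2 * Real.pi * I * α)) *
      (2 * Real.pi * I / (q * α)) ^ (-((θ : ℂ) * I)) with hB0
  set βm : ℝ := max (β ^ (2 : ℝ)) (β ^ (1 : ℝ)) with hβm
  refine ⟨(K1 + ‖B0‖ * βm * K2 + |C'| * 4) / (m / (2 * Real.pi) ^ 2), ?_⟩
  intro η hη hη1
  obtain ⟨hI1, hJ1⟩ := hK1 η hη hη1
  obtain ⟨hI2, hJ2⟩ := hK2 η hη hη1
  set G : ℝ := (2 * Real.pi) ^ (-1 - η) * Real.Gamma (1 + η) with hG
  have hΓ := hm η hη.le hη1
  have hGlow : m / (2 * Real.pi) ^ 2 ≤ G := by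
    have h1 : ((2 * Real.pi) ^ 2)⁻¹ ≤ (2 * Real.pi) ^ (-1 - η) := by
      have h2 : ((2 * Real.pi) ^ 2)⁻¹ = (2 * Real.pi) ^ (-2 : ℝ) := by
        rw [Real.rpow_neg (by positivity)]
        norm_num
      rw [h2]
      refine Real.rpow_le_rpow_of_exponent_le ?_ (by linarith)
      linarith [Real.pi_gt_three]
    rw [hG, div_eq_mul_inv, mul_comm]
    exact mul_le_mul h1 hΓ hm0.le (by positivity)
  have hG0 : 0 < G := lt_of_lt_of_le (by positivity) hGlow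
  -- substitution
  set f : ℝ → ℂ := fun u => lam c (pX (-1 / (q * α)) u) with hf
  have hsub : ∫ y in Set.Ioc (0 : ℝ) 1, f (y / β) * ((y ^ η : ℝ) : ℂ) =
      ((β ^ (1 + η) : ℝ) : ℂ) * ∫ u in Set.Ioc (0 : ℝ) (1 / β), f u * ((u ^ η : ℝ) : ℂ) := by
    have h1 : ∫ y in Set.Ioc (0 : ℝ) 1, f (y / β) * ((y ^ η : ℝ) : ℂ) =
        ∫ y in Set.Ioc (0 : ℝ) 1, (fun u : ℝ => ((β ^ η : ℝ) : ℂ) * (f u * ((u ^ η : ℝ) : ℂ)))
          (y / β) := by
      refine setIntegral_congr_fun measurableSet_Ioc fun y hy => ?_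
      simp only
      have h2 : y ^ η = β ^ η * (y / β) ^ η := by
        rw [← Real.mul_rpow hβ0.le (div_nonneg hy.1.le hβ0.le), mul_div_cancel₀ _ hβ0.ne']
      rw [h2]
      push_cast
      ring
    have h3 := intervalIntegral.integral_comp_div (a := 0) (b := 1)
      (fun u : ℝ => ((β ^ η : ℝ) : ℂ) * (f u * ((u ^ η : ℝ) : ℂ))) hβ0.ne'
    rw [zero_div] at h3
    rw [h1, ← intervalIntegral.integral_of_le zero_le_one, h3,
      intervalIntegral.integral_of_le (by positivity), integral_const_mul, Real.rpow_add hβ0,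
      Real.rpow_one, Complex.real_smul]
    push_cast
    ring
  have hI3 : IntegrableOn (fun y : ℝ => f (y / β) * ((y ^ η : ℝ) : ℂ)) (Set.Ioc 0 1) := by
    have h1 : IntervalIntegrable (fun u : ℝ => f u * ((u ^ η : ℝ) : ℂ)) volume 0 (1 / β) :=
      (intervalIntegrable_iff_integrableOn_Ioc_of_le (by positivity)).2 hI2
    have h2 : IntervalIntegrable (fun y : ℝ => (fun u : ℝ => f u * ((u ^ η : ℝ) : ℂ)) (y / β))
        volume 0 1 := by
      have h3 := h1.comp_mul_left (c := β⁻¹)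
      have e0 : (0 : ℝ) / β⁻¹ = 0 := zero_div _
      have e1 : (1 / β) / β⁻¹ = 1 := by field_simp
      rw [e0, e1] at h3
      refine h3.congr (fun y _ => ?_)
      simp only
      rw [div_eq_inv_mul]
    have h4 := (intervalIntegrable_iff_integrableOn_Ioc_of_le zero_le_one).1
      (h2.const_mul ((β ^ η : ℝ) : ℂ))
    refine h4.congr_fun (fun y hy => ?_) measurableSet_Ioc
    simp only
    have h5 : y ^ η = β ^ η * (y / β) ^ η := by
      rw [← Real.mul_rpow hβ0.le (div_nonneg hy.1.le hβ0.le), mul_div_cancel₀ _ hβ0.ne']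
    rw [h5]
    push_cast
    ring
  -- integrated relation
  have hrel2 : ‖(∫ y in Set.Ioc (0 : ℝ) 1, lam a (pX α y) * ((y ^ η : ℝ) : ℂ)) -
      B0 * ∫ y in Set.Ioc (0 : ℝ) 1, f (y / β) * ((y ^ η : ℝ) : ℂ)‖ ≤ |C'| * 4 := by
    rw [← integral_const_mul, ← integral_sub hI1 (hI3.const_mul B0)]
    have h34 : IntegrableOn (fun y : ℝ => |C'| * y ^ (-(3 / 4) : ℝ)) (Set.Ioc 0 1) := by
      refine Integrable.const_mul ?_ _
      exact (intervalIntegrable_iff_integrableOn_Ioc_of_le zero_le_one).1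
        (intervalIntegral.intervalIntegrable_rpow' (by norm_num))
    have hval : ∫ y in Set.Ioc (0 : ℝ) 1, |C'| * y ^ (-(3 / 4) : ℝ) = |C'| * 4 := by
      rw [integral_const_mul, ← intervalIntegral.integral_of_le zero_le_one,
        integral_rpow (Or.inl (by norm_num))]
      norm_num
    rw [← hval]
    refine norm_integral_le_of_norm_le h34 ?_
    filter_upwards [ae_restrict_mem measurableSet_Ioc] with y hy
    have h1 := hC' y hy.1 hy.2
    have h2 : lam a (pX α y) * ((y ^ η : ℝ) : ℂ) - B0 * (f (y / β) * ((y ^ η : ℝ) : ℂ)) =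
        (lam a (pX α y) - B0 * f (y / β)) * ((y ^ η : ℝ) : ℂ) := by ring
    rw [h2, norm_mul, Complex.norm_real, Real.norm_of_nonneg (Real.rpow_nonneg hy.1.le _)]
    have h3 : y ^ η ≤ 1 := Real.rpow_le_one hy.1.le hy.2 hη.le
    have h4 : ‖lam a (pX α y) - B0 * f (y / β)‖ ≤ |C'| * y ^ (-(3 / 4) : ℝ) :=
      h1.trans (mul_le_mul_of_nonneg_right (le_abs_self _) (Real.rpow_nonneg hy.1.le _))
    calc ‖lam a (pX α y) - B0 * f (y / β)‖ * y ^ η ≤ (|C'| * y ^ (-(3 / 4) : ℝ)) * 1 :=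
          mul_le_mul h4 h3 (Real.rpow_nonneg hy.1.le _)
            (mul_nonneg (abs_nonneg _) (Real.rpow_nonneg hy.1.le _))
      _ = _ := mul_one _
  rw [hsub] at hrel2
  set S1 := SS a α η
  set S2 := SS c (-1 / (q * α)) η
  set J1 := ∫ y in Set.Ioc (0 : ℝ) 1, lam a (pX α y) * ((y ^ η : ℝ) : ℂ)
  set J2 := ∫ u in Set.Ioc (0 : ℝ) (1 / β), f u * ((u ^ η : ℝ) : ℂ)
  set bb : ℂ := ((β ^ (1 + η) : ℝ) : ℂ) with hbb
  have hbbn : ‖bb‖ ≤ βm := by
    rw [hbb, Complex.norm_real, Real.norm_of_nonneg (by positivity), hβm]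
    rcases le_total 1 β with h | h
    · exact (Real.rpow_le_rpow_of_exponent_le h (by linarith)).trans (le_max_left _ _)
    · exact (Real.rpow_le_rpow_of_exponent_ge hβ0 h (by linarith)).trans (le_max_right _ _)
  have hK20 : 0 ≤ K2 := (norm_nonneg _).trans hJ2
  have hmain : ‖(G : ℂ) * (S1 - B0 * bb * S2)‖ ≤ K1 + ‖B0‖ * βm * K2 + |C'| * 4 := by
    have e : (G : ℂ) * (S1 - B0 * bb * S2) = (G * S1 - J1) + (J1 - B0 * (bb * J2)) +
        B0 * bb * (J2 - G * S2) := by ring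
    rw [e]
    refine (norm_add_le _ _).trans ?_
    refine (add_le_add_left (norm_add_le _ _) _).trans ?_
    have h1 : ‖(G : ℂ) * S1 - J1‖ ≤ K1 := by rw [norm_sub_rev]; exact hJ1
    have h2 : ‖B0 * bb * (J2 - G * S2)‖ ≤ ‖B0‖ * βm * K2 := by
      rw [norm_mul, norm_mul]
      gcongr
    linarith
  have hS2 : S2 = (starRingEnd ℂ) (SS (gth θ a) (1 / (q * α)) η) := by
    rw [← SS_tw, ← neg_div]
  have hfin : S1 - (q * A / (-(2 * Real.pi * I)) * (2 * Real.pi * I / q) ^ (-((θ : ℂ) * I))) *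
      (α : ℂ) ^ (1 + (θ : ℂ) * I) * (((q * α ^ 2) ^ η : ℝ) : ℂ) *
      (starRingEnd ℂ) (SS (gth θ a) (1 / (q * α)) η) = S1 - B0 * bb * S2 := by
    rw [← hS2, ← const_eq A θ η hq hα]
  rw [hfin, le_div_iff₀ (by positivity)]
  rw [norm_mul, Complex.norm_real, Real.norm_of_nonneg hG0.le] at hmain
  calc ‖S1 - B0 * bb * S2‖ * (m / (2 * Real.pi) ^ 2) ≤ ‖S1 - B0 * bb * S2‖ * G := by gcongr
    _ = G * ‖S1 - B0 * bb * S2‖ := mul_comm _ _
    _ ≤ _ := hmain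

theorem p_DREL (hREL : T_REL) (h1 : T_DREL1) : T_DREL := by
  intro F a b Q k l m w hS hFE hl
  obtain ⟨M, g, hg, hgo, hgF⟩ := hS.continuation
  obtain ⟨A, q, hA, hq, hrel⟩ := hREL F M a Q k l m w hS.summable hS.eq_series
    ⟨g, hg, hgo, hgF⟩ hFE hl
  obtain ⟨A₁, hA₁⟩ := hS.ramanujan (1 / 2) (by norm_num)
  set θ : ℝ := 2 * ∑ j, (m j).im with hθ
  have hpi : (Real.pi : ℂ) ≠ 0 := by exact_mod_cast Real.pi_ne_zero
  have hq0 : (q : ℂ) ≠ 0 := by exact_mod_cast hq.ne'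
  refine ⟨q * A / (-(2 * Real.pi * I)) * (2 * Real.pi * I / q) ^ (-((θ : ℂ) * I)), 1 / q,
    ?_, by positivity, ?_⟩
  · refine mul_ne_zero (div_ne_zero (mul_ne_zero hq0 hA) (neg_ne_zero.2
      (mul_ne_zero (mul_ne_zero two_ne_zero hpi) I_ne_zero))) ?_
    have h2 : (2 * Real.pi * I / q : ℂ) ≠ 0 :=
      div_ne_zero (mul_ne_zero (mul_ne_zero two_ne_zero hpi) I_ne_zero) hq0
    rw [Complex.cpow_def_of_ne_zero h2]
    exact Complex.exp_ne_zero _
  · intro α hα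
    obtain ⟨C, hC⟩ := hrel α hα
    obtain ⟨C', hC'⟩ := h1 a A₁ A q θ α C hA₁ hS.summable hq hα hC
    refine ⟨C', fun η hη hη1 => ?_⟩
    have h3 := hC' η hη hη1
    have e1 : α ^ 2 / (1 / q) = q * α ^ 2 := by field_simp
    have e2 : 1 / q / α = 1 / (q * α) := by field_simp
    rw [e1, e2]
    exact h3

end

end Pool.Agent.SelDeg2
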