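import Pool.Agent.SelDeg2.TargetsB

/-! B-DVP (MP_995735_nt): sums over multiples of a prime and of its square. -/

set_option autoImplicit false

namespace Pool.Agent.SelDeg2

open Complex Filter Topology MeasureTheory
open Pool.Agent.SelPole Pool.Agent.SelTwo

noncomputable section

namespace DVP_

lemma wt_nonneg (η : ℝ) (n : ℕ) : 0 ≤ wt η n := Real.rpow_nonneg (Nat.cast_nonneg n) _

lemma wt_zero {η : ℝ} (hη : 0 < η) : wt η 0 = 0 := by
  unfold wt
  rw [Nat.cast_zero, Real.zero_rpow (by linarith)]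

lemma wt_mul (η : ℝ) (m n : ℕ) : wt η (m * n) = wt η m * wt η n := by
  unfold wt
  push_cast
  rw [Real.mul_rpow (Nat.cast_nonneg m) (Nat.cast_nonneg n)]

lemma summ {g : ℕ → ℂ} (hg : MD g) {η : ℝ} (hη : 0 < η) :
    Summable (fun n : ℕ => ‖g n‖ * wt η n) := by
  obtain ⟨C, hC⟩ := hg.small (η / 2) (by linarith)
  have hs : Summable (fun n : ℕ => C * (n : ℝ) ^ (-1 - η / 2)) :=
    (Real.summable_nat_rpow.mpr (by linarith)).mul_left C
  refine Summable.of_nonneg_of_le (fun n => mul_nonneg (norm_nonneg _) (wt_nonneg η n)) ?_ hs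
  intro n
  rcases Nat.eq_zero_or_pos n with rfl | hn
  · rw [wt_zero hη, mul_zero, Nat.cast_zero, Real.zero_rpow (by linarith), mul_zero]
  · have hn0 : (0 : ℝ) < n := by exact_mod_cast hn
    calc ‖g n‖ * wt η n ≤ C * (n : ℝ) ^ (η / 2) * wt η n :=
          mul_le_mul_of_nonneg_right (hC n hn) (wt_nonneg η n)
      _ = C * (n : ℝ) ^ (-1 - η / 2) := by
          unfold wt
          rw [mul_assoc, ← Real.rpow_add hn0]
          congr 2
          ring

lemma geom {r : ℝ} (hr0 : 0 < r) (hr' : r < 1) (i : ℕ) (K : Finset ℕ) (hK : ∀ k ∈ K, i ≤ k) :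
    ∑ k ∈ K, r ^ k ≤ r ^ i * (1 - r)⁻¹ := by
  classical
  have h1 : ∑ k ∈ K, r ^ k = r ^ i * ∑ j ∈ K.image (fun k => k - i), r ^ j := by
    rw [Finset.sum_image, Finset.mul_sum]
    · apply Finset.sum_congr rfl
      intro k hk
      rw [← pow_add, Nat.add_sub_cancel' (hK k hk)]
    · intro a ha b hb hab
      have h2 := hK a ha
      have h3 := hK b hb
      simp only at hab
      omega
  rw [h1]
  apply mul_le_mul_of_nonneg_left _ (by positivity)
  rw [← tsum_geometric_of_lt_one hr0.le hr']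
  exact (summable_geometric_of_lt_one hr0.le hr').sum_le_tsum _
    (fun j _ => by positivity)

/-- sums over the multiples of `p ^ i` -/
lemma main {g : ℕ → ℂ} (hg : MD g) {C : ℝ}
    (hC : ∀ n : ℕ, 1 ≤ n → ‖g n‖ ≤ C * (n : ℝ) ^ (1 / 4 : ℝ)) {p : ℕ} {η : ℝ} (hp : p.Prime)
    (hη : 0 < η) (i : ℕ) :
    ∑' n : ℕ, (if p ^ i ∣ n then ‖g n‖ * wt η n else 0) ≤
      4 * C * ((p : ℝ) ^ (-(3 / 4) : ℝ)) ^ i * ∑' n : ℕ, ‖g n‖ * wt η n := by
  classical
  set f : ℕ → ℝ := fun n => ‖g n‖ * wt η n with hf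
  have hf0 : ∀ n, 0 ≤ f n := fun n => mul_nonneg (norm_nonneg _) (wt_nonneg η n)
  have hfz : f 0 = 0 := by simp only [hf, wt_zero hη, mul_zero]
  have hsf : Summable f := summ hg hη
  have hp0 : (0 : ℝ) < p := by exact_mod_cast hp.pos
  have hp2 : (2 : ℝ) ≤ p := by exact_mod_cast hp.two_le
  set r : ℝ := (p : ℝ) ^ (-(3 / 4) : ℝ) with hr
  have hr0 : 0 < r := Real.rpow_pos_of_pos hp0 _
  have hr1 : r ≤ 3 / 4 := by
    have h1 : r ≤ (2 : ℝ) ^ (-(3 / 4) : ℝ) :=
      Real.rpow_le_rpow_of_nonpos (by norm_num) hp2 (by norm_num)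
    have h2 : (2 : ℝ) ^ (-(3 / 4) : ℝ) ≤ (2 : ℝ) ^ (-(1 / 2) : ℝ) :=
      Real.rpow_le_rpow_of_exponent_le (by norm_num) (by norm_num)
    have h3 : (2 : ℝ) ^ (-(1 / 2) : ℝ) ≤ 3 / 4 := by
      rw [Real.rpow_neg (by norm_num), ← Real.sqrt_eq_rpow]
      have h4 : (4 / 3 : ℝ) ≤ Real.sqrt 2 := Real.le_sqrt_of_sq_le (by norm_num)
      rw [inv_le_comm₀ (by linarith) (by norm_num)]
      linarith
    linarith
  have hC0 : 0 ≤ C := by
    have := hC 1 le_rfl
    rw [hg.one] at this
    simp at this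
    linarith
  -- the local factor
  have hloc : ∀ k : ℕ, f (p ^ k) ≤ C * r ^ k := by
    intro k
    have hpk : 1 ≤ p ^ k := Nat.one_le_pow _ _ hp.pos
    have h1 := hC (p ^ k) hpk
    have hpk0 : (0 : ℝ) < ((p ^ k : ℕ) : ℝ) := by exact_mod_cast hpk
    have hpk1 : (1 : ℝ) ≤ ((p ^ k : ℕ) : ℝ) := by exact_mod_cast hpk
    have h2 : wt η (p ^ k) ≤ ((p ^ k : ℕ) : ℝ) ^ (-1 : ℝ) := by
      unfold wt
      exact Real.rpow_le_rpow_of_exponent_le hpk1 (by linarith)
    calc f (p ^ k) = ‖g (p ^ k)‖ * wt η (p ^ k) := rfl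
      _ ≤ (C * ((p ^ k : ℕ) : ℝ) ^ (1 / 4 : ℝ)) * ((p ^ k : ℕ) : ℝ) ^ (-1 : ℝ) :=
          mul_le_mul h1 h2 (wt_nonneg _ _) (mul_nonneg hC0 (Real.rpow_nonneg hpk0.le _))
      _ = C * r ^ k := by
          rw [mul_assoc, ← Real.rpow_add hpk0, hr, Nat.cast_pow]
          congr 1
          rw [← Real.rpow_natCast, ← Real.rpow_natCast, ← Real.rpow_mul hp0.le,
            ← Real.rpow_mul hp0.le]
          congr 1
          ring
  -- factorization
  have hfac : ∀ n : ℕ, n ≠ 0 → f n = f (p ^ (n.factorization p)) * f (n / p ^ (n.factorization p)) := by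
    intro n hn
    have h1 : p ^ (n.factorization p) * (n / p ^ (n.factorization p)) = n := Nat.ordProj_mul_ordCompl_eq_self n p
    have h2 : (p ^ (n.factorization p)).Coprime (n / p ^ (n.factorization p)) :=
      Nat.Coprime.pow_left _ (Nat.coprime_ordCompl hp hn)
    have h3 : ‖g n‖ = ‖g (p ^ (n.factorization p))‖ * ‖g (n / p ^ (n.factorization p))‖ := by
      rw [← norm_mul, ← hg.mul _ _ h2, h1]
    have h4 : wt η n = wt η (p ^ (n.factorization p)) * wt η (n / p ^ (n.factorization p)) := by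
      rw [← wt_mul, h1]
    change ‖g n‖ * wt η n = (‖g (p ^ (n.factorization p))‖ * wt η (p ^ (n.factorization p))) *
      (‖g (n / p ^ (n.factorization p))‖ * wt η (n / p ^ (n.factorization p)))
    rw [h3, h4]
    ring
  have hG0 : 0 ≤ ∑' n : ℕ, f n := tsum_nonneg hf0
  have hb0 : 0 ≤ 4 * C * r ^ i * ∑' n : ℕ, f n := by positivity
  refine Real.tsum_le_of_sum_le ?_ ?_
  · intro n
    change 0 ≤ (if p ^ i ∣ n then f n else 0)
    split_ifs
    · exact hf0 n
    · exact le_rfl
  intro s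
  -- the relevant part of `s`
  set s' : Finset ℕ := s.filter (fun n => p ^ i ∣ n ∧ n ≠ 0) with hs'
  have e1 : ∑ n ∈ s, (if p ^ i ∣ n then f n else 0) = ∑ n ∈ s', f n := by
    rw [hs', Finset.sum_filter]
    apply Finset.sum_congr rfl
    intro n _
    by_cases h1 : p ^ i ∣ n
    · by_cases h2 : n = 0
      · subst h2
        simp [hfz]
      · simp [h1, h2]
    · simp [h1]
  rw [e1]
  set φ : ℕ → ℕ × ℕ := fun n => (n.factorization p, n / p ^ (n.factorization p)) with hφ
  set K : Finset ℕ := s'.image (fun n => n.factorization p) with hK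
  set M : Finset ℕ := s'.image (fun n => n / p ^ (n.factorization p)) with hM
  have hinj : Set.InjOn φ s' := by
    intro a ha b hb hab
    simp only [hφ, Prod.mk.injEq] at hab
    have h1 : p ^ (a.factorization p) * (a / p ^ (a.factorization p)) = a := Nat.ordProj_mul_ordCompl_eq_self a p
    have h2 : p ^ (b.factorization p) * (b / p ^ (b.factorization p)) = b := Nat.ordProj_mul_ordCompl_eq_self b p
    rw [← h1, ← h2, hab.2, hab.1]
  have hKi : ∀ k ∈ K, i ≤ k := by
    intro k hk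
    rw [hK, Finset.mem_image] at hk
    obtain ⟨n, hn, rfl⟩ := hk
    rw [hs', Finset.mem_filter] at hn
    exact (hp.pow_dvd_iff_le_factorization hn.2.2).mp hn.2.1
  calc ∑ n ∈ s', f n = ∑ n ∈ s', (fun x : ℕ × ℕ => f (p ^ x.1) * f x.2) (φ n) := by
        apply Finset.sum_congr rfl
        intro n hn
        rw [hs', Finset.mem_filter] at hn
        exact hfac n hn.2.2
    _ = ∑ x ∈ s'.image φ, f (p ^ x.1) * f x.2 := by
        rw [Finset.sum_image hinj]
    _ ≤ ∑ x ∈ K ×ˢ M, f (p ^ x.1) * f x.2 := by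
        apply Finset.sum_le_sum_of_subset_of_nonneg
        · intro x hx
          rw [Finset.mem_image] at hx
          obtain ⟨n, hn, rfl⟩ := hx
          rw [Finset.mem_product]
          exact ⟨Finset.mem_image_of_mem _ hn, Finset.mem_image_of_mem _ hn⟩
        · intro x _ _
          exact mul_nonneg (hf0 _) (hf0 _)
    _ = (∑ k ∈ K, f (p ^ k)) * ∑ m ∈ M, f m := by
        rw [Finset.sum_product, Finset.sum_mul]
        apply Finset.sum_congr rfl
        intro k _
        rw [Finset.mul_sum]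
    _ ≤ (4 * C * r ^ i) * ∑' n : ℕ, f n := by
        apply mul_le_mul
        · calc ∑ k ∈ K, f (p ^ k) ≤ ∑ k ∈ K, C * r ^ k := Finset.sum_le_sum (fun k _ => hloc k)
            _ = C * ∑ k ∈ K, r ^ k := by rw [Finset.mul_sum]
            _ ≤ C * (r ^ i * (1 - r)⁻¹) := by
                apply mul_le_mul_of_nonneg_left _ hC0
                exact geom hr0 (by linarith) i K hKi
            _ ≤ C * (r ^ i * 4) := by
                apply mul_le_mul_of_nonneg_left _ hC0
                apply mul_le_mul_of_nonneg_left _ (by positivity)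
                rw [inv_le_comm₀ (by linarith) (by norm_num)]
                linarith
            _ = 4 * C * r ^ i := by ring
        · exact hsf.sum_le_tsum _ (fun m _ => hf0 m)
        · exact Finset.sum_nonneg (fun m _ => hf0 m)
        · positivity

end DVP_

theorem p_DVP : T_DVP := by
  intro g hg
  obtain ⟨C, hC⟩ := hg.small (1 / 4) (by norm_num)
  have hC0 : 0 ≤ C := by
    have := hC 1 le_rfl
    rw [hg.one] at this
    simp at this
    linarith
  refine ⟨4 * C, by linarith, ?_⟩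
  intro p η hp hη _
  constructor
  · have h := DVP_.main hg hC hp hη 1
    simpa only [pow_one] using h
  · have h := DVP_.main hg hC hp hη 2
    have hp0 : (0 : ℝ) < p := by exact_mod_cast hp.pos
    have e : ((p : ℝ) ^ (-(3 / 4) : ℝ)) ^ 2 = (p : ℝ) ^ (-(3 / 2) : ℝ) := by
      rw [← Real.rpow_natCast, ← Real.rpow_mul hp0.le]
      congr 1
      norm_num
    rw [e] at h
    exact h

end

end Pool.Agent.SelDeg2
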