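import Pool.Agent.SelDeg2.TargetsB

/-!
# Degree 2 with a pole: the exceptional terms (target `T_EE`)
-/

namespace Pool.Agent.SelDeg2

open Complex Filter Topology MeasureTheory
open Pool.Agent.SelPole Pool.Agent.SelTwo

noncomputable section

theorem EE_wt_nonneg (η : ℝ) (n : ℕ) : 0 ≤ wt η n := Real.rpow_nonneg (Nat.cast_nonneg n) _

theorem EE_wt_mul (η : ℝ) (a b : ℕ) : wt η (a * b) = wt η a * wt η b := by
  unfold wt
  push_cast
  exact Real.mul_rpow (Nat.cast_nonneg a) (Nat.cast_nonneg b)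

theorem EE_wt_zero (η : ℝ) (hη : 0 < η) : wt η 0 = 0 := by
  unfold wt
  rw [Nat.cast_zero]
  exact Real.zero_rpow (by linarith)

/-- a prime whose square divides `a * m`, `a` prime -/
theorem EE_dvd {p a m : ℕ} (hp : p.Prime) (ha : a.Prime) (h : p ^ 2 ∣ a * m) :
    p ^ 2 ∣ m ∨ (a = p ∧ p ∣ m) := by
  by_cases hap : a = p
  · right
    refine ⟨hap, ?_⟩
    subst hap
    rw [pow_two] at h
    exact Nat.dvd_of_mul_dvd_mul_left ha.pos h
  · left
    have hc : Nat.Coprime (p ^ 2) a := Nat.Coprime.pow_left 2 ((Nat.coprime_primes hp ha).2 (Ne.symm hap))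
    exact hc.dvd_of_dvd_mul_left h

/-- the contribution of one prime -/
theorem EE_one (hGRP : T_GRP) (A B : ℕ → ℝ) (hA : ∀ n, 0 ≤ A n) (hB : ∀ n, 0 ≤ B n)
    (hA0 : A 0 = 0) (hB0 : B 0 = 0) (hAs : Summable A) (hBs : Summable B)
    (hBp : ∀ n : ℕ, ¬ n.Prime → B n = 0) (p : ℕ) (hp : p.Prime) :
    Summable (fun n : ℕ => if p ^ 2 ∣ n then
      (A n + ∑ x ∈ n.divisorsAntidiagonal, B x.1 * A x.2) else 0) ∧
    ∑' n : ℕ, (if p ^ 2 ∣ n then (A n + ∑ x ∈ n.divisorsAntidiagonal, B x.1 * A x.2) else 0) ≤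
      (∑' n : ℕ, (if p ^ 2 ∣ n then A n else 0)) +
      ((∑' n, B n) * (∑' n : ℕ, (if p ^ 2 ∣ n then A n else 0)) +
      B p * (∑' n : ℕ, (if p ∣ n then A n else 0))) := by
  have hI2s : Summable (fun n : ℕ => if p ^ 2 ∣ n then A n else 0) := by
    refine Summable.of_nonneg_of_le (fun n => ?_) (fun n => ?_) hAs
    · split_ifs
      · exact hA n
      · exact le_refl 0
    · split_ifs
      · exact le_refl _
      · exact hA n
  have hI1s : Summable (fun n : ℕ => if p ∣ n then A n else 0) := by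
    refine Summable.of_nonneg_of_le (fun n => ?_) (fun n => ?_) hAs
    · split_ifs
      · exact hA n
      · exact le_refl 0
    · split_ifs
      · exact le_refl _
      · exact hA n
  have hI2n : ∀ n : ℕ, 0 ≤ (if p ^ 2 ∣ n then A n else 0) := fun n => by
    split_ifs
    · exact hA n
    · exact le_refl 0
  have hI1n : ∀ n : ℕ, 0 ≤ (if p ∣ n then A n else 0) := fun n => by
    split_ifs
    · exact hA n
    · exact le_refl 0
  have hDs : Summable (fun n : ℕ => if n = p then B p else 0) :=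
    (hasSum_ite_eq p (B p)).summable
  have hDt : ∑' n : ℕ, (if n = p then B p else 0) = B p := (hasSum_ite_eq p (B p)).tsum_eq
  have hDn : ∀ n : ℕ, 0 ≤ (if n = p then B p else 0) := fun n => by
    split_ifs
    · exact hB p
    · exact le_refl 0
  set w1 : ℕ × ℕ → ℝ := fun x => B x.1 * (if p ^ 2 ∣ x.2 then A x.2 else 0) with hw1
  set w2 : ℕ × ℕ → ℝ := fun x => (if x.1 = p then B p else 0) * (if p ∣ x.2 then A x.2 else 0) with hw2
  have hw1s : Summable w1 := Summable.mul_of_nonneg hBs hI2s hB hI2n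
  have hw2s : Summable w2 := Summable.mul_of_nonneg hDs hI1s hDn hI1n
  have hw1t : ∑' x, w1 x = (∑' n, B n) * (∑' n : ℕ, (if p ^ 2 ∣ n then A n else 0)) :=
    (Summable.tsum_mul_tsum hBs hI2s hw1s).symm
  have hw2t : ∑' x, w2 x = B p * (∑' n : ℕ, (if p ∣ n then A n else 0)) := by
    rw [← hDt]
    exact (Summable.tsum_mul_tsum hDs hI1s hw2s).symm
  set v : ℕ × ℕ → ℝ := fun x => if p ^ 2 ∣ x.1 * x.2 then B x.1 * A x.2 else 0 with hv
  have hvn : ∀ x, 0 ≤ v x := fun x => by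
    simp only [hv]
    split_ifs
    · exact mul_nonneg (hB _) (hA _)
    · exact le_refl 0
  have hvw : ∀ x, v x ≤ w1 x + w2 x := by
    intro x
    have hwn : 0 ≤ w1 x + w2 x :=
      add_nonneg (mul_nonneg (hB _) (hI2n _)) (mul_nonneg (hDn _) (hI1n _))
    simp only [hv]
    by_cases h : p ^ 2 ∣ x.1 * x.2
    · rw [if_pos h]
      by_cases hx : x.1.Prime
      · rcases EE_dvd hp hx h with h2 | ⟨h2, h3⟩
        · have : w1 x = B x.1 * A x.2 := by simp only [hw1]; rw [if_pos h2]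
          rw [← this]
          have h4 : 0 ≤ w2 x := mul_nonneg (hDn _) (hI1n _)
          linarith
        · have : w2 x = B x.1 * A x.2 := by simp only [hw2]; rw [if_pos h2, if_pos h3, h2]
          rw [← this]
          have h4 : 0 ≤ w1 x := mul_nonneg (hB _) (hI2n _)
          linarith
      · rw [hBp _ hx, zero_mul]; exact hwn
    · rw [if_neg h]; exact hwn
  have hvs : Summable v := Summable.of_nonneg_of_le hvn hvw (hw1s.add hw2s)
  have hvt : ∑' x, v x ≤ (∑' n, B n) * (∑' n : ℕ, (if p ^ 2 ∣ n then A n else 0)) +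
      B p * (∑' n : ℕ, (if p ∣ n then A n else 0)) := by
    rw [← hw1t, ← hw2t, ← Summable.tsum_add hw1s hw2s]
    exact Summable.tsum_le_tsum hvw hvs (hw1s.add hw2s)
  have hgr : HasSum (fun n : ℕ => if p ^ 2 ∣ n then
      (∑ x ∈ n.divisorsAntidiagonal, B x.1 * A x.2) else 0) (∑' x, v x) := by
    have h := hGRP (fun x => ((v x : ℝ) : ℂ)) (Complex.summable_ofReal.2 hvs) (fun n => by
      simp only [hv]
      constructor
      · simp [hB0]
      · simp [hA0])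
    rw [← Complex.ofReal_tsum] at h
    have h2 : (fun n : ℕ => ∑ x ∈ n.divisorsAntidiagonal, ((v x : ℝ) : ℂ)) =
        fun n : ℕ => (((if p ^ 2 ∣ n then
          (∑ x ∈ n.divisorsAntidiagonal, B x.1 * A x.2) else 0 : ℝ)) : ℂ) := by
      funext n
      rw [← Complex.ofReal_sum]
      congr 1
      by_cases hn : p ^ 2 ∣ n
      · rw [if_pos hn]
        refine Finset.sum_congr rfl (fun x hx => ?_)
        simp only [hv]
        rw [(Nat.mem_divisorsAntidiagonal.1 hx).1, if_pos hn]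
      · rw [if_neg hn]
        refine Finset.sum_eq_zero (fun x hx => ?_)
        simp only [hv]
        rw [(Nat.mem_divisorsAntidiagonal.1 hx).1, if_neg hn]
    rw [h2] at h
    exact Complex.hasSum_ofReal.1 h
  have heq : (fun n : ℕ => if p ^ 2 ∣ n then
      (A n + ∑ x ∈ n.divisorsAntidiagonal, B x.1 * A x.2) else 0) =
      fun n : ℕ => (if p ^ 2 ∣ n then A n else 0) + (if p ^ 2 ∣ n then
      (∑ x ∈ n.divisorsAntidiagonal, B x.1 * A x.2) else 0) := by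
    funext n
    split_ifs
    · rfl
    · rw [add_zero]
  rw [heq]
  refine ⟨hI2s.add hgr.summable, ?_⟩
  rw [Summable.tsum_add hI2s hgr.summable, hgr.tsum_eq]
  linarith

/-- the exceptional term as a sum of products -/
theorem EE_term (g : ℕ → ℂ) (P₀ : ℕ) (η : ℝ) (n : ℕ) (h : ∃ p : ℕ, p.Prime ∧ P₀ < p ∧ p ^ 2 ∣ n) :
    EE g P₀ n * wt η n = ‖g n‖ * wt η n +
      ∑ x ∈ n.divisorsAntidiagonal, (‖uu g P₀ x.1‖ * wt η x.1) * (‖g x.2‖ * wt η x.2) := by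
  unfold EE
  rw [if_pos h, add_mul, Finset.sum_mul]
  congr 1
  refine Finset.sum_congr rfl (fun x hx => ?_)
  rw [← (Nat.mem_divisorsAntidiagonal.1 hx).1, EE_wt_mul]
  ring

theorem EE_uu_le (g : ℕ → ℂ) (P₀ n : ℕ) : ‖uu g P₀ n‖ ≤ ‖g n‖ := by
  unfold uu
  split_ifs
  · exact le_refl _
  · rw [norm_zero]; exact norm_nonneg _

/-- the elementary bounds for one prime -/
theorem EE_num (C1 C0 Cs G SB Bp I2 I1 X : ℝ) (p P₀ : ℕ) (hC1 : 0 ≤ C1) (hC0 : 0 ≤ C0)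
    (hCs : 0 ≤ Cs) (_hG : 0 ≤ G) (hGX : G ≤ C0 * X) (hX : 1 ≤ X) (_hSB : 0 ≤ SB) (hSBG : SB ≤ G)
    (hBp : Bp ≤ Cs * (p : ℝ) ^ (-(3 / 4) : ℝ)) (_hBp0 : 0 ≤ Bp)
    (hI2 : I2 ≤ C1 * (p : ℝ) ^ (-(3 / 2) : ℝ) * G)
    (hI1 : I1 ≤ C1 * (p : ℝ) ^ (-(3 / 4) : ℝ) * G) (hI20 : 0 ≤ I2) (hI10 : 0 ≤ I1)
    (hP : 1 ≤ P₀) (hpP : P₀ < p) :
    I2 + (SB * I2 + Bp * I1) ≤
      C1 * (C0 + C0 ^ 2 + Cs * C0) * X ^ 2 * (P₀ : ℝ) ^ (-(1 / 4) : ℝ) * (p : ℝ) ^ (-(5 / 4) : ℝ) := by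
  have hp0 : (0 : ℝ) < p := by exact_mod_cast (lt_of_le_of_lt (Nat.zero_le _) hpP)
  have hP0 : (0 : ℝ) < P₀ := by exact_mod_cast hP
  set a : ℝ := (p : ℝ) ^ (-(3 / 4) : ℝ) with ha
  have ha0 : 0 ≤ a := Real.rpow_nonneg hp0.le _
  have haa : (p : ℝ) ^ (-(3 / 2) : ℝ) = a * a := by
    rw [ha, ← Real.rpow_add hp0]; norm_num
  have h54 : a * a ≤ (P₀ : ℝ) ^ (-(1 / 4) : ℝ) * (p : ℝ) ^ (-(5 / 4) : ℝ) := by
    have h1 : a * a = (p : ℝ) ^ (-(1 / 4) : ℝ) * (p : ℝ) ^ (-(5 / 4) : ℝ) := by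
      rw [ha, ← Real.rpow_add hp0, ← Real.rpow_add hp0]; norm_num
    rw [h1]
    refine mul_le_mul_of_nonneg_right ?_ (Real.rpow_nonneg hp0.le _)
    exact Real.rpow_le_rpow_of_nonpos hP0 (by exact_mod_cast hpP.le) (by norm_num)
  rw [haa] at hI2
  have hX0 : 0 ≤ X := le_trans zero_le_one hX
  have hC0X : 0 ≤ C0 * X := mul_nonneg hC0 hX0
  have hX2 : X ≤ X ^ 2 := by nlinarith
  have haa0 : 0 ≤ a * a := mul_nonneg ha0 ha0
  have e1 : I2 ≤ C1 * (a * a) * (C0 * X ^ 2) := by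
    refine le_trans hI2 ?_
    refine mul_le_mul_of_nonneg_left ?_ (mul_nonneg hC1 haa0)
    exact le_trans hGX (mul_le_mul_of_nonneg_left hX2 hC0)
  have e2 : SB * I2 ≤ C1 * (a * a) * (C0 ^ 2 * X ^ 2) := by
    have h1 : SB * I2 ≤ (C0 * X) * (C1 * (a * a) * (C0 * X)) := by
      refine mul_le_mul (le_trans hSBG hGX) (le_trans hI2 ?_) hI20 hC0X
      exact mul_le_mul_of_nonneg_left hGX (mul_nonneg hC1 haa0)
    refine le_trans h1 (le_of_eq ?_)
    ring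
  have e3 : Bp * I1 ≤ C1 * (a * a) * (Cs * C0 * X ^ 2) := by
    have h1 : Bp * I1 ≤ (Cs * a) * (C1 * a * (C0 * X)) := by
      refine mul_le_mul hBp (le_trans hI1 ?_) hI10 (mul_nonneg hCs ha0)
      exact mul_le_mul_of_nonneg_left hGX (mul_nonneg hC1 ha0)
    refine le_trans h1 ?_
    have h2 : (Cs * a) * (C1 * a * (C0 * X)) = C1 * (a * a) * (Cs * C0 * X) := by ring
    rw [h2]
    refine mul_le_mul_of_nonneg_left ?_ (mul_nonneg hC1 haa0)
    exact mul_le_mul_of_nonneg_left hX2 (mul_nonneg hCs hC0)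
  have e4 : C1 * (a * a) * (C0 * X ^ 2) + (C1 * (a * a) * (C0 ^ 2 * X ^ 2) +
      C1 * (a * a) * (Cs * C0 * X ^ 2)) = (C1 * (C0 + C0 ^ 2 + Cs * C0) * X ^ 2) * (a * a) := by ring
  have e5 : 0 ≤ C1 * (C0 + C0 ^ 2 + Cs * C0) * X ^ 2 := by positivity
  calc I2 + (SB * I2 + Bp * I1) ≤ (C1 * (C0 + C0 ^ 2 + Cs * C0) * X ^ 2) * (a * a) := by
        rw [← e4]; linarith
    _ ≤ (C1 * (C0 + C0 ^ 2 + Cs * C0) * X ^ 2) *
        ((P₀ : ℝ) ^ (-(1 / 4) : ℝ) * (p : ℝ) ^ (-(5 / 4) : ℝ)) :=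
        mul_le_mul_of_nonneg_left h54 e5
    _ = _ := by ring

/-- Target B-EE. -/
theorem p_EE (hDVP : T_DVP) (hMOM1 : T_MOM1) (_hPM1 : T_PM1) (hGRP : T_GRP) : T_EE := by
  intro g hg
  obtain ⟨C1, hC1, hD⟩ := hDVP g hg
  obtain ⟨C0, K, hC0, hK, hM⟩ := hMOM1 g hg
  obtain ⟨Cs, hCs⟩ := hg.small (1 / 8) (by norm_num)
  have hCs0 : 0 ≤ Cs := by
    have h := hCs 1 le_rfl
    rw [Nat.cast_one, Real.one_rpow, mul_one] at h
    exact le_trans (norm_nonneg _) h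
  have hZs : Summable (fun n : ℕ => (n : ℝ) ^ (-(5 / 4) : ℝ)) :=
    Real.summable_nat_rpow.2 (by norm_num)
  have hZ0 : 0 ≤ ∑' n : ℕ, (n : ℝ) ^ (-(5 / 4) : ℝ) :=
    tsum_nonneg (fun n => Real.rpow_nonneg (Nat.cast_nonneg n) _)
  refine ⟨C1 * (C0 + C0 ^ 2 + Cs * C0) * ∑' n : ℕ, (n : ℝ) ^ (-(5 / 4) : ℝ), 2 * K,
    by positivity, by positivity, ?_⟩
  intro η P₀ hη hη1 hP
  obtain ⟨hAs, hAt⟩ := hM η hη hη1
  set A : ℕ → ℝ := fun n => ‖g n‖ * wt η n with hAdef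
  set B : ℕ → ℝ := fun n => ‖uu g P₀ n‖ * wt η n with hBdef
  have hA : ∀ n, 0 ≤ A n := fun n => mul_nonneg (norm_nonneg _) (EE_wt_nonneg η n)
  have hB : ∀ n, 0 ≤ B n := fun n => mul_nonneg (norm_nonneg _) (EE_wt_nonneg η n)
  have hBA : ∀ n, B n ≤ A n := fun n =>
    mul_le_mul_of_nonneg_right (EE_uu_le g P₀ n) (EE_wt_nonneg η n)
  have hA0 : A 0 = 0 := by simp only [hAdef]; rw [EE_wt_zero η hη, mul_zero]
  have hB0 : B 0 = 0 := by simp only [hBdef]; rw [EE_wt_zero η hη, mul_zero]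
  have hBs : Summable B := Summable.of_nonneg_of_le hB hBA hAs
  have hBp : ∀ n : ℕ, ¬ n.Prime → B n = 0 := fun n hn => by
    simp only [hBdef, uu]
    rw [if_neg (fun h => hn h.1), norm_zero, zero_mul]
  have hG0 : 0 ≤ ∑' n, A n := tsum_nonneg hA
  have hSB0 : 0 ≤ ∑' n, B n := tsum_nonneg hB
  have hSBG : ∑' n, B n ≤ ∑' n, A n := Summable.tsum_le_tsum hBA hBs hAs
  have hX : 1 ≤ (1 / η) ^ K := Real.one_le_rpow (by rw [le_div_iff₀ hη]; linarith) hK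
  set X : ℝ := (1 / η) ^ K with hXdef
  have hX2 : (1 / η) ^ (2 * K) = X ^ 2 := by
    rw [hXdef, mul_comm, Real.rpow_mul (by positivity)]
    norm_num
  -- the double sequence
  set W : ℕ → ℝ := fun n => A n + ∑ x ∈ n.divisorsAntidiagonal, B x.1 * A x.2 with hWdef
  have hW : ∀ n, 0 ≤ W n := fun n =>
    add_nonneg (hA n) (Finset.sum_nonneg (fun x _ => mul_nonneg (hB _) (hA _)))
  set F : ℕ × ℕ → ℝ := fun x => if x.1.Prime ∧ P₀ < x.1 ∧ x.1 ^ 2 ∣ x.2 then W x.2 else 0 with hFdef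
  have hF0 : ∀ x, 0 ≤ F x := fun x => by
    simp only [hFdef]
    split_ifs
    · exact hW _
    · exact le_refl 0
  set D : ℝ := C1 * (C0 + C0 ^ 2 + Cs * C0) * X ^ 2 * (P₀ : ℝ) ^ (-(1 / 4) : ℝ) with hDdef
  have hD0 : 0 ≤ D := by positivity
  have hrow : ∀ p : ℕ, Summable (fun n : ℕ => F (p, n)) ∧
      ∑' n : ℕ, F (p, n) ≤ D * (p : ℝ) ^ (-(5 / 4) : ℝ) := by
    intro p
    by_cases hp : p.Prime ∧ P₀ < p
    · have h := EE_one hGRP A B hA hB hA0 hB0 hAs hBs hBp p hp.1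
      have heq : (fun n : ℕ => F (p, n)) = fun n : ℕ => if p ^ 2 ∣ n then
          (A n + ∑ x ∈ n.divisorsAntidiagonal, B x.1 * A x.2) else 0 := by
        funext n
        simp only [hFdef]
        by_cases hn : p ^ 2 ∣ n
        · rw [if_pos ⟨hp.1, hp.2, hn⟩, if_pos hn]
        · rw [if_neg (fun h => hn h.2.2), if_neg hn]
      rw [heq]
      refine ⟨h.1, le_trans h.2 ?_⟩
      have hd := hD p η hp.1 hη hη1
      have hpp : (0 : ℝ) < p := by exact_mod_cast hp.1.pos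
      have hBple : B p ≤ Cs * (p : ℝ) ^ (-(3 / 4) : ℝ) := by
        have h1 : B p ≤ ‖g p‖ * wt η p := hBA p
        have h2 : ‖g p‖ ≤ Cs * (p : ℝ) ^ (1 / 8 : ℝ) := hCs p hp.1.one_lt.le
        have h3 : (p : ℝ) ^ (1 / 8 : ℝ) * wt η p ≤ (p : ℝ) ^ (-(3 / 4) : ℝ) := by
          unfold wt
          rw [← Real.rpow_add hpp]
          refine Real.rpow_le_rpow_of_exponent_le ?_ (by linarith)
          exact_mod_cast hp.1.one_lt.le
        calc B p ≤ ‖g p‖ * wt η p := h1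
          _ ≤ (Cs * (p : ℝ) ^ (1 / 8 : ℝ)) * wt η p :=
              mul_le_mul_of_nonneg_right h2 (EE_wt_nonneg η p)
          _ = Cs * ((p : ℝ) ^ (1 / 8 : ℝ) * wt η p) := by ring
          _ ≤ _ := mul_le_mul_of_nonneg_left h3 hCs0
      have hI20 : 0 ≤ ∑' n : ℕ, (if p ^ 2 ∣ n then A n else 0) := tsum_nonneg (fun n => by
        split_ifs
        · exact hA n
        · exact le_refl 0)
      have hI10 : 0 ≤ ∑' n : ℕ, (if p ∣ n then A n else 0) := tsum_nonneg (fun n => by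
        split_ifs
        · exact hA n
        · exact le_refl 0)
      exact EE_num C1 C0 Cs (∑' n, A n) (∑' n, B n) (B p) _ _ X p P₀ hC1 hC0 hCs0 hG0 hAt hX hSB0
        hSBG hBple (hB p) hd.2 hd.1 hI20 hI10 hP hp.2
    · have heq : (fun n : ℕ => F (p, n)) = fun _ : ℕ => (0 : ℝ) := by
        funext n
        simp only [hFdef]
        rw [if_neg (fun h => hp ⟨h.1, h.2.1⟩)]
      rw [heq]
      refine ⟨summable_zero, ?_⟩
      rw [tsum_zero]
      exact mul_nonneg hD0 (Real.rpow_nonneg (Nat.cast_nonneg p) _)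
  have hrs : Summable (fun p : ℕ => ∑' n : ℕ, F (p, n)) :=
    Summable.of_nonneg_of_le (fun p => tsum_nonneg (fun n => hF0 _)) (fun p => (hrow p).2)
      (hZs.mul_left D)
  have hFs : Summable F := (summable_prod_of_nonneg hF0).2 ⟨fun p => (hrow p).1, hrs⟩
  have hFs' : Summable (fun x : ℕ × ℕ => F (x.2, x.1)) := hFs.prod_symm
  have hcol : ∀ n : ℕ, Summable (fun p : ℕ => F (p, n)) := fun n => hFs'.prod_factor n
  have hcs : Summable (fun n : ℕ => ∑' p : ℕ, F (p, n)) := hFs'.prod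
  have hcomm : ∑' n : ℕ, ∑' p : ℕ, F (p, n) = ∑' p : ℕ, ∑' n : ℕ, F (p, n) :=
    Summable.tsum_comm' hFs (fun p => (hrow p).1) hcol
  have hE0 : ∀ n : ℕ, 0 ≤ EE g P₀ n * wt η n := by
    intro n
    refine mul_nonneg ?_ (EE_wt_nonneg η n)
    unfold EE
    split_ifs
    · exact add_nonneg (norm_nonneg _)
        (Finset.sum_nonneg (fun x _ => mul_nonneg (norm_nonneg _) (norm_nonneg _)))
    · exact le_refl 0
  have hEle : ∀ n : ℕ, EE g P₀ n * wt η n ≤ ∑' p : ℕ, F (p, n) := by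
    intro n
    by_cases h : ∃ p : ℕ, p.Prime ∧ P₀ < p ∧ p ^ 2 ∣ n
    · rw [EE_term g P₀ η n h]
      obtain ⟨p, hp⟩ := h
      have h1 : F (p, n) ≤ ∑' p : ℕ, F (p, n) :=
        (hcol n).le_tsum p (fun q _ => hF0 _)
      refine le_trans (le_of_eq ?_) h1
      simp only [hFdef]
      rw [if_pos hp]
    · have : EE g P₀ n = 0 := by
        unfold EE
        rw [if_neg h]
      rw [this, zero_mul]
      exact tsum_nonneg (fun p => hF0 _)
  have hEs : Summable (fun n : ℕ => EE g P₀ n * wt η n) :=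
    Summable.of_nonneg_of_le hE0 hEle hcs
  refine ⟨hEs, ?_⟩
  calc ∑' n : ℕ, EE g P₀ n * wt η n ≤ ∑' n : ℕ, ∑' p : ℕ, F (p, n) :=
        Summable.tsum_le_tsum hEle hEs hcs
    _ = ∑' p : ℕ, ∑' n : ℕ, F (p, n) := hcomm
    _ ≤ ∑' p : ℕ, D * (p : ℝ) ^ (-(5 / 4) : ℝ) :=
        Summable.tsum_le_tsum (fun p => (hrow p).2) hrs (hZs.mul_left D)
    _ = D * ∑' p : ℕ, (p : ℝ) ^ (-(5 / 4) : ℝ) := tsum_mul_left
    _ = _ := by rw [hX2, hDdef]; ring

end

end Pool.Agent.SelDeg2
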