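import Pool.Agent.SelDeg2.TargetsB

/-!
# EPS: the sum of a nonnegative multiplicative function over smooth numbers
-/

namespace Pool.Agent.SelDeg2

open Filter Topology

/-- B-EPS: the same for finite sets of smooth numbers -/
theorem p_EPS : T_EPS := by
  intro h h0 h1 hmul hsum P T hT
  have hsum' : ∀ {p : ℕ}, p.Prime → Summable (fun n : ℕ => ‖h (p ^ n)‖) := by
    intro p hp
    exact (hsum p hp).norm
  have hE := (EulerProduct.summable_and_hasSum_smoothNumbers_prod_primesBelow_tsum h1
    (fun {m n} hmn => hmul m n hmn) hsum' (P + 1)).2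
  have hE' : HasSum ((Nat.smoothNumbers (P + 1)).indicator h)
      (∏ p ∈ (P + 1).primesBelow, ∑' n : ℕ, h (p ^ n)) := hasSum_subtype_iff_indicator.1 hE
  have hT' : ∀ n ∈ T, n ∈ Nat.smoothNumbers (P + 1) := by
    intro n hn
    obtain ⟨hn0, hnp⟩ := hT n hn
    rw [Nat.mem_smoothNumbers']
    intro p hp hpn
    exact Nat.lt_succ_of_le (hnp p hp hpn)
  calc ∑ n ∈ T, h n = ∑ n ∈ T, (Nat.smoothNumbers (P + 1)).indicator h n := by
        refine Finset.sum_congr rfl (fun n hn => ?_)
        rw [Set.indicator_of_mem (hT' n hn)]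
    _ ≤ ∏ p ∈ (P + 1).primesBelow, ∑' n : ℕ, h (p ^ n) :=
        sum_le_hasSum T (fun n _ => Set.indicator_nonneg (fun _ _ => h0 _) n) hE'
    _ ≤ ∏ p ∈ (P + 1).primesBelow, Real.exp (∑' k : ℕ, h (p ^ (k + 1))) := by
        refine Finset.prod_le_prod (fun p _ => tsum_nonneg fun n => h0 _) (fun p hp => ?_)
        have hp' : p.Prime := (Finset.mem_filter.1 hp).2
        rw [(hsum p hp').tsum_eq_zero_add, pow_zero, h1, add_comm]
        exact Real.add_one_le_exp _
    _ = _ := by
        rw [← Real.exp_sum]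
        rfl

end Pool.Agent.SelDeg2
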