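import Pool.Agent.SelDeg2.TargetsB

namespace Pool.Agent.SelDeg2

open Complex Filter Topology MeasureTheory
open Pool.Agent.SelPole Pool.Agent.SelTwo

noncomputable section

lemma GEO_ee_nat (m : ℕ) (β : ℝ) : ee (m * β) = ee β ^ m := by
  unfold ee
  rw [← Complex.exp_nat_mul]
  congr 1
  push_cast
  ring

lemma GEO_norm_ee (β : ℝ) : ‖ee β‖ = 1 := by
  unfold ee
  have h : (2 * (Real.pi : ℂ) * I * (β : ℂ)) = ((2 * Real.pi * β : ℝ) : ℂ) * I := by
    push_cast; ring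
  rw [h]
  exact Complex.norm_exp_ofReal_mul_I _

lemma GEO_ee_sub_int (β : ℝ) (n : ℤ) : ee (β - n) = ee β := by
  unfold ee
  have h : (2 * (Real.pi : ℂ) * I * ((β - n : ℝ) : ℂ)) =
      (2 * (Real.pi : ℂ) * I * (β : ℂ)) - n * (2 * Real.pi * I) := by
    push_cast; ring
  rw [h]
  exact Complex.exp_periodic.sub_int_mul_eq n

lemma GEO_norm_ee_sub_one (β δ : ℝ) (hδ : 0 < δ) (h : ∀ z : ℤ, δ ≤ |β - z|) :
    4 * δ ≤ ‖ee β - 1‖ := by
  set n := round β with hn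
  have h1 : |β - n| ≤ 1 / 2 := abs_sub_round β
  have h2 : δ ≤ |β - n| := h n
  rw [← GEO_ee_sub_int β n]
  set t : ℝ := β - n with ht
  have e1 : ee t = Complex.exp (I * ((2 * Real.pi * t : ℝ) : ℂ)) := by
    unfold ee
    congr 1
    push_cast
    ring
  rw [e1, Complex.norm_exp_I_mul_ofReal_sub_one]
  have e2 : 2 * Real.pi * t / 2 = Real.pi * t := by ring
  rw [e2, norm_mul, Real.norm_eq_abs, Real.norm_eq_abs]
  have e3 : |Real.sin (Real.pi * t)| = Real.sin (Real.pi * |t|) := by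
    rcases abs_cases t with ⟨ha, hb⟩ | ⟨ha, hb⟩
    · rw [ha, abs_of_nonneg]
      apply Real.sin_nonneg_of_nonneg_of_le_pi
      · positivity
      · nlinarith [Real.pi_pos, ha ▸ h1]
    · have e4 : Real.sin (Real.pi * t) = - Real.sin (Real.pi * |t|) := by
        rw [ha, ← Real.sin_neg]; congr 1; ring
      rw [e4, abs_neg, abs_of_nonneg]
      apply Real.sin_nonneg_of_nonneg_of_le_pi
      · positivity
      · nlinarith [Real.pi_pos, abs_nonneg t]
  rw [e3]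
  have h3 : 2 / Real.pi * (Real.pi * |t|) ≤ Real.sin (Real.pi * |t|) := by
    apply Real.mul_le_sin
    · positivity
    · nlinarith [Real.pi_pos, abs_nonneg t]
  have h4 : 2 / Real.pi * (Real.pi * |t|) = 2 * |t| := by
    field_simp
  rw [h4] at h3
  have : |(2 : ℝ)| = 2 := by norm_num
  rw [this]
  linarith

lemma GEO_wt_nonneg (η : ℝ) (n : ℕ) : 0 ≤ wt η n := by
  unfold wt; positivity

lemma GEO_wt_anti (η : ℝ) (hη : 0 < η) (m n : ℕ) (hm : 1 ≤ m) (hmn : m ≤ n) :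
    wt η n ≤ wt η m := by
  unfold wt
  apply Real.rpow_le_rpow_of_nonpos
  · exact_mod_cast hm
  · exact_mod_cast hmn
  · linarith

lemma GEO_wt_le (η : ℝ) (hη : 0 < η) (m : ℕ) (hm : 1 ≤ m) : wt η m ≤ 1 / m := by
  unfold wt
  have h : (1 : ℝ) / m = (m : ℝ) ^ (-1 : ℝ) := by
    rw [Real.rpow_neg_one, one_div]
  rw [h]
  apply Real.rpow_le_rpow_of_exponent_le
  · exact_mod_cast hm
  · linarith

lemma GEO_key (β η : ℝ) (hη : 0 < η) (M₀ M : ℕ) (hM : M₀ ≤ M) :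
    ∃ R : ℂ, (ee β - 1) * (∑ m ∈ Finset.Ioc M₀ M, ((wt η m : ℝ) : ℂ) * ee (m * β)) =
      ((wt η (M + 1) : ℝ) : ℂ) * ee β ^ (M + 1) - ((wt η (M₀ + 1) : ℝ) : ℂ) * ee β ^ (M₀ + 1) + R ∧
      ‖R‖ ≤ wt η (M₀ + 1) - wt η (M + 1) := by
  induction M, hM using Nat.le_induction with
  | base =>
    refine ⟨0, ?_, ?_⟩
    · simp
    · simp
  | succ M hM ih =>
    obtain ⟨R, hR, hRn⟩ := ih
    refine ⟨R + ((wt η (M + 1) - wt η (M + 2) : ℝ) : ℂ) * ee β ^ (M + 2), ?_, ?_⟩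
    · have hI : Finset.Ioc M₀ (M + 1) = insert (M + 1) (Finset.Ioc M₀ M) := by
        ext x; simp only [Finset.mem_Ioc, Finset.mem_insert]; omega
      rw [hI, Finset.sum_insert (by simp), mul_add, hR, GEO_ee_nat]
      push_cast
      ring
    · refine (norm_add_le _ _).trans ?_
      rw [norm_mul, norm_pow, GEO_norm_ee, one_pow, mul_one, Complex.norm_real, Real.norm_eq_abs,
        abs_of_nonneg (sub_nonneg.2 (GEO_wt_anti η hη _ _ (by omega) (by omega)))]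
      have : M + 1 + 1 = M + 2 := rfl
      rw [this]
      linarith

theorem p_GEO : T_GEO := by
  intro β δ η M₀ M hδ hη hη1 hM₀ hβ
  have h4 := GEO_norm_ee_sub_one β δ hδ hβ
  rcases le_or_gt M₀ M with hM | hM
  · obtain ⟨R, hR, hRn⟩ := GEO_key β η hη M₀ M hM
    set S := ∑ m ∈ Finset.Ioc M₀ M, ((wt η m : ℝ) : ℂ) * ee (m * β) with hS
    have h1 : ‖(ee β - 1) * S‖ ≤ 2 * wt η (M₀ + 1) := by
      rw [hR]
      refine (norm_add_le _ _).trans ?_
      have h2 : ‖((wt η (M + 1) : ℝ) : ℂ) * ee β ^ (M + 1) -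
          ((wt η (M₀ + 1) : ℝ) : ℂ) * ee β ^ (M₀ + 1)‖ ≤ wt η (M + 1) + wt η (M₀ + 1) := by
        refine (norm_sub_le _ _).trans ?_
        rw [norm_mul, norm_pow, GEO_norm_ee, one_pow, mul_one, Complex.norm_real,
          norm_mul, norm_pow, GEO_norm_ee, one_pow, mul_one, Complex.norm_real,
          Real.norm_eq_abs, Real.norm_eq_abs, abs_of_nonneg (GEO_wt_nonneg _ _),
          abs_of_nonneg (GEO_wt_nonneg _ _)]
      linarith
    rw [norm_mul] at h1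
    have h5 : wt η (M₀ + 1) ≤ 1 / M₀ :=
      (GEO_wt_anti η hη M₀ (M₀ + 1) hM₀ (by omega)).trans (GEO_wt_le η hη M₀ hM₀)
    have hM₀' : (0 : ℝ) < M₀ := by exact_mod_cast hM₀
    have h6 : 4 * δ * ‖S‖ ≤ 2 * (1 / M₀) := by
      calc 4 * δ * ‖S‖ ≤ ‖ee β - 1‖ * ‖S‖ := by
            apply mul_le_mul_of_nonneg_right h4 (norm_nonneg _)
        _ ≤ 2 * wt η (M₀ + 1) := h1
        _ ≤ _ := by linarith
    rw [le_div_iff₀ (by positivity)]
    have h7 : 4 * δ * ‖S‖ * M₀ ≤ 2 := by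
      calc 4 * δ * ‖S‖ * M₀ ≤ 2 * (1 / M₀) * M₀ := by
            apply mul_le_mul_of_nonneg_right h6 hM₀'.le
        _ = 2 := by field_simp
    nlinarith [norm_nonneg S]
  · rw [Finset.Ioc_eq_empty (by omega), Finset.sum_empty, norm_zero]
    positivity

end

end Pool.Agent.SelDeg2
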