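import Pool.Agent.SelDeg2.TargetsB

/-!
# B-GRP: grouping a double sum by the product
-/

namespace Pool.Agent.SelDeg2

theorem p_GRP : T_GRP := by
  intro v hv h0
  have h1 := hv.hasSum.tsum_fiberwise (fun x : ℕ × ℕ => x.1 * x.2)
  refine h1.congr_fun ?_
  intro n
  rw [tsum_subtype, tsum_eq_sum (s := n.divisorsAntidiagonal)]
  · refine Finset.sum_congr rfl fun x hx => ?_
    rw [Set.indicator_of_mem]
    exact (Nat.mem_divisorsAntidiagonal.1 hx).1
  · intro x hx
    by_cases hxn : x ∈ (fun x : ℕ × ℕ => x.1 * x.2) ⁻¹' {n}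
    · rw [Set.indicator_of_mem hxn]
      have h2 : x.1 * x.2 = n := hxn
      have h3 : n = 0 := by
        by_contra hne
        exact hx (Nat.mem_divisorsAntidiagonal.2 ⟨h2, hne⟩)
      rw [h3] at h2
      obtain ⟨a, b⟩ := x
      rcases Nat.mul_eq_zero.1 h2 with h4 | h4
      · have h5 : a = 0 := h4
        subst h5
        exact (h0 b).1
      · have h5 : b = 0 := h4
        subst h5
        exact (h0 a).2
    · rw [Set.indicator_of_notMem hxn]

end Pool.Agent.SelDeg2
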