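import Pool.Agent.SelDeg2.TargetsB

/-!
# B-HAR: harmonic sums (MP_995735_nt)
-/

namespace Pool.Agent.SelDeg2

open Complex Filter Topology MeasureTheory
open Pool.Agent.SelPole Pool.Agent.SelTwo

noncomputable section

theorem HAR_wt {M m : ℕ} (hm : 1 ≤ m) (hmM : m ≤ M) :
    (1 : ℝ) / m ≤ Real.exp 1 * wt (1 / (1 + Real.log M)) m := by
  have hM : 1 ≤ M := hm.trans hmM
  have hM' : (1 : ℝ) ≤ M := by exact_mod_cast hM
  have hm' : (0 : ℝ) < m := by exact_mod_cast hm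
  have hlog : 0 ≤ Real.log M := Real.log_nonneg hM'
  set η : ℝ := 1 / (1 + Real.log M) with hη
  have hη0 : 0 < η := by rw [hη]; positivity
  have hηl : η * Real.log M ≤ 1 := by
    rw [hη, div_mul_eq_mul_div, one_mul, div_le_one (by linarith)]
    linarith
  have h1 : (m : ℝ) ^ η ≤ Real.exp 1 := by
    rw [Real.rpow_def_of_pos hm']
    apply Real.exp_le_exp.2
    have : Real.log m ≤ Real.log M := Real.log_le_log hm' (by exact_mod_cast hmM)
    calc Real.log m * η ≤ Real.log M * η := mul_le_mul_of_nonneg_right this hη0.le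
      _ ≤ 1 := by rw [mul_comm]; exact hηl
  have h2 : wt η m = (m : ℝ)⁻¹ * ((m : ℝ) ^ η)⁻¹ := by
    unfold wt
    rw [sub_eq_add_neg, Real.rpow_add hm', Real.rpow_neg_one, Real.rpow_neg hm'.le]
  have h3 : 0 < (m : ℝ) ^ η := Real.rpow_pos_of_pos hm' _
  rw [h2, one_div]
  have h4 : 1 ≤ Real.exp 1 * ((m : ℝ) ^ η)⁻¹ := by
    rw [← div_eq_mul_inv, le_div_iff₀ h3, one_mul]
    exact h1
  have h5 : (0 : ℝ) < (m : ℝ)⁻¹ := inv_pos.2 hm'
  calc (m : ℝ)⁻¹ = (m : ℝ)⁻¹ * 1 := (mul_one _).symm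
    _ ≤ (m : ℝ)⁻¹ * (Real.exp 1 * ((m : ℝ) ^ η)⁻¹) := mul_le_mul_of_nonneg_left h4 h5.le
    _ = _ := by ring

/-- B-HAR -/
theorem p_HAR (h : T_MOM1) : T_HAR := by
  intro g hg
  obtain ⟨C, K, hC, hK, hCK⟩ := h g hg
  refine ⟨Real.exp 1 * C, K, by positivity, hK, fun M hM => ?_⟩
  have hM' : (1 : ℝ) ≤ M := by exact_mod_cast hM
  have hlog : 0 ≤ Real.log M := Real.log_nonneg hM'
  have hη0 : 0 < 1 / (1 + Real.log M) := by positivity
  have hη1 : 1 / (1 + Real.log M) ≤ 1 := by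
    rw [div_le_one (by linarith)]; linarith
  obtain ⟨hs, hb⟩ := hCK _ hη0 hη1
  rw [one_div_one_div] at hb
  calc ∑ m ∈ Finset.Icc 1 M, ‖g m‖ / m
      ≤ ∑ m ∈ Finset.Icc 1 M, Real.exp 1 * (‖g m‖ * wt (1 / (1 + Real.log M)) m) := by
        refine Finset.sum_le_sum fun m hm => ?_
        rw [Finset.mem_Icc] at hm
        have := HAR_wt hm.1 hm.2
        calc ‖g m‖ / m = ‖g m‖ * (1 / m) := by ring
          _ ≤ ‖g m‖ * (Real.exp 1 * wt (1 / (1 + Real.log M)) m) :=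
            mul_le_mul_of_nonneg_left this (norm_nonneg _)
          _ = _ := by ring
    _ = Real.exp 1 * ∑ m ∈ Finset.Icc 1 M, ‖g m‖ * wt (1 / (1 + Real.log M)) m := by
        rw [Finset.mul_sum]
    _ ≤ Real.exp 1 * ∑' m : ℕ, ‖g m‖ * wt (1 / (1 + Real.log M)) m := by
        refine mul_le_mul_of_nonneg_left ?_ (Real.exp_pos 1).le
        exact hs.sum_le_tsum _ fun m _ =>
          mul_nonneg (norm_nonneg _) (Real.rpow_nonneg (Nat.cast_nonneg m) _)
    _ ≤ Real.exp 1 * (C * (1 + Real.log M) ^ K) := mul_le_mul_of_nonneg_left hb (Real.exp_pos 1).le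
    _ = _ := by ring

end

end Pool.Agent.SelDeg2
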