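import Pool.Agent.SelDeg2.TargetsB

/-! Irrational points: assembly (IRR, KRAT). -/

namespace Pool.Agent.SelDeg2

open Complex Filter Topology MeasureTheory
open Pool.Agent.SelPole Pool.Agent.SelTwo

noncomputable section

namespace IRR_

theorem tend_pow {s : ℝ} (hs : 0 < s) : Tendsto (fun J : ℕ => (J : ℝ) ^ (-s)) atTop (𝓝 0) :=
  (tendsto_rpow_neg_atTop hs).comp tendsto_natCast_atTop_atTop

theorem tend_log {s r : ℝ} (hs : 0 < s) :
    Tendsto (fun J : ℕ => (Real.log J) ^ r * (J : ℝ) ^ (-s)) atTop (𝓝 0) := by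
  have h1 : (fun x : ℝ => Real.log x ^ r) =o[atTop] fun x => x ^ s :=
    isLittleO_log_rpow_rpow_atTop r hs
  have h2 : Tendsto (fun x : ℝ => Real.log x ^ r / x ^ s) atTop (𝓝 0) := h1.tendsto_div_nhds_zero
  have h3 := h2.comp tendsto_natCast_atTop_atTop
  refine h3.congr fun J => ?_
  simp only [Function.comp]
  rw [Real.rpow_neg (Nat.cast_nonneg J), div_eq_mul_inv]

theorem BF_le {η : ℝ} {J : ℕ} (hη : 0 < η) (hη1 : η ≤ 1) (hJ : 1 ≤ J) :
    Real.sqrt (BF η (1 / (8 * (J + 1))) J J (J ^ 3)) ≤ 7 * (J : ℝ) ^ (-(1 / 2) : ℝ) * (1 / η) := by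
  have hJ' : (1 : ℝ) ≤ J := by exact_mod_cast hJ
  have hJ0 : (0 : ℝ) < J := by linarith
  have h1 : BF η (1 / (8 * (J + 1))) J J (J ^ 3) ≤ 49 * ((J : ℝ)⁻¹ * (1 / η) ^ 2) := by
    unfold BF
    push_cast
    have e1 : 2 / η * (1 / (J : ℝ) + 2 / (J * η)) + 2 / (1 / (8 * ((J : ℝ) + 1)) * J ^ 3 * η) =
        (J : ℝ)⁻¹ * (1 / η) ^ 2 * (2 * η + 4 + 16 * ((J : ℝ) + 1) * η / J ^ 2) := by
      field_simp
      ring
    rw [e1]
    have h2 : 16 * ((J : ℝ) + 1) * η / J ^ 2 ≤ 32 := by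
      rw [div_le_iff₀ (by positivity)]
      nlinarith
    have h3 : 0 ≤ (J : ℝ)⁻¹ * (1 / η) ^ 2 := by positivity
    nlinarith
  have h2 : 0 ≤ 7 * (J : ℝ) ^ (-(1 / 2) : ℝ) * (1 / η) := by positivity
  rw [← Real.sqrt_sq h2]
  apply Real.sqrt_le_sqrt
  refine h1.trans (le_of_eq ?_)
  have h3 : ((J : ℝ) ^ (-(1 / 2) : ℝ)) ^ 2 = (J : ℝ)⁻¹ := by
    rw [← Real.rpow_natCast, ← Real.rpow_mul hJ0.le, ← Real.rpow_neg_one]
    norm_num
  rw [mul_pow, mul_pow, h3]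
  ring

end IRR_

open IRR_ in
theorem p_IRR (hRAM : T_RAM) (hDIO : T_DIO) : T_IRR := by
  intro g κ hg hκ ε δ hε hδ
  obtain ⟨C, K, hC, hK, h⟩ := hRAM g κ hg
  set s : ℝ := 1 / (4 * K + 8) with hs
  have hs0 : 0 < s := by positivity
  have hs1 : s ≤ 1 / 8 := by
    rw [hs]
    apply one_div_le_one_div_of_le <;> linarith
  have hKs : K * s ≤ 1 / 4 := by
    rw [hs, mul_one_div, div_le_iff₀ (by positivity)]
    linarith
  -- the limits
  have l1 : Tendsto (fun J : ℕ => C * 4 ^ K * ((Real.log J) ^ K * (J : ℝ) ^ (-s)) +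
      C * 4 ^ K * 2 * ((Real.log J) ^ (K + 1) * (J : ℝ) ^ (-s)) + C * (J : ℝ) ^ (-s) +
      7 * C * (J : ℝ) ^ (-(1 / 4) : ℝ)) atTop (𝓝 (C * 4 ^ K * 0 + C * 4 ^ K * 2 * 0 + C * 0 +
        7 * C * 0)) :=
    ((((tend_log hs0).const_mul _).add ((tend_log hs0).const_mul _)).add
      ((tend_pow hs0).const_mul _)).add ((tend_pow (by norm_num)).const_mul _)
  simp only [mul_zero, add_zero] at l1
  have l2 := tend_pow hs0
  obtain ⟨N, hN⟩ := (((l1.eventually (gt_mem_nhds hε)).and (l2.eventually (gt_mem_nhds hδ))).and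
    (eventually_ge_atTop 3)).exists_forall_of_atTop
  obtain ⟨J, hNJ, hJ1, hJ⟩ := hDIO κ hκ N
  obtain ⟨⟨hε', hδ'⟩, hJ3⟩ := hN J hNJ
  have hJ' : (3 : ℝ) ≤ J := by exact_mod_cast hJ3
  have hJ0 : (0 : ℝ) < J := by linarith
  have hlog : 1 ≤ Real.log J := by
    have h1 : Real.exp 1 ≤ J := by
      have := Real.exp_one_lt_d9
      linarith
    calc (1 : ℝ) = Real.log (Real.exp 1) := (Real.log_exp 1).symm
      _ ≤ Real.log J := Real.log_le_log (Real.exp_pos _) h1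
  set η : ℝ := (J : ℝ) ^ (-s) with hη
  have hη0 : 0 < η := by positivity
  have hη1 : η ≤ 1 := Real.rpow_le_one_of_one_le_of_nonpos (by linarith) (by linarith)
  have hηinv : 1 / η = (J : ℝ) ^ s := by
    rw [hη, Real.rpow_neg hJ0.le, one_div, inv_inv]
  refine ⟨η, hη0, hδ', hη1, lt_of_le_of_lt ?_ hε'⟩
  have hm := h (1 / (8 * (J + 1))) η J J (J ^ 3) (by positivity) hη0 hη1 hJ1 hJ1
    (Nat.one_le_pow _ _ hJ1) (fun j hj1 hj2 z => by
      refine le_trans (le_of_eq ?_) (hJ j hj1 hj2 z)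
      field_simp
      norm_num)
  have hBF := BF_le hη0 hη1 hJ1
  set L := Real.log J with hL
  have hlogη : Real.log (1 / η) ≤ L := by
    rw [hηinv, Real.log_rpow hJ0]
    nlinarith
  have hM0 : Real.log ((J ^ 3 : ℕ) : ℝ) = 3 * L := by
    push_cast
    rw [Real.log_pow, hL]
    norm_num
  have hX : (1 / η) ^ K = (J : ℝ) ^ (K * s) := by
    rw [hηinv, ← Real.rpow_mul hJ0.le, mul_comm]
  have b1 : (1 + L) ^ K ≤ 4 ^ K * L ^ K := by
    rw [← Real.mul_rpow (by norm_num) (by linarith)]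
    exact Real.rpow_le_rpow (by linarith) (by linarith) hK
  have b2 : (1 + 3 * L) ^ K ≤ 4 ^ K * L ^ K := by
    rw [← Real.mul_rpow (by norm_num) (by linarith)]
    exact Real.rpow_le_rpow (by linarith) (by linarith) hK
  have hL0 : 0 < L := by linarith
  have b3 : L ^ (K + 1) = L ^ K * L := by
    rw [Real.rpow_add hL0, Real.rpow_one]
  rw [hM0] at hm
  have b4 : 1 + Real.log (1 / η) ≤ 2 * L := by linarith
  have b40 : 0 ≤ 1 + Real.log (1 / η) := by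
    have h1 : 1 ≤ 1 / η := by
      rw [hηinv]
      exact Real.one_le_rpow (by linarith) hs0.le
    have := Real.log_nonneg h1
    linarith
  have b5 : (J : ℝ) ^ (K * s) * (J : ℝ) ^ (-(1 / 4) : ℝ) ≤ 1 := by
    rw [← Real.rpow_add hJ0]
    exact Real.rpow_le_one_of_one_le_of_nonpos (by linarith) (by linarith)
  have b6 : (J : ℝ) ^ (K * s) * (J : ℝ) ^ (-(1 / 2) : ℝ) ≤ (J : ℝ) ^ (-(1 / 4) : ℝ) := by
    rw [← Real.rpow_add hJ0]
    exact Real.rpow_le_rpow_of_exponent_le (by linarith) (by linarith)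
  rw [hX] at hm
  have hLK : 0 ≤ L ^ K := by positivity
  have h4K : (0 : ℝ) ≤ 4 ^ K := by positivity
  have t1 : η * (C * (1 + L) ^ K) ≤ C * 4 ^ K * (L ^ K * η) := by
    calc η * (C * (1 + L) ^ K) ≤ η * (C * (4 ^ K * L ^ K)) := by gcongr
      _ = _ := by ring
  have t2 : η * (C * (1 + 3 * L) ^ K * (1 + Real.log (1 / η))) ≤
      C * 4 ^ K * 2 * (L ^ (K + 1) * η) := by
    calc η * (C * (1 + 3 * L) ^ K * (1 + Real.log (1 / η))) ≤
        η * (C * (4 ^ K * L ^ K) * (2 * L)) := by gcongr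
      _ = _ := by rw [b3]; ring
  have t3 : η * (C * (J : ℝ) ^ (K * s) * (J : ℝ) ^ (-(1 / 4) : ℝ)) ≤ C * η := by
    calc η * (C * (J : ℝ) ^ (K * s) * (J : ℝ) ^ (-(1 / 4) : ℝ)) =
        C * η * ((J : ℝ) ^ (K * s) * (J : ℝ) ^ (-(1 / 4) : ℝ)) := by ring
      _ ≤ C * η * 1 := by gcongr
      _ = _ := mul_one _
  have t4 : η * (C * (J : ℝ) ^ (K * s) * Real.sqrt (BF η (1 / (8 * (J + 1))) J J (J ^ 3))) ≤
      7 * C * (J : ℝ) ^ (-(1 / 4) : ℝ) := by
    calc η * (C * (J : ℝ) ^ (K * s) * Real.sqrt (BF η (1 / (8 * (J + 1))) J J (J ^ 3))) ≤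
        η * (C * (J : ℝ) ^ (K * s) * (7 * (J : ℝ) ^ (-(1 / 2) : ℝ) * (1 / η))) := by gcongr
      _ = 7 * C * ((J : ℝ) ^ (K * s) * (J : ℝ) ^ (-(1 / 2) : ℝ)) := by
          field_simp
      _ ≤ _ := by gcongr
  calc η * ‖SS g κ η‖ ≤ η * (C * (1 + L) ^ K + C * (1 + 3 * L) ^ K * (1 + Real.log (1 / η)) +
      C * (J : ℝ) ^ (K * s) * (J : ℝ) ^ (-(1 / 4) : ℝ) +
      C * (J : ℝ) ^ (K * s) * Real.sqrt (BF η (1 / (8 * (J + 1))) J J (J ^ 3))) :=
        mul_le_mul_of_nonneg_left hm hη0.le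
    _ = η * (C * (1 + L) ^ K) + η * (C * (1 + 3 * L) ^ K * (1 + Real.log (1 / η))) +
      η * (C * (J : ℝ) ^ (K * s) * (J : ℝ) ^ (-(1 / 4) : ℝ)) +
      η * (C * (J : ℝ) ^ (K * s) * Real.sqrt (BF η (1 / (8 * (J + 1))) J J (J ^ 3))) := by ring
    _ ≤ _ := by linarith

theorem p_KRAT (hMDG : T_MDG) (hIRR : T_IRR) : T_KRAT := by
  intro F a b r R₀ A₁ κ θ hS hpole hMS hD hκ
  obtain ⟨hr, hR, hlim⟩ := hpole
  obtain ⟨C, hC⟩ := hD.rel 1 one_pos
  have hg := hMDG F a b θ hS hMS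
  -- the function on the real line
  have h1 : Tendsto (fun η : ℝ => (1 : ℂ) + η) (𝓝[>] 0) (𝓝[≠] 1) := by
    refine tendsto_nhdsWithin_iff.2 ⟨?_, ?_⟩
    · have : Continuous fun η : ℝ => (1 : ℂ) + η := by fun_prop
      have h := this.tendsto 0
      simp only [ofReal_zero, add_zero] at h
      exact h.mono_left nhdsWithin_le_nhds
    · filter_upwards [self_mem_nhdsWithin] with η hη
      have : (η : ℂ) ≠ 0 := by exact_mod_cast (ne_of_gt hη)
      simpa using this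
  have h2 := (hlim.comp h1).norm
  have h3 : 0 < ‖R₀‖ := norm_pos_iff.2 hR
  -- lower bound near zero
  have h4 : ∀ᶠ η : ℝ in 𝓝[>] 0, ‖R₀‖ / 2 < η ^ r * ‖F (1 + η)‖ := by
    filter_upwards [h2.eventually (lt_mem_nhds (show ‖R₀‖ / 2 < ‖R₀‖ by linarith)),
      self_mem_nhdsWithin] with η hη hη0
    simp only [Function.comp, add_sub_cancel_left, norm_mul, norm_pow, Complex.norm_real,
      Real.norm_of_nonneg (le_of_lt (show (0 : ℝ) < η from hη0))] at hη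
    exact hη
  obtain ⟨δ₀, hδ₀, hδ⟩ := mem_nhdsGT_iff_exists_Ioo_subset.1 h4
  have hδ₀' : (0 : ℝ) < δ₀ := hδ₀
  -- choose eta
  set D : ℝ := ‖A₁‖ * max (1 / κ) 1 with hDdef
  have hκ0 := hD.κ_pos
  have hD0 : 0 < D := mul_pos (norm_pos_iff.2 hD.A_ne) (lt_max_of_lt_right one_pos)
  set ε : ℝ := ‖R₀‖ / (8 * D) with hε
  have hε0 : 0 < ε := by positivity
  have hCp : 0 < ‖R₀‖ / (8 * (|C| + 1)) := by positivity
  obtain ⟨η, hη0, hηδ, hη1, hηε⟩ := hIRR (gth θ a) κ hg hκ ε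
    (min δ₀ (‖R₀‖ / (8 * (|C| + 1)))) hε0 (lt_min hδ₀' hCp)
  have h5 := hδ ⟨hη0, hηδ.trans_le (min_le_left _ _)⟩
  simp only [Set.mem_ofPred_eq] at h5
  have h6 := hC η hη0 hη1
  have e1 : SS a 1 η = F (1 + η) := by
    have hre : 1 < ((1 : ℂ) + η).re := by simpa using hη0
    rw [hS.eq_series _ hre]
    unfold SS
    refine LSeries_congr (fun {n} _ => ?_) _
    have : ee (n * 1) = 1 := by
      unfold ee
      rw [mul_one]
      have := Complex.exp_nat_mul_two_pi_mul_I n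
      rw [← this]
      congr 1
      push_cast
      ring
    rw [this, mul_one]
  rw [e1] at h6
  simp only [ofReal_one, Complex.one_cpow, mul_one, one_pow, div_one] at h6
  have h7 : ‖F (1 + η)‖ ≤ |C| + D * ‖SS (gth θ a) κ η‖ := by
    have h8 : ‖F (1 + η)‖ ≤ ‖F (1 + η) - A₁ * (((1 / κ) ^ η : ℝ) : ℂ) *
        (starRingEnd ℂ) (SS (gth θ a) κ η)‖ + ‖A₁ * (((1 / κ) ^ η : ℝ) : ℂ) *
        (starRingEnd ℂ) (SS (gth θ a) κ η)‖ := by
      have := norm_add_le (F (1 + η) - A₁ * (((1 / κ) ^ η : ℝ) : ℂ) *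
        (starRingEnd ℂ) (SS (gth θ a) κ η)) (A₁ * (((1 / κ) ^ η : ℝ) : ℂ) *
        (starRingEnd ℂ) (SS (gth θ a) κ η))
      rwa [sub_add_cancel] at this
    refine h8.trans (add_le_add (h6.trans (le_abs_self C)) ?_)
    rw [norm_mul, norm_mul, RCLike.norm_conj, Complex.norm_real,
      Real.norm_of_nonneg (by positivity)]
    refine mul_le_mul_of_nonneg_right ?_ (norm_nonneg _)
    rw [hDdef]
    refine mul_le_mul_of_nonneg_left ?_ (norm_nonneg _)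
    rcases le_total 1 (1 / κ) with h | h
    · refine le_trans ?_ (le_max_left _ _)
      calc (1 / κ) ^ η ≤ (1 / κ) ^ (1 : ℝ) := Real.rpow_le_rpow_of_exponent_le h hη1
        _ = 1 / κ := Real.rpow_one _
    · refine le_trans ?_ (le_max_right _ _)
      exact Real.rpow_le_one (by positivity) h hη0.le
  have h9 : η ^ r ≤ η := by
    calc η ^ r ≤ η ^ 1 := pow_le_pow_of_le_one hη0.le hη1 hr
      _ = η := pow_one _
  have h10 : η ^ r * ‖F (1 + η)‖ ≤ η * |C| + D * (η * ‖SS (gth θ a) κ η‖) := by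
    calc η ^ r * ‖F (1 + η)‖ ≤ η * (|C| + D * ‖SS (gth θ a) κ η‖) :=
          mul_le_mul h9 h7 (norm_nonneg _) hη0.le
      _ = _ := by ring
  have h11 : η * |C| ≤ ‖R₀‖ / 8 := by
    have h12 : η ≤ ‖R₀‖ / (8 * (|C| + 1)) := (hηδ.trans_le (min_le_right _ _)).le
    calc η * |C| ≤ ‖R₀‖ / (8 * (|C| + 1)) * (|C| + 1) := by
          gcongr
          linarith
      _ = ‖R₀‖ / 8 := by field_simp
  have h13 : D * (η * ‖SS (gth θ a) κ η‖) ≤ ‖R₀‖ / 8 := by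
    calc D * (η * ‖SS (gth θ a) κ η‖) ≤ D * ε := by gcongr
      _ = ‖R₀‖ / 8 := by rw [hε]; field_simp
  linarith

end

end Pool.Agent.SelDeg2
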