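import Pool.Agent.SelDeg2.TargetsA

/-!
# KER: asymptotics of the kernel (MP_995735_nt, job ST-KER)
-/

namespace Pool.Agent.SelDeg2

open Complex Filter Topology MeasureTheory
open Pool.Agent.SelTwo

noncomputable section

namespace Ker

/-- main exponent in Stirling's formula -/
def kex (l σ : ℝ) (m : ℂ) (t : ℝ) : ℂ :=
  (Real.log (2 * Real.pi) / 2 : ℝ) +
    ((l : ℂ) * vl σ t + m - 1 / 2) *
      ((Real.log t : ℂ) + (Real.log l : ℂ) + (Real.pi / 2 : ℝ) * I) -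
    (l * t : ℝ) * I

theorem G1' (h : T_G1) (l σ : ℝ) (m : ℂ) (hl : 0 < l) : ∃ (e : ℝ → ℂ) (C : ℝ), 0 ≤ C ∧
    ∀ᶠ t : ℝ in atTop, ‖e t‖ ≤ C / t ∧
      Gamma ((l : ℂ) * vl σ t + m) = exp (kex l σ m t + e t) := by
  obtain ⟨C, T₀, hT, h1⟩ := h l σ m hl
  choose e he using h1
  refine ⟨fun t => if ht : T₀ ≤ t then e t ht else 0, |C|, abs_nonneg _, ?_⟩
  filter_upwards [eventually_ge_atTop T₀] with t ht
  have ht0 : 0 < t := by linarith
  simp only [dif_pos ht]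
  refine ⟨(he t ht).1.trans ?_, ?_⟩
  · gcongr
    exact le_abs_self C
  · rw [(he t ht).2]
    rfl

/-- a bound near infinity extends to the half line by compactness -/
theorem ext_bound {f : ℝ → ℂ} (hf : Continuous f) {g : ℝ → ℝ} (hg : Continuous g)
    (hpos : ∀ t, 0 ≤ t → 0 < g t) {C : ℝ} (h : ∀ᶠ t : ℝ in atTop, ‖f t‖ ≤ C * g t) :
    ∃ C' : ℝ, 0 ≤ C' ∧ ∀ t : ℝ, 0 ≤ t → ‖f t‖ ≤ C' * g t := by
  obtain ⟨T, hT⟩ := (h.and (eventually_ge_atTop 0)).exists_forall_of_atTop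
  have hT0 : 0 ≤ T := (hT T le_rfl).2
  have hcont : ContinuousOn (fun t => ‖f t‖ / g t) (Set.Icc 0 T) :=
    (hf.norm.continuousOn).div hg.continuousOn (fun t ht => (hpos t ht.1).ne')
  obtain ⟨D, hD⟩ := isCompact_Icc.exists_bound_of_continuousOn hcont
  refine ⟨max |C| |D|, (abs_nonneg _).trans (le_max_left _ _), fun t ht => ?_⟩
  have hg0 := hpos t ht
  rcases le_total T t with h1 | h1
  · calc ‖f t‖ ≤ C * g t := (hT t h1).1
      _ ≤ max |C| |D| * g t := by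
          gcongr
          exact (le_abs_self C).trans (le_max_left _ _)
  · have h2 := hD t ⟨ht, h1⟩
    rw [Real.norm_eq_abs, abs_of_nonneg (by positivity), div_le_iff₀ hg0] at h2
    calc ‖f t‖ ≤ D * g t := h2
      _ ≤ max |C| |D| * g t := by
          gcongr
          exact (le_abs_self D).trans (le_max_right _ _)

theorem vl_re (σ t : ℝ) : (vl σ t).re = σ := by simp [vl]

theorem vl_im (σ t : ℝ) : (vl σ t).im = t := by simp [vl]

theorem vl_cont (σ : ℝ) : Continuous (fun t : ℝ => vl σ t) := by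
  unfold vl
  fun_prop

theorem conj_vl (σ t : ℝ) : (starRingEnd ℂ) (vl σ t) = vl σ (-t) := by
  simp [vl]

theorem one_sub_vl (t : ℝ) : 1 - vl (5 / 4) t = vl (-1 / 4) (-t) := by
  simp only [vl]
  push_cast
  ring

theorem gamma_ne {z : ℂ} (hz : 0 < z.re ∨ z.im ≠ 0 ∨ z.re = -1 / 4) (n : ℕ) :
    z ≠ -(n : ℂ) := by
  intro h
  rcases hz with h1 | h1 | h1
  · rw [h] at h1
    simp at h1
    have := n.cast_nonneg (α := ℝ)
    linarith
  · rw [h] at h1
    simp at h1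
  · rw [h] at h1
    simp at h1
    have h2 : (4 * n : ℝ) = 1 := by linarith
    have h3 : 4 * n = 1 := by exact_mod_cast h2
    omega

theorem gamma_cont_comp {f : ℝ → ℂ} (hf : Continuous f) (h : ∀ t, ∀ n : ℕ, f t ≠ -(n : ℂ)) :
    Continuous (fun t => Gamma (f t)) := by
  rw [continuous_iff_continuousAt]
  intro t
  exact ((differentiableAt_Gamma _ (h t)).continuousAt).comp hf.continuousAt

theorem gP_cont (k : ℕ) (l : Fin k → ℝ) (m : Fin k → ℂ) (hl : ∀ j, 0 < l j)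
    (hm : ∀ j, 0 ≤ (m j).re) : Continuous (fun τ : ℝ => gP k l m (vl (5 / 4) τ)) := by
  unfold gP
  refine continuous_finsetProd _ (fun j _ => ?_)
  refine Continuous.mul ?_ ?_
  · refine gamma_cont_comp ?_ (fun t n => gamma_ne (Or.inl ?_) n)
    · have := vl_cont (5 / 4)
      fun_prop
    · have h1 : ((l j : ℂ) * vl (5 / 4) t + (starRingEnd ℂ) (m j)).re = l j * (5 / 4) + (m j).re := by
        simp [vl]
      rw [h1]
      have := hl j
      have := hm j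
      positivity
  · have h1 : Continuous (fun z : ℂ => (Gamma z)⁻¹) := differentiable_one_div_Gamma.continuous
    have := vl_cont (5 / 4)
    exact h1.comp (by fun_prop)

/-- the kernel -/
def kk (k : ℕ) (l : Fin k → ℝ) (m : Fin k → ℂ) (t : ℝ) : ℂ :=
  Gamma (1 - vl (5 / 4) t) * gP k l m (vl (5 / 4) t)

theorem kk_cont (k : ℕ) (l : Fin k → ℝ) (m : Fin k → ℂ) (hl : ∀ j, 0 < l j)
    (hm : ∀ j, 0 ≤ (m j).re) : Continuous (kk k l m) := by
  unfold kk
  refine Continuous.mul ?_ (gP_cont k l m hl hm)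
  refine gamma_cont_comp ?_ (fun t n => gamma_ne (Or.inr (Or.inr ?_)) n)
  · have := vl_cont (5 / 4)
    fun_prop
  · rw [one_sub_vl, vl_re]

theorem kk_conj (k : ℕ) (l : Fin k → ℝ) (m : Fin k → ℂ) (t : ℝ) :
    kk k l m (-t) = (starRingEnd ℂ) (kk k l (fun j => (starRingEnd ℂ) (m j)) t) := by
  have h1 : vl (5 / 4) (-t) = (starRingEnd ℂ) (vl (5 / 4) t) := (conj_vl _ _).symm
  simp only [kk, gP, h1, map_mul, map_prod, map_inv₀, ← Gamma_conj, map_sub, map_one, map_add,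
    conj_ofReal, Complex.conj_conj]

/-- the model -/
theorem gamma_cont (θ : ℝ) : Continuous (fun t : ℝ => Gamma (vl (5 / 4) t + θ * I)) := by
  refine gamma_cont_comp ?_ (fun t n => gamma_ne (Or.inl ?_) n)
  · have := vl_cont (5 / 4)
    fun_prop
  · have h1 : (vl (5 / 4) t + θ * I).re = 5 / 4 := by simp [vl]
    rw [h1]
    norm_num

theorem kex_re (θ t : ℝ) : (kex 1 (5 / 4) (θ * I) t).re =
    Real.log (2 * Real.pi) / 2 + 3 / 4 * Real.log t - (t + θ) * (Real.pi / 2) := by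
  have h1 : kex 1 (5 / 4) (θ * I) t =
      ((Real.log (2 * Real.pi) / 2 + 3 / 4 * Real.log t - (t + θ) * (Real.pi / 2) : ℝ) : ℂ) +
        (((t + θ) * Real.log t + 3 / 4 * (Real.pi / 2) - t : ℝ) : ℂ) * I := by
    simp only [kex, vl, Real.log_one]
    push_cast
    linear_combination ((t : ℂ) + θ) * (Real.pi / 2) * I_sq
  rw [h1]
  simp

theorem gamma_bd (h : T_G1) (θ : ℝ) : ∃ C : ℝ, 0 ≤ C ∧ ∀ t : ℝ, 0 ≤ t →
    ‖Gamma (vl (5 / 4) t + θ * I)‖ ≤
      C * ((1 + t) ^ (3 / 4 : ℝ) * Real.exp (-(Real.pi * t / 2))) := by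
  obtain ⟨e, C, hC, he⟩ := G1' h 1 (5 / 4) (θ * I) one_pos
  refine ext_bound (C := Real.exp (Real.log (2 * Real.pi) / 2 - θ * (Real.pi / 2) + C))
    (gamma_cont θ) (g := fun t => (1 + t) ^ (3 / 4 : ℝ) * Real.exp (-(Real.pi * t / 2)))
    ((Continuous.rpow_const (by fun_prop) fun x => Or.inr (by norm_num)).mul (by fun_prop))
    (fun t ht => by positivity) ?_
  filter_upwards [he, eventually_ge_atTop 1] with t h1 ht
  obtain ⟨h1, h2⟩ := h1
  have ht0 : 0 < t := by linarith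
  rw [ofReal_one, one_mul] at h2
  rw [h2, norm_exp, add_re, kex_re]
  have h3 : (e t).re ≤ C := by
    refine (re_le_norm _).trans (h1.trans ?_)
    exact div_le_self hC ht
  have h4 : Real.exp (Real.log (2 * Real.pi) / 2 - θ * (Real.pi / 2) + C) *
      ((1 + t) ^ (3 / 4 : ℝ) * Real.exp (-(Real.pi * t / 2))) = (1 + t) ^ (3 / 4 : ℝ) *
      Real.exp (Real.log (2 * Real.pi) / 2 - θ * (Real.pi / 2) + C - Real.pi * t / 2) := by
    rw [sub_eq_add_neg _ (Real.pi * t / 2), Real.exp_add _ (-(Real.pi * t / 2))]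
    ring
  have h5 : Real.exp (Real.log (2 * Real.pi) / 2 + 3 / 4 * Real.log t -
      (t + θ) * (Real.pi / 2) + (e t).re) = t ^ (3 / 4 : ℝ) *
      Real.exp (Real.log (2 * Real.pi) / 2 - θ * (Real.pi / 2) + (e t).re -
        Real.pi * t / 2) := by
    rw [Real.rpow_def_of_pos ht0, ← Real.exp_add]
    congr 1
    ring
  rw [h4, h5]
  have h6 : t ^ (3 / 4 : ℝ) ≤ (1 + t) ^ (3 / 4 : ℝ) :=
    Real.rpow_le_rpow ht0.le (by linarith) (by norm_num)
  gcongr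

theorem gamma_bd1 (h : T_G1) (θ : ℝ) : ∃ C : ℝ, 0 ≤ C ∧ ∀ t : ℝ, 0 ≤ t →
    ‖Gamma (vl (5 / 4) t + θ * I)‖ ≤ C * ((1 + t) * Real.exp (-(Real.pi * t / 2))) := by
  obtain ⟨C, hC, h1⟩ := gamma_bd h θ
  refine ⟨C, hC, fun t ht => (h1 t ht).trans ?_⟩
  have h2 : (1 + t) ^ (3 / 4 : ℝ) ≤ 1 + t := by
    calc (1 + t) ^ (3 / 4 : ℝ) ≤ (1 + t) ^ (1 : ℝ) :=
          Real.rpow_le_rpow_of_exponent_le (by linarith) (by norm_num)
      _ = 1 + t := Real.rpow_one _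
  gcongr

/-- log of the constant `A` -/
def cA (k : ℕ) (l : Fin k → ℝ) (m : Fin k → ℂ) : ℂ :=
  -((2 * ∑ j, (m j).im : ℝ) : ℂ) * (Real.pi / 2) - ((∑ j, 2 * l j * Real.log (l j) : ℝ) : ℂ) / 2 +
    ∑ j, (-(2 * (m j).im * Real.log (l j) : ℝ) * I +
      I * (Real.pi / 2) * ((l j + 2 * (m j).re - 1 : ℝ) : ℂ))

theorem kex_diff (l : ℝ) (m : ℂ) (t : ℝ) :
    kex l (5 / 4) ((starRingEnd ℂ) m) t -
      (starRingEnd ℂ) (kex l (-1 / 4) ((starRingEnd ℂ) m) t) =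
    (l : ℂ) * (2 * (3 / 4 + t * I) * Real.log t - 2 * t * I) + ((2 * m.im : ℝ) : ℂ) *
      (-(I * Real.log t)) + ((2 * l * Real.log l : ℝ) : ℂ) * (3 / 4 + t * I) +
      (-(2 * m.im * Real.log l : ℝ) * I +
      I * (Real.pi / 2) * ((l + 2 * m.re - 1 : ℝ) : ℂ)) := by
  have hm : (starRingEnd ℂ) m = (m.re : ℂ) - m.im * I := by
    apply Complex.ext <;> simp
  have hm2 : m = (m.re : ℂ) + m.im * I := (re_add_im m).symm
  simp only [kex, map_sub, map_add, map_mul, conj_ofReal, conj_vl, Complex.conj_conj, conj_I,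
    map_div₀, map_one, map_ofNat]
  rw [hm]
  nth_rw 3 [hm2]
  simp only [vl]
  push_cast
  ring_nf
  try simp only [I_sq]
  try ring_nf

theorem kex_sum (k : ℕ) (l : Fin k → ℝ) (m : Fin k → ℂ) (hs : ∑ j, l j = 1) (t : ℝ) :
    (starRingEnd ℂ) (kex 1 (-1 / 4) 0 t) + ∑ j, (kex (l j) (5 / 4) ((starRingEnd ℂ) (m j)) t -
      (starRingEnd ℂ) (kex (l j) (-1 / 4) ((starRingEnd ℂ) (m j)) t)) =
    kex 1 (5 / 4) (((-(2 * ∑ j, (m j).im) : ℝ) : ℂ) * I) t +
      ((∑ j, 2 * l j * Real.log (l j) : ℝ) : ℂ) * vl (5 / 4) t + cA k l m := by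
  have h1 : ∑ j, (kex (l j) (5 / 4) ((starRingEnd ℂ) (m j)) t -
      (starRingEnd ℂ) (kex (l j) (-1 / 4) ((starRingEnd ℂ) (m j)) t)) =
      ((∑ j, l j : ℝ) : ℂ) * (2 * (3 / 4 + t * I) * Real.log t - 2 * t * I) +
        ((2 * ∑ j, (m j).im : ℝ) : ℂ) * (-(I * Real.log t)) +
        ((∑ j, 2 * l j * Real.log (l j) : ℝ) : ℂ) * (3 / 4 + t * I) +
        ∑ j, (-(2 * (m j).im * Real.log (l j) : ℝ) * I +
      I * (Real.pi / 2) * ((l j + 2 * (m j).re - 1 : ℝ) : ℂ)) := by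
    rw [Finset.sum_congr rfl (fun j _ => kex_diff (l j) (m j) t)]
    rw [Finset.sum_add_distrib, Finset.sum_add_distrib, Finset.sum_add_distrib,
      ← Finset.sum_mul, ← Finset.sum_mul, ← Finset.sum_mul, Finset.mul_sum]
    push_cast
    rfl
  rw [h1, hs, cA]
  generalize (∑ j, (-(2 * (m j).im * Real.log (l j) : ℝ) * I +
      I * (Real.pi / 2) * ((l j + 2 * (m j).re - 1 : ℝ) : ℂ))) = c
  generalize (∑ j, 2 * l j * Real.log (l j) : ℝ) = r
  generalize (2 * ∑ j, (m j).im : ℝ) = θ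
  simp only [kex, map_sub, map_add, map_mul, conj_ofReal, conj_vl, conj_I, map_div₀, map_one,
    map_ofNat, map_zero, Real.log_one]
  simp only [vl]
  push_cast
  ring_nf
  try simp only [I_sq]
  try ring_nf

theorem kk_main (h : T_G1) (k : ℕ) (l : Fin k → ℝ) (m : Fin k → ℂ) (hl : ∀ j, 0 < l j)
    (hs : ∑ j, l j = 1) : ∃ (e : ℝ → ℂ) (C : ℝ), 0 ≤ C ∧
    ∀ᶠ t : ℝ in atTop, ‖e t‖ ≤ C / t ∧
      kk k l m t = exp (cA k l m) *
        ((Real.exp (∑ j, 2 * l j * Real.log (l j)) : ℝ) : ℂ) ^ (vl (5 / 4) t) *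
        Gamma (vl (5 / 4) t + ((-(2 * ∑ j, (m j).im) : ℝ) : ℂ) * I) * exp (e t) := by
  obtain ⟨e1, C1, hC1, h1⟩ := G1' h 1 (-1 / 4) 0 one_pos
  have h2' := fun j => G1' h (l j) (5 / 4) ((starRingEnd ℂ) (m j)) (hl j)
  choose e2 C2 hC2 h2 using h2'
  have h3' := fun j => G1' h (l j) (-1 / 4) ((starRingEnd ℂ) (m j)) (hl j)
  choose e3 C3 hC3 h3 using h3'
  obtain ⟨e4, C4, hC4, h4⟩ := G1' h 1 (5 / 4) (((-(2 * ∑ j, (m j).im) : ℝ) : ℂ) * I) one_pos
  refine ⟨fun t => (starRingEnd ℂ) (e1 t) + ∑ j, (e2 j t - (starRingEnd ℂ) (e3 j t)) - e4 t,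
    C1 + ∑ j, (C2 j + C3 j) + C4, add_nonneg (add_nonneg hC1
      (Finset.sum_nonneg fun j _ => add_nonneg (hC2 j) (hC3 j))) hC4, ?_⟩
  filter_upwards [h1, h4, eventually_all.2 h2, eventually_all.2 h3, eventually_gt_atTop 0]
    with t h1 h4 h2 h3 ht
  constructor
  · have hb : ‖∑ j, (e2 j t - (starRingEnd ℂ) (e3 j t))‖ ≤ (∑ j, (C2 j + C3 j)) / t := by
      rw [Finset.sum_div]
      refine (norm_sum_le _ _).trans (Finset.sum_le_sum fun j _ => ?_)
      refine (norm_sub_le _ _).trans ?_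
      rw [RCLike.norm_conj, add_div]
      exact add_le_add (h2 j).1 (h3 j).1
    calc _ ≤ ‖(starRingEnd ℂ) (e1 t) + ∑ j, (e2 j t - (starRingEnd ℂ) (e3 j t))‖ + ‖e4 t‖ :=
          norm_sub_le _ _
      _ ≤ ‖(starRingEnd ℂ) (e1 t)‖ + ‖∑ j, (e2 j t - (starRingEnd ℂ) (e3 j t))‖ + ‖e4 t‖ := by
          gcongr
          exact norm_add_le _ _
      _ ≤ C1 / t + (∑ j, (C2 j + C3 j)) / t + C4 / t := by
          rw [RCLike.norm_conj]
          gcongr
          · exact h1.1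
          · exact h4.1
      _ = _ := by ring
  · have g1 : Gamma (1 - vl (5 / 4) t) = exp ((starRingEnd ℂ) (kex 1 (-1 / 4) 0 t + e1 t)) := by
      rw [exp_conj, ← h1.2, ← Gamma_conj]
      congr 1
      simp only [map_add, map_mul, conj_vl, map_zero, conj_ofReal, one_sub_vl]
      push_cast
      ring
    have g2 : gP k l m (vl (5 / 4) t) = exp (∑ j, ((kex (l j) (5 / 4) ((starRingEnd ℂ) (m j)) t +
        e2 j t) - (starRingEnd ℂ) (kex (l j) (-1 / 4) ((starRingEnd ℂ) (m j)) t + e3 j t))) := by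
      rw [gP, exp_sum]
      refine Finset.prod_congr rfl fun j _ => ?_
      rw [exp_sub, ← (h2 j).2, exp_conj, ← (h3 j).2, ← Gamma_conj]
      refine Eq.trans ?_ (div_eq_mul_inv _ _).symm
      congr 3
      simp only [map_add, map_mul, conj_vl, conj_ofReal, one_sub_vl, Complex.conj_conj]
    have g4 : Gamma (vl (5 / 4) t + ((-(2 * ∑ j, (m j).im) : ℝ) : ℂ) * I) =
        exp (kex 1 (5 / 4) (((-(2 * ∑ j, (m j).im) : ℝ) : ℂ) * I) t + e4 t) := by
      rw [← h4.2, ofReal_one, one_mul]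
    have g5 : ((Real.exp (∑ j, 2 * l j * Real.log (l j)) : ℝ) : ℂ) ^ (vl (5 / 4) t) =
        exp (((∑ j, 2 * l j * Real.log (l j) : ℝ) : ℂ) * vl (5 / 4) t) := by
      rw [cpow_def_of_ne_zero (by exact_mod_cast (Real.exp_pos _).ne'), ← ofReal_log
        (Real.exp_pos _).le, Real.log_exp]
    rw [kk, g1, g2, g4, g5, ← exp_add, ← exp_add, ← exp_add, ← exp_add]
    congr 1
    have hk := kex_sum k l m hs t
    simp only [map_add, Finset.sum_sub_distrib, Finset.sum_add_distrib] at hk ⊢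
    linear_combination hk

end Ker

open Ker in
theorem p_KER (h : T_G1) : T_KER := by
  intro k l m hl hm hs
  set r : ℝ := ∑ j, 2 * l j * Real.log (l j) with hr
  set θ : ℝ := 2 * ∑ j, (m j).im with hθ
  set A : ℂ := exp (cA k l m) with hA
  have hRpos : 0 < Real.exp r := Real.exp_pos _
  have hRn : ∀ t : ℝ, ‖((Real.exp r : ℝ) : ℂ) ^ (vl (5 / 4) t)‖ = Real.exp r ^ (5 / 4 : ℝ) := by
    intro t
    rw [norm_cpow_eq_rpow_re_of_pos hRpos, vl_re]
  -- the model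
  have hmc : Continuous (fun t : ℝ => A * ((Real.exp r : ℝ) : ℂ) ^ (vl (5 / 4) t) *
      Gamma (vl (5 / 4) t + ((-θ : ℝ) : ℂ) * I)) := by
    refine Continuous.mul (Continuous.mul continuous_const ?_) (gamma_cont _)
    have h0 : ((Real.exp r : ℝ) : ℂ) ≠ 0 := by exact_mod_cast hRpos.ne'
    exact (vl_cont _).const_cpow (Or.inl h0)
  -- first bound for general m
  have key : ∀ m' : Fin k → ℂ, (∀ j, 0 ≤ (m' j).re) → ∃ C : ℝ, 0 ≤ C ∧ ∀ t : ℝ, 0 ≤ t →
      ‖kk k l m' t‖ ≤ C * ((1 + t) * Real.exp (-(Real.pi * t / 2))) := by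
    intro m' hm'
    obtain ⟨e, C, hC, he⟩ := kk_main h k l m' hl hs
    obtain ⟨G, hG, hG2⟩ := gamma_bd1 h (-(2 * ∑ j, (m' j).im))
    refine ext_bound (C := ‖exp (cA k l m')‖ * Real.exp r ^ (5 / 4 : ℝ) * G * Real.exp C)
      (kk_cont k l m' hl hm') (by fun_prop) (fun t ht => by positivity) ?_
    filter_upwards [he, eventually_ge_atTop 1] with t he ht
    have ht0 : 0 ≤ t := by linarith
    rw [he.2, norm_mul, norm_mul, norm_mul, hRn t]
    have h1 : ‖exp (e t)‖ ≤ Real.exp C := by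
      rw [norm_exp, Real.exp_le_exp]
      exact (re_le_norm _).trans (he.1.trans (div_le_self hC ht))
    calc _ ≤ ‖exp (cA k l m')‖ * Real.exp r ^ (5 / 4 : ℝ) *
          (G * ((1 + t) * Real.exp (-(Real.pi * t / 2)))) * Real.exp C := by
          gcongr
          exact hG2 t ht0
      _ = _ := by ring
  obtain ⟨e, C, hC, he⟩ := kk_main h k l m hl hs
  obtain ⟨G, hG, hG2⟩ := gamma_bd h (-θ)
  have hcc : Continuous (fun t : ℝ => kk k l m t - A * ((Real.exp r : ℝ) : ℂ) ^ (vl (5 / 4) t) *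
      Gamma (vl (5 / 4) t + ((-θ : ℝ) : ℂ) * I)) := (kk_cont k l m hl hm).sub hmc
  have hfirst : ∃ C' : ℝ, 0 ≤ C' ∧ ∀ t : ℝ, 0 ≤ t → ‖kk k l m t -
      A * ((Real.exp r : ℝ) : ℂ) ^ (vl (5 / 4) t) *
      Gamma (vl (5 / 4) t + ((-θ : ℝ) : ℂ) * I)‖ ≤
        C' * ((1 + t) ^ (3 / 4 : ℝ) * (1 + t)⁻¹ * Real.exp (-(Real.pi * t / 2))) := by
    -- near infinity
    obtain ⟨T, hT⟩ := ((he.and (eventually_ge_atTop C)).and
      (eventually_ge_atTop (1 : ℝ))).exists_forall_of_atTop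
    have hfar : ∀ t : ℝ, T ≤ t → ‖kk k l m t - A * ((Real.exp r : ℝ) : ℂ) ^ (vl (5 / 4) t) *
        Gamma (vl (5 / 4) t + ((-θ : ℝ) : ℂ) * I)‖ ≤
        ‖A‖ * Real.exp r ^ (5 / 4 : ℝ) * G * (4 * C) *
          ((1 + t) ^ (3 / 4 : ℝ) * (1 + t)⁻¹ * Real.exp (-(Real.pi * t / 2))) := by
      intro t htT
      obtain ⟨⟨he, htC⟩, ht⟩ := hT t htT
      have ht0 : 0 < t := by linarith
      rw [he.2]
      rw [← hr, ← hθ, ← hA]
      have h1 : ‖exp (e t) - 1‖ ≤ 2 * ‖e t‖ := by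
        refine norm_exp_sub_one_le (he.1.trans ?_)
        rw [div_le_one ht0]
        exact htC
      have h2 : A * ((Real.exp r : ℝ) : ℂ) ^ (vl (5 / 4) t) *
          Gamma (vl (5 / 4) t + ((-θ : ℝ) : ℂ) * I) * exp (e t) -
          A * ((Real.exp r : ℝ) : ℂ) ^ (vl (5 / 4) t) *
          Gamma (vl (5 / 4) t + ((-θ : ℝ) : ℂ) * I) =
          A * ((Real.exp r : ℝ) : ℂ) ^ (vl (5 / 4) t) *
          Gamma (vl (5 / 4) t + ((-θ : ℝ) : ℂ) * I) * (exp (e t) - 1) := by ring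
      rw [h2, norm_mul, norm_mul, norm_mul, hRn t]
      have h3 : ‖exp (e t) - 1‖ ≤ 4 * C * (1 + t)⁻¹ := by
        refine h1.trans ?_
        have h4 : ‖e t‖ ≤ 2 * C * (1 + t)⁻¹ := by
          refine he.1.trans ?_
          rw [← div_eq_mul_inv, div_le_div_iff₀ ht0 (by linarith)]
          nlinarith
        linarith
      calc _ ≤ ‖A‖ * Real.exp r ^ (5 / 4 : ℝ) *
            (G * ((1 + t) ^ (3 / 4 : ℝ) * Real.exp (-(Real.pi * t / 2)))) *
              (4 * C * (1 + t)⁻¹) := by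
            gcongr
            exact hG2 t ht0.le
        _ = _ := by ring
    have hT0 : 0 ≤ T := by
      have := (hT T le_rfl).2
      linarith
    have hgpos : ∀ t : ℝ, 0 ≤ t → 0 < (1 + t) ^ (3 / 4 : ℝ) * (1 + t)⁻¹ *
        Real.exp (-(Real.pi * t / 2)) := fun t ht => by positivity
    have hgc : ContinuousOn (fun t : ℝ => (1 + t) ^ (3 / 4 : ℝ) * (1 + t)⁻¹ *
        Real.exp (-(Real.pi * t / 2))) (Set.Icc 0 T) := by
      refine ContinuousOn.mul (ContinuousOn.mul ?_ ?_) (by fun_prop)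
      · exact (Continuous.rpow_const (by fun_prop) fun x => Or.inr (by norm_num)).continuousOn
      · exact ContinuousOn.inv₀ (by fun_prop) fun t ht => by have := ht.1; positivity
    have hcont2 : ContinuousOn (fun t : ℝ => ‖kk k l m t -
        A * ((Real.exp r : ℝ) : ℂ) ^ (vl (5 / 4) t) *
        Gamma (vl (5 / 4) t + ((-θ : ℝ) : ℂ) * I)‖ / ((1 + t) ^ (3 / 4 : ℝ) * (1 + t)⁻¹ *
        Real.exp (-(Real.pi * t / 2)))) (Set.Icc 0 T) :=
      hcc.norm.continuousOn.div hgc fun t ht => (hgpos t ht.1).ne'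
    obtain ⟨D, hD⟩ := isCompact_Icc.exists_bound_of_continuousOn hcont2
    refine ⟨max (‖A‖ * Real.exp r ^ (5 / 4 : ℝ) * G * (4 * C)) |D|,
      (abs_nonneg _).trans (le_max_right _ _), fun t ht => ?_⟩
    have hg0 := hgpos t ht
    rcases le_total T t with h1 | h1
    · exact (hfar t h1).trans (mul_le_mul_of_nonneg_right (le_max_left _ _) hg0.le)
    · have h2 := hD t ⟨ht, h1⟩
      rw [Real.norm_eq_abs, abs_of_nonneg (by positivity), div_le_iff₀ hg0] at h2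
      exact h2.trans (mul_le_mul_of_nonneg_right ((le_abs_self D).trans (le_max_right _ _)) hg0.le)
  obtain ⟨C1, hC1, hC1'⟩ := hfirst
  obtain ⟨C2, hC2, hC2'⟩ := key (fun j => (starRingEnd ℂ) (m j)) (fun j => by simpa using hm j)
  obtain ⟨G', hG', hG2'⟩ := gamma_bd1 h θ
  have heq : ∀ τ : ℝ, Gamma (1 - vl (5 / 4) τ) * gP k l m (vl (5 / 4) τ) -
      A * ((Real.exp r : ℝ) : ℂ) ^ (vl (5 / 4) τ) *
        Gamma (vl (5 / 4) τ - (θ : ℝ) * I) = kk k l m τ -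
      A * ((Real.exp r : ℝ) : ℂ) ^ (vl (5 / 4) τ) *
      Gamma (vl (5 / 4) τ + ((-θ : ℝ) : ℂ) * I) := by
    intro τ
    rw [kk]
    congr 3
    push_cast
    ring
  refine ⟨A, Real.exp r, max C1 (C2 + ‖A‖ * Real.exp r ^ (5 / 4 : ℝ) * G'), exp_ne_zero _, hRpos,
    fun τ hτ => ?_, fun τ hτ => ?_⟩
  · have h0 := heq τ
    rw [h0]
    refine (hC1' τ hτ).trans ?_
    have h1 : (1 + τ) ^ (3 / 4 : ℝ) * (1 + τ)⁻¹ = (1 + τ) ^ (-(1 / 4) : ℝ) := by
      rw [← Real.rpow_neg_one, ← Real.rpow_add (by linarith)]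
      norm_num
    rw [h1, mul_assoc]
    refine mul_le_mul_of_nonneg_right (le_max_left _ _) ?_
    have : 0 < 1 + τ := by linarith
    positivity
  · have h0 := heq τ
    rw [h0]
    obtain ⟨t, rfl⟩ : ∃ t, τ = -t := ⟨-τ, by ring⟩
    have ht : 0 ≤ t := by linarith
    have h1 : ‖kk k l m (-t)‖ ≤ C2 * ((1 + t) * Real.exp (-(Real.pi * t / 2))) := by
      rw [kk_conj, RCLike.norm_conj]
      exact hC2' t ht
    have h2 : ‖Gamma (vl (5 / 4) (-t) + ((-θ : ℝ) : ℂ) * I)‖ ≤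
        G' * ((1 + t) * Real.exp (-(Real.pi * t / 2))) := by
      have h3 : vl (5 / 4) (-t) + ((-θ : ℝ) : ℂ) * I =
          (starRingEnd ℂ) (vl (5 / 4) t + (θ : ℂ) * I) := by
        simp only [map_add, map_mul, conj_vl, conj_ofReal, conj_I]
        push_cast
        ring
      rw [h3, Gamma_conj, RCLike.norm_conj]
      exact hG2' t ht
    have h4 : |-t| = t := by rw [abs_neg, abs_of_nonneg ht]
    calc _ ≤ ‖kk k l m (-t)‖ + ‖A * ((Real.exp r : ℝ) : ℂ) ^ (vl (5 / 4) (-t)) *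
          Gamma (vl (5 / 4) (-t) + ((-θ : ℝ) : ℂ) * I)‖ := norm_sub_le _ _
      _ ≤ C2 * ((1 + t) * Real.exp (-(Real.pi * t / 2))) + ‖A‖ * Real.exp r ^ (5 / 4 : ℝ) *
          (G' * ((1 + t) * Real.exp (-(Real.pi * t / 2)))) := by
          rw [norm_mul, norm_mul, hRn]
          gcongr
      _ = (C2 + ‖A‖ * Real.exp r ^ (5 / 4 : ℝ) * G') * (1 + t) *
          Real.exp (-(Real.pi * t / 2)) := by ring
      _ ≤ max C1 (C2 + ‖A‖ * Real.exp r ^ (5 / 4 : ℝ) * G') * (1 + t) *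
          Real.exp (-(Real.pi * t / 2)) := by
          gcongr
          exact le_max_right _ _
      _ = _ := by
          rw [h4]
          congr 2
          ring

end

end Pool.Agent.SelDeg2
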