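import Pool.Agent.SelDeg2.TargetsB

/-!
# B-MDG (MP_995735_nt): the twisted coefficients satisfy `MD`
-/

namespace Pool.Agent.SelDeg2

open Complex Filter Topology MeasureTheory
open Pool.Agent.SelPole Pool.Agent.SelTwo

theorem MDG_norm_cpow (θ : ℝ) {n : ℕ} (hn : 1 ≤ n) : ‖(n : ℂ) ^ ((θ : ℂ) * I)‖ = 1 := by
  rw [Complex.norm_natCast_cpow_of_pos (by omega)]
  simp

theorem MDG_norm (θ : ℝ) (a : ℕ → ℂ) {n : ℕ} (hn : 1 ≤ n) : ‖gth θ a n‖ = ‖a n‖ := by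
  rw [gth, norm_mul, MDG_norm_cpow θ hn, mul_one]

theorem p_MDG (hMUL : T_MUL) : T_MDG := by
  intro F a b θ hF hms
  have hmul := hMUL F a b hF
  refine ⟨?_, ?_, ?_, ?_⟩
  · simp [gth, hF.a_one]
  · intro m n hmn
    simp only [gth]
    rw [hmul m n hmn, Nat.cast_mul, Complex.natCast_mul_natCast_cpow]
    ring
  · intro ε hε
    obtain ⟨C, hC⟩ := hF.ramanujan ε hε
    refine ⟨C, fun n hn => ?_⟩
    rw [MDG_norm θ a hn]
    exact hC n hn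
  · obtain ⟨C, hC⟩ := hms
    refine ⟨C, fun η h0 h1 => ?_⟩
    have e : (fun p : Nat.Primes => ‖gth θ a p‖ ^ 2 * ((p : ℕ) : ℝ) ^ (-1 - η)) =
        fun p : Nat.Primes => ‖a p‖ ^ 2 * ((p : ℕ) : ℝ) ^ (-1 - η) := by
      funext p
      rw [MDG_norm θ a p.2.one_lt.le]
    rw [e]
    exact hC η h0 h1

end Pool.Agent.SelDeg2
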