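import Pool.Agent.SelDeg2.TargetsB

/-!
# The Mellin transform of `lam` over `(0, Y]`
-/

namespace Pool.Agent.SelDeg2

open Complex Filter Topology MeasureTheory
open Pool.Agent.SelPole Pool.Agent.SelTwo

noncomputable section

namespace MEL_

theorem integrable_of_hasSum {μ : Measure ℝ} {F : ℕ → ℝ → ℂ} {g : ℝ → ℂ}
    (hF : ∀ n, Integrable (F n) μ) (hs : Summable fun n => ∫ y, ‖F n y‖ ∂μ)
    (hg : ∀ᵐ y ∂μ, HasSum (fun n => F n y) (g y)) : Integrable g μ := by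
  have hmeas : AEStronglyMeasurable g μ := by
    refine aestronglyMeasurable_of_tendsto_ae atTop
      (f := fun (N : ℕ) y => ∑ n ∈ Finset.range N, F n y) (fun N => ?_) ?_
    · exact (integrable_finsetSum _ fun n _ => hF n).1
    · filter_upwards [hg] with y hy using hy.tendsto_sum_nat
  refine ⟨hmeas, ?_⟩
  have h1 : ∫⁻ y, ‖g y‖ₑ ∂μ ≤ ∫⁻ y, ∑' n, ‖F n y‖ₑ ∂μ := by
    refine lintegral_mono_ae ?_
    filter_upwards [hg] with y hy
    rw [← hy.tsum_eq]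
    exact enorm_tsum_le_tsum_enorm
  rw [lintegral_tsum fun n => (hF n).1.enorm] at h1
  have h2 : ∀ n, ∫⁻ y, ‖F n y‖ₑ ∂μ = ENNReal.ofReal (∫ y, ‖F n y‖ ∂μ) := fun n =>
    (ofReal_integral_norm_eq_lintegral_enorm (hF n)).symm
  simp_rw [h2] at h1
  rw [← ENNReal.ofReal_tsum_of_nonneg (fun n => integral_nonneg fun _ => norm_nonneg _) hs] at h1
  exact lt_of_le_of_lt h1 ENNReal.ofReal_lt_top

theorem norm_ee (x : ℝ) : ‖ee x‖ = 1 := by
  unfold ee
  rw [show (2 * (Real.pi : ℂ) * I * (x : ℂ)) = ((2 * Real.pi * x : ℝ) : ℂ) * I by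
    push_cast; ring]
  exact norm_exp_ofReal_mul_I _

theorem exp_bound {u : ℝ} (hu : 0 < u) : Real.exp (-u) ≤ 2 / u ^ 2 := by
  have h := Real.quadratic_le_exp_of_nonneg hu.le
  rw [Real.exp_neg, inv_eq_one_div, div_le_div_iff₀ (Real.exp_pos u) (by positivity)]
  nlinarith

theorem summ_norm {c : ℕ → ℂ} {s : ℝ} (h : LSeriesSummable c (s : ℂ)) :
    Summable fun n : ℕ => ‖c (n + 1)‖ / ((n : ℝ) + 1) ^ s := by
  have h1 := (summable_nat_add_iff 1).mpr h.norm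
  refine h1.congr fun n => ?_
  rw [LSeries.norm_term_eq]
  simp

theorem summ_exp {c : ℕ → ℂ} (h : LSeriesSummable c ((2 : ℝ) : ℂ)) {t : ℝ} (ht : 0 < t) :
    Summable fun n : ℕ => ‖c (n + 1)‖ * Real.exp (-(t * ((n : ℝ) + 1))) := by
  refine Summable.of_nonneg_of_le (fun n => by positivity) (fun n => ?_)
    ((summ_norm h).mul_left (2 / t ^ 2))
  have h1 := exp_bound (show 0 < t * ((n : ℝ) + 1) by positivity)
  calc ‖c (n + 1)‖ * Real.exp (-(t * ((n : ℝ) + 1)))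
      ≤ ‖c (n + 1)‖ * (2 / (t * ((n : ℝ) + 1)) ^ 2) := by gcongr
    _ = 2 / t ^ 2 * (‖c (n + 1)‖ / ((n : ℝ) + 1) ^ (2 : ℝ)) := by
      rw [Real.rpow_two]
      field_simp

/-- the coefficient with the additive character -/
def bb (c : ℕ → ℂ) (α : ℝ) (n : ℕ) : ℂ := c (n + 1) * ee (((n + 1 : ℕ) : ℝ) * α)

theorem norm_bb (c : ℕ → ℂ) (α : ℝ) (n : ℕ) : ‖bb c α n‖ = ‖c (n + 1)‖ := by
  rw [bb, norm_mul, norm_ee, mul_one]

theorem term_eq (c : ℕ → ℂ) (α y : ℝ) (n : ℕ) :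
    c (n + 1) * exp (-(((n : ℂ) + 1) * pX α y)) =
      bb c α n * ((Real.exp (-(2 * Real.pi * ((n : ℝ) + 1) * y)) : ℝ) : ℂ) := by
  unfold bb ee pX
  rw [ofReal_exp, mul_assoc (c (n + 1)), ← Complex.exp_add]
  congr 2
  push_cast
  ring

theorem norm_term (c : ℕ → ℂ) (α y : ℝ) (n : ℕ) :
    ‖c (n + 1) * exp (-(((n : ℂ) + 1) * pX α y))‖ =
      ‖c (n + 1)‖ * Real.exp (-(2 * Real.pi * y * ((n : ℝ) + 1))) := by
  rw [term_eq, norm_mul, norm_bb, norm_real, Real.norm_eq_abs, Real.abs_exp]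
  congr 2
  ring_nf

theorem hasSum_lam {c : ℕ → ℂ} (h : LSeriesSummable c ((2 : ℝ) : ℂ)) (α : ℝ) {y : ℝ}
    (hy : 0 < y) :
    HasSum (fun n : ℕ => bb c α n * ((Real.exp (-(2 * Real.pi * ((n : ℝ) + 1) * y)) : ℝ) : ℂ))
      (lam c (pX α y)) := by
  have hs : Summable fun n : ℕ => c (n + 1) * exp (-(((n : ℂ) + 1) * pX α y)) := by
    refine Summable.of_norm ?_
    simp_rw [norm_term]
    exact summ_exp h (by positivity)
  have h2 := hs.hasSum
  simp_rw [term_eq] at h2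
  rw [lam]
  simp_rw [term_eq]
  exact h2

theorem norm_lam_le {c : ℕ → ℂ} (h : LSeriesSummable c ((2 : ℝ) : ℂ)) (α : ℝ) {Y y : ℝ}
    (hY : 0 < Y) (hy : Y ≤ y) :
    ‖lam c (pX α y)‖ ≤
      (∑' n : ℕ, ‖c (n + 1)‖ * Real.exp (-(Real.pi * Y * ((n : ℝ) + 1)))) *
        Real.exp (-(Real.pi * y)) := by
  have hs := summ_exp h (show 0 < Real.pi * Y by positivity)
  have hy0 : 0 < y := hY.trans_le hy
  have hs2 : Summable fun n : ℕ => ‖c (n + 1) * exp (-(((n : ℂ) + 1) * pX α y))‖ := by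
    simp_rw [norm_term]
    exact summ_exp h (by positivity)
  rw [lam, ← tsum_mul_right]
  refine (norm_tsum_le_tsum_norm hs2).trans ?_
  refine hs2.tsum_le_tsum (fun n => ?_) (hs.mul_right _)
  rw [norm_term, mul_assoc ‖c (n + 1)‖]
  refine mul_le_mul_of_nonneg_left ?_ (norm_nonneg (c (n + 1)))
  rw [← Real.exp_add]
  refine Real.exp_le_exp.mpr ?_
  have hn : (0 : ℝ) ≤ n := Nat.cast_nonneg n
  have h1 : Real.pi * Y * ((n : ℝ) + 1) ≤ Real.pi * y * ((n : ℝ) + 1) := by gcongr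
  have h2 : Real.pi * y ≤ Real.pi * y * ((n : ℝ) + 1) :=
    le_mul_of_one_le_right (by positivity) (by linarith)
  linarith

/-- the terms of the integrand -/
def FF (c : ℕ → ℂ) (α η : ℝ) (n : ℕ) (y : ℝ) : ℂ :=
  bb c α n * (((y ^ η * Real.exp (-(2 * Real.pi * ((n : ℝ) + 1) * y)) : ℝ)) : ℂ)

theorem int_real {η r : ℝ} (hη : 0 < η) (hr : 0 < r) :
    IntegrableOn (fun y : ℝ => y ^ η * Real.exp (-(r * y))) (Set.Ioi 0) ∧
    ∫ y in Set.Ioi (0 : ℝ), y ^ η * Real.exp (-(r * y)) =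
      (1 / r) ^ (1 + η) * Real.Gamma (1 + η) := by
  constructor
  · have h := integrableOn_rpow_mul_exp_neg_mul_rpow (s := η) (p := 1) (b := r) (by linarith)
      one_pos hr
    refine h.congr_fun (fun y _ => ?_) measurableSet_Ioi
    simp only [Real.rpow_one, neg_mul]
  · have h := Real.integral_rpow_mul_exp_neg_mul_Ioi (a := 1 + η) (r := r) (by linarith) hr
    rw [← h]
    simp

theorem int_FF (c : ℕ → ℂ) (α : ℝ) {η : ℝ} (hη : 0 < η) (n : ℕ) :
    IntegrableOn (FF c α η n) (Set.Ioi 0) ∧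
    ∫ y in Set.Ioi (0 : ℝ), FF c α η n y =
      bb c α n * (((1 / (2 * Real.pi * ((n : ℝ) + 1))) ^ (1 + η) * Real.Gamma (1 + η) : ℝ) : ℂ) ∧
    ∫ y in Set.Ioi (0 : ℝ), ‖FF c α η n y‖ =
      ‖c (n + 1)‖ * ((1 / (2 * Real.pi * ((n : ℝ) + 1))) ^ (1 + η) * Real.Gamma (1 + η)) := by
  obtain ⟨h1, h2⟩ := int_real hη (show 0 < 2 * Real.pi * ((n : ℝ) + 1) by positivity)
  refine ⟨(h1.ofReal).const_mul _, ?_, ?_⟩
  · unfold FF
    rw [integral_const_mul, ← h2]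
    congr 1
    exact integral_ofReal
  · have h3 : ∀ y ∈ Set.Ioi (0 : ℝ), ‖FF c α η n y‖ =
        ‖c (n + 1)‖ * (y ^ η * Real.exp (-(2 * Real.pi * ((n : ℝ) + 1) * y))) := by
      intro y hy
      rw [FF, norm_mul, norm_bb, norm_real, Real.norm_eq_abs, abs_of_nonneg]
      exact mul_nonneg (Real.rpow_nonneg (le_of_lt hy) _) (Real.exp_pos _).le
    rw [setIntegral_congr_fun measurableSet_Ioi h3, integral_const_mul, h2]

theorem pow_eq (n : ℕ) (η : ℝ) :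
    (1 / (2 * Real.pi * ((n : ℝ) + 1))) ^ (1 + η) =
      (2 * Real.pi) ^ (-1 - η) * (1 / ((n : ℝ) + 1) ^ (1 + η)) := by
  rw [one_div, Real.inv_rpow (by positivity), Real.mul_rpow (by positivity) (by positivity),
    mul_inv, one_div, ← Real.rpow_neg (by positivity)]
  congr 2
  ring

theorem summ_int {c : ℕ → ℂ} {η : ℝ} (h : LSeriesSummable c ((1 + η : ℝ) : ℂ)) :
    Summable fun n : ℕ => ‖c (n + 1)‖ *
      ((1 / (2 * Real.pi * ((n : ℝ) + 1))) ^ (1 + η) * Real.Gamma (1 + η)) := by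
  refine ((summ_norm h).mul_left ((2 * Real.pi) ^ (-1 - η) * Real.Gamma (1 + η))).congr
    fun n => ?_
  rw [pow_eq]
  ring

theorem SS_eq {c : ℕ → ℂ} (α : ℝ) {η : ℝ} (h : LSeriesSummable c ((1 + η : ℝ) : ℂ)) :
    (((2 * Real.pi) ^ (-1 - η) * Real.Gamma (1 + η) : ℝ) : ℂ) * SS c α η =
      ∑' n : ℕ, bb c α n *
        (((1 / (2 * Real.pi * ((n : ℝ) + 1))) ^ (1 + η) * Real.Gamma (1 + η) : ℝ) : ℂ) := by
  have hs : Summable (LSeries.term (fun n => c n * ee (n * α)) (1 + η)) := by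
    refine Summable.of_norm ?_
    have h1 := h.norm
    push_cast at h1
    refine h1.congr fun n => ?_
    rw [LSeries.norm_term_eq, LSeries.norm_term_eq, norm_mul, norm_ee, mul_one]
  rw [SS, LSeries, hs.tsum_eq_zero_add, LSeries.term_zero, zero_add, ← tsum_mul_left]
  refine tsum_congr fun n => ?_
  rw [LSeries.term_of_ne_zero (Nat.succ_ne_zero n), pow_eq]
  have h2 : (((n + 1 : ℕ) : ℂ)) ^ ((1 : ℂ) + (η : ℂ)) = ((((n : ℝ) + 1) ^ (1 + η) : ℝ) : ℂ) := by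
    rw [ofReal_cpow (by positivity)]
    push_cast
    rfl
  rw [h2, bb]
  push_cast
  ring

end MEL_

open MEL_ in
theorem p_MEL : T_MEL := by
  intro c α Y hc hY
  have hc2 : LSeriesSummable c ((2 : ℝ) : ℂ) := hc _ (by rw [ofReal_re]; norm_num)
  set KY : ℝ := ∑' n : ℕ, ‖c (n + 1)‖ * Real.exp (-(Real.pi * Y * ((n : ℝ) + 1))) with hKY
  have hKY0 : 0 ≤ KY := tsum_nonneg fun n => by positivity
  refine ⟨∫ y in Set.Ioi Y, KY * ((1 + y) * Real.exp (-(Real.pi * y))), fun η h0 h1 => ?_⟩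
  have hcη : LSeriesSummable c ((1 + η : ℝ) : ℂ) := hc _ (by rw [ofReal_re]; linarith)
  have hsum : ∀ᵐ y ∂(volume.restrict (Set.Ioi (0 : ℝ))),
      HasSum (fun n => FF c α η n y) (lam c (pX α y) * ((y ^ η : ℝ) : ℂ)) := by
    refine (ae_restrict_iff' measurableSet_Ioi).mpr (ae_of_all _ fun y hy => ?_)
    have h2 := (hasSum_lam hc2 α hy).mul_right ((y ^ η : ℝ) : ℂ)
    have h3 : (fun n => FF c α η n y) = fun n : ℕ =>
        bb c α n * ((Real.exp (-(2 * Real.pi * ((n : ℝ) + 1) * y)) : ℝ) : ℂ) *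
          ((y ^ η : ℝ) : ℂ) := by
      funext n
      rw [FF]
      push_cast
      ring
    rw [h3]
    exact h2
  have hint : IntegrableOn (fun y : ℝ => lam c (pX α y) * ((y ^ η : ℝ) : ℂ)) (Set.Ioi 0) := by
    refine integrable_of_hasSum (fun n => (int_FF c α h0 n).1) ?_ hsum
    simp_rw [(int_FF c α h0 _).2.2]
    exact summ_int hcη
  have hval : ∫ y in Set.Ioi (0 : ℝ), lam c (pX α y) * ((y ^ η : ℝ) : ℂ) =
      (((2 * Real.pi) ^ (-1 - η) * Real.Gamma (1 + η) : ℝ) : ℂ) * SS c α η := by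
    have h2 := hasSum_integral_of_summable_integral_norm (fun n => (int_FF c α h0 n).1)
      (by simp_rw [(int_FF c α h0 _).2.2]; exact summ_int hcη)
    rw [SS_eq α hcη]
    simp_rw [(int_FF c α h0 _).2.1] at h2
    rw [h2.tsum_eq]
    refine integral_congr_ae ?_
    filter_upwards [hsum] with y hy using hy.tsum_eq.symm
  refine ⟨hint.mono_set Set.Ioc_subset_Ioi_self, ?_⟩
  have hsplit : ∫ y in Set.Ioi (0 : ℝ), lam c (pX α y) * ((y ^ η : ℝ) : ℂ) =
      (∫ y in Set.Ioc (0 : ℝ) Y, lam c (pX α y) * ((y ^ η : ℝ) : ℂ)) +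
        ∫ y in Set.Ioi Y, lam c (pX α y) * ((y ^ η : ℝ) : ℂ) := by
    rw [← setIntegral_union (Set.Ioc_disjoint_Ioi le_rfl) measurableSet_Ioi
      (hint.mono_set Set.Ioc_subset_Ioi_self) (hint.mono_set (Set.Ioi_subset_Ioi hY.le)),
      Set.Ioc_union_Ioi_eq_Ioi hY.le]
  rw [← hval, hsplit, sub_add_cancel_left, norm_neg]
  have hi1 : IntegrableOn (fun y : ℝ => KY * ((1 + y) * Real.exp (-(Real.pi * y))))
      (Set.Ioi Y) := by
    refine Integrable.const_mul ?_ _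
    have ha := integrableOn_rpow_mul_exp_neg_mul_rpow (s := 0) (p := 1) (b := Real.pi)
      (by norm_num) one_pos Real.pi_pos
    have hb := integrableOn_rpow_mul_exp_neg_mul_rpow (s := 1) (p := 1) (b := Real.pi)
      (by norm_num) one_pos Real.pi_pos
    have hab : IntegrableOn (fun y : ℝ => (1 + y) * Real.exp (-(Real.pi * y))) (Set.Ioi 0) := by
      refine (ha.add hb).congr_fun (fun y _ => ?_) measurableSet_Ioi
      simp only [Pi.add_apply, Real.rpow_one, Real.rpow_zero, neg_mul]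
      ring
    exact hab.mono_set (Set.Ioi_subset_Ioi hY.le)
  refine norm_integral_le_of_norm_le hi1 ?_
  refine (ae_restrict_iff' measurableSet_Ioi).mpr (ae_of_all _ fun y hy => ?_)
  have hy0 : 0 < y := hY.trans hy
  have h3 := norm_lam_le hc2 α hY (le_of_lt hy)
  have h4 : y ^ η ≤ 1 + y := by
    rcases le_total y 1 with h | h
    · have := Real.rpow_le_one hy0.le h h0.le
      linarith
    · have := Real.rpow_le_rpow_of_exponent_le h h1
      rw [Real.rpow_one] at this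
      linarith
  rw [norm_mul, norm_real, Real.norm_eq_abs, abs_of_nonneg (Real.rpow_nonneg hy0.le _)]
  calc ‖lam c (pX α y)‖ * y ^ η ≤ (KY * Real.exp (-(Real.pi * y))) * (1 + y) := by
        gcongr
    _ = KY * ((1 + y) * Real.exp (-(Real.pi * y))) := by ring

end

end Pool.Agent.SelDeg2
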