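import Pool.Agent.SelDeg2.TargetsB

/-!
# MOM1: the first moment
-/

namespace Pool.Agent.SelDeg2

open Filter Topology

namespace MOM1_

theorem wt_nonneg (η : ℝ) (n : ℕ) : 0 ≤ wt η n := by
  unfold wt
  positivity

theorem wt_zero {η : ℝ} (hη : 0 < η) : wt η 0 = 0 := by
  unfold wt
  rw [Nat.cast_zero, Real.zero_rpow (by linarith)]

theorem summable_wt {η : ℝ} (hη : 0 < η) : Summable (fun n : ℕ => wt η n) :=
  Real.summable_nat_rpow.2 (by linarith)

theorem step {η x : ℝ} (hη : 0 < η) (hx : 0 < x) :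
    (x + 1) ^ (-1 - η) ≤ (x ^ (-η) - (x + 1) ^ (-η)) / η := by
  have hx1 : 0 < x + 1 := by linarith
  rw [le_div_iff₀ hη]
  set u : ℝ := x / (x + 1) with hu
  have hu0 : 0 < u := by positivity
  have h1 : 1 + η * (1 - u) ≤ u ^ (-η) := by
    rw [Real.rpow_def_of_pos hu0]
    have h2 : Real.log u ≤ u - 1 := Real.log_le_sub_one_of_pos hu0
    have h3 : Real.log u * (-η) + 1 ≤ Real.exp (Real.log u * (-η)) := Real.add_one_le_exp _
    nlinarith
  have h4 : x ^ (-η) = (x + 1) ^ (-η) * u ^ (-η) := by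
    rw [← Real.mul_rpow hx1.le hu0.le, hu]
    congr 1
    field_simp
  have h5 : 1 - u = (x + 1)⁻¹ := by
    rw [hu]
    field_simp
    ring
  have h6 : (x + 1) ^ (-1 - η) = (x + 1) ^ (-η) * (x + 1)⁻¹ := by
    rw [show (-1 - η : ℝ) = -η - 1 by ring, Real.rpow_sub_one hx1.ne', div_eq_mul_inv]
  have h7 : 0 ≤ (x + 1) ^ (-η) := by positivity
  rw [h4, h6]
  rw [h5] at h1
  nlinarith [mul_le_mul_of_nonneg_left h1 h7]

theorem sum_wt_le {η : ℝ} (hη : 0 < η) (N : ℕ) :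
    ∑ n ∈ Finset.range (N + 2), wt η n ≤ 1 + (1 - ((N : ℝ) + 1) ^ (-η)) / η := by
  induction N with
  | zero =>
    rw [Finset.sum_range_succ, Finset.sum_range_succ, Finset.sum_range_zero, wt_zero hη]
    unfold wt
    simp
  | succ N ih =>
    rw [Finset.sum_range_succ]
    have h1 := step hη (show (0 : ℝ) < (N : ℝ) + 1 by positivity)
    have h2 : wt η (N + 2) = ((N : ℝ) + 1 + 1) ^ (-1 - η) := by
      unfold wt
      congr 1
      push_cast
      ring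
    rw [h2]
    push_cast
    have h3 : 1 + (1 - ((N : ℝ) + 1) ^ (-η)) / η +
        (((N : ℝ) + 1) ^ (-η) - ((N : ℝ) + 1 + 1) ^ (-η)) / η =
        1 + (1 - ((N : ℝ) + 1 + 1) ^ (-η)) / η := by
      ring
    linarith

theorem tsum_wt_le {η : ℝ} (hη : 0 < η) : ∑' n : ℕ, wt η n ≤ 1 + 1 / η := by
  refine Real.tsum_le_of_sum_range_le (wt_nonneg η) (fun N => ?_)
  have h1 : ∑ n ∈ Finset.range N, wt η n ≤ ∑ n ∈ Finset.range (N + 2), wt η n :=
    Finset.sum_le_sum_of_subset_of_nonneg (Finset.range_mono (by omega))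
      (fun n _ _ => wt_nonneg η n)
  refine h1.trans ((sum_wt_le hη N).trans ?_)
  have h2 : 0 ≤ ((N : ℝ) + 1) ^ (-η) := by positivity
  have h3 : (1 - ((N : ℝ) + 1) ^ (-η)) / η ≤ 1 / η := by
    gcongr
    linarith
  linarith

end MOM1_

open MOM1_ in
/-- B-MOM1: the first moment -/
theorem p_MOM1 (hM2 : T_MOM2) : T_MOM1 := by
  intro g hg
  obtain ⟨C, K, hC, hK, h⟩ := hM2 g hg
  refine ⟨(C + 2) / 2, max K 1, by positivity, by positivity, fun η hη hη1 => ?_⟩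
  obtain ⟨hs, hb⟩ := h η hη hη1
  have hpt : ∀ n : ℕ, ‖g n‖ * wt η n ≤ (‖g n‖ ^ 2 * wt η n + wt η n) / 2 := by
    intro n
    have h1 := wt_nonneg η n
    have h2 : ‖g n‖ ≤ (‖g n‖ ^ 2 + 1) / 2 := by nlinarith [sq_nonneg (‖g n‖ - 1)]
    calc ‖g n‖ * wt η n ≤ (‖g n‖ ^ 2 + 1) / 2 * wt η n := mul_le_mul_of_nonneg_right h2 h1
      _ = _ := by ring
  have hsum : Summable (fun n : ℕ => (‖g n‖ ^ 2 * wt η n + wt η n) / 2) :=
    (hs.add (summable_wt hη)).div_const 2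
  have hs1 : Summable (fun n : ℕ => ‖g n‖ * wt η n) :=
    Summable.of_nonneg_of_le (fun n => mul_nonneg (norm_nonneg _) (wt_nonneg η n)) hpt hsum
  refine ⟨hs1, ?_⟩
  have h1η : 1 ≤ 1 / η := by
    rw [le_div_iff₀ hη]
    linarith
  have e1 : (1 / η) ^ K ≤ (1 / η) ^ (max K 1) :=
    Real.rpow_le_rpow_of_exponent_le h1η (le_max_left _ _)
  have e2 : 1 / η ≤ (1 / η) ^ (max K 1) := by
    calc 1 / η = (1 / η) ^ (1 : ℝ) := (Real.rpow_one _).symm
      _ ≤ _ := Real.rpow_le_rpow_of_exponent_le h1η (le_max_right _ _)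
  calc ∑' n : ℕ, ‖g n‖ * wt η n ≤ ∑' n : ℕ, (‖g n‖ ^ 2 * wt η n + wt η n) / 2 :=
        hs1.tsum_le_tsum hpt hsum
    _ = (∑' n : ℕ, ‖g n‖ ^ 2 * wt η n + ∑' n : ℕ, wt η n) / 2 := by
        rw [tsum_div_const, hs.tsum_add (summable_wt hη)]
    _ ≤ (C * (1 / η) ^ K + (1 + 1 / η)) / 2 := by
        have := tsum_wt_le hη
        linarith
    _ ≤ (C + 2) / 2 * (1 / η) ^ (max K 1) := by
        have e3 := mul_le_mul_of_nonneg_left e1 hC
        nlinarith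

end Pool.Agent.SelDeg2
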