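import Pool.Agent.SelDeg2.TargetsC

/-!
# The sum of a Dirichlet character over the primes (target C-PR)
-/

namespace Pool.Agent.SelDeg2

open Complex Filter Topology MeasureTheory
open Pool.Agent.SelPole Pool.Agent.SelTwo

noncomputable section

namespace PR_

open LSeries ArithmeticFunction DirichletCharacter

/-- `ξ(n) Λ(n) / log n` -/
def gc {M : ℕ} (ξ : DirichletCharacter ℂ M) (n : ℕ) : ℂ :=
  ξ (n : ZMod M) * ((vonMangoldt n / Real.log n : ℝ) : ℂ)

lemma gc_norm {M : ℕ} (ξ : DirichletCharacter ℂ M) (n : ℕ) :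
    ‖gc ξ n‖ ≤ vonMangoldt n / Real.log n := by
  have h0 : 0 ≤ vonMangoldt n / Real.log n :=
    div_nonneg vonMangoldt_nonneg (Real.log_natCast_nonneg n)
  rw [gc, norm_mul, Complex.norm_real, Real.norm_of_nonneg h0]
  exact mul_le_of_le_one_left h0 (ξ.norm_le_one _)

lemma ratio_le_one (n : ℕ) : vonMangoldt n / Real.log n ≤ 1 :=
  div_le_one_of_le₀ vonMangoldt_le_log (Real.log_natCast_nonneg n)

lemma gc_abscissa {M : ℕ} (ξ : DirichletCharacter ℂ M) :
    abscissaOfAbsConv (gc ξ) ≤ 1 :=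
  abscissaOfAbsConv_le_of_le_const ⟨1, fun n _ => (gc_norm ξ n).trans (ratio_le_one n)⟩

lemma gc_lt {M : ℕ} (ξ : DirichletCharacter ℂ M) {s : ℂ} (hs : 1 < s.re) :
    abscissaOfAbsConv (gc ξ) < s.re :=
  lt_of_le_of_lt (gc_abscissa ξ) (by exact_mod_cast hs)

lemma logMul_gc {M : ℕ} (ξ : DirichletCharacter ℂ M) (n : ℕ) :
    logMul (gc ξ) n = (fun n : ℕ => ξ (n : ZMod M)) n * ((vonMangoldt n : ℝ) : ℂ) := by
  rw [logMul, gc]
  by_cases hn : Real.log n = 0
  · have h1 : vonMangoldt n = 0 :=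
      le_antisymm (hn ▸ vonMangoldt_le_log) vonMangoldt_nonneg
    simp [h1]
  · have h2 : Complex.log (n : ℂ) = ((Real.log n : ℝ) : ℂ) := by
      rw [Complex.natCast_log]
    have h3 : ((Real.log n : ℝ) : ℂ) ≠ 0 := Complex.ofReal_ne_zero.2 hn
    rw [h2, Complex.ofReal_div]
    field_simp

lemma hasDerivAt_gc {M : ℕ} [NeZero M] (ξ : DirichletCharacter ℂ M) {s : ℂ} (hs : 1 < s.re) :
    HasDerivAt (LSeries (gc ξ)) (deriv (LFunction ξ) s / LFunction ξ s) s := by
  have h := LSeries_hasDerivAt (gc_lt ξ hs)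
  have h2 : LSeries (logMul (gc ξ)) s = -deriv (LFunction ξ) s / LFunction ξ s := by
    rw [deriv_LFunction_eq_deriv_LSeries ξ hs, LFunction_eq_LSeries ξ hs,
      ← LSeries_twist_vonMangoldt_eq ξ hs]
    exact LSeries_congr (fun {n} _ => by simpa using logMul_gc ξ n) s
  rw [h2, neg_div, neg_neg] at h
  exact h

/-- the logarithmic derivative is bounded along the vertical segment, up to the pole -/
lemma bound {M : ℕ} [NeZero M] (ξ : DirichletCharacter ℂ M) (t : ℝ) :
    ∃ C : ℝ, ∀ η : ℝ, 0 < η → η ≤ 1 →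
      ‖deriv (LFunction ξ) (1 + (η : ℂ) + t * I) / LFunction ξ (1 + (η : ℂ) + t * I) +
        (open Classical in if ξ = 1 ∧ t = 0 then (η : ℂ)⁻¹ else 0)‖ ≤ C := by
  have hpath : Continuous (fun η : ℝ => (1 + (η : ℂ) + t * I : ℂ)) := by fun_prop
  have hre : ∀ η : ℝ, (1 + (η : ℂ) + t * I : ℂ).re = 1 + η := by intro η; simp
  by_cases hξ : ξ = 1
  · subst hξ
    have hmaps : Set.MapsTo (fun η : ℝ => (1 + (η : ℂ) + t * I : ℂ)) (Set.Icc 0 1)
        {s | s = 1 ∨ LFunctionTrivChar M s ≠ 0} := by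
      intro η hη
      by_cases h1 : (1 + (η : ℂ) + t * I : ℂ) = 1
      · left; exact h1
      · right
        exact LFunction_ne_zero_of_one_le_re (χ := (1 : DirichletCharacter ℂ M)) (.inr h1)
          (by rw [hre]; linarith [hη.1])
    obtain ⟨C, hC⟩ := (isCompact_Icc (a := (0 : ℝ)) (b := 1)).exists_bound_of_continuousOn
      ((continuousOn_neg_logDeriv_LFunctionTrivChar₁ (n := M)).comp hpath.continuousOn hmaps)
    refine ⟨C + if t = 0 then 0 else 1 / |t|, fun η h0 h1 => ?_⟩
    set s : ℂ := 1 + (η : ℂ) + t * I with hs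
    have hs1 : s ≠ 1 := by
      intro h
      have := hre η
      rw [← hs, h] at this
      simp at this
      linarith
    have hL : LFunctionTrivChar M s ≠ 0 :=
      LFunction_ne_zero_of_one_le_re (χ := (1 : DirichletCharacter ℂ M)) (.inr hs1)
          (by rw [hs, hre]; linarith)
    have hs1' : s - 1 ≠ 0 := sub_ne_zero_of_ne hs1
    have e1 : LFunctionTrivChar₁ M s = (s - 1) * LFunctionTrivChar M s := by
      rw [LFunctionTrivChar₁, Function.update_of_ne hs1]
    have e2 := deriv_LFunctionTrivChar₁_apply_of_ne_one (n := M) hs1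
    have e3 : deriv (LFunction (1 : DirichletCharacter ℂ M)) s /
        LFunction (1 : DirichletCharacter ℂ M) s =
        deriv (LFunctionTrivChar₁ M) s / LFunctionTrivChar₁ M s - (s - 1)⁻¹ := by
      rw [e1, e2]
      field_simp
      ring
    have hCη := hC η ⟨h0.le, h1⟩
    simp only [Function.comp_apply, ← hs, neg_div, norm_neg] at hCη
    rw [e3]
    by_cases ht : t = 0
    · have e4 : (s - 1)⁻¹ = (η : ℂ)⁻¹ := by rw [hs, ht]; simp
      rw [if_pos ⟨rfl, ht⟩, if_pos ht, e4, sub_add_cancel, add_zero]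
      exact hCη
    · rw [if_neg (fun h => ht h.2), if_neg ht, add_zero]
      refine (norm_sub_le _ _).trans (add_le_add hCη ?_)
      rw [norm_inv, one_div]
      refine inv_anti₀ (abs_pos.2 ht) ?_
      have h5 := Complex.abs_im_le_norm (s - 1)
      have h6 : (s - 1).im = t := by rw [hs]; simp
      rwa [h6] at h5
  · have hmaps : Set.MapsTo (fun η : ℝ => (1 + (η : ℂ) + t * I : ℂ)) (Set.Icc 0 1)
        {s | LFunction ξ s ≠ 0} := by
      intro η hη
      exact LFunction_ne_zero_of_one_le_re (χ := ξ) (Or.inl hξ) (by rw [hre]; linarith [hη.1])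
    obtain ⟨C, hC⟩ := (isCompact_Icc (a := (0 : ℝ)) (b := 1)).exists_bound_of_continuousOn
      ((continuousOn_neg_logDeriv_LFunction_of_nontriv hξ).comp hpath.continuousOn hmaps)
    refine ⟨C, fun η h0 h1 => ?_⟩
    have hCη := hC η ⟨h0.le, h1⟩
    simp only [Function.comp_apply, neg_div, norm_neg] at hCη
    rw [if_neg (fun h => hξ h.1), add_zero]
    exact hCη

/-- the weighted sum over prime powers -/
lemma series_bound {M : ℕ} [NeZero M] (ξ : DirichletCharacter ℂ M) (t : ℝ) :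
    ∃ C : ℝ, ∀ η : ℝ, 0 < η → η ≤ 1 →
      ‖LSeries (gc ξ) (1 + (η : ℂ) + t * I) -
        (open Classical in if ξ = 1 ∧ t = 0 then ((Lg η : ℝ) : ℂ) else 0)‖ ≤ C := by
  obtain ⟨C, hC⟩ := bound ξ t
  classical
  set u : ℝ → ℂ := fun η => LSeries (gc ξ) (1 + (η : ℂ) + t * I) -
        (if ξ = 1 ∧ t = 0 then ((Lg η : ℝ) : ℂ) else 0) with hu
  have hder : ∀ η : ℝ, 0 < η → HasDerivAt u
      (deriv (LFunction ξ) (1 + (η : ℂ) + t * I) / LFunction ξ (1 + (η : ℂ) + t * I) +
        (if ξ = 1 ∧ t = 0 then (η : ℂ)⁻¹ else 0)) η := by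
    intro η hη
    have hre : 1 < (1 + (η : ℂ) + t * I : ℂ).re := by simp [hη]
    have hp : HasDerivAt (fun η : ℝ => (1 + (η : ℂ) + t * I : ℂ)) 1 η := by
      have h1 : HasDerivAt (fun η : ℝ => (η : ℂ)) 1 η := by
        simpa using (hasDerivAt_id η).ofReal_comp
      simpa using (h1.const_add 1).add_const (t * I : ℂ)
    have h1 : HasDerivAt (fun η : ℝ => LSeries (gc ξ) (1 + (η : ℂ) + t * I))
        (deriv (LFunction ξ) (1 + (η : ℂ) + t * I) / LFunction ξ (1 + (η : ℂ) + t * I)) η := by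
      have := (hasDerivAt_gc ξ hre).comp_of_eq η hp rfl
      simpa [Function.comp_def] using this
    by_cases hc : ξ = 1 ∧ t = 0
    · have h2 : HasDerivAt (fun η : ℝ => ((Lg η : ℝ) : ℂ)) (-(η : ℂ)⁻¹) η := by
        have h3 : HasDerivAt Lg (-η⁻¹) η := by
          have h4 : Lg = fun η => - Real.log η := by
            funext x
            rw [Lg, one_div, Real.log_inv]
          rw [h4]
          exact (Real.hasDerivAt_log hη.ne').fun_neg
        have := h3.ofReal_comp
        push_cast at this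
        exact this
      have h5 := h1.fun_sub h2
      rw [sub_neg_eq_add] at h5
      simpa only [hu, if_pos hc] using h5
    · have h5 := h1.fun_sub (hasDerivAt_const η (0 : ℂ))
      simp only [hu, if_neg hc]
      simpa using h5
  refine ⟨‖u 1‖ + C, fun η h0 h1 => ?_⟩
  have hC0 : 0 ≤ C := (norm_nonneg _).trans (hC 1 one_pos le_rfl)
  have hmv := Convex.norm_image_sub_le_of_norm_hasDerivWithin_le (s := Set.Ioc (0 : ℝ) 1)
    (f := u) (fun x hx => (hder x hx.1).hasDerivWithinAt) (fun x hx => hC x hx.1 hx.2)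
    (convex_Ioc 0 1) (x := 1) (y := η) ⟨one_pos, le_rfl⟩ ⟨h0, h1⟩
  have h2 : ‖η - 1‖ ≤ 1 := by
    rw [Real.norm_eq_abs, abs_le]; constructor <;> linarith
  have h3 : ‖u η‖ ≤ ‖u 1‖ + ‖u η - u 1‖ := by
    have := norm_add_le (u 1) (u η - u 1)
    simpa using this
  calc ‖u η‖ ≤ ‖u 1‖ + ‖u η - u 1‖ := h3
    _ ≤ ‖u 1‖ + C := by
      gcongr
      exact hmv.trans (mul_le_of_le_one_right hC0 h2)

lemma summable_nonprime :
    Summable (fun n : ℕ => (if n.Prime then 0 else vonMangoldt n) / (n : ℝ)) := by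
  have h := vonMangoldt.summable_residueClass_non_primes_div (q := 1) (0 : ZMod 1)
  refine h.congr (fun n => ?_)
  have : vonMangoldt.residueClass (0 : ZMod 1) n = vonMangoldt n :=
    Set.indicator_of_mem (by exact Subsingleton.elim _ _) _
  rw [this]

lemma term_bound {M : ℕ} (ξ : DirichletCharacter ℂ M) {s : ℂ} (hs : 1 < s.re) (n : ℕ) :
    ‖(if n.Prime then 0 else term (gc ξ) s n)‖ ≤
      (1 / Real.log 2) * ((if n.Prime then 0 else vonMangoldt n) / (n : ℝ)) := by
  by_cases hp : n.Prime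
  · simp [hp]
  · rw [if_neg hp, if_neg hp]
    rcases Nat.lt_or_ge n 2 with h2 | h2
    · interval_cases n
      · simp
      · simp [gc, term]
    · have hn0 : n ≠ 0 := by omega
      have hn1 : (1 : ℝ) ≤ n := by exact_mod_cast (by omega : 1 ≤ n)
      have hl2 : 0 < Real.log 2 := Real.log_pos (by norm_num)
      rw [norm_term_eq, if_neg hn0]
      have h3 : (n : ℝ) ≤ (n : ℝ) ^ s.re := by
        calc (n : ℝ) = (n : ℝ) ^ (1 : ℝ) := (Real.rpow_one _).symm
          _ ≤ _ := Real.rpow_le_rpow_of_exponent_le hn1 hs.le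
      have h4 : ‖gc ξ n‖ ≤ (1 / Real.log 2) * vonMangoldt n := by
        refine (gc_norm ξ n).trans ?_
        rw [div_eq_mul_one_div, mul_comm]
        refine mul_le_mul_of_nonneg_right ?_ vonMangoldt_nonneg
        exact one_div_le_one_div_of_le hl2 (Real.log_le_log (by norm_num) (by exact_mod_cast h2))
      calc ‖gc ξ n‖ / (n : ℝ) ^ s.re ≤ ((1 / Real.log 2) * vonMangoldt n) / n := by
            refine div_le_div₀ ?_ h4 (by linarith) h3
            exact mul_nonneg (by positivity) vonMangoldt_nonneg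
        _ = _ := by ring

lemma split {M : ℕ} (ξ : DirichletCharacter ℂ M) {s : ℂ} (hs : 1 < s.re) :
    LSeries (gc ξ) s = pser (fun n => ξ (n : ZMod M)) s +
      ∑' n : ℕ, (if n.Prime then 0 else term (gc ξ) s n) := by
  have hsum : Summable (term (gc ξ) s) := LSeriesSummable_of_abscissaOfAbsConv_lt_re (gc_lt ξ hs)
  have h1 : pser (fun n => ξ (n : ZMod M)) s = ∑' n : ℕ, (if n.Prime then term (gc ξ) s n else 0) := by
    have h2 : pser (fun n => ξ (n : ZMod M)) s = ∑' p : {n : ℕ | n.Prime}, term (gc ξ) s p := by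
      rw [pser]
      refine tsum_congr (fun p => ?_)
      have hp : (p : ℕ).Prime := p.2
      rw [term_of_ne_zero hp.ne_zero, gc, vonMangoldt_apply_prime hp,
        div_self (Real.log_pos (by exact_mod_cast hp.one_lt)).ne', cpow_neg]
      simp [div_eq_mul_inv]
    rw [h2, tsum_subtype]
    refine tsum_congr (fun n => ?_)
    by_cases hp : n.Prime
    · simp [Set.indicator, hp]
    · simp [Set.indicator, hp]
  have hsA : Summable (fun n : ℕ => (if n.Prime then term (gc ξ) s n else 0)) := by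
    have := hsum.indicator {n : ℕ | n.Prime}
    refine this.congr (fun n => ?_)
    by_cases hp : n.Prime
    · simp [Set.indicator, hp]
    · simp [Set.indicator, hp]
  have hsB : Summable (fun n : ℕ => (if n.Prime then 0 else term (gc ξ) s n)) := by
    have := hsum.indicator {n : ℕ | ¬ n.Prime}
    refine this.congr (fun n => ?_)
    by_cases hp : n.Prime
    · simp [Set.indicator, hp]
    · simp [Set.indicator, hp]
  rw [h1, ← hsA.tsum_add hsB, LSeries]
  refine tsum_congr (fun n => ?_)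
  by_cases hp : n.Prime <;> simp [hp]

end PR_

theorem p_PR : T_PR := by
  intro M _ ξ t
  obtain ⟨C, hC⟩ := PR_.series_bound ξ t
  refine ⟨C + (1 / Real.log 2) * ∑' n : ℕ,
    ((if n.Prime then 0 else ArithmeticFunction.vonMangoldt n) / (n : ℝ)), fun η h0 h1 => ?_⟩
  have hre : 1 < (1 + (η : ℂ) + t * I : ℂ).re := by simp [h0]
  have hs := PR_.split ξ hre
  have hb : ‖∑' n : ℕ, (if n.Prime then 0 else LSeries.term (PR_.gc ξ) (1 + (η : ℂ) + t * I) n)‖ ≤
      (1 / Real.log 2) * ∑' n : ℕ,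
        ((if n.Prime then 0 else ArithmeticFunction.vonMangoldt n) / (n : ℝ)) := by
    rw [← tsum_mul_left]
    exact tsum_of_norm_bounded (PR_.summable_nonprime.mul_left (1 / Real.log 2)).hasSum
      (PR_.term_bound ξ hre)
  have e : pser (fun n => ξ (n : ZMod M)) (1 + (η : ℂ) + t * I) -
      (open Classical in if ξ = 1 ∧ t = 0 then ((Lg η : ℝ) : ℂ) else 0) =
      (LSeries (PR_.gc ξ) (1 + (η : ℂ) + t * I) -
        (open Classical in if ξ = 1 ∧ t = 0 then ((Lg η : ℝ) : ℂ) else 0)) -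
      ∑' n : ℕ, (if n.Prime then 0 else LSeries.term (PR_.gc ξ) (1 + (η : ℂ) + t * I) n) := by
    rw [hs]; ring
  rw [e]
  exact (norm_sub_le _ _).trans (add_le_add (hC η h0 h1) hb)

end

end Pool.Agent.SelDeg2
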