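import Pool.Agent.SelDeg2.TargetsB
import Pool.Agent.SelDeg2.PR

/-!
# The first moment over the primes (target B-PM1)
-/

namespace Pool.Agent.SelDeg2

open Complex Filter Topology MeasureTheory
open Pool.Agent.SelPole Pool.Agent.SelTwo

noncomputable section

namespace PM1_

lemma summable_wt {η : ℝ} (h0 : 0 < η) : Summable (fun p : Nat.Primes => wt η p) := by
  have h : Summable (fun p : Nat.Primes => ((p : ℕ) : ℝ) ^ (-1 - η)) :=
    Nat.Primes.summable_rpow.2 (by linarith)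
  exact h

lemma wt_nonneg (η : ℝ) (n : ℕ) : 0 ≤ wt η n := Real.rpow_nonneg (Nat.cast_nonneg n) _

/-- the sum of the weights over the primes -/
lemma sum_wt : ∃ C : ℝ, ∀ η : ℝ, 0 < η → η ≤ 1 →
    ∑' p : Nat.Primes, wt η p ≤ Lg η + C := by
  obtain ⟨C, hC⟩ := p_PR 1 (1 : DirichletCharacter ℂ 1) 0
  refine ⟨C, fun η h0 h1 => ?_⟩
  have h := hC η h0 h1
  rw [if_pos ⟨rfl, rfl⟩] at h
  have e : pser (fun n => (1 : DirichletCharacter ℂ 1) (n : ZMod 1))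
      (1 + (η : ℂ) + ((0 : ℝ) : ℂ) * I) = ((∑' p : Nat.Primes, wt η p : ℝ) : ℂ) := by
    rw [pser, Complex.ofReal_tsum]
    refine tsum_congr fun p => ?_
    have h2 : (1 : DirichletCharacter ℂ 1) ((p : ℕ) : ZMod 1) = 1 :=
      MulChar.one_apply (isUnit_of_subsingleton _)
    rw [h2, one_mul, wt, Complex.ofReal_cpow (Nat.cast_nonneg _)]
    congr 1
    push_cast
    ring
  rw [e, ← Complex.ofReal_sub, Complex.norm_real, Real.norm_eq_abs] at h
  have h3 := (abs_le.1 h).2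
  linarith

end PM1_

open PM1_ in
theorem p_PM1 : T_PM1 := by
  rintro g ⟨C, hC⟩
  obtain ⟨C₂, hC₂⟩ := sum_wt
  have hC0 : 0 ≤ C := by
    have h := (hC 1 one_pos le_rfl).2
    rw [div_one, Real.log_one, add_zero, mul_one] at h
    refine le_trans (tsum_nonneg fun p => ?_) h
    positivity
  refine ⟨C + (1 + |C₂|), by positivity, fun η h0 h1 => ?_⟩
  obtain ⟨hs, hb⟩ := hC η h0 h1
  have hs2 : Summable (fun p : Nat.Primes => (1 / 2 : ℝ) *
      (‖g p‖ ^ 2 * ((p : ℕ) : ℝ) ^ (-1 - η) + wt η p)) :=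
    (hs.add (summable_wt h0)).mul_left (1 / 2)
  have hle : ∀ p : Nat.Primes, ‖g p‖ * wt η p ≤ (1 / 2 : ℝ) *
      (‖g p‖ ^ 2 * ((p : ℕ) : ℝ) ^ (-1 - η) + wt η p) := by
    intro p
    have h2 : ((p : ℕ) : ℝ) ^ (-1 - η) = wt η p := rfl
    rw [h2]
    have h3 := wt_nonneg η p
    nlinarith [mul_nonneg (sq_nonneg (‖g p‖ - 1)) h3]
  have hs3 : Summable (fun p : Nat.Primes => ‖g p‖ * wt η p) :=
    Summable.of_nonneg_of_le (fun p => mul_nonneg (norm_nonneg _) (wt_nonneg η p)) hle hs2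
  refine ⟨hs3, ?_⟩
  have hL : 0 ≤ Real.log (1 / η) := Real.log_nonneg (by rw [le_div_iff₀ h0]; linarith)
  have h4 := hC₂ η h0 h1
  rw [Lg] at h4
  have h5 : ∑' p : Nat.Primes, ‖g p‖ * wt η p ≤ ∑' p : Nat.Primes, (1 / 2 : ℝ) *
      (‖g p‖ ^ 2 * ((p : ℕ) : ℝ) ^ (-1 - η) + wt η p) := hs3.tsum_le_tsum hle hs2
  rw [tsum_mul_left, hs.tsum_add (summable_wt h0)] at h5
  have h6 := le_abs_self C₂
  have h7 := abs_nonneg C₂
  have h8 : 0 ≤ C * Real.log (1 / η) := mul_nonneg hC0 hL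
  have h9 : 0 ≤ |C₂| * Real.log (1 / η) := mul_nonneg h7 hL
  nlinarith

end

end Pool.Agent.SelDeg2
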