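import Pool.Agent.SelDeg2.TargetsB
import Pool.Agent.SelTwo.NEAR

/-!
# A-PT: the relation with the base point and the height moved
-/

namespace Pool.Agent.SelDeg2

open Complex Filter Topology MeasureTheory
open Pool.Agent.SelPole Pool.Agent.SelTwo

noncomputable section

namespace PT_

theorem pow_le {t s : ℝ} (ht : 0 ≤ t) (hs : 0 ≤ s) (hs2 : s ≤ 2) :
    t ^ s ≤ Real.exp (2 * t) := by
  have h1 : t ^ s ≤ (1 + t) ^ (2 : ℝ) := by
    calc t ^ s ≤ (1 + t) ^ s := Real.rpow_le_rpow ht (by linarith) hs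
      _ ≤ (1 + t) ^ (2 : ℝ) := Real.rpow_le_rpow_of_exponent_le (by linarith) hs2
  have h2 : (1 + t) ^ (2 : ℝ) ≤ Real.exp (2 * t) := by
    have h3 : 1 + t ≤ Real.exp t := by linarith [Real.add_one_le_exp t]
    calc (1 + t) ^ (2 : ℝ) ≤ (Real.exp t) ^ (2 : ℝ) :=
          Real.rpow_le_rpow (by linarith) h3 (by norm_num)
      _ = Real.exp (2 * t) := by rw [← Real.exp_mul]; ring_nf
  exact h1.trans h2

theorem term {y s : ℝ} (hy : 0 < y) (hs : 0 ≤ s) (hs2 : s ≤ 2) (n : ℕ) :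
    ((n : ℝ) + 1) ^ s * Real.exp (-(((n : ℝ) + 1) * (2 * Real.pi * y))) ≤
      y ^ (-s) * Real.exp (-y) ^ (n + 1) := by
  have hn : (0 : ℝ) < (n : ℝ) + 1 := by positivity
  have h1 := pow_le (t := ((n : ℝ) + 1) * y) (by positivity) hs hs2
  rw [Real.mul_rpow hn.le hy.le] at h1
  have hy2 : 0 < y ^ s := Real.rpow_pos_of_pos hy _
  have h2 : ((n : ℝ) + 1) ^ s ≤ y ^ (-s) * Real.exp (2 * (((n : ℝ) + 1) * y)) := by
    rw [Real.rpow_neg hy.le, inv_mul_eq_div, le_div_iff₀ hy2]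
    exact h1
  have h3 : 1 ≤ 2 * Real.pi - 2 := by linarith [Real.pi_gt_three]
  calc ((n : ℝ) + 1) ^ s * Real.exp (-(((n : ℝ) + 1) * (2 * Real.pi * y)))
      ≤ (y ^ (-s) * Real.exp (2 * (((n : ℝ) + 1) * y))) *
          Real.exp (-(((n : ℝ) + 1) * (2 * Real.pi * y))) := by gcongr
    _ = y ^ (-s) * Real.exp (-((2 * Real.pi - 2) * (((n : ℝ) + 1) * y))) := by
        rw [mul_assoc, ← Real.exp_add]; ring_nf
    _ ≤ y ^ (-s) * Real.exp (-(((n : ℝ) + 1) * y)) := by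
        have hyy : 0 < y ^ (-s) := Real.rpow_pos_of_pos hy _
        apply mul_le_mul_of_nonneg_left _ hyy.le
        apply Real.exp_le_exp.mpr
        have : 0 < ((n : ℝ) + 1) * y := by positivity
        nlinarith
    _ = y ^ (-s) * Real.exp (-y) ^ (n + 1) := by
        rw [← Real.exp_nat_mul]
        congr 2
        push_cast
        ring

theorem exp_diff (u v : ℂ) (R : ℝ) (hu : R ≤ u.re) (hv : R ≤ v.re) :
    ‖exp (-u) - exp (-v)‖ ≤ Real.exp (-R) * ‖u - v‖ := by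
  have hconv : Convex ℝ {z : ℂ | R ≤ z.re} := convex_halfSpace_re_ge R
  refine hconv.norm_image_sub_le_of_norm_deriv_le (𝕜 := ℂ) (f := fun z => exp (-z)) ?_ ?_ hv hu
  · intro z _
    fun_prop
  · intro z hz
    have hz' : R ≤ z.re := hz
    have h1 : deriv (fun z : ℂ => exp (-z)) z = -exp (-z) := by
      have := ((hasDerivAt_neg z).cexp).deriv
      rw [this]
      ring
    rw [h1, norm_neg, Complex.norm_exp, Complex.neg_re]
    exact Real.exp_le_exp.2 (by linarith)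

theorem norm_exp_le (u : ℂ) (y : ℝ) (n : ℕ) (hu : 2 * Real.pi * y ≤ u.re) :
    ‖exp (-(((n : ℂ) + 1) * u))‖ ≤ Real.exp (-(((n : ℝ) + 1) * (2 * Real.pi * y))) := by
  rw [Complex.norm_exp]
  apply Real.exp_le_exp.2
  have h1 : (-(((n : ℂ) + 1) * u)).re = -(((n : ℝ) + 1) * u.re) := by
    simp
  rw [h1]
  have hn : (0 : ℝ) < (n : ℝ) + 1 := by positivity
  have := mul_le_mul_of_nonneg_left hu hn.le
  linarith

theorem lam_bound {c : ℕ → ℂ} {A : ℝ} (hA : 0 ≤ A)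
    (hc : ∀ n : ℕ, 1 ≤ n → ‖c n‖ ≤ A * (n : ℝ) ^ (1 / 2 : ℝ)) {y : ℝ} (hy : 0 < y) (u : ℂ)
    (hu : 2 * Real.pi * y ≤ u.re) :
    Summable (fun n : ℕ => c (n + 1) * exp (-(((n : ℂ) + 1) * u))) ∧
      ‖lam c u‖ ≤ A * y ^ (-(1 / 2) : ℝ) * (1 / y) := by
  obtain ⟨hgs, hgl⟩ := near_geom hy
  have hyy : 0 < y ^ (-(1 / 2) : ℝ) := Real.rpow_pos_of_pos hy _
  have hterm : ∀ n : ℕ, ‖c (n + 1) * exp (-(((n : ℂ) + 1) * u))‖ ≤
      (A * y ^ (-(1 / 2) : ℝ)) * Real.exp (-y) ^ (n + 1) := by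
    intro n
    have h1 := hc (n + 1) (by omega)
    push_cast at h1
    rw [norm_mul]
    calc ‖c (n + 1)‖ * ‖exp (-(((n : ℂ) + 1) * u))‖
        ≤ (A * ((n : ℝ) + 1) ^ (1 / 2 : ℝ)) *
            Real.exp (-(((n : ℝ) + 1) * (2 * Real.pi * y))) := by
          apply mul_le_mul h1 (norm_exp_le u y n hu) (norm_nonneg _)
          positivity
      _ = A * (((n : ℝ) + 1) ^ (1 / 2 : ℝ) *
            Real.exp (-(((n : ℝ) + 1) * (2 * Real.pi * y)))) := by ring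
      _ ≤ A * (y ^ (-(1 / 2) : ℝ) * Real.exp (-y) ^ (n + 1)) :=
          mul_le_mul_of_nonneg_left (term hy (by norm_num) (by norm_num) n) hA
      _ = _ := by ring
  have hbs := hgs.mul_left (A * y ^ (-(1 / 2) : ℝ))
  refine ⟨Summable.of_norm_bounded hbs hterm, ?_⟩
  unfold lam
  calc ‖∑' n : ℕ, c (n + 1) * exp (-(((n : ℂ) + 1) * u))‖
      ≤ ∑' n : ℕ, (A * y ^ (-(1 / 2) : ℝ)) * Real.exp (-y) ^ (n + 1) :=
        tsum_of_norm_bounded hbs.hasSum hterm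
    _ = (A * y ^ (-(1 / 2) : ℝ)) * ∑' n : ℕ, Real.exp (-y) ^ (n + 1) := tsum_mul_left
    _ ≤ _ := mul_le_mul_of_nonneg_left hgl (by positivity)

theorem lam_diff {c : ℕ → ℂ} {A : ℝ} (hA : 0 ≤ A)
    (hc : ∀ n : ℕ, 1 ≤ n → ‖c n‖ ≤ A * (n : ℝ) ^ (1 / 2 : ℝ)) {y : ℝ} (hy : 0 < y) (u v : ℂ)
    (hu : 2 * Real.pi * y ≤ u.re) (hv : 2 * Real.pi * y ≤ v.re) :
    ‖lam c u - lam c v‖ ≤ A * ‖u - v‖ * y ^ (-(3 / 2) : ℝ) * (1 / y) := by
  obtain ⟨hgs, hgl⟩ := near_geom hy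
  have hyy : 0 < y ^ (-(3 / 2) : ℝ) := Real.rpow_pos_of_pos hy _
  have hs1 := (lam_bound hA hc hy u hu).1
  have hs2 := (lam_bound hA hc hy v hv).1
  have hpp : ∀ n : ℕ, ((n : ℝ) + 1) ^ (1 / 2 : ℝ) * ((n : ℝ) + 1) =
      ((n : ℝ) + 1) ^ (3 / 2 : ℝ) := by
    intro n
    have hn : (0 : ℝ) < (n : ℝ) + 1 := by positivity
    nth_rewrite 2 [← Real.rpow_one ((n : ℝ) + 1)]
    rw [← Real.rpow_add hn]; norm_num
  have hterm : ∀ n : ℕ, ‖c (n + 1) * exp (-(((n : ℂ) + 1) * u)) -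
      c (n + 1) * exp (-(((n : ℂ) + 1) * v))‖ ≤
      (A * ‖u - v‖ * y ^ (-(3 / 2) : ℝ)) * Real.exp (-y) ^ (n + 1) := by
    intro n
    have h1 := hc (n + 1) (by omega)
    push_cast at h1
    have hn : (0 : ℝ) < (n : ℝ) + 1 := by positivity
    have e1 : (((n : ℂ) + 1) * u).re = ((n : ℝ) + 1) * u.re := by simp
    have e2 : (((n : ℂ) + 1) * v).re = ((n : ℝ) + 1) * v.re := by simp
    have h2 := exp_diff (((n : ℂ) + 1) * u) (((n : ℂ) + 1) * v)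
      (((n : ℝ) + 1) * (2 * Real.pi * y))
      (by rw [e1]; exact mul_le_mul_of_nonneg_left hu hn.le)
      (by rw [e2]; exact mul_le_mul_of_nonneg_left hv hn.le)
    have h3 : ‖((n : ℂ) + 1) * u - ((n : ℂ) + 1) * v‖ = ((n : ℝ) + 1) * ‖u - v‖ := by
      rw [← mul_sub, norm_mul]
      congr 1
      have : ((n : ℂ) + 1) = (((n : ℝ) + 1 : ℝ) : ℂ) := by push_cast; rfl
      rw [this, Complex.norm_real, Real.norm_of_nonneg hn.le]
    rw [h3] at h2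
    rw [← mul_sub, norm_mul]
    calc ‖c (n + 1)‖ * ‖exp (-(((n : ℂ) + 1) * u)) - exp (-(((n : ℂ) + 1) * v))‖
        ≤ (A * ((n : ℝ) + 1) ^ (1 / 2 : ℝ)) *
            (Real.exp (-(((n : ℝ) + 1) * (2 * Real.pi * y))) * (((n : ℝ) + 1) * ‖u - v‖)) := by
          apply mul_le_mul h1 h2 (norm_nonneg _)
          positivity
      _ = (A * ‖u - v‖) * ((((n : ℝ) + 1) ^ (1 / 2 : ℝ) * ((n : ℝ) + 1)) *
            Real.exp (-(((n : ℝ) + 1) * (2 * Real.pi * y)))) := by ring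
      _ = (A * ‖u - v‖) * (((n : ℝ) + 1) ^ (3 / 2 : ℝ) *
            Real.exp (-(((n : ℝ) + 1) * (2 * Real.pi * y)))) := by rw [hpp]
      _ ≤ (A * ‖u - v‖) * (y ^ (-(3 / 2) : ℝ) * Real.exp (-y) ^ (n + 1)) :=
          mul_le_mul_of_nonneg_left (term hy (by norm_num) (by norm_num) n) (by positivity)
      _ = _ := by ring
  have hbs := hgs.mul_left (A * ‖u - v‖ * y ^ (-(3 / 2) : ℝ))
  unfold lam
  rw [← hs1.tsum_sub hs2]
  calc ‖∑' n : ℕ, (c (n + 1) * exp (-(((n : ℂ) + 1) * u)) -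
        c (n + 1) * exp (-(((n : ℂ) + 1) * v)))‖
      ≤ ∑' n : ℕ, (A * ‖u - v‖ * y ^ (-(3 / 2) : ℝ)) * Real.exp (-y) ^ (n + 1) :=
        tsum_of_norm_bounded hbs.hasSum hterm
    _ = (A * ‖u - v‖ * y ^ (-(3 / 2) : ℝ)) * ∑' n : ℕ, Real.exp (-y) ^ (n + 1) := tsum_mul_left
    _ ≤ _ := mul_le_mul_of_nonneg_left hgl (by positivity)

/-- the factor as a function of a complex height -/
def Wc (A : ℂ) (q θ α : ℝ) (z : ℂ) : ℂ :=
  A / (2 * Real.pi * (z - I * α)) *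
    (4 * Real.pi ^ 2 / (q * (2 * Real.pi * (z - I * α)))) ^ (-((θ : ℂ) * I))

theorem pX_im (α y : ℝ) : (pX α y).im = -(2 * Real.pi * α) := by
  unfold pX
  simp

theorem pX_re (α y : ℝ) : (pX α y).re = 2 * Real.pi * y := by
  unfold pX
  simp

theorem pX_ne {α : ℝ} (hα : 0 < α) (y : ℝ) : pX α y ≠ 0 := by
  intro h
  have h1 := pX_im α y
  rw [h, Complex.zero_im] at h1
  have : 0 < 2 * Real.pi * α := by have := Real.pi_pos; positivity
  linarith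

theorem slit {q α : ℝ} (hq : 0 < q) (hα : 0 < α) (y : ℝ) :
    4 * (Real.pi : ℂ) ^ 2 / (q * pX α y) ∈ slitPlane := by
  have hpi := Real.pi_pos
  have hX0 := pX_ne hα y
  have hq0 : (q : ℂ) ≠ 0 := by exact_mod_cast hq.ne'
  have e : 4 * (Real.pi : ℂ) ^ 2 / (q * pX α y) =
      ((4 * Real.pi ^ 2 / q : ℝ) : ℂ) * (pX α y)⁻¹ := by
    push_cast
    field_simp
  rw [e, Complex.mem_slitPlane_iff]
  right
  have h1 : (((4 * Real.pi ^ 2 / q : ℝ) : ℂ) * (pX α y)⁻¹).im =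
      4 * Real.pi ^ 2 / q * ((2 * Real.pi * α) / Complex.normSq (pX α y)) := by
    rw [Complex.im_ofReal_mul, Complex.inv_im, pX_im, neg_neg]
  rw [h1]
  have h2 : 0 < Complex.normSq (pX α y) := Complex.normSq_pos.2 hX0
  positivity

theorem W_diff (A : ℂ) (q θ α : ℝ) (hq : 0 < q) (hα : 0 < α) (y : ℝ) :
    DifferentiableAt ℝ (fun y : ℝ => Wc A q θ α (y : ℂ)) y := by
  have hX0 := pX_ne hα y
  have hsl := slit hq hα y
  have hq0 : (q : ℂ) ≠ 0 := by exact_mod_cast hq.ne'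
  unfold pX at hX0 hsl
  have hc : DifferentiableAt ℂ (Wc A q θ α) (y : ℂ) := by
    unfold Wc
    have h1 : DifferentiableAt ℂ (fun z : ℂ => 2 * (Real.pi : ℂ) * (z - I * α)) (y : ℂ) := by
      fun_prop
    have h2 : DifferentiableAt ℂ (fun z : ℂ => 4 * (Real.pi : ℂ) ^ 2 /
        (q * (2 * (Real.pi : ℂ) * (z - I * α)))) (y : ℂ) :=
      (differentiableAt_const _).div (h1.const_mul _) (mul_ne_zero hq0 hX0)
    refine ((differentiableAt_const _).div h1 hX0).mul ?_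
    exact h2.cpow (differentiableAt_const _) hsl
  exact hc.hasDerivAt.comp_ofReal.differentiableAt

/-- Lipschitz bound at zero and a bound on `(0, 1]` -/
theorem W_bounds (A : ℂ) (q θ α : ℝ) (hq : 0 < q) (hα : 0 < α) : ∃ K : ℝ, 0 ≤ K ∧
    ∀ y : ℝ, 0 < y → y ≤ 1 → ‖Wc A q θ α (y : ℂ)‖ ≤ K ∧
      ‖Wc A q θ α (y : ℂ) - Wc A q θ α ((0 : ℝ) : ℂ)‖ ≤ K * y := by
  set W : ℝ → ℂ := fun y : ℝ => Wc A q θ α (y : ℂ) with hW
  have hd : ∀ y, DifferentiableAt ℝ W y := fun y => W_diff A q θ α hq hα y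
  have hcont : Continuous W := continuous_iff_continuousAt.2 fun y => (hd y).continuousAt
  have hds : ContinuousOn (dslope W 0) Set.univ := by
    rw [continuousOn_dslope Filter.univ_mem]
    exact ⟨hcont.continuousOn, hd 0⟩
  obtain ⟨K₁, hK₁⟩ := isCompact_Icc.exists_bound_of_continuousOn
    (s := Set.Icc (0 : ℝ) 1) (hds.mono (Set.subset_univ _))
  obtain ⟨K₂, hK₂⟩ := isCompact_Icc.exists_bound_of_continuousOn
    (s := Set.Icc (0 : ℝ) 1) hcont.continuousOn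
  refine ⟨max 0 (max K₁ K₂), le_max_left _ _, ?_⟩
  intro y hy hy1
  have hm : y ∈ Set.Icc (0 : ℝ) 1 := ⟨hy.le, hy1⟩
  refine ⟨(hK₂ y hm).trans ((le_max_right _ _).trans (le_max_right _ _)), ?_⟩
  have h1 : W y - W 0 = (y - 0) • dslope W 0 y := (sub_smul_dslope W 0 y).symm
  have h2 : ‖W y - W 0‖ ≤ max 0 (max K₁ K₂) * y := by
    rw [h1, norm_smul, sub_zero, Real.norm_of_nonneg hy.le, mul_comm]
    exact mul_le_mul_of_nonneg_right
      ((hK₁ y hm).trans ((le_max_left _ _).trans (le_max_right _ _))) hy.le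
  exact h2

theorem tw_cj_norm (a : ℕ → ℂ) (θ : ℝ) (n : ℕ) (hn : 1 ≤ n) : ‖tw θ (cj a) n‖ = ‖a n‖ := by
  unfold tw cj
  rw [norm_mul, RCLike.norm_conj]
  have : ‖(n : ℂ) ^ (-((θ : ℂ) * I))‖ = 1 := by
    rw [Complex.norm_natCast_cpow_of_pos (by omega)]
    simp
  rw [this, mul_one]

end PT_

theorem p_PT : T_PT := by
  intro a A₁ A q θ α C ha hq hα hrel
  have hpi := Real.pi_pos
  have hA₁ : 0 ≤ A₁ := by
    have := ha 1 le_rfl
    simp only [Nat.cast_one, Real.one_rpow, mul_one] at this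
    exact (norm_nonneg _).trans this
  set c : ℕ → ℂ := tw θ (cj a) with hc
  have hcb : ∀ n : ℕ, 1 ≤ n → ‖c n‖ ≤ A₁ * (n : ℝ) ^ (1 / 2 : ℝ) := by
    intro n hn
    rw [hc, PT_.tw_cj_norm a θ n hn]
    exact ha n hn
  obtain ⟨K, hK0, hK⟩ := PT_.W_bounds A q θ α hq hα
  have hq0 : (q : ℂ) ≠ 0 := by exact_mod_cast hq.ne'
  have hα0 : (α : ℂ) ≠ 0 := by exact_mod_cast hα.ne'
  have hpi0 : (Real.pi : ℂ) ≠ 0 := by exact_mod_cast hpi.ne'
  -- the value at zero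
  have hW0 : PT_.Wc A q θ α ((0 : ℝ) : ℂ) = A / (-(2 * Real.pi * I * α)) *
      (2 * Real.pi * I / (q * α)) ^ (-((θ : ℂ) * I)) := by
    unfold PT_.Wc
    have e1 : 2 * (Real.pi : ℂ) * (((0 : ℝ) : ℂ) - I * α) = -(2 * Real.pi * I * α) := by
      push_cast
      ring
    have e2 : 4 * (Real.pi : ℂ) ^ 2 / (q * -(2 * Real.pi * I * α)) =
        2 * Real.pi * I / (q * α) := by
      have hI : I ≠ 0 := Complex.I_ne_zero
      rw [div_eq_div_iff (by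
        apply mul_ne_zero hq0
        rw [neg_ne_zero]
        exact mul_ne_zero (mul_ne_zero (mul_ne_zero two_ne_zero hpi0) hI) hα0)
        (mul_ne_zero hq0 hα0)]
      have hII : I * I = -1 := Complex.I_mul_I
      linear_combination (4 * (Real.pi : ℂ) ^ 2 * q * α) * hII
    rw [e1, e2]
  set ρ : ℝ := 1 / (q * (1 + α ^ 2)) with hρ
  have hρ0 : 0 < ρ := by positivity
  set D : ℝ := 2 * Real.pi / (q * α ^ 3) with hD
  have hD0 : 0 < D := by positivity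
  refine ⟨C + K * (A₁ * D * ρ ^ (-(3 / 2) : ℝ) * (1 / ρ)) +
    K * (A₁ * ρ ^ (-(1 / 2) : ℝ) * (1 / ρ)), ?_⟩
  intro y hy hy1
  have hr := hrel y hy hy1
  set X : ℂ := pX α y with hX
  set X1 : ℂ := 4 * Real.pi ^ 2 / (q * X) with hX1
  set X2 : ℂ := pX (-1 / (q * α)) (y / (q * α ^ 2)) with hX2
  have hXne : X ≠ 0 := PT_.pX_ne hα y
  have hz : 0 < ρ * y := by positivity
  -- real parts
  have hX1' : X1 = ((2 * Real.pi / (q * (y ^ 2 + α ^ 2)) : ℝ) : ℂ) * ((y : ℂ) + I * α) := by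
    have hs : ((y ^ 2 + α ^ 2 : ℝ) : ℂ) ≠ 0 := by
      have : (0 : ℝ) < y ^ 2 + α ^ 2 := by positivity
      exact_mod_cast this.ne'
    push_cast at hs
    have hy2 : ((y : ℂ) - I * α) * ((y : ℂ) + I * α) = (y : ℂ) ^ 2 + (α : ℂ) ^ 2 := by
      have hII : I * I = -1 := Complex.I_mul_I
      linear_combination (-(α : ℂ) ^ 2) * hII
    have hXe : X = 2 * Real.pi * ((y : ℂ) - I * α) := rfl
    rw [hX1, div_eq_iff (mul_ne_zero hq0 hXne), hXe]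
    push_cast
    have : 2 * (Real.pi : ℂ) / (q * ((y : ℂ) ^ 2 + (α : ℂ) ^ 2)) * ((y : ℂ) + I * α) *
        (q * (2 * Real.pi * ((y : ℂ) - I * α))) = 4 * (Real.pi : ℂ) ^ 2 *
        ((((y : ℂ) - I * α) * ((y : ℂ) + I * α)) / ((y : ℂ) ^ 2 + (α : ℂ) ^ 2)) := by
      field_simp
      ring
    rw [this, hy2, div_self hs, mul_one]
  have hX2' : X2 = ((2 * Real.pi / (q * α ^ 2) : ℝ) : ℂ) * ((y : ℂ) + I * α) := by
    rw [hX2]
    unfold pX
    push_cast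
    field_simp
    ring
  have hre : ((y : ℂ) + I * α).re = y := by simp
  have hX1re : 2 * Real.pi * (ρ * y) ≤ X1.re := by
    rw [hX1', Complex.re_ofReal_mul, hre, hρ]
    have h1 : 2 * Real.pi * (1 / (q * (1 + α ^ 2)) * y) = 2 * Real.pi / (q * (1 + α ^ 2)) * y := by
      ring
    rw [h1]
    apply mul_le_mul_of_nonneg_right _ hy.le
    apply div_le_div_of_nonneg_left (by positivity) (by positivity)
    apply mul_le_mul_of_nonneg_left _ hq.le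
    nlinarith
  have hX2re : 2 * Real.pi * (ρ * y) ≤ X2.re := by
    rw [hX2', Complex.re_ofReal_mul, hre, hρ]
    have h1 : 2 * Real.pi * (1 / (q * (1 + α ^ 2)) * y) = 2 * Real.pi / (q * (1 + α ^ 2)) * y := by
      ring
    rw [h1]
    apply mul_le_mul_of_nonneg_right _ hy.le
    apply div_le_div_of_nonneg_left (by positivity) (by positivity)
    apply mul_le_mul_of_nonneg_left _ hq.le
    linarith
  have hdiff : ‖X1 - X2‖ ≤ D * y ^ 2 := by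
    have hs : (0 : ℝ) < y ^ 2 + α ^ 2 := by positivity
    have e : X1 - X2 = ((-(2 * Real.pi * y ^ 2 / (q * α ^ 2 * (y ^ 2 + α ^ 2))) : ℝ) : ℂ) *
        ((y : ℂ) + I * α) := by
      rw [hX1', hX2', ← sub_mul, ← Complex.ofReal_sub]
      congr 2
      field_simp
      ring
    have hn : ‖(y : ℂ) + I * α‖ = Real.sqrt (y ^ 2 + α ^ 2) := by
      rw [mul_comm I, Complex.norm_add_mul_I]
    rw [e, norm_mul, Complex.norm_real, Real.norm_eq_abs, abs_neg, abs_of_nonneg (by positivity),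
      hn, hD]
    have h1 : Real.sqrt (y ^ 2 + α ^ 2) * α ≤ y ^ 2 + α ^ 2 := by
      have h2 : α ≤ Real.sqrt (y ^ 2 + α ^ 2) := by
        apply Real.le_sqrt_of_sq_le
        nlinarith [sq_nonneg y]
      calc Real.sqrt (y ^ 2 + α ^ 2) * α
          ≤ Real.sqrt (y ^ 2 + α ^ 2) * Real.sqrt (y ^ 2 + α ^ 2) :=
            mul_le_mul_of_nonneg_left h2 (Real.sqrt_nonneg _)
        _ = y ^ 2 + α ^ 2 := Real.mul_self_sqrt hs.le
    have h3 : 2 * Real.pi * y ^ 2 / (q * α ^ 2 * (y ^ 2 + α ^ 2)) * Real.sqrt (y ^ 2 + α ^ 2) =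
        (2 * Real.pi * y ^ 2 / (q * α ^ 3)) *
          ((Real.sqrt (y ^ 2 + α ^ 2) * α) / (y ^ 2 + α ^ 2)) := by
      field_simp
    rw [h3]
    have h4 : (Real.sqrt (y ^ 2 + α ^ 2) * α) / (y ^ 2 + α ^ 2) ≤ 1 := by
      rw [div_le_one hs]; exact h1
    calc (2 * Real.pi * y ^ 2 / (q * α ^ 3)) * ((Real.sqrt (y ^ 2 + α ^ 2) * α) / (y ^ 2 + α ^ 2))
        ≤ (2 * Real.pi * y ^ 2 / (q * α ^ 3)) * 1 :=
          mul_le_mul_of_nonneg_left h4 (by positivity)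
      _ = 2 * Real.pi / (q * α ^ 3) * y ^ 2 := by ring
  have hL1 := PT_.lam_diff hA₁ hcb hz X1 X2 hX1re hX2re
  have hL2 := (PT_.lam_bound hA₁ hcb hz X2 hX2re).2
  obtain ⟨hKy, hKd⟩ := hK y hy hy1
  have hWy : PT_.Wc A q θ α (y : ℂ) = A / X * X1 ^ (-((θ : ℂ) * I)) := rfl
  have hsplit : lam a X - A / (-(2 * Real.pi * I * α)) *
      (2 * Real.pi * I / (q * α)) ^ (-((θ : ℂ) * I)) * lam c X2 =
      (lam a X - A / X * X1 ^ (-((θ : ℂ) * I)) * lam c X1) +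
      PT_.Wc A q θ α (y : ℂ) * (lam c X1 - lam c X2) +
      (PT_.Wc A q θ α (y : ℂ) - PT_.Wc A q θ α ((0 : ℝ) : ℂ)) * lam c X2 := by
    rw [← hW0, hWy]
    ring
  rw [hsplit]
  have hyp : 0 < y ^ (-(1 / 2) : ℝ) := Real.rpow_pos_of_pos hy _
  have hcmp : y ^ (-(1 / 2) : ℝ) ≤ y ^ (-(3 / 4) : ℝ) :=
    Real.rpow_le_rpow_of_exponent_ge hy hy1 (by norm_num)
  have hρ3 : 0 < ρ ^ (-(3 / 2) : ℝ) := Real.rpow_pos_of_pos hρ0 _
  have hρ1 : 0 < ρ ^ (-(1 / 2) : ℝ) := Real.rpow_pos_of_pos hρ0 _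
  have h2 : ‖PT_.Wc A q θ α (y : ℂ) * (lam c X1 - lam c X2)‖ ≤
      K * (A₁ * D * ρ ^ (-(3 / 2) : ℝ) * (1 / ρ)) * y ^ (-(3 / 4) : ℝ) := by
    rw [norm_mul]
    calc ‖PT_.Wc A q θ α (y : ℂ)‖ * ‖lam c X1 - lam c X2‖
        ≤ K * (A₁ * ‖X1 - X2‖ * (ρ * y) ^ (-(3 / 2) : ℝ) * (1 / (ρ * y))) :=
          mul_le_mul hKy hL1 (norm_nonneg _) hK0
      _ ≤ K * (A₁ * (D * y ^ 2) * (ρ * y) ^ (-(3 / 2) : ℝ) * (1 / (ρ * y))) := by
          gcongr
      _ = K * (A₁ * D * ρ ^ (-(3 / 2) : ℝ) * (1 / ρ)) * y ^ (-(1 / 2) : ℝ) := by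
          rw [Real.mul_rpow hρ0.le hy.le]
          have e1 : y ^ (-(1 / 2) : ℝ) = y ^ 2 * y ^ (-(3 / 2) : ℝ) * (1 / y) := by
            have e2 : y ^ 2 * y ^ (-(3 / 2) : ℝ) = y ^ (1 / 2 : ℝ) := by
              rw [← Real.rpow_natCast y 2, ← Real.rpow_add hy]
              norm_num
            rw [e2, mul_one_div, eq_div_iff hy.ne']
            nth_rewrite 2 [← Real.rpow_one y]
            rw [← Real.rpow_add hy]
            norm_num
          rw [e1]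
          field_simp
      _ ≤ _ := mul_le_mul_of_nonneg_left hcmp (by positivity)
  have h3 : ‖(PT_.Wc A q θ α (y : ℂ) - PT_.Wc A q θ α ((0 : ℝ) : ℂ)) * lam c X2‖ ≤
      K * (A₁ * ρ ^ (-(1 / 2) : ℝ) * (1 / ρ)) * y ^ (-(3 / 4) : ℝ) := by
    rw [norm_mul]
    calc ‖PT_.Wc A q θ α (y : ℂ) - PT_.Wc A q θ α ((0 : ℝ) : ℂ)‖ * ‖lam c X2‖
        ≤ (K * y) * (A₁ * (ρ * y) ^ (-(1 / 2) : ℝ) * (1 / (ρ * y))) :=
          mul_le_mul hKd hL2 (norm_nonneg _) (by positivity)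
      _ = K * (A₁ * ρ ^ (-(1 / 2) : ℝ) * (1 / ρ)) * y ^ (-(1 / 2) : ℝ) := by
          rw [Real.mul_rpow hρ0.le hy.le]
          field_simp
      _ ≤ _ := mul_le_mul_of_nonneg_left hcmp (by positivity)
  calc ‖(lam a X - A / X * X1 ^ (-((θ : ℂ) * I)) * lam c X1) +
      PT_.Wc A q θ α (y : ℂ) * (lam c X1 - lam c X2) +
      (PT_.Wc A q θ α (y : ℂ) - PT_.Wc A q θ α ((0 : ℝ) : ℂ)) * lam c X2‖
      ≤ C * y ^ (-(3 / 4) : ℝ) +
        K * (A₁ * D * ρ ^ (-(3 / 2) : ℝ) * (1 / ρ)) * y ^ (-(3 / 4) : ℝ) +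
        K * (A₁ * ρ ^ (-(1 / 2) : ℝ) * (1 / ρ)) * y ^ (-(3 / 4) : ℝ) :=
        norm_add₃_le.trans (add_le_add (add_le_add hr h2) h3)
    _ = _ := by ring

end

end Pool.Agent.SelDeg2
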