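import Pool.Agent.SelDeg2.TargetsB

/-! # SMO: sums over smooth numbers -/

namespace Pool.Agent.SelDeg2

open Complex Filter Topology MeasureTheory
open Pool.Agent.SelPole Pool.Agent.SelTwo

/-- values at prime powers -/
theorem SMO_pow (g : ℕ → ℂ) (C₁ : ℝ) (_hC : 0 ≤ C₁)
    (hs : ∀ n : ℕ, 1 ≤ n → ‖g n‖ ≤ C₁ * (n : ℝ) ^ (1 / 4 : ℝ)) (p : ℕ) (hp : p.Prime) (k : ℕ) :
    ‖g (p ^ k)‖ / ((p ^ k : ℕ) : ℝ) ≤ C₁ * ((p : ℝ) ^ (-(3 / 4) : ℝ)) ^ k := by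
  have hp0 : (0 : ℝ) < p := by exact_mod_cast hp.pos
  have hpk : (0 : ℝ) < ((p ^ k : ℕ) : ℝ) := by exact_mod_cast pow_pos hp.pos k
  rw [div_le_iff₀ hpk]
  refine (hs (p ^ k) (Nat.one_le_iff_ne_zero.2 (pow_ne_zero k hp.ne_zero))).trans (le_of_eq ?_)
  rw [mul_assoc]
  congr 1
  push_cast
  rw [← mul_pow, ← Real.rpow_natCast, ← Real.rpow_natCast, ← Real.rpow_mul hp0.le]
  have h1 : (p : ℝ) ^ (-(3 / 4) : ℝ) * p = (p : ℝ) ^ (1 / 4 : ℝ) := by
    nth_rewrite 2 [← Real.rpow_one (p : ℝ)]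
    rw [← Real.rpow_add hp0]
    norm_num
  rw [h1, ← Real.rpow_mul hp0.le]
  ring_nf

theorem SMO_ratio (p : ℕ) (hp : p.Prime) :
    0 ≤ (p : ℝ) ^ (-(3 / 4) : ℝ) ∧ (p : ℝ) ^ (-(3 / 4) : ℝ) ≤ (2 : ℝ) ^ (-(3 / 4) : ℝ) ∧
      (2 : ℝ) ^ (-(3 / 4) : ℝ) < 1 := by
  have hp0 : (0 : ℝ) < p := by exact_mod_cast hp.pos
  have hp2 : (2 : ℝ) ≤ p := by exact_mod_cast hp.two_le
  refine ⟨Real.rpow_nonneg hp0.le _, ?_, ?_⟩
  · exact Real.rpow_le_rpow_of_nonpos (by norm_num) hp2 (by norm_num)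
  · exact Real.rpow_lt_one_of_one_lt_of_neg (by norm_num) (by norm_num)

theorem SMO_summable (g : ℕ → ℂ) (C₁ : ℝ) (hC : 0 ≤ C₁)
    (hs : ∀ n : ℕ, 1 ≤ n → ‖g n‖ ≤ C₁ * (n : ℝ) ^ (1 / 4 : ℝ)) (p : ℕ) (hp : p.Prime) :
    Summable (fun k : ℕ => ‖g (p ^ k)‖ / ((p ^ k : ℕ) : ℝ)) := by
  obtain ⟨h0, h1, h2⟩ := SMO_ratio p hp
  refine Summable.of_nonneg_of_le (fun k => by positivity) (fun k => SMO_pow g C₁ hC hs p hp k) ?_
  exact (summable_geometric_of_lt_one h0 (lt_of_le_of_lt h1 h2)).mul_left C₁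

/-- the higher powers of one prime -/
theorem SMO_tail (g : ℕ → ℂ) (C₁ : ℝ) (hC : 0 ≤ C₁)
    (hs : ∀ n : ℕ, 1 ≤ n → ‖g n‖ ≤ C₁ * (n : ℝ) ^ (1 / 4 : ℝ)) (p : ℕ) (hp : p.Prime) :
    ∑' k : ℕ, ‖g (p ^ (k + 1))‖ / ((p ^ (k + 1) : ℕ) : ℝ) ≤
      ‖g p‖ / p + C₁ * (1 / (1 - (2 : ℝ) ^ (-(3 / 4) : ℝ))) * (1 / (p : ℝ) ^ (3 / 2 : ℝ)) := by
  obtain ⟨h0, h1, h2⟩ := SMO_ratio p hp
  have hp0 : (0 : ℝ) < p := by exact_mod_cast hp.pos
  have hS := SMO_summable g C₁ hC hs p hp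
  have hS1 : Summable (fun k : ℕ => ‖g (p ^ (k + 1))‖ / ((p ^ (k + 1) : ℕ) : ℝ)) :=
    (summable_nat_add_iff 1).2 hS
  have hS2 : Summable (fun k : ℕ => ‖g (p ^ (k + 1 + 1))‖ / ((p ^ (k + 1 + 1) : ℕ) : ℝ)) :=
    (summable_nat_add_iff 1).2 hS1
  rw [hS1.tsum_eq_zero_add]
  have e0 : ‖g (p ^ (0 + 1))‖ / ((p ^ (0 + 1) : ℕ) : ℝ) = ‖g p‖ / p := by simp
  rw [e0]
  refine add_le_add le_rfl ?_
  set r : ℝ := (p : ℝ) ^ (-(3 / 4) : ℝ) with hr
  have hr1 : r < 1 := lt_of_le_of_lt h1 h2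
  have hG : Summable (fun k : ℕ => C₁ * r ^ 2 * r ^ k) :=
    (summable_geometric_of_lt_one h0 hr1).mul_left _
  have hle : ∑' k : ℕ, ‖g (p ^ (k + 1 + 1))‖ / ((p ^ (k + 1 + 1) : ℕ) : ℝ) ≤
      ∑' k : ℕ, C₁ * r ^ 2 * r ^ k := by
    refine hS2.tsum_le_tsum (fun k => ?_) hG
    refine (SMO_pow g C₁ hC hs p hp (k + 1 + 1)).trans (le_of_eq ?_)
    rw [← hr]
    ring
  refine hle.trans ?_
  rw [tsum_mul_left, tsum_geometric_of_lt_one h0 hr1]
  have hr2 : r ^ 2 = 1 / (p : ℝ) ^ (3 / 2 : ℝ) := by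
    rw [hr, ← Real.rpow_natCast, ← Real.rpow_mul hp0.le, one_div, ← Real.rpow_neg hp0.le]
    norm_num
  rw [← hr2]
  have h3 : (1 - r)⁻¹ ≤ 1 / (1 - (2 : ℝ) ^ (-(3 / 4) : ℝ)) := by
    rw [one_div]
    exact inv_anti₀ (by linarith) (by linarith)
  have h4 : 0 ≤ C₁ * r ^ 2 := by positivity
  calc C₁ * r ^ 2 * (1 - r)⁻¹ ≤ C₁ * r ^ 2 * (1 / (1 - (2 : ℝ) ^ (-(3 / 4) : ℝ))) :=
        mul_le_mul_of_nonneg_left h3 h4
    _ = _ := by ring

theorem p_SMO (hEPS : T_EPS) (hPM1 : T_PM1) : T_SMO := by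
  intro g hg
  obtain ⟨C₁, hs⟩ := hg.small (1 / 4) (by norm_num)
  have hC1 : 0 ≤ C₁ := by
    have := hs 1 le_rfl
    simp only [Nat.cast_one, Real.one_rpow, mul_one] at this
    exact (norm_nonneg _).trans this
  obtain ⟨C₀, hC0, hPM⟩ := hPM1 g hg.ms
  set D : ℝ := C₁ * (1 / (1 - (2 : ℝ) ^ (-(3 / 4) : ℝ))) with hD
  have hr0 : (2 : ℝ) ^ (-(3 / 4) : ℝ) < 1 := (SMO_ratio 2 Nat.prime_two).2.2
  have hD0 : 0 ≤ D := by
    rw [hD]
    have : 0 < 1 - (2 : ℝ) ^ (-(3 / 4) : ℝ) := by linarith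
    positivity
  have hZ : Summable (fun n : ℕ => 1 / (n : ℝ) ^ (3 / 2 : ℝ)) :=
    Real.summable_one_div_nat_rpow.2 (by norm_num)
  set Z : ℝ := ∑' n : ℕ, 1 / (n : ℝ) ^ (3 / 2 : ℝ) with hZd
  refine ⟨Real.exp (Real.exp 1 * C₀ + D * Z), Real.exp 1 * C₀, by positivity, by positivity, ?_⟩
  intro P hP T hT
  have hP0 : (1 : ℝ) ≤ P := by exact_mod_cast hP
  have hlog : 0 ≤ Real.log P := Real.log_nonneg hP0
  have hL : 0 < 1 + Real.log P := by linarith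
  set η : ℝ := 1 / (1 + Real.log P) with hη
  have hη0 : 0 < η := by positivity
  have hη1 : η ≤ 1 := by
    rw [hη, div_le_one hL]
    linarith
  obtain ⟨hsum, htot⟩ := hPM η hη0 hη1
  -- the multiplicative function
  have key := hEPS (fun n => ‖g n‖ / (n : ℝ)) (fun n => by positivity) (by simp [hg.one])
    (by
      intro m n hmn
      simp only [hg.mul m n hmn, norm_mul, Nat.cast_mul]
      rw [mul_div_mul_comm])
    (fun p hp => SMO_summable g C₁ hC1 hs p hp) P T hT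
  refine key.trans ?_
  have hsumle : ∑ p ∈ (Finset.range (P + 1)).filter Nat.Prime,
      ∑' k : ℕ, ‖g (p ^ (k + 1))‖ / ((p ^ (k + 1) : ℕ) : ℝ) ≤
      Real.exp 1 * (C₀ * (1 + Real.log (1 / η))) + D * Z := by
    calc ∑ p ∈ (Finset.range (P + 1)).filter Nat.Prime,
          ∑' k : ℕ, ‖g (p ^ (k + 1))‖ / ((p ^ (k + 1) : ℕ) : ℝ)
        ≤ ∑ p ∈ (Finset.range (P + 1)).filter Nat.Prime,
          (Real.exp 1 * (‖g p‖ * wt η p) + D * (1 / (p : ℝ) ^ (3 / 2 : ℝ))) := by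
          refine Finset.sum_le_sum (fun p hp => ?_)
          obtain ⟨hpr, hpp⟩ := Finset.mem_filter.1 hp
          have hp0 : (0 : ℝ) < p := by exact_mod_cast hpp.pos
          have hpP : (p : ℝ) ≤ P := by
            exact_mod_cast Nat.lt_succ_iff.1 (Finset.mem_range.1 hpr)
          refine (SMO_tail g C₁ hC1 hs p hpp).trans (add_le_add ?_ le_rfl)
          have h1 : 1 / (p : ℝ) ≤ Real.exp 1 * wt η p := by
            have h2 : (p : ℝ) ^ η ≤ Real.exp 1 := by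
              rw [Real.rpow_def_of_pos hp0]
              refine Real.exp_le_exp.2 ?_
              have h3 : Real.log p ≤ Real.log P := Real.log_le_log hp0 hpP
              have h4 : Real.log P * η ≤ 1 := by
                rw [hη, mul_one_div, div_le_one hL]
                linarith
              exact (mul_le_mul_of_nonneg_right h3 hη0.le).trans h4
            have h5 : wt η p = (p : ℝ) ^ (-1 - η) := rfl
            have h6 : 1 / (p : ℝ) = (p : ℝ) ^ η * (p : ℝ) ^ (-1 - η) := by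
              rw [← Real.rpow_add hp0]
              have : η + (-1 - η) = -1 := by ring
              rw [this, Real.rpow_neg_one, one_div]
            rw [h6, h5]
            exact mul_le_mul_of_nonneg_right h2 (Real.rpow_nonneg hp0.le _)
          calc ‖g p‖ / p = ‖g p‖ * (1 / (p : ℝ)) := by ring
            _ ≤ ‖g p‖ * (Real.exp 1 * wt η p) := mul_le_mul_of_nonneg_left h1 (norm_nonneg _)
            _ = Real.exp 1 * (‖g p‖ * wt η p) := by ring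
      _ = Real.exp 1 * ∑ p ∈ (Finset.range (P + 1)).filter Nat.Prime, ‖g p‖ * wt η p +
          D * ∑ p ∈ (Finset.range (P + 1)).filter Nat.Prime, 1 / (p : ℝ) ^ (3 / 2 : ℝ) := by
          rw [Finset.sum_add_distrib, ← Finset.mul_sum, ← Finset.mul_sum]
      _ ≤ Real.exp 1 * (C₀ * (1 + Real.log (1 / η))) + D * Z := by
          refine add_le_add (mul_le_mul_of_nonneg_left ?_ (Real.exp_pos 1).le)
            (mul_le_mul_of_nonneg_left ?_ hD0)
          · refine le_trans ?_ htot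
            have h7 : ∑ x ∈ (show Finset Nat.Primes from
                Finset.subtype Nat.Prime (Finset.range (P + 1))), ‖g x‖ * wt η x ≤
                ∑' p : Nat.Primes, ‖g p‖ * wt η p :=
              Summable.sum_le_tsum _ (fun x _ => by
                unfold wt
                positivity) hsum
            refine le_trans (le_of_eq ?_) h7
            exact (Finset.sum_subtype_eq_sum_filter (s := Finset.range (P + 1))
              (p := Nat.Prime) (fun p => ‖g p‖ * wt η p)).symm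
          · exact hZ.sum_le_tsum _ (fun n _ => by positivity)
  refine (Real.exp_le_exp.2 hsumle).trans (le_of_eq ?_)
  have h8 : 1 / η = 1 + Real.log P := by
    rw [hη, one_div_one_div]
  rw [h8, Real.rpow_def_of_pos hL, ← Real.exp_add]
  congr 1
  ring

end Pool.Agent.SelDeg2
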