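import Pool.Agent.SelDeg2.TargetsB

namespace Pool.Agent.SelDeg2

open Complex Filter Topology MeasureTheory
open Pool.Agent.SelPole Pool.Agent.SelTwo

noncomputable section

lemma SPC_wt_nonneg (η : ℝ) (n : ℕ) : 0 ≤ wt η n := by
  unfold wt; positivity

lemma SPC_wt_anti (η : ℝ) (hη : 0 < η) (m n : ℕ) (hm : 1 ≤ m) (hmn : m ≤ n) :
    wt η n ≤ wt η m := by
  unfold wt
  apply Real.rpow_le_rpow_of_nonpos
  · exact_mod_cast hm
  · exact_mod_cast hmn
  · linarith

lemma SPC_wt_le (η : ℝ) (hη : 0 < η) (m : ℕ) (hm : 1 ≤ m) : wt η m ≤ 1 / m := by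
  unfold wt
  have h : (1 : ℝ) / m = (m : ℝ) ^ (-1 : ℝ) := by
    rw [Real.rpow_neg_one, one_div]
  rw [h]
  apply Real.rpow_le_rpow_of_exponent_le
  · exact_mod_cast hm
  · linarith

/-- one step of the comparison with the integral -/
lemma SPC_step (η : ℝ) (hη : 0 < η) (N : ℕ) (hN : 1 ≤ N) :
    η * wt η (N + 1) ≤ (N : ℝ) ^ (-η) - ((N : ℝ) + 1) ^ (-η) := by
  have hN' : (0 : ℝ) < N := by exact_mod_cast hN
  have hN1 : (0 : ℝ) < (N : ℝ) + 1 := by linarith
  have hr : (0 : ℝ) < (N : ℝ) / ((N : ℝ) + 1) := by positivity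
  have h1 : Real.log ((N : ℝ) / ((N : ℝ) + 1)) ≤ -(1 / ((N : ℝ) + 1)) := by
    have := Real.log_le_sub_one_of_pos hr
    have e : (N : ℝ) / ((N : ℝ) + 1) - 1 = -(1 / ((N : ℝ) + 1)) := by
      field_simp; ring
    linarith
  have h2 : 1 + η / ((N : ℝ) + 1) ≤ ((N : ℝ) / ((N : ℝ) + 1)) ^ (-η) := by
    rw [Real.rpow_def_of_pos hr]
    have h3 := Real.add_one_le_exp (Real.log ((N : ℝ) / ((N : ℝ) + 1)) * (-η))
    have h4 : η * (1 / ((N : ℝ) + 1)) ≤ Real.log ((N : ℝ) / ((N : ℝ) + 1)) * (-η) := by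
      nlinarith
    have h5 : η * (1 / ((N : ℝ) + 1)) = η / ((N : ℝ) + 1) := by ring
    linarith
  have h6 : (N : ℝ) ^ (-η) = ((N : ℝ) / ((N : ℝ) + 1)) ^ (-η) * ((N : ℝ) + 1) ^ (-η) := by
    rw [Real.div_rpow hN'.le hN1.le, div_mul_cancel₀]
    positivity
  have h7 : wt η (N + 1) = ((N : ℝ) + 1) ^ (-η) / ((N : ℝ) + 1) := by
    unfold wt
    push_cast
    rw [show (-1 - η : ℝ) = -η - 1 by ring, Real.rpow_sub_one hN1.ne']
  rw [h6, h7]
  have h8 : (0 : ℝ) < ((N : ℝ) + 1) ^ (-η) := by positivity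
  have h9 : η * (((N : ℝ) + 1) ^ (-η) / ((N : ℝ) + 1)) =
      (η / ((N : ℝ) + 1)) * ((N : ℝ) + 1) ^ (-η) := by ring
  rw [h9]
  nlinarith

lemma SPC_sum_Icc (η : ℝ) (hη : 0 < η) (N : ℕ) (hN : 1 ≤ N) :
    η * ∑ f ∈ Finset.Icc 1 N, wt η f ≤ η + 1 - (N : ℝ) ^ (-η) := by
  induction N, hN using Nat.le_induction with
  | base => simp [wt]
  | succ N hN ih =>
    have hI : Finset.Icc 1 (N + 1) = insert (N + 1) (Finset.Icc 1 N) := by
      ext x; simp only [Finset.mem_Icc, Finset.mem_insert]; omega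
    rw [hI, Finset.sum_insert (by simp), mul_add]
    have := SPC_step η hη N hN
    push_cast
    linarith

lemma SPC_sum_le (η : ℝ) (hη : 0 < η) (hη1 : η ≤ 1) (S : Finset ℕ) (hS : ∀ f ∈ S, 1 ≤ f) :
    ∑ f ∈ S, wt η f ≤ 2 / η := by
  have h1 : S ⊆ Finset.Icc 1 (S.sup id + 1) := by
    intro f hf
    rw [Finset.mem_Icc]
    have : f ≤ S.sup id := Finset.le_sup (f := id) hf
    exact ⟨hS f hf, by omega⟩
  have h2 := Finset.sum_le_sum_of_subset_of_nonneg (f := fun f => wt η f) h1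
    (fun i _ _ => SPC_wt_nonneg η i)
  refine h2.trans ?_
  rw [le_div_iff₀ hη]
  have h3 := SPC_sum_Icc η hη (S.sup id + 1) (by omega)
  have h4 : (0 : ℝ) ≤ ((S.sup id + 1 : ℕ) : ℝ) ^ (-η) := by positivity
  linarith

theorem p_SPC : T_SPC := by
  intro κ β δ η J P₀ hδ hη hη1 hJ hP₀ hκ A hA
  -- injectivity of `n ↦ n / J`
  have key : ∀ n ∈ A, ∀ n' ∈ A, n < n' → n' - n ≤ J → False := by
    intro n hn n' hn' hlt hle
    obtain ⟨_, z, hz⟩ := hA n hn
    obtain ⟨_, z', hz'⟩ := hA n' hn'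
    have h1 := hκ (n' - n) (by omega) hle (z' - z)
    rw [Nat.cast_sub hlt.le] at h1
    push_cast at h1
    have h2 : ((n' : ℝ) - n) * κ - (z' - z) = (n' * κ - β - z') - (n * κ - β - z) := by ring
    rw [h2] at h1
    have h3 := abs_sub (n' * κ - β - z') (n * κ - β - z)
    linarith
  have hinj : Set.InjOn (fun n : ℕ => n / J) (A : Set ℕ) := by
    intro n hn n' hn' h
    simp only at h
    rcases lt_trichotomy n n' with hlt | heq | hgt
    · exfalso
      apply key n hn n' hn' hlt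
      have h1 := Nat.div_add_mod n J
      have h2 := Nat.div_add_mod n' J
      have h3 := Nat.mod_lt n' hJ
      rw [← h] at h2
      omega
    · exact heq
    · exfalso
      apply key n' hn' n hn hgt
      have h1 := Nat.div_add_mod n J
      have h2 := Nat.div_add_mod n' J
      have h3 := Nat.mod_lt n hJ
      rw [← h] at h2
      omega
  rw [← Finset.sum_filter_add_sum_filter_not A (fun n => n / J = 0)]
  have hJ' : (0 : ℝ) < J := by exact_mod_cast hJ
  have hP' : (0 : ℝ) < P₀ := by exact_mod_cast hP₀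
  apply add_le_add
  · -- at most one element
    have hcard : (A.filter (fun n => n / J = 0)).card ≤ 1 := by
      rw [Finset.card_le_one]
      intro a ha b hb
      rw [Finset.mem_filter] at ha hb
      exact hinj ha.1 hb.1 (by simp only; rw [ha.2, hb.2])
    have h1 : ∑ n ∈ A.filter (fun n => n / J = 0), wt η n ≤
        (A.filter (fun n => n / J = 0)).card • (1 / (P₀ : ℝ)) := by
      apply Finset.sum_le_card_nsmul
      intro n hn
      rw [Finset.mem_filter] at hn
      have h2 := (hA n hn.1).1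
      exact (SPC_wt_anti η hη P₀ n hP₀ h2.le).trans (SPC_wt_le η hη P₀ hP₀)
    refine h1.trans ?_
    rw [nsmul_eq_mul]
    have h3 : ((A.filter (fun n => n / J = 0)).card : ℝ) ≤ 1 := by exact_mod_cast hcard
    have h4 : (0 : ℝ) ≤ 1 / P₀ := by positivity
    nlinarith
  · set B := A.filter (fun n => ¬ n / J = 0) with hB
    have h1 : ∀ n ∈ B, wt η n ≤ 1 / J * wt η (n / J) := by
      intro n hn
      rw [hB, Finset.mem_filter] at hn
      have h2 : 1 ≤ n / J := Nat.one_le_iff_ne_zero.2 hn.2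
      have h3 : J * (n / J) ≤ n := Nat.mul_div_le n J
      have h4 : wt η n ≤ wt η (J * (n / J)) :=
        SPC_wt_anti η hη _ _ (Nat.mul_pos hJ h2) h3
      have h5 : wt η (J * (n / J)) = wt η J * wt η (n / J) := by
        unfold wt
        push_cast
        rw [Real.mul_rpow (by positivity) (by positivity)]
      rw [h5] at h4
      refine h4.trans ?_
      apply mul_le_mul_of_nonneg_right (SPC_wt_le η hη J hJ) (SPC_wt_nonneg _ _)
    have h2 : ∑ n ∈ B, wt η (n / J) = ∑ f ∈ B.image (fun n => n / J), wt η f := by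
      rw [Finset.sum_image]
      intro a ha b hb h
      exact hinj (Finset.mem_filter.1 ha).1 (Finset.mem_filter.1 hb).1 h
    have h3 : ∑ f ∈ B.image (fun n => n / J), wt η f ≤ 2 / η := by
      apply SPC_sum_le η hη hη1
      intro f hf
      rw [Finset.mem_image] at hf
      obtain ⟨n, hn, rfl⟩ := hf
      exact Nat.one_le_iff_ne_zero.2 (Finset.mem_filter.1 hn).2
    calc ∑ n ∈ B, wt η n ≤ ∑ n ∈ B, 1 / J * wt η (n / J) := Finset.sum_le_sum h1
      _ = 1 / J * ∑ n ∈ B, wt η (n / J) := by rw [Finset.mul_sum]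
      _ ≤ 1 / J * (2 / η) := by
          rw [h2]; apply mul_le_mul_of_nonneg_left h3; positivity
      _ = 2 / (J * η) := by field_simp

end

end Pool.Agent.SelDeg2
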