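import Pool.Agent.SelDeg2.TargetsC
import Pool.Agent.SelTwo.EXPD

/-!
# C-TW and C-MUL: twisting by a completely multiplicative function, multiplicativity
-/

namespace Pool.Agent.SelDeg2

open Complex Filter Topology MeasureTheory
open Pool.Agent.SelPole Pool.Agent.SelTwo

noncomputable section

namespace TW_

open Pool.Agent.SelTwo.EXPD_

/-- the arithmetic function equal to `b n` for `n ≠ 0` -/
def af (b : ℕ → ℂ) : ArithmeticFunction ℂ := ⟨fun n => if n = 0 then 0 else b n, by simp⟩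

theorem af_apply (b : ℕ → ℂ) (n : ℕ) : af b n = if n = 0 then 0 else b n := rfl

theorem af_ne {b : ℕ → ℂ} {n : ℕ} (hn : n ≠ 0) : af b n = b n := by
  rw [af_apply, if_neg hn]

theorem pow_twist (b h : ℕ → ℂ) (hm : ∀ m n, h (m * n) = h m * h n) (h1 : h 1 = 1) (j n : ℕ) :
    (af (fun n => b n * h n) ^ j) n = (af b ^ j) n * h n := by
  induction j generalizing n with
  | zero =>
    rw [pow_zero, pow_zero, ArithmeticFunction.one_apply]
    split_ifs with h0
    · rw [h0, h1, mul_one]
    · rw [zero_mul]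
  | succ j ih =>
    rw [pow_succ, pow_succ, ArithmeticFunction.mul_apply, ArithmeticFunction.mul_apply,
      Finset.sum_mul]
    refine Finset.sum_congr rfl fun p hp => ?_
    rw [Nat.mem_divisorsAntidiagonal] at hp
    have h3 : p.2 ≠ 0 := by
      intro h3
      apply hp.2
      rw [← hp.1, h3, mul_zero]
    rw [ih, af_ne h3, af_ne h3, ← hp.1, hm]
    ring

theorem ex_twist (b h : ℕ → ℂ) (hm : ∀ m n, h (m * n) = h m * h n) (h1 : h 1 = 1) (n : ℕ) :
    ex (af (fun n => b n * h n)) n = ex (af b) n * h n := by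
  unfold ex
  rw [← tsum_mul_right]
  refine tsum_congr fun j => ?_
  rw [pow_twist b h hm h1]
  ring

theorem summ_w {b : ℕ → ℂ} {σ : ℝ} (hb : LSeriesSummable b (σ : ℂ)) :
    Summable fun n => nf (af b) n * w σ n := by
  have h := hb.norm
  refine h.congr (fun n => ?_)
  rw [nf_apply, w]
  rcases Nat.eq_zero_or_pos n with rfl | hn
  · simp [af_apply]
  · rw [LSeries.term_of_ne_zero hn.ne', norm_div, norm_cpow_real, Complex.norm_natCast,
      Real.rpow_neg (by positivity), div_eq_mul_inv, af_ne hn.ne']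

theorem summ_twist {b h : ℕ → ℂ} (hh : ∀ n, ‖h n‖ ≤ 1) {s : ℂ} (hb : LSeriesSummable b s) :
    LSeriesSummable (fun n => b n * h n) s := by
  refine Summable.of_norm_bounded hb.norm (fun n => ?_)
  rcases Nat.eq_zero_or_pos n with rfl | hn
  · simp
  · rw [LSeries.term_of_ne_zero hn.ne', LSeries.term_of_ne_zero hn.ne', norm_div, norm_div,
      norm_mul]
    refine div_le_div_of_nonneg_right ?_ (norm_nonneg _)
    exact mul_le_of_le_one_right (norm_nonneg _) (hh n)

theorem LSeries_af (b : ℕ → ℂ) (s : ℂ) : LSeries (fun n => af b n) s = LSeries b s :=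
  LSeries_congr (fun {_} hn => af_ne hn) s

theorem a_eq_ex {F : ℂ → ℂ} {a b : ℕ → ℂ} (hS : IsSelberg F a b) (n : ℕ) (hn : n ≠ 0) :
    a n = ex (af b) n := by
  have h2 : (1 : ℝ) < (((2 : ℝ) : ℂ)).re := by norm_num
  have hf := summ_w (hS.log_summable _ h2)
  have hS2 : LSeriesSummable (ex (af b)) ((2 : ℝ) : ℂ) := (main (af b) 2 hf _ (by simp)).1
  refine LSeries.eq_of_LSeries_eventually_eq
    ((hS.summable _ h2).abscissaOfAbsConv_le.trans_lt (EReal.coe_lt_top _))
    (hS2.abscissaOfAbsConv_le.trans_lt (EReal.coe_lt_top _)) ?_ hn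
  filter_upwards [eventually_ge_atTop (2 : ℝ)] with x hx
  have hx' : 1 < ((x : ℂ)).re := by
    rw [ofReal_re]
    linarith
  rw [← hS.eq_series _ hx', hS.log_series _ hx', (main (af b) 2 hf _ (by simpa using hx)).2,
    LSeries_af]

end TW_

open TW_ in
theorem p_TW : T_TW := by
  intro F a b hS h hm h1 hh s hs
  have hs' : 1 < (((s.re : ℝ) : ℂ)).re := by simpa using hs
  have hf := summ_w (summ_twist hh (hS.log_summable _ hs'))
  have hmain := (EXPD_.main (af (fun n => b n * h n)) s.re hf s le_rfl).2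
  rw [LSeries_af] at hmain
  rw [← hmain]
  refine LSeries_congr (fun {n} hn => ?_) s
  rw [ex_twist b h hm h1, a_eq_ex hS n hn]

namespace TW_

open Classical in
/-- the indicator function of the integers coprime to `m` -/
def hc (m n : ℕ) : ℂ := if n.Coprime m then 1 else 0

open Classical in
/-- the indicator function of the integers composed of primes dividing `m` -/
def hd (m n : ℕ) : ℂ := if n ≠ 0 ∧ ∀ p : ℕ, p.Prime → p ∣ n → p ∣ m then 1 else 0

theorem hc_mul (m k n : ℕ) : hc m (k * n) = hc m k * hc m n := by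
  unfold hc
  by_cases h1 : k.Coprime m <;> by_cases h2 : n.Coprime m
  · rw [if_pos (Nat.Coprime.mul_left h1 h2), if_pos h1, if_pos h2, mul_one]
  · rw [if_neg (fun h => h2 (Nat.Coprime.coprime_mul_left h)), if_neg h2, mul_zero]
  · rw [if_neg (fun h => h1 (Nat.Coprime.coprime_mul_right h)), if_neg h1, zero_mul]
  · rw [if_neg (fun h => h1 (Nat.Coprime.coprime_mul_right h)), if_neg h1, zero_mul]

theorem hd_mul (m k n : ℕ) : hd m (k * n) = hd m k * hd m n := by
  unfold hd
  by_cases h1 : k ≠ 0 ∧ ∀ p : ℕ, p.Prime → p ∣ k → p ∣ m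
  · by_cases h2 : n ≠ 0 ∧ ∀ p : ℕ, p.Prime → p ∣ n → p ∣ m
    · rw [if_pos h1, if_pos h2, mul_one, if_pos]
      refine ⟨mul_ne_zero h1.1 h2.1, fun p hp hpk => ?_⟩
      rcases hp.dvd_mul.1 hpk with h | h
      · exact h1.2 p hp h
      · exact h2.2 p hp h
    · rw [if_neg h2, mul_zero, if_neg]
      rintro ⟨h3, h4⟩
      exact h2 ⟨right_ne_zero_of_mul h3, fun p hp hpn => h4 p hp (hpn.mul_left k)⟩
  · rw [if_neg h1, zero_mul, if_neg]
    rintro ⟨h3, h4⟩
    exact h1 ⟨left_ne_zero_of_mul h3, fun p hp hpn => h4 p hp (hpn.mul_right n)⟩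

theorem hc_one (m : ℕ) : hc m 1 = 1 := by
  unfold hc
  rw [if_pos (Nat.coprime_one_left m)]

theorem hd_one (m : ℕ) : hd m 1 = 1 := by
  unfold hd
  rw [if_pos]
  refine ⟨one_ne_zero, fun p hp h => ?_⟩
  exact absurd (Nat.dvd_one.1 h) hp.ne_one

theorem hc_le (m n : ℕ) : ‖hc m n‖ ≤ 1 := by
  unfold hc
  split_ifs <;> simp

theorem hd_le (m n : ℕ) : ‖hd m n‖ ≤ 1 := by
  unfold hd
  split_ifs <;> simp

theorem b_split {b : ℕ → ℂ} (hb : ∀ n : ℕ, ¬ IsPrimePow n → b n = 0) (m n : ℕ) :
    b n = b n * hd m n + b n * hc m n := by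
  by_cases h : IsPrimePow n
  · obtain ⟨q, j, hq, hj, rfl⟩ := (isPrimePow_nat_iff n).1 h
    by_cases hqm : q ∣ m
    · have h1 : hd m (q ^ j) = 1 := by
        unfold hd
        rw [if_pos]
        refine ⟨(pow_pos hq.pos j).ne', fun p hp hpn => ?_⟩
        rw [(Nat.prime_dvd_prime_iff_eq hp hq).1 (hp.dvd_of_dvd_pow hpn)]
        exact hqm
      have h2 : hc m (q ^ j) = 0 := by
        unfold hc
        rw [if_neg]
        intro h3
        have h4 : q ∣ q ^ j := dvd_pow_self q (by omega)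
        have h5 : q ∣ Nat.gcd (q ^ j) m := Nat.dvd_gcd h4 hqm
        rw [h3] at h5
        exact hq.ne_one (Nat.dvd_one.1 h5)
      rw [h1, h2]
      ring
    · have h1 : hd m (q ^ j) = 0 := by
        unfold hd
        rw [if_neg]
        rintro ⟨-, h3⟩
        exact hqm (h3 q hq (dvd_pow_self q (by omega)))
      have h2 : hc m (q ^ j) = 1 := by
        unfold hc
        rw [if_pos]
        exact Nat.Coprime.pow_left j ((Nat.Prime.coprime_iff_not_dvd hq).2 hqm)
      rw [h1, h2]
      ring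
  · rw [hb n h]
    ring

/-- a coprime factorisation is unique -/
theorem fact_unique {m n d e : ℕ} (hm : m ≠ 0) (hmn : m.Coprime n) (hde : d * e = m * n)
    (hd1 : d ≠ 0) (hd : ∀ p : ℕ, p.Prime → p ∣ d → p ∣ m) (he : e.Coprime m) : d = m := by
  have h1 : m ∣ d := by
    have h2 : m ∣ d * e := by
      rw [hde]
      exact Nat.dvd_mul_right m n
    exact he.symm.dvd_of_dvd_mul_right h2
  have h3 : d.Coprime n := by
    refine Nat.Coprime.symm ?_
    refine Nat.coprime_of_dvd (fun p hp hpn hpd => ?_)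
    have h4 : p ∣ Nat.gcd m n := Nat.dvd_gcd (hd p hp hpd) hpn
    rw [hmn] at h4
    exact hp.ne_one (Nat.dvd_one.1 h4)
  have h5 : d ∣ m := by
    have h6 : d ∣ m * n := by
      rw [← hde]
      exact Nat.dvd_mul_right d e
    exact h3.dvd_of_dvd_mul_right h6
  exact Nat.dvd_antisymm h5 h1

end TW_

open TW_ in
theorem p_MUL : T_MUL := by
  classical
  intro F a b hS m n hmn
  rcases Nat.eq_zero_or_pos m with rfl | hm
  · rw [Nat.coprime_zero_left] at hmn
    rw [hmn, mul_one, hS.a_one, mul_one]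
  rcases Nat.eq_zero_or_pos n with rfl | hn
  · rw [Nat.coprime_zero_right] at hmn
    rw [hmn, one_mul, hS.a_one, one_mul]
  set a₁ : ℕ → ℂ := fun k => a k * hd m k with ha₁
  set a₂ : ℕ → ℂ := fun k => a k * hc m k with ha₂
  have h2 : (1 : ℝ) < (((2 : ℝ) : ℂ)).re := by norm_num
  have hS₁ : ∀ s : ℂ, 1 < s.re → LSeriesSummable a₁ s := fun s hs =>
    summ_twist (hd_le m) (hS.summable s hs)
  have hS₂ : ∀ s : ℂ, 1 < s.re → LSeriesSummable a₂ s := fun s hs =>
    summ_twist (hc_le m) (hS.summable s hs)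
  have key : ∀ k : ℕ, k ≠ 0 → a k = LSeries.convolution a₁ a₂ k := by
    intro k hk
    refine LSeries.eq_of_LSeries_eventually_eq
      ((hS.summable _ h2).abscissaOfAbsConv_le.trans_lt (EReal.coe_lt_top _))
      (((hS₁ _ h2).convolution (hS₂ _ h2)).abscissaOfAbsConv_le.trans_lt (EReal.coe_lt_top _))
      ?_ hk
    filter_upwards [eventually_ge_atTop (2 : ℝ)] with x hx
    have hx' : 1 < ((x : ℂ)).re := by
      rw [ofReal_re]
      linarith
    rw [LSeries_convolution' (hS₁ _ hx') (hS₂ _ hx'), ← hS.eq_series _ hx', hS.log_series _ hx',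
      ha₁, ha₂, p_TW F a b hS (hd m) (hd_mul m) (hd_one m) (hd_le m) _ hx',
      p_TW F a b hS (hc m) (hc_mul m) (hc_one m) (hc_le m) _ hx', ← Complex.exp_add,
      ← LSeries_add (summ_twist (hd_le m) (hS.log_summable _ hx'))
        (summ_twist (hc_le m) (hS.log_summable _ hx'))]
    congr 1
    refine LSeries_congr (fun {i} _ => ?_) _
    rw [Pi.add_apply]
    exact b_split hS.b_supp m i
  rw [key (m * n) (mul_ne_zero hm.ne' hn.ne'), LSeries.convolution_def]
  change ∑ p ∈ (m * n).divisorsAntidiagonal, a₁ p.1 * a₂ p.2 = _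
  rw [Finset.sum_eq_single (m, n)]
  · have h3 : hd m m = 1 := by
      unfold hd
      rw [if_pos]
      exact ⟨hm.ne', fun p _ h => h⟩
    have h4 : hc m n = 1 := by
      unfold hc
      rw [if_pos hmn.symm]
    simp only [ha₁, ha₂]
    rw [h3, h4, mul_one, mul_one]
  · rintro ⟨d, e⟩ hde hne
    obtain ⟨h3, h4⟩ := Nat.mem_divisorsAntidiagonal.1 hde
    simp only at h3
    by_cases h5 : d ≠ 0 ∧ ∀ p : ℕ, p.Prime → p ∣ d → p ∣ m
    · by_cases h6 : e.Coprime m
      · exfalso
        apply hne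
        have h7 : d = m := fact_unique hm.ne' hmn h3 h5.1 h5.2 h6
        rw [h7] at h3
        have h8 : e = n := Nat.eq_of_mul_eq_mul_left hm h3
        rw [h7, h8]
      · have h7 : hc m e = 0 := by
          unfold hc
          rw [if_neg h6]
        simp only [ha₂]
        rw [h7, mul_zero, mul_zero]
    · have h7 : hd m d = 0 := by
        unfold hd
        rw [if_neg h5]
      simp only [ha₁]
      rw [h7, mul_zero, zero_mul]
  · intro h
    exfalso
    apply h
    rw [Nat.mem_divisorsAntidiagonal]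
    exact ⟨rfl, mul_ne_zero hm.ne' hn.ne'⟩

end

end Pool.Agent.SelDeg2
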