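import Pool.Agent.SelTwo.FINAL
import Pool.Agent.SelDeg2.LAM
import Pool.Agent.SelDeg2.RAT
import Pool.Agent.SelDeg2.KER
import Pool.Agent.SelDeg2.FE
import Pool.Agent.SelDeg2.PL
import Pool.Agent.SelDeg2.SHIFT
import Pool.Agent.SelDeg2.ERR
import Pool.Agent.SelDeg2.REL
import Pool.Agent.SelDeg2.DREL
import Pool.Agent.SelDeg2.IRR
import Pool.Agent.SelDeg2.MEL
import Pool.Agent.SelDeg2.PT
import Pool.Agent.SelDeg2.MDG
import Pool.Agent.SelDeg2.EP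
import Pool.Agent.SelDeg2.EPS
import Pool.Agent.SelDeg2.MOM2
import Pool.Agent.SelDeg2.MOM1
import Pool.Agent.SelDeg2.PM1
import Pool.Agent.SelDeg2.HAR
import Pool.Agent.SelDeg2.SMO
import Pool.Agent.SelDeg2.DIO
import Pool.Agent.SelDeg2.GEO
import Pool.Agent.SelDeg2.SPC
import Pool.Agent.SelDeg2.BIL
import Pool.Agent.SelDeg2.GRP
import Pool.Agent.SelDeg2.DVP
import Pool.Agent.SelDeg2.RID
import Pool.Agent.SelDeg2.EE
import Pool.Agent.SelDeg2.RAM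
import Pool.Agent.SelDeg2.TW

/-! Assembly of parts A and B. -/

namespace Pool.Agent.SelDeg2

open Pool.Agent.SelTwo in
theorem all_REL : T_REL :=
  have hG1 := Pool.Agent.SelTwo.p_G1 p_STIR
  have hGAM := p_GAM p_MELX
  p_REL (p_LAM (p_INV p_MELX hGAM)) (p_RAT hG1) (p_KER hG1) p_FE p_PL (p_SHIFT hGAM) p_ERR

theorem all_DREL : T_DREL := p_DREL all_REL (p_DREL1 p_MEL p_PT)

theorem all_MOM2 : T_MOM2 := p_MOM2 p_EP

theorem all_MOM1 : T_MOM1 := p_MOM1 all_MOM2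

theorem all_RAM : T_RAM :=
  p_RAM all_MOM2 all_MOM1 p_PM1 (p_HAR all_MOM1) (p_SMO p_EPS p_PM1) (p_BIL p_GEO p_SPC) p_GRP
    p_RID (p_EE p_DVP all_MOM1 p_PM1 p_GRP)

theorem all_IRR : T_IRR := p_IRR all_RAM p_DIO

theorem all_KRAT : T_KRAT := p_KRAT (p_MDG p_MUL) all_IRR

end Pool.Agent.SelDeg2
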