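import Pool.Agent.SelDeg2.TargetsC

/-! Assembly of parts C and D. -/

namespace Pool.Agent.SelDeg2.CD_

open Complex Filter Topology
open Pool.Agent.SelPole Pool.Agent.SelTwo Pool.Agent.SelDeg2

theorem bounded_small {r : ℕ} (hr : 1 ≤ r) {l : Filter ℝ} (hl : l ≤ 𝓝[>] 0) {f : ℝ → ℂ} {C : ℝ}
    (hf : ∀ η : ℝ, 0 < η → η ≤ 1 → ‖f η‖ ≤ C) :
    Tendsto (fun η : ℝ => (η : ℂ) ^ r * f η) l (𝓝 0) := by
  have h1 : Tendsto (fun η : ℝ => η * C) l (𝓝 0) := by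
    have h2 : Tendsto (fun η : ℝ => η * C) (𝓝 0) (𝓝 (0 * C)) := tendsto_id.mul_const C
    rw [zero_mul] at h2
    exact h2.mono_left (hl.trans nhdsWithin_le_nhds)
  refine squeeze_zero_norm' ?_ h1
  have h0 : ∀ᶠ η in l, 0 < η ∧ η < 1 := by
    refine hl ?_
    filter_upwards [Ioo_mem_nhdsGT (show (0 : ℝ) < 1 by norm_num)] with η hη using hη
  filter_upwards [h0] with η hη
  obtain ⟨hη0, hη1⟩ := hη
  rw [norm_mul, norm_pow, Complex.norm_real, Real.norm_of_nonneg hη0.le]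
  have h5 : η ^ r ≤ η := by
    calc η ^ r ≤ η ^ 1 := pow_le_pow_of_le_one hη0.le hη1.le hr
      _ = η := pow_one η
  exact mul_le_mul h5 (hf η hη0 hη1.le) (norm_nonneg _) hη0.le

theorem pow_cpow (p k : ℕ) (z : ℂ) : ((p ^ k : ℕ) : ℂ) ^ z = ((p : ℂ) ^ z) ^ k := by
  induction k with
  | zero => simp
  | succ k ih =>
    rw [pow_succ, Nat.cast_mul, Complex.natCast_mul_natCast_cpow, ih, pow_succ]

end Pool.Agent.SelDeg2.CD_

namespace Pool.Agent.SelDeg2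

open Complex Filter Topology
open Pool.Agent.SelPole Pool.Agent.SelTwo CD_

theorem p_CD (hST1 : T_ST1) (hFOU : T_FOU) (hORD : T_ORD) (hSML : T_SML) (hPPL : T_PPL)
    (hGKP : T_GKP) (hEXA : T_EXA) : T_CD := by
  intro F a b r R₀ A₁ κ θ hF hP hMS hD hκ
  obtain ⟨hr, hR₀, -⟩ := id hP
  -- the rational number κ
  have hκ' : ∃ q : ℚ, (q : ℝ) = κ := by
    by_contra h
    exact hκ (fun ⟨q, hq⟩ => h ⟨q, hq⟩)
  obtain ⟨q, hq⟩ := hκ'
  have hq0 : 0 < q := by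
    have := hD.κ_pos
    rw [← hq] at this
    exact_mod_cast this
  have hnum : 0 < q.num := Rat.num_pos.2 hq0
  set u : ℕ := q.num.toNat with hu
  set N : ℕ := q.den with hN
  have : NeZero N := ⟨q.den_nz⟩
  have hun : (u : ℤ) = q.num := Int.toNat_of_nonneg hnum.le
  have huN : u.Coprime N := by
    have h1 := q.reduced
    rw [← hun] at h1
    simpa using h1
  have hκu : κ = (u : ℝ) / N := by
    rw [← hq]
    have h1 : (q : ℝ) = (q.num : ℝ) / (q.den : ℝ) := Rat.cast_def q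
    rw [h1, ← hun, hN]
    simp
  obtain ⟨l, c₀, X, hne, hl, hc₀, hX1, hlim, hc₀eq, hApp⟩ :=
    hST1 F a b r R₀ A₁ κ θ u N hF hP hMS hD huN hκu
  obtain ⟨c, hcsum, hXc, hcne, hAF⟩ :=
    hFOU F a b r κ θ u N l c₀ X hF huN hκu hne hl hc₀ hX1 hlim hApp
  obtain ⟨ψ₀, hψ, hcase⟩ := hORD F a b r R₀ N θ c hF hP hAF hcsum hcne
  have hceq : c = (fun ψ => open Classical in if ψ = ψ₀ then 1 else 0) := funext hψ
  rw [hceq] at hAF
  have hXψ : ∀ x : (ZMod N)ˣ, X x = (starRingEnd ℂ) (ψ₀ (x : ZMod N)) := by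
    intro x
    rw [hXc x, hceq]
    classical
    simp
  have hinv : ∀ y : ZMod N, (ψ₀⁻¹ : DirichletCharacter ℂ N) y = (starRingEnd ℂ) (ψ₀ y) := by
    intro y
    rw [← MulChar.star_eq_inv]
    rfl
  refine ⟨N, inferInstance, ψ₀⁻¹, ?_, ?_⟩
  · rcases hcase with ⟨h1, h2, h3⟩ | ⟨h1, h2⟩
    · exact Or.inl ⟨h1, h2, by rw [h3, inv_one]⟩
    · exact Or.inr ⟨h1, fun h => h2 (inv_eq_one.1 h)⟩
  intro p j hp hpN hj
  have hpc : (p : ℂ) ≠ 0 := by exact_mod_cast hp.ne_zero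
  have hcop : p.Coprime N := (Nat.Prime.coprime_iff_not_dvd hp).2 hpN
  set w : ℂ := (ψ₀⁻¹ : DirichletCharacter ℂ N) (p : ZMod N) * (p : ℂ) ^ (-((θ : ℂ) * I)) with hw
  have hw1 : ‖w‖ = 1 := by
    rw [hw, norm_mul, Complex.norm_natCast_cpow_of_pos hp.pos]
    have h1 : ‖(ψ₀⁻¹ : DirichletCharacter ℂ N) (p : ZMod N)‖ = 1 := by
      have h2 := DirichletCharacter.unit_norm_eq_one (ψ₀⁻¹ : DirichletCharacter ℂ N)
        (ZMod.unitOfCoprime p hcop)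
      rwa [ZMod.coe_unitOfCoprime] at h2
    rw [h1]
    simp
  have hHH : ∀ k : ℕ, 1 ≤ k → HH a p k = w ^ k := by
    intro k hk
    have : NeZero (p ^ k) := ⟨pow_ne_zero k hp.ne_zero⟩
    have h1 := hPPL F a b r R₀ l hF hP hl p k hp hk (fun χ hχ => by
      obtain ⟨C, hC⟩ := hSML F a b N θ ψ₀ hF hAF p k hp hpN χ hχ
      exact bounded_small hr hl hC)
    have h2 := hGKP a r R₀ A₁ κ θ l hr hR₀ hD hl p k (HH a p k) hp.one_lt.le h1
    have hcopk : (p ^ k).Coprime N := Nat.Coprime.pow_left k hcop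
    have h3 := hlim (p ^ k) hcopk
    rw [← hc₀eq] at h2
    have h4 := tendsto_nhds_unique h3 h2
    have h5 := (starRingEnd ℂ).injective (mul_left_cancel₀ hc₀ h4)
    rw [hXψ, ZMod.coe_unitOfCoprime, ← hinv, Nat.cast_pow, map_pow, pow_cpow] at h5
    have h6 : ((p : ℂ) ^ ((θ : ℂ) * I)) * (p : ℂ) ^ (-((θ : ℂ) * I)) = 1 := by
      rw [← Complex.cpow_add _ _ hpc]; simp
    rw [hw, mul_pow, h5]
    calc HH a p k = (((p : ℂ) ^ ((θ : ℂ) * I)) * (p : ℂ) ^ (-((θ : ℂ) * I))) ^ k * HH a p k := by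
          rw [h6, one_pow, one_mul]
      _ = _ := by rw [mul_pow]; ring
  exact (hEXA F a b hF p w hp hw1 hHH).2 j hj

end Pool.Agent.SelDeg2
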