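import Pool.Agent.SelDeg2.TargetsC

/-!
# C-CS: evaluation of the character sums for the trivial character mod `p^k`
-/

set_option autoImplicit false

namespace Pool.Agent.SelDeg2

open Complex Filter Topology MeasureTheory
open Pool.Agent.SelPole Pool.Agent.SelTwo

namespace CS_

lemma ee_mul_nat (x : ℝ) (n : ℕ) : ee (n * x) = ee x ^ n := by
  unfold ee
  rw [← Complex.exp_nat_mul]
  congr 1
  push_cast
  ring

lemma ee_nat (n : ℕ) : ee (n : ℝ) = 1 := by
  unfold ee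
  have h1 : 2 * (Real.pi : ℂ) * I * ((n : ℝ) : ℂ) = ((n : ℤ) : ℂ) * (2 * Real.pi * I) := by
    push_cast
    ring
  rw [h1, Complex.exp_int_mul_two_pi_mul_I]

lemma ee_eq_one {x : ℝ} (h : ee x = 1) : ∃ n : ℤ, x = n := by
  unfold ee at h
  rw [Complex.exp_eq_one_iff] at h
  obtain ⟨n, hn⟩ := h
  refine ⟨n, ?_⟩
  have h2 : (2 * Real.pi * I : ℂ) ≠ 0 := Complex.two_pi_I_ne_zero
  have h3 : (2 * Real.pi * I : ℂ) * ((x : ℂ) - n) = 0 := by
    rw [mul_sub, hn]
    ring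
  have h4 := (mul_eq_zero.1 h3).resolve_left h2
  have h5 : (x : ℂ) = ((n : ℝ) : ℂ) := by
    rw [sub_eq_zero] at h4
    rw [h4]
    simp
  exact_mod_cast h5

/-- the geometric sum -/
lemma geom (p j k : ℕ) (hp : 2 ≤ p) :
    ∑ y ∈ Finset.range (p ^ k), ee ((p : ℝ) ^ j * ((y : ℝ) / (p : ℝ) ^ k)) =
      if k ≤ j then ((p ^ k : ℕ) : ℂ) else 0 := by
  have hp0 : (0 : ℝ) < p := by exact_mod_cast (by omega : 0 < p)
  set ζ := ee ((p : ℝ) ^ j / (p : ℝ) ^ k) with hζ
  have h1 : ∀ y : ℕ, ee ((p : ℝ) ^ j * ((y : ℝ) / (p : ℝ) ^ k)) = ζ ^ y := by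
    intro y
    rw [hζ, ← ee_mul_nat]
    congr 1
    ring
  simp_rw [h1]
  split_ifs with hkj
  · have h2 : ζ = 1 := by
      obtain ⟨i, rfl⟩ := Nat.exists_eq_add_of_le hkj
      rw [hζ]
      have h3 : (p : ℝ) ^ (k + i) / (p : ℝ) ^ k = ((p ^ i : ℕ) : ℝ) := by
        push_cast
        rw [pow_add]
        field_simp
      rw [h3, ee_nat]
    simp [h2]
  · push Not at hkj
    have h2 : ζ ≠ 1 := by
      intro h
      obtain ⟨n, hn⟩ := ee_eq_one h
      have h3 : (0 : ℝ) < (p : ℝ) ^ j / (p : ℝ) ^ k := by positivity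
      have h4 : (p : ℝ) ^ j / (p : ℝ) ^ k < 1 := by
        rw [div_lt_one (by positivity)]
        exact pow_lt_pow_right₀ (by exact_mod_cast (by omega : 1 < p)) hkj
      rw [hn] at h3 h4
      have h5 : (0 : ℤ) < n := by exact_mod_cast h3
      have h6 : n < (1 : ℤ) := by exact_mod_cast h4
      omega
    have h3 : ζ ^ (p ^ k) = 1 := by
      rw [hζ, ← ee_mul_nat]
      have h4 : (((p ^ k : ℕ) : ℝ)) * ((p : ℝ) ^ j / (p : ℝ) ^ k) = ((p ^ j : ℕ) : ℝ) := by
        push_cast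
        field_simp
      rw [h4, ee_nat]
    rw [geom_sum_eq h2, h3, sub_self, zero_div]

/-- sums over units as sums over numbers -/
lemma sum_units (q : ℕ) [NeZero q] (g : ℕ → ℂ) :
    ∑ u : (ZMod q)ˣ, g ((u : ZMod q).val) =
      ∑ y ∈ (Finset.range q).filter (fun y => y.Coprime q), g y := by
  refine Finset.sum_bij (fun u _ => (u : ZMod q).val) ?_ ?_ ?_ ?_
  · intro u _
    rw [Finset.mem_filter, Finset.mem_range]
    exact ⟨ZMod.val_lt _, ZMod.val_coe_unit_coprime u⟩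
  · intro u _ u' _ h
    exact Units.ext (ZMod.val_injective q h)
  · intro y hy
    rw [Finset.mem_filter, Finset.mem_range] at hy
    refine ⟨ZMod.unitOfCoprime y hy.2, Finset.mem_univ _, ?_⟩
    rw [ZMod.coe_unitOfCoprime, ZMod.val_natCast_of_lt hy.1]
  · intro u _
    rfl

/-- multiples of `p` -/
lemma sum_mult (p k : ℕ) (hp : 0 < p) (g : ℕ → ℂ) :
    ∑ y ∈ (Finset.range (p ^ (k + 1))).filter (fun y => p ∣ y), g y =
      ∑ y ∈ Finset.range (p ^ k), g (p * y) := by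
  symm
  refine Finset.sum_bij (fun y _ => p * y) ?_ ?_ ?_ ?_
  · intro y hy
    rw [Finset.mem_range] at hy
    rw [Finset.mem_filter, Finset.mem_range]
    refine ⟨?_, dvd_mul_right _ _⟩
    rw [pow_succ, mul_comm]
    exact Nat.mul_lt_mul_of_pos_right hy hp
  · intro y _ y' _ h
    exact Nat.eq_of_mul_eq_mul_left hp h
  · intro y hy
    rw [Finset.mem_filter, Finset.mem_range] at hy
    obtain ⟨z, rfl⟩ := hy.2
    refine ⟨z, ?_, rfl⟩
    rw [Finset.mem_range]
    have h1 := hy.1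
    rw [pow_succ, mul_comm p z] at h1
    exact Nat.lt_of_mul_lt_mul_right h1
  · intro y _
    rfl

end CS_

open CS_ in
theorem p_CS : T_CS := by
  intro p k hne hp hk j
  obtain ⟨k, rfl⟩ := Nat.exists_eq_succ_of_ne_zero (by omega : k ≠ 0)
  rw [Nat.succ_eq_add_one] at *
  have hp2 := hp.two_le
  have hp0 : (0 : ℝ) < p := by exact_mod_cast hp.pos
  have hpc : (p : ℂ) ≠ 0 := by exact_mod_cast hp.ne_zero
  have hpc1 : (p : ℂ) - 1 ≠ 0 := by
    intro h
    have h1 : (p : ℂ) = ((1 : ℕ) : ℂ) := by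
      rw [sub_eq_zero] at h
      simpa using h
    have h2 : p = 1 := by exact_mod_cast h1
    omega
  set F : ℕ → ℂ := fun y => ee ((p : ℝ) ^ j * ((y : ℝ) / (p : ℝ) ^ (k + 1))) with hF
  have h1 : ∑ y : (ZMod (p ^ (k + 1)))ˣ, (starRingEnd ℂ)
      ((1 : DirichletCharacter ℂ (p ^ (k + 1))) (y : ZMod (p ^ (k + 1)))) *
      ee (((p ^ j : ℕ) : ℝ) * ((((y : ZMod (p ^ (k + 1))).val : ℕ) : ℝ) /
        ((p ^ (k + 1) : ℕ) : ℝ))) =
      ∑ y : (ZMod (p ^ (k + 1)))ˣ, F ((y : ZMod (p ^ (k + 1))).val) := by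
    apply Finset.sum_congr rfl
    intro y _
    rw [MulChar.one_apply_coe, map_one, one_mul, hF]
    push_cast
    rfl
  have h2 : ∑ y ∈ (Finset.range (p ^ (k + 1))).filter (fun y => y.Coprime (p ^ (k + 1))), F y =
      ∑ y ∈ Finset.range (p ^ (k + 1)), F y - ∑ y ∈ Finset.range (p ^ k), F (p * y) := by
    rw [← sum_mult p k hp.pos F, eq_sub_iff_add_eq,
      ← Finset.sum_filter_not_add_sum_filter (Finset.range (p ^ (k + 1))) (fun y => p ∣ y)]
    congr 1
    apply Finset.sum_congr _ fun _ _ => rfl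
    apply Finset.filter_congr
    intro y _
    rw [Nat.coprime_pow_right_iff (by omega), Nat.coprime_comm, hp.coprime_iff_not_dvd]
  have h3 : ∑ y ∈ Finset.range (p ^ (k + 1)), F y =
      if k + 1 ≤ j then ((p ^ (k + 1) : ℕ) : ℂ) else 0 := geom p j (k + 1) hp2
  have h4 : ∑ y ∈ Finset.range (p ^ k), F (p * y) =
      if k ≤ j then ((p ^ k : ℕ) : ℂ) else 0 := by
    rw [← geom p j k hp2]
    apply Finset.sum_congr rfl
    intro y _
    rw [hF]
    simp only
    congr 1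
    push_cast
    rw [pow_succ]
    field_simp
  have hφ : (((p ^ (k + 1)).totient : ℕ) : ℂ) = (p : ℂ) ^ k * ((p : ℂ) - 1) := by
    rw [Nat.totient_prime_pow_succ hp]
    push_cast
    rw [Nat.cast_sub hp.one_le]
    push_cast
    ring
  unfold cG
  rw [h1, sum_units (p ^ (k + 1)) F, h2, h3, h4, hφ]
  have hpk : (p : ℂ) ^ k ≠ 0 := pow_ne_zero _ hpc
  have e1 : k + 1 - 1 = k := rfl
  rw [e1]
  by_cases c1 : k + 1 ≤ j
  · rw [if_pos c1, if_pos c1, if_pos (by omega : k ≤ j)]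
    push_cast
    rw [pow_succ]
    field_simp
  · rw [if_neg c1, if_neg c1]
    by_cases c2 : j = k
    · rw [if_pos c2, if_pos (by omega : k ≤ j)]
      push_cast
      field_simp
      ring
    · rw [if_neg c2, if_neg (by omega : ¬ k ≤ j)]
      simp

end Pool.Agent.SelDeg2
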