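import Pool.Agent.SelDeg2.TargetsC

/-!
# C-DEC: expansion of an additive twist in Dirichlet characters

MP_995735_nt, job DEG2-DEC.
-/

namespace Pool.Agent.SelDeg2

open Complex Filter Topology MeasureTheory
open Pool.Agent.SelPole Pool.Agent.SelTwo

noncomputable section

namespace DEC_

/-- all primes dividing `G` divide `M` -/
def Cnd (M G : ℕ) : Prop := ∀ p : ℕ, p.Prime → p ∣ G → p ∣ M

theorem exists_split (M n : ℕ) (hn : n ≠ 0) :
    ∃ G e : ℕ, n = G * e ∧ Cnd M G ∧ e.Coprime M := by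
  induction n using Nat.strong_induction_on with
  | _ n ih =>
    by_cases hc : n.Coprime M
    · refine ⟨1, n, by simp, ?_, hc⟩
      intro p hp h1
      exact absurd (Nat.dvd_one.mp h1) hp.ne_one
    · obtain ⟨p, hp, hpn, hpM⟩ := Nat.Prime.not_coprime_iff_dvd.mp hc
      obtain ⟨m, rfl⟩ := hpn
      have hm : m ≠ 0 := by
        rintro rfl
        simp at hn
      have hlt : m < p * m := by
        have := hp.two_le
        nlinarith [Nat.pos_of_ne_zero hm]
      obtain ⟨G, e, hGe, hG, he⟩ := ih m hlt hm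
      refine ⟨p * G, e, by rw [hGe, mul_assoc], ?_, he⟩
      intro q hq hqd
      rcases (Nat.Prime.dvd_mul hq).mp hqd with h | h
      · rw [(Nat.prime_dvd_prime_iff_eq hq hp).mp h]
        exact hpM
      · exact hG q hq h

theorem coprime_of_cnd {M G e : ℕ} (hG : Cnd M G) (he : e.Coprime M) : G.Coprime e := by
  by_contra h
  obtain ⟨p, hp, hpG, hpe⟩ := Nat.Prime.not_coprime_iff_dvd.mp h
  have hpM := hG p hp hpG
  exact (Nat.Prime.not_coprime_iff_dvd.mpr ⟨p, hp, hpe, hpM⟩) he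

theorem split_unique {M G e G' e' : ℕ} (h : G * e = G' * e') (hG : Cnd M G) (hG' : Cnd M G')
    (he : e.Coprime M) (he' : e'.Coprime M) (h0 : G * e ≠ 0) : G = G' ∧ e = e' := by
  have h1 : G ∣ G' := by
    have : G ∣ G' * e' := ⟨e, h.symm⟩
    exact (coprime_of_cnd hG he').dvd_of_dvd_mul_right this
  have h2 : G' ∣ G := by
    have : G' ∣ G * e := ⟨e', h⟩
    exact (coprime_of_cnd hG' he).dvd_of_dvd_mul_right this
  have h3 : G = G' := Nat.dvd_antisymm h1 h2
  subst h3
  refine ⟨rfl, ?_⟩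
  have hGpos : 0 < G := by
    rcases Nat.eq_zero_or_pos G with h4 | h4
    · simp [h4] at h0
    · exact h4
  exact Nat.eq_of_mul_eq_mul_left hGpos h

theorem norm_ee (x : ℝ) : ‖ee x‖ = 1 := by
  unfold ee
  have : (2 * Real.pi * I * x : ℂ) = ((2 * Real.pi * x : ℝ) : ℂ) * I := by
    push_cast
    ring
  rw [this, norm_exp_ofReal_mul_I]

theorem ee_add_int (x : ℝ) (k : ℤ) : ee (x + k) = ee x := by
  unfold ee
  rw [Complex.exp_eq_exp_iff_exists_int]
  refine ⟨k, ?_⟩
  push_cast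
  ring

theorem ee_eq_of_modEq {M : ℕ} [NeZero M] (a b : ℕ) (h : (a : ZMod M) = (b : ZMod M)) :
    ee ((a : ℝ) / M) = ee ((b : ℝ) / M) := by
  have hM : (M : ℝ) ≠ 0 := Nat.cast_ne_zero.mpr (NeZero.ne M)
  have h1 : (M : ℤ) ∣ (a : ℤ) - b := by
    rw [← ZMod.intCast_zmod_eq_zero_iff_dvd]
    push_cast
    rw [h, sub_self]
  obtain ⟨k, hk⟩ := h1
  have h2 : (a : ℝ) = b + M * k := by
    have : (a : ℤ) = b + M * k := by linarith
    exact_mod_cast this
  have h3 : (a : ℝ) / M = (b : ℝ) / M + k := by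
    rw [h2]
    field_simp
  rw [h3, ee_add_int]

theorem norm_cG_le (M : ℕ) [NeZero M] (ξ : DirichletCharacter ℂ M) (G : ℕ) :
    ‖cG M ξ G‖ ≤ 1 := by
  unfold cG
  have hM : 0 < M.totient := Nat.totient_pos.mpr (Nat.pos_of_ne_zero (NeZero.ne M))
  have hM' : (0 : ℝ) < (M.totient : ℝ) := by exact_mod_cast hM
  rw [norm_mul, norm_div, norm_one, Complex.norm_natCast]
  have h1 : ‖∑ y : (ZMod M)ˣ, (starRingEnd ℂ) (ξ (y : ZMod M)) *
      ee ((G : ℝ) * (((y : ZMod M).val : ℝ) / M))‖ ≤ ∑ y : (ZMod M)ˣ, (1 : ℝ) := by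
    refine norm_sum_le_of_le _ fun y _ => ?_
    rw [norm_mul, norm_ee, mul_one, RCLike.norm_conj]
    exact DirichletCharacter.norm_le_one ξ _
  rw [Finset.sum_const, Finset.card_univ, ZMod.card_units_eq_totient, nsmul_eq_mul, mul_one] at h1
  calc 1 / (M.totient : ℝ) * _ ≤ 1 / (M.totient : ℝ) * (M.totient : ℝ) :=
        mul_le_mul_of_nonneg_left h1 (by positivity)
    _ = 1 := by field_simp

theorem conj_char_unit {M : ℕ} [NeZero M] (ξ : DirichletCharacter ℂ M) (y : (ZMod M)ˣ) :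
    (starRingEnd ℂ) (ξ (y : ZMod M)) = ξ ((y : ZMod M)⁻¹) := by
  have h1 : ξ ((y : ZMod M)⁻¹) * ξ (y : ZMod M) = 1 := by
    rw [← map_mul, ZMod.inv_mul_of_unit _ y.isUnit, map_one]
  have h2 : ‖ξ (y : ZMod M)‖ = 1 := DirichletCharacter.unit_norm_eq_one ξ y
  have h3 : (starRingEnd ℂ) (ξ (y : ZMod M)) * ξ (y : ZMod M) = 1 := by
    rw [← Complex.normSq_eq_conj_mul_self, Complex.normSq_eq_norm_sq, h2]
    simp
  have h4 : ξ (y : ZMod M) ≠ 0 := by
    intro h
    rw [h, norm_zero] at h2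
    exact zero_ne_one h2
  exact mul_right_cancel₀ h4 (h3.trans h1.symm)

/-- orthogonality -/
theorem sum_cG (M : ℕ) [NeZero M] (G m : ℕ) (hm : m.Coprime M) :
    ∑ ξ : DirichletCharacter ℂ M, cG M ξ G * ξ (m : ZMod M) = ee ((G : ℝ) * ((m : ℝ) / M)) := by
  have hM : 0 < M.totient := Nat.totient_pos.mpr (Nat.pos_of_ne_zero (NeZero.ne M))
  have hM' : (M.totient : ℂ) ≠ 0 := by exact_mod_cast hM.ne'
  unfold cG
  have h1 : ∀ ξ : DirichletCharacter ℂ M,
      1 / (M.totient : ℂ) * (∑ y : (ZMod M)ˣ, (starRingEnd ℂ) (ξ (y : ZMod M)) *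
        ee ((G : ℝ) * (((y : ZMod M).val : ℝ) / M))) * ξ (m : ZMod M) =
      ∑ y : (ZMod M)ˣ, 1 / (M.totient : ℂ) * ee ((G : ℝ) * (((y : ZMod M).val : ℝ) / M)) *
        (ξ ((y : ZMod M)⁻¹) * ξ (m : ZMod M)) := by
    intro ξ
    rw [Finset.mul_sum, Finset.sum_mul]
    refine Finset.sum_congr rfl fun y _ => ?_
    rw [conj_char_unit]
    ring
  simp_rw [h1]
  rw [Finset.sum_comm]
  have h2 : ∀ y : (ZMod M)ˣ, ∑ ξ : DirichletCharacter ℂ M,
      1 / (M.totient : ℂ) * ee ((G : ℝ) * (((y : ZMod M).val : ℝ) / M)) *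
        (ξ ((y : ZMod M)⁻¹) * ξ (m : ZMod M)) =
      if y = ZMod.unitOfCoprime m hm then ee ((G : ℝ) * ((m : ℝ) / M)) else 0 := by
    intro y
    rw [← Finset.mul_sum]
    have h3 := DirichletCharacter.sum_char_inv_mul_char_eq ℂ y.isUnit (m : ZMod M)
    have h4 : ∑ ξ : DirichletCharacter ℂ M, ξ ((y : ZMod M)⁻¹) * ξ (m : ZMod M) =
        if (y : ZMod M) = (m : ZMod M) then (M.totient : ℂ) else 0 := by
      rw [← h3]
    rw [h4]
    by_cases hy : (y : ZMod M) = (m : ZMod M)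
    · have hy' : y = ZMod.unitOfCoprime m hm := by
        ext
        rw [hy, ZMod.coe_unitOfCoprime]
      rw [if_pos hy, if_pos hy']
      have h5 : ee ((G : ℝ) * (((y : ZMod M).val : ℝ) / M)) = ee ((G : ℝ) * ((m : ℝ) / M)) := by
        have := ee_eq_of_modEq (M := M) (G * (y : ZMod M).val) (G * m) (by
          push_cast
          rw [ZMod.natCast_val, ZMod.cast_id', id, hy])
        push_cast at this
        rw [mul_div_assoc, mul_div_assoc] at this
        exact this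
      rw [h5]
      field_simp
    · have hy' : y ≠ ZMod.unitOfCoprime m hm := by
        intro h
        apply hy
        rw [h, ZMod.coe_unitOfCoprime]
      rw [if_neg hy, if_neg hy', mul_zero]
  simp_rw [h2]
  rw [Finset.sum_ite_eq' Finset.univ, if_pos (Finset.mem_univ _)]

open Classical in
/-- the coefficients of `kap` -/
def kf (a : ℕ → ℂ) (M : ℕ) [NeZero M] (ξ : DirichletCharacter ℂ M) : ℕ → ℂ := fun G =>
  if Cnd M G then a G * cG M ξ G else 0

theorem kap_eq (a : ℕ → ℂ) (M : ℕ) [NeZero M] (ξ : DirichletCharacter ℂ M) (s : ℂ) :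
    kap a M ξ s = LSeries (kf a M ξ) s := rfl

theorem summable_of_le {a f : ℕ → ℂ} {s : ℂ} (ha : LSeriesSummable a s)
    (h : ∀ n, n ≠ 0 → ‖f n‖ ≤ ‖a n‖) : LSeriesSummable f s := by
  unfold LSeriesSummable at ha ⊢
  refine Summable.of_norm_bounded (ha.norm) fun n => ?_
  rcases eq_or_ne n 0 with rfl | hn
  · simp
  · exact LSeries.norm_term_le s (h n hn)

theorem kf_summable {F : ℂ → ℂ} {a b : ℕ → ℂ} (hS : IsSelberg F a b) (M : ℕ) [NeZero M]
    (ξ : DirichletCharacter ℂ M) {s : ℂ} (hs : 1 < s.re) : LSeriesSummable (kf a M ξ) s := by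
  refine summable_of_le (hS.summable s hs) fun n _ => ?_
  unfold kf
  split_ifs
  · rw [norm_mul]
    exact mul_le_of_le_one_right (norm_nonneg _) (norm_cG_le M ξ n)
  · simp

theorem aX_summable {F : ℂ → ℂ} {a b : ℕ → ℂ} (hS : IsSelberg F a b) (M : ℕ)
    (ξ : DirichletCharacter ℂ M) {s : ℂ} (hs : 1 < s.re) : LSeriesSummable (aX a ξ) s := by
  refine summable_of_le (hS.summable s hs) fun n _ => ?_
  unfold aX
  rw [norm_mul]
  exact mul_le_of_le_one_right (norm_nonneg _) (DirichletCharacter.norm_le_one ξ _)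

theorem conv_eq (hMUL : T_MUL) {F : ℂ → ℂ} {a b : ℕ → ℂ} (hS : IsSelberg F a b) (M : ℕ) [NeZero M]
    (u : ℕ) (hu : u.Coprime M) (n : ℕ) (hn : n ≠ 0) :
    a n * ee (n * ((u : ℝ) / M)) = ∑ ξ : DirichletCharacter ℂ M, ξ (u : ZMod M) *
      ∑ p ∈ n.divisorsAntidiagonal, kf a M ξ p.1 * aX a ξ p.2 := by
  obtain ⟨G, e, hGe, hG, he⟩ := exists_split M n hn
  have hone : ∀ ξ : DirichletCharacter ℂ M,
      ∑ p ∈ n.divisorsAntidiagonal, kf a M ξ p.1 * aX a ξ p.2 =
        (a G * cG M ξ G) * (a e * ξ (e : ZMod M)) := by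
    intro ξ
    have hmem : (G, e) ∈ n.divisorsAntidiagonal := by
      rw [Nat.mem_divisorsAntidiagonal]
      exact ⟨hGe.symm, hn⟩
    rw [Finset.sum_eq_single_of_mem (G, e) hmem]
    · simp only [kf, aX, if_pos hG]
    · rintro ⟨G', e'⟩ hp hne
      rw [Nat.mem_divisorsAntidiagonal] at hp
      simp only at hp ⊢
      by_cases hG' : Cnd M G'
      · by_cases he' : e'.Coprime M
        · exfalso
          apply hne
          have h1 : G * e = G' * e' := by rw [← hGe, hp.1]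
          obtain ⟨h2, h3⟩ := split_unique h1 hG hG' he he' (by rw [← hGe]; exact hn)
          rw [h2, h3]
        · have : ξ (e' : ZMod M) = 0 := by
            apply MulChar.map_nonunit
            rw [ZMod.isUnit_iff_coprime]
            exact he'
          simp only [aX, this, mul_zero]
      · simp only [kf, if_neg hG', zero_mul]
  simp_rw [hone]
  have hcop : G.Coprime e := coprime_of_cnd hG he
  have hmul : a n = a G * a e := by
    rw [hGe]
    exact hMUL F a b hS G e hcop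
  have hum : (u * e).Coprime M := Nat.Coprime.mul_left hu he
  have hsum : ∀ ξ : DirichletCharacter ℂ M, ξ (u : ZMod M) *
      ((a G * cG M ξ G) * (a e * ξ (e : ZMod M))) =
      (a G * a e) * (cG M ξ G * ξ ((u * e : ℕ) : ZMod M)) := by
    intro ξ
    push_cast
    rw [map_mul]
    ring
  simp_rw [hsum]
  rw [← Finset.mul_sum, sum_cG M G (u * e) hum, ← hmul]
  congr 2
  rw [hGe]
  push_cast
  ring

end DEC_

open DEC_ in
/-- C-DEC -/
theorem p_DEC (hMUL : T_MUL) : T_DEC := by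
  intro F a b hS M _ u s hu hs
  have h1 : LSeries (fun n => a n * ee (n * ((u : ℝ) / M))) s =
      LSeries (∑ ξ : DirichletCharacter ℂ M, (ξ (u : ZMod M)) • (LSeries.convolution (kf a M ξ) (aX a ξ))) s := by
    refine LSeries_congr ?_ s
    intro n hn
    rw [conv_eq hMUL hS M u hu n hn]
    rw [Finset.sum_apply]
    refine Finset.sum_congr rfl fun ξ _ => ?_
    rw [Pi.smul_apply, smul_eq_mul, LSeries.convolution_def]
  rw [h1, LSeries_sum]
  · refine Finset.sum_congr rfl fun ξ _ => ?_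
    rw [LSeries_smul, LSeries_convolution' (kf_summable hS M ξ hs) (aX_summable hS M ξ hs),
      kap_eq, mul_assoc]
  · intro ξ _
    exact LSeriesSummable.smul _ (LSeriesSummable.convolution (kf_summable hS M ξ hs)
      (aX_summable hS M ξ hs))

end

end Pool.Agent.SelDeg2
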