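import Pool.Agent.SelDeg2.TargetsC
import Pool.Agent.SelTwo.AP
import Pool.Agent.SelTwo.EXPD

/-!
# E1: continuity of the local quantities at `s = 1`, and their size for large `p`
-/

namespace Pool.Agent.SelDeg2

open Complex Filter Topology MeasureTheory
open Pool.Agent.SelPole Pool.Agent.SelTwo

namespace E1_

theorem cp {p : ℕ} (j : ℕ) (s : ℂ) : (p : ℂ) ^ (-((j : ℂ) * s)) = ((p : ℂ) ^ (-s)) ^ j := by
  rw [← Complex.cpow_nat_mul]
  congr 1
  ring

theorem norm_z {p : ℕ} (hp : p.Prime) {s : ℂ} (hs : 1 ≤ s.re) : ‖(p : ℂ) ^ (-s)‖ ≤ 1 / p := by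
  rw [Complex.norm_natCast_cpow_of_pos hp.pos, Complex.neg_re, one_div, ← Real.rpow_neg_one]
  exact Real.rpow_le_rpow_of_exponent_le (by exact_mod_cast hp.one_lt.le) (by linarith)

theorem z_one {p : ℕ} : (p : ℂ) ^ (-(1 : ℂ)) = 1 / p := by
  rw [Complex.cpow_neg_one, one_div]

/-- continuity of the partial Euler factors -/
theorem tendsto_series {a : ℕ → ℂ} {p : ℕ} (hp : p.Prime) (k : ℕ)
    (hsum : Summable (fun j : ℕ => ‖a (p ^ j) * (1 / (p : ℂ)) ^ j‖)) :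
    Tendsto (fun η : ℝ => ∑' j : ℕ, a (p ^ (k + j)) *
      (p : ℂ) ^ (-(((k + j : ℕ) : ℂ) * (1 + (η : ℂ))))) (𝓝[>] 0)
      (𝓝 (∑' j : ℕ, a (p ^ (k + j)) * (p : ℂ) ^ (-(((k + j : ℕ) : ℂ) * 1)))) := by
  have hp0 : (p : ℂ) ≠ 0 := by exact_mod_cast hp.ne_zero
  have hb : Summable (fun j : ℕ => ‖a (p ^ (k + j)) * (1 / (p : ℂ)) ^ (k + j)‖) := by
    have := (summable_nat_add_iff k).mpr hsum
    refine this.congr fun j => ?_
    rw [add_comm j k]
  refine tendsto_tsum_of_dominated_convergence hb ?_ ?_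
  · intro j
    refine Tendsto.const_mul _ ?_
    have hc : Continuous (fun η : ℝ => (p : ℂ) ^ (-(((k + j : ℕ) : ℂ) * (1 + (η : ℂ))))) := by
      refine Continuous.const_cpow ?_ (Or.inl hp0)
      fun_prop
    have h1 := (hc.tendsto 0).mono_left (nhdsWithin_le_nhds (s := Set.Ioi (0 : ℝ)))
    simpa using h1
  · filter_upwards [self_mem_nhdsWithin] with η hη j
    rw [norm_mul, norm_mul, cp, norm_pow, norm_pow]
    refine mul_le_mul_of_nonneg_left ?_ (norm_nonneg _)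
    refine pow_le_pow_left₀ (norm_nonneg _) ?_ _
    have h1 := norm_z hp (s := 1 + (η : ℂ)) (by
      simp only [Complex.add_re, Complex.one_re, Complex.ofReal_re]
      have : (0 : ℝ) < η := hη
      linarith)
    refine h1.trans (le_of_eq ?_)
    rw [norm_div, norm_one, Complex.norm_natCast]

theorem lpf_eq {a b : ℕ → ℂ} {p : ℕ} (hp : p.Prime) {s : ℂ} (hs : 1 ≤ s.re)
    (h : ∀ z : ℂ, ‖z‖ ≤ 1 / p → Summable (fun j : ℕ => ‖a (p ^ j) * z ^ j‖) ∧
      Summable (fun j : ℕ => ‖b (p ^ (j + 1)) * z ^ (j + 1)‖) ∧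
      ∑' j : ℕ, a (p ^ j) * z ^ j = exp (∑' j : ℕ, b (p ^ (j + 1)) * z ^ (j + 1))) :
    LpF a p s = exp (∑' j : ℕ, b (p ^ (j + 1)) * ((p : ℂ) ^ (-s)) ^ (j + 1)) := by
  rw [← (h _ (norm_z hp hs)).2.2]
  unfold LpF
  refine tsum_congr fun j => ?_
  rw [cp]

/-- the tail of a power series with coefficients of size `C p^(j t)` -/
theorem tail_bound {c : ℕ → ℂ} {C t : ℝ} (hC : 0 ≤ C) (ht : t < 1 / 2)
    {p : ℕ} (hp : p.Prime) (hc : ∀ j : ℕ, ‖c j‖ ≤ C * ((p : ℝ) ^ (j + 2)) ^ t)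
    (hs : Summable (fun j : ℕ => ‖c j * (1 / (p : ℂ)) ^ (j + 2)‖)) :
    ‖∑' j : ℕ, c j * (1 / (p : ℂ)) ^ (j + 2)‖ ≤ 4 * C * (p : ℝ) ^ (2 * t - 2) := by
  have hp0 : (0 : ℝ) < p := by exact_mod_cast hp.pos
  have hp2 : (2 : ℝ) ≤ p := by exact_mod_cast hp.two_le
  set r : ℝ := (p : ℝ) ^ (t - 1) with hr
  have hr0 : 0 < r := Real.rpow_pos_of_pos hp0 _
  have hr1 : r ≤ 3 / 4 := by
    have h1 : r ≤ (2 : ℝ) ^ (-(1 / 2) : ℝ) := by
      calc r ≤ (p : ℝ) ^ (-(1 / 2) : ℝ) :=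
            Real.rpow_le_rpow_of_exponent_le (by linarith) (by linarith)
        _ ≤ (2 : ℝ) ^ (-(1 / 2) : ℝ) :=
            Real.rpow_le_rpow_of_nonpos (by norm_num) hp2 (by norm_num)
    refine h1.trans ?_
    rw [Real.rpow_neg (by norm_num), ← Real.sqrt_eq_rpow]
    have h2 : (4 : ℝ) / 3 ≤ Real.sqrt 2 := Real.le_sqrt_of_sq_le (by norm_num)
    calc (Real.sqrt 2)⁻¹ ≤ (4 / 3 : ℝ)⁻¹ := inv_anti₀ (by norm_num) h2
      _ = 3 / 4 := by norm_num
  have hterm : ∀ j : ℕ, ‖c j * (1 / (p : ℂ)) ^ (j + 2)‖ ≤ C * r ^ 2 * r ^ j := by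
    intro j
    rw [norm_mul, norm_pow, norm_div, norm_one, Complex.norm_natCast]
    have h1 : ((p : ℝ) ^ (j + 2)) ^ t * (1 / (p : ℝ)) ^ (j + 2) = r ^ 2 * r ^ j := by
      rw [hr, ← pow_add, ← Real.rpow_natCast ((p : ℝ) ^ (t - 1)), ← Real.rpow_mul hp0.le,
        ← Real.rpow_natCast, ← Real.rpow_mul hp0.le, one_div, inv_pow, ← Real.rpow_natCast (p : ℝ),
        ← Real.rpow_neg hp0.le, ← Real.rpow_add hp0]
      congr 1
      push_cast
      ring
    calc ‖c j‖ * (1 / (p : ℝ)) ^ (j + 2)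
        ≤ (C * ((p : ℝ) ^ (j + 2)) ^ t) * (1 / (p : ℝ)) ^ (j + 2) :=
          mul_le_mul_of_nonneg_right (hc j) (by positivity)
      _ = C * (((p : ℝ) ^ (j + 2)) ^ t * (1 / (p : ℝ)) ^ (j + 2)) := by ring
      _ = C * (r ^ 2 * r ^ j) := by rw [h1]
      _ = C * r ^ 2 * r ^ j := by ring
  have hgeo : Summable (fun j : ℕ => C * r ^ 2 * r ^ j) :=
    (summable_geometric_of_lt_one hr0.le (by linarith)).mul_left _
  calc ‖∑' j : ℕ, c j * (1 / (p : ℂ)) ^ (j + 2)‖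
      ≤ ∑' j : ℕ, ‖c j * (1 / (p : ℂ)) ^ (j + 2)‖ := norm_tsum_le_tsum_norm hs
    _ ≤ ∑' j : ℕ, C * r ^ 2 * r ^ j := hs.tsum_le_tsum hterm hgeo
    _ = C * r ^ 2 * (1 - r)⁻¹ := by
        rw [tsum_mul_left, tsum_geometric_of_lt_one hr0.le (by linarith)]
    _ ≤ C * r ^ 2 * 4 := by
        refine mul_le_mul_of_nonneg_left ?_ (by positivity)
        calc (1 - r)⁻¹ ≤ (1 / 4 : ℝ)⁻¹ := inv_anti₀ (by norm_num) (by linarith)
          _ = 4 := by norm_num
    _ = 4 * C * (p : ℝ) ^ (2 * t - 2) := by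
        have : r ^ 2 = (p : ℝ) ^ (2 * t - 2) := by
          rw [hr, ← Real.rpow_natCast, ← Real.rpow_mul hp0.le]
          congr 1
          push_cast
          ring
        rw [this]
        ring

end E1_

open E1_ in
theorem p_E1 (hLOC : T_LOC) : T_E1 := by
  intro F a b hF
  refine ⟨?_, ?_⟩
  · intro p k hp _
    have h := hLOC F a b hF p hp
    have hp0 : (p : ℂ) ≠ 0 := by exact_mod_cast hp.ne_zero
    have h1 : LpF a p 1 ≠ 0 := by
      rw [lpf_eq hp (s := 1) (by simp) h]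
      exact Complex.exp_ne_zero _
    have hz : ‖(1 / (p : ℂ))‖ ≤ 1 / p := by
      rw [norm_div, norm_one, Complex.norm_natCast]
    have hsum := (h _ hz).1
    refine ⟨h1, Tendsto.div ?_ ?_ h1⟩
    · unfold Br
      refine Tendsto.sub (tendsto_series hp k hsum) ?_
      have hc : Continuous (fun η : ℝ => a (p ^ (k - 1)) *
          (p : ℂ) ^ (-(((k - 1 : ℕ) : ℂ) * (1 + (η : ℂ)))) / ((p : ℂ) - 1)) := by
        refine Continuous.div_const (Continuous.const_mul ?_ _) _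
        refine Continuous.const_cpow ?_ (Or.inl hp0)
        fun_prop
      have h2 := (hc.tendsto 0).mono_left (nhdsWithin_le_nhds (s := Set.Ioi (0 : ℝ)))
      simpa using h2
    · have := tendsto_series hp 0 hsum
      simpa [LpF] using this
  · obtain ⟨t, C₀, ht, hC₀⟩ := hF.b_bound
    obtain ⟨D₀, hD₀⟩ := hF.ramanujan (1 / 4) (by norm_num)
    set C := max C₀ 0 with hC
    set D := max D₀ 0 with hD
    have hCn : 0 ≤ C := le_max_right _ _
    have hDn : 0 ≤ D := le_max_right _ _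
    have hb : ∀ n : ℕ, 1 ≤ n → ‖b n‖ ≤ C * (n : ℝ) ^ t := fun n hn =>
      (hC₀ n hn).trans (mul_le_mul_of_nonneg_right (le_max_left _ _) (by positivity))
    have ha : ∀ n : ℕ, 1 ≤ n → ‖a n‖ ≤ D * (n : ℝ) ^ (1 / 4 : ℝ) := fun n hn =>
      (hD₀ n hn).trans (mul_le_mul_of_nonneg_right (le_max_left _ _) (by positivity))
    have hab : ∀ p : ℕ, p.Prime → a p = b p := by
      apply p_AP p_EXPD a b hF.b_supp hF.summable hF.log_summable
      intro s hs
      rw [← hF.eq_series s hs, hF.log_series s hs]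
    -- the exponent
    set δ : ℝ := min (1 - 2 * t) (1 / 2) with hδ
    have hδ0 : 0 < δ := lt_min (by linarith) (by norm_num)
    have hδ1 : δ ≤ 1 - 2 * t := min_le_left _ _
    have hδ2 : δ ≤ 1 / 2 := min_le_right _ _
    set M : ℝ := D + 4 * C with hM
    set E : ℝ := 4 * C + M ^ 2 * Real.exp M with hE
    refine ⟨δ, 2 * (D + 1) + 2 * E, hδ0, ?_⟩
    intro p hp
    have h := hLOC F a b hF p hp
    have hp0 : (0 : ℝ) < p := by exact_mod_cast hp.pos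
    have hp2 : (2 : ℝ) ≤ p := by exact_mod_cast hp.two_le
    have hpc : (p : ℂ) ≠ 0 := by exact_mod_cast hp.ne_zero
    have hpc1 : (p : ℂ) - 1 ≠ 0 := by
      rw [sub_ne_zero]
      exact_mod_cast hp.one_lt.ne'
    have hz : ‖(1 / (p : ℂ))‖ ≤ 1 / p := by
      rw [norm_div, norm_one, Complex.norm_natCast]
    obtain ⟨hs1, hs2, hs3⟩ := h _ hz
    -- the exponent series
    set B : ℂ := ∑' j : ℕ, b (p ^ (j + 1)) * (1 / (p : ℂ)) ^ (j + 1) with hB
    set T : ℂ := ∑' j : ℕ, b (p ^ (j + 2)) * (1 / (p : ℂ)) ^ (j + 2) with hT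
    have hL : LpF a p 1 = exp B := by
      rw [lpf_eq hp (s := 1) (by simp) h, z_one]
    have hBT : B = a p / p + T := by
      rw [hB, hs2.of_norm.tsum_eq_zero_add, hT, hab p hp]
      simp [div_eq_mul_inv]
    have hs4 : Summable (fun j : ℕ => ‖b (p ^ (j + 2)) * (1 / (p : ℂ)) ^ (j + 2)‖) := by
      have := (summable_nat_add_iff 1).mpr hs2
      exact this
    have hTb : ‖T‖ ≤ 4 * C * (p : ℝ) ^ (2 * t - 2) := by
      refine tail_bound hCn ht hp ?_ hs4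
      intro j
      have := hb (p ^ (j + 2)) (Nat.one_le_pow _ _ hp.pos)
      push_cast at this
      exact this
    have hpow : ∀ x : ℝ, x ≤ 0 → (p : ℝ) ^ x ≤ 1 := fun x hx =>
      Real.rpow_le_one_of_one_le_of_nonpos (by linarith) hx
    have hexp : ∀ x y : ℝ, x ≤ y → (p : ℝ) ^ x ≤ (p : ℝ) ^ y := fun x y hxy =>
      Real.rpow_le_rpow_of_exponent_le (by linarith) hxy
    have hap : ‖a p‖ ≤ D * (p : ℝ) ^ (1 / 4 : ℝ) := ha p hp.one_lt.le
    have hap2 : ‖a p / p‖ ≤ D * (p : ℝ) ^ (-(3 / 4) : ℝ) := by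
      rw [norm_div, Complex.norm_natCast, div_le_iff₀ hp0]
      refine hap.trans (le_of_eq ?_)
      rw [mul_assoc]
      congr 1
      rw [← Real.rpow_add_one hp0.ne']
      norm_num
    have hBb : ‖B‖ ≤ M * (p : ℝ) ^ (-(1 + δ) / 2) := by
      rw [hBT]
      refine (norm_add_le _ _).trans ?_
      have e1 : (p : ℝ) ^ (-(3 / 4) : ℝ) ≤ (p : ℝ) ^ (-(1 + δ) / 2) := hexp _ _ (by linarith)
      have e2 : (p : ℝ) ^ (2 * t - 2) ≤ (p : ℝ) ^ (-(1 + δ) / 2) := hexp _ _ (by linarith)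
      have e3 := mul_le_mul_of_nonneg_left e1 hDn
      have e4 := mul_le_mul_of_nonneg_left e2 (by positivity : 0 ≤ 4 * C)
      rw [hM, add_mul]
      linarith
    have hMn : 0 ≤ M := by positivity
    have hBM : ‖B‖ ≤ M := by
      refine hBb.trans ?_
      have := hpow (-(1 + δ) / 2) (by linarith)
      calc M * (p : ℝ) ^ (-(1 + δ) / 2) ≤ M * 1 := mul_le_mul_of_nonneg_left this hMn
        _ = M := mul_one M
    -- second order expansion of `exp (-B)`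
    set R : ℂ := exp (-B) - (1 - a p / p) with hR
    have hRb : ‖R‖ ≤ E * (p : ℝ) ^ (-(1 + δ)) := by
      have e1 : ‖exp (-B) - (1 + -B)‖ ≤ ‖B‖ ^ 2 * Real.exp ‖B‖ := by
        have := Complex.norm_exp_sub_sum_le_norm_mul_exp (-B) 2
        rw [norm_neg] at this
        simpa [Finset.sum_range_succ] using this
      have e2 : R = (exp (-B) - (1 + -B)) - T := by
        rw [hR, hBT]
        ring
      have e3 : ‖B‖ ^ 2 ≤ M ^ 2 * (p : ℝ) ^ (-(1 + δ)) := by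
        calc ‖B‖ ^ 2 ≤ (M * (p : ℝ) ^ (-(1 + δ) / 2)) ^ 2 :=
              pow_le_pow_left₀ (norm_nonneg _) hBb 2
          _ = M ^ 2 * (p : ℝ) ^ (-(1 + δ)) := by
              rw [mul_pow, ← Real.rpow_natCast ((p : ℝ) ^ (-(1 + δ) / 2)), ← Real.rpow_mul hp0.le]
              congr 2
              push_cast
              ring
      have e4 : (p : ℝ) ^ (2 * t - 2) ≤ (p : ℝ) ^ (-(1 + δ)) := hexp _ _ (by linarith)
      rw [e2]
      refine (norm_sub_le _ _).trans ?_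
      have e5 : ‖B‖ ^ 2 * Real.exp ‖B‖ ≤ M ^ 2 * (p : ℝ) ^ (-(1 + δ)) * Real.exp M :=
        mul_le_mul e3 (Real.exp_le_exp.mpr hBM) (Real.exp_pos _).le (by positivity)
      have e6 := mul_le_mul_of_nonneg_left e4 (by positivity : 0 ≤ 4 * C)
      calc ‖exp (-B) - (1 + -B)‖ + ‖T‖
          ≤ M ^ 2 * (p : ℝ) ^ (-(1 + δ)) * Real.exp M + 4 * C * (p : ℝ) ^ (-(1 + δ)) := by
            linarith
        _ = E * (p : ℝ) ^ (-(1 + δ)) := by rw [hE]; ring
    -- the bracket at `k = 1`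
    have hBr : Br a p 1 1 = LpF a p 1 - p / ((p : ℂ) - 1) := by
      have e1 : LpF a p 1 = 1 + ∑' j : ℕ, a (p ^ (1 + j)) *
          (p : ℂ) ^ (-(((1 + j : ℕ) : ℂ) * 1)) := by
        unfold LpF
        have hs5 : Summable (fun j : ℕ => a (p ^ j) * (p : ℂ) ^ (-((j : ℂ) * 1))) := by
          refine hs1.of_norm.congr fun j => ?_
          rw [cp, z_one]
        rw [hs5.tsum_eq_zero_add]
        congr 1
        · simp [hF.a_one]
        · refine tsum_congr fun j => ?_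
          rw [add_comm j 1]
      rw [e1]
      unfold Br
      simp only [Nat.sub_self, pow_zero, hF.a_one]
      field_simp
      simp
      ring
    have hLne : LpF a p 1 ≠ 0 := by rw [hL]; exact Complex.exp_ne_zero _
    have hinv : (LpF a p 1)⁻¹ = (1 - a p / p) + R := by
      rw [hL, ← Complex.exp_neg, hR]
      ring
    have hHH : HH a p 1 - (a p - 1) = (a p - 1) / ((p : ℂ) - 1) -
        (p : ℂ) ^ 2 / ((p : ℂ) - 1) * R := by
      unfold HH
      rw [hBr, sub_div, div_self hLne, div_eq_mul_inv ((p : ℂ) / ((p : ℂ) - 1)) (LpF a p 1), hinv]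
      field_simp
      ring
    rw [hHH]
    refine (norm_sub_le _ _).trans ?_
    have hnp1 : (p : ℝ) / 2 ≤ ‖(p : ℂ) - 1‖ := by
      have : (p : ℂ) - 1 = (((p : ℝ) - 1 : ℝ) : ℂ) := by push_cast; ring
      rw [this, Complex.norm_real, Real.norm_of_nonneg (by linarith)]
      linarith
    have hnp0 : 0 < ‖(p : ℂ) - 1‖ := lt_of_lt_of_le (by positivity) hnp1
    have f1 : ‖(a p - 1) / ((p : ℂ) - 1)‖ ≤ 2 * (D + 1) * (p : ℝ) ^ (-δ) := by
      rw [norm_div, div_le_iff₀ hnp0]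
      have g1 : ‖a p - 1‖ ≤ (D + 1) * (p : ℝ) ^ (1 / 4 : ℝ) := by
        refine (norm_sub_le _ _).trans ?_
        rw [norm_one, add_mul, one_mul]
        have : (1 : ℝ) ≤ (p : ℝ) ^ (1 / 4 : ℝ) := Real.one_le_rpow (by linarith) (by norm_num)
        linarith
      have g2 : (p : ℝ) ^ (1 / 4 : ℝ) ≤ (p : ℝ) ^ (-δ) * p := by
        rw [← Real.rpow_add_one hp0.ne']
        exact hexp _ _ (by linarith)
      calc ‖a p - 1‖ ≤ (D + 1) * ((p : ℝ) ^ (-δ) * p) :=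
            g1.trans (mul_le_mul_of_nonneg_left g2 (by positivity))
        _ = 2 * (D + 1) * (p : ℝ) ^ (-δ) * (p / 2) := by ring
        _ ≤ 2 * (D + 1) * (p : ℝ) ^ (-δ) * ‖(p : ℂ) - 1‖ :=
            mul_le_mul_of_nonneg_left hnp1 (by positivity)
    have f2 : ‖(p : ℂ) ^ 2 / ((p : ℂ) - 1) * R‖ ≤ 2 * E * (p : ℝ) ^ (-δ) := by
      have hEn : 0 ≤ E := by positivity
      rw [norm_mul, norm_div, norm_pow, Complex.norm_natCast, div_mul_eq_mul_div,
        div_le_iff₀ hnp0]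
      have g1 : (p : ℝ) ^ 2 * (p : ℝ) ^ (-(1 + δ)) = (p : ℝ) ^ (-δ) * p := by
        rw [← Real.rpow_natCast, ← Real.rpow_add hp0, ← Real.rpow_add_one hp0.ne']
        congr 1
        push_cast
        ring
      calc (p : ℝ) ^ 2 * ‖R‖ ≤ (p : ℝ) ^ 2 * (E * (p : ℝ) ^ (-(1 + δ))) :=
            mul_le_mul_of_nonneg_left hRb (by positivity)
        _ = E * ((p : ℝ) ^ 2 * (p : ℝ) ^ (-(1 + δ))) := by ring
        _ = E * ((p : ℝ) ^ (-δ) * p) := by rw [g1]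
        _ = 2 * E * (p : ℝ) ^ (-δ) * (p / 2) := by ring
        _ ≤ 2 * E * (p : ℝ) ^ (-δ) * ‖(p : ℂ) - 1‖ :=
            mul_le_mul_of_nonneg_left hnp1 (by positivity)
    calc ‖(a p - 1) / ((p : ℂ) - 1)‖ + ‖(p : ℂ) ^ 2 / ((p : ℂ) - 1) * R‖
        ≤ 2 * (D + 1) * (p : ℝ) ^ (-δ) + 2 * E * (p : ℝ) ^ (-δ) := add_le_add f1 f2
      _ = (2 * (D + 1) + 2 * E) * (p : ℝ) ^ (-δ) := by ring

end Pool.Agent.SelDeg2
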