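import Pool.Agent.SelDeg2.TargetsC
import Pool.Agent.SelTwo.AP
import Pool.Agent.SelTwo.EXPD
import Pool.Agent.SelTwo.LAN

/-!
# EXPB: twisted Dirichlet series and sums over primes, uniformly
-/

namespace Pool.Agent.SelDeg2

open Complex Filter Topology MeasureTheory
open Pool.Agent.SelPole Pool.Agent.SelTwo

noncomputable section

namespace EXPB_

/-- the primes and the remaining terms of a series over prime powers -/
theorem sub_pser {a b : ℕ → ℂ} {θ B : ℝ}
    (hsupp : ∀ n : ℕ, ¬ IsPrimePow n → b n = 0)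
    (hB : ∀ n : ℕ, 1 ≤ n → ‖b n‖ ≤ B * (n : ℝ) ^ θ) (hAP : ∀ p : ℕ, p.Prime → a p = b p)
    (hsum : Summable fun n => |B| * Set.indicator {n : ℕ | ∃ p k : ℕ, p.Prime ∧ 2 ≤ k ∧ p ^ k = n}
      (fun n : ℕ => (n : ℝ) ^ (-(1 - θ))) n)
    (s : ℂ) (hs : 1 < s.re) (h1 : LSeriesSummable b s) :
    ‖LSeries b s - pser a s‖ ≤
      ∑' n, |B| * Set.indicator {n : ℕ | ∃ p k : ℕ, p.Prime ∧ 2 ≤ k ∧ p ^ k = n}
        (fun n : ℕ => (n : ℝ) ^ (-(1 - θ))) n := by
  classical
  set E : ℕ → ℝ := Set.indicator {n : ℕ | ∃ p k : ℕ, p.Prime ∧ 2 ≤ k ∧ p ^ k = n}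
      (fun n : ℕ => (n : ℝ) ^ (-(1 - θ))) with hE
  have hE0 : ∀ n, 0 ≤ E n := fun n => Set.indicator_nonneg (fun m _ => by positivity) n
  have h1 : Summable (LSeries.term b s) := h1
  set P : Set ℕ := {n : ℕ | n.Prime} with hP
  have hsplit : LSeries b s = ∑' n, P.indicator (LSeries.term b s) n +
      ∑' n, Pᶜ.indicator (LSeries.term b s) n := by
    rw [← (h1.indicator P).tsum_add (h1.indicator Pᶜ)]
    unfold LSeries
    refine tsum_congr fun n => ?_
    rw [Set.indicator_self_add_compl_apply]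
  have hprime : ∑' n, P.indicator (LSeries.term b s) n = pser a s := by
    rw [← tsum_subtype P (LSeries.term b s)]
    unfold pser
    refine tsum_congr fun p => ?_
    have hp : (p : ℕ).Prime := p.2
    rw [LSeries.term_of_ne_zero hp.ne_zero, hAP p hp, cpow_neg, div_eq_mul_inv]
  rw [hsplit, hprime, add_sub_cancel_left]
  have hbd : ∀ n, ‖Pᶜ.indicator (LSeries.term b s) n‖ ≤ |B| * E n := by
    intro n
    by_cases hn : n ∈ Pᶜ
    swap
    · rw [Set.indicator_of_notMem hn, norm_zero]
      exact mul_nonneg (abs_nonneg _) (hE0 n)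
    · rw [Set.indicator_of_mem hn]
      by_cases hpow : IsPrimePow n
      swap
      · have : LSeries.term b s n = 0 := by
          rw [LSeries.term_def]
          split_ifs
          · rfl
          · rw [hsupp n hpow, zero_div]
        rw [this, norm_zero]
        exact mul_nonneg (abs_nonneg _) (hE0 n)
      · have hn1 : 1 ≤ n := hpow.pos
        have hn1' : (1 : ℝ) ≤ n := by exact_mod_cast hn1
        have hn0 : (0 : ℝ) < n := by linarith
        have hmem : n ∈ {n : ℕ | ∃ p k : ℕ, p.Prime ∧ 2 ≤ k ∧ p ^ k = n} := by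
          obtain ⟨p, k, hp1, hk1, hpk⟩ := (isPrimePow_nat_iff n).1 hpow
          refine ⟨p, k, hp1, ?_, hpk⟩
          by_contra hcon
          have : k = 1 := by omega
          rw [this, pow_one] at hpk
          rw [← hpk] at hn
          exact hn hp1
        rw [hE, Set.indicator_of_mem hmem, LSeries.norm_term_eq, if_neg (by omega)]
        have h2 : (n : ℝ) ≤ (n : ℝ) ^ s.re := by
          calc (n : ℝ) = (n : ℝ) ^ (1 : ℝ) := (Real.rpow_one _).symm
            _ ≤ _ := Real.rpow_le_rpow_of_exponent_le hn1' hs.le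
        have h3 : ‖b n‖ ≤ |B| * (n : ℝ) ^ θ :=
          (hB n hn1).trans (mul_le_mul_of_nonneg_right (le_abs_self _) (by positivity))
        calc ‖b n‖ / (n : ℝ) ^ s.re ≤ (|B| * (n : ℝ) ^ θ) / (n : ℝ) := by gcongr
          _ = |B| * (n : ℝ) ^ (-(1 - θ)) := by
            rw [mul_div_assoc]
            congr 1
            rw [show -(1 - θ) = θ - 1 by ring, Real.rpow_sub hn0, Real.rpow_one]
  exact tsum_of_norm_bounded hsum.hasSum hbd

end EXPB_

open EXPB_ in
/-- EXPB: twisted Dirichlet series and sums over primes, uniformly -/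
theorem p_EXPB (hTW : T_TW) : T_EXPB := by
  classical
  intro F a b hS
  obtain ⟨θ, B, hθ, hB⟩ := hS.b_bound
  have hpp := LAN.pp_summable (σ := 1 - θ) (by linarith)
  have hsum : Summable fun n => |B| *
      Set.indicator {n : ℕ | ∃ p k : ℕ, p.Prime ∧ 2 ≤ k ∧ p ^ k = n}
        (fun n : ℕ => (n : ℝ) ^ (-(1 - θ))) n := hpp.mul_left _
  have hAP := p_AP p_EXPD a b hS.b_supp hS.summable hS.log_summable
    (fun s hs => by rw [← hS.eq_series s hs, hS.log_series s hs])
  refine ⟨∑' n, |B| * Set.indicator {n : ℕ | ∃ p k : ℕ, p.Prime ∧ 2 ≤ k ∧ p ^ k = n}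
        (fun n : ℕ => (n : ℝ) ^ (-(1 - θ))) n,
      tsum_nonneg fun n => mul_nonneg (abs_nonneg _)
        (Set.indicator_nonneg (fun m _ => by positivity) n), ?_⟩
  intro M _ ξ s hs
  have hn1 : ∀ n : ℕ, ‖ξ (n : ZMod M)‖ ≤ 1 := fun n => DirichletCharacter.norm_le_one ξ _
  refine ⟨?_, ?_⟩
  · have h1 : Summable fun n : ℕ => ‖LSeries.term a s n‖ := (hS.summable s hs).norm
    have h2 : Summable fun p : Nat.Primes => ‖LSeries.term a s (p : ℕ)‖ :=
      h1.comp_injective Subtype.val_injective
    refine h2.of_nonneg_of_le (fun _ => norm_nonneg _) (fun p => ?_)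
    rw [LSeries.term_of_ne_zero p.2.ne_zero, cpow_neg, ← div_eq_mul_inv, norm_div, norm_div]
    apply div_le_div_of_nonneg_right _ (norm_nonneg _)
    unfold aX
    rw [norm_mul]
    exact mul_le_of_le_one_right (norm_nonneg _) (hn1 p)
  · set b' : ℕ → ℂ := fun n => b n * ξ (n : ZMod M) with hb'
    have h1 : LSeriesSummable b' s := by
      refine Summable.of_norm ?_
      refine (hS.log_summable s hs).norm.of_nonneg_of_le (fun _ => norm_nonneg _) (fun n => ?_)
      rw [LSeries.norm_term_eq, LSeries.norm_term_eq]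
      split_ifs
      · exact le_rfl
      · apply div_le_div_of_nonneg_right _ (by positivity)
        rw [hb', norm_mul]
        exact mul_le_of_le_one_right (norm_nonneg _) (hn1 n)
    refine ⟨LSeries b' s - pser (aX a ξ) s, ?_, ?_⟩
    · refine sub_pser (a := aX a ξ) (b := b') (θ := θ) (B := B) ?_ ?_ ?_ hsum s hs h1
      · intro n hn
        rw [hb']
        simp only
        rw [hS.b_supp n hn, zero_mul]
      · intro n hn
        refine le_trans ?_ (hB n hn)
        rw [hb', norm_mul]
        exact mul_le_of_le_one_right (norm_nonneg _) (hn1 n)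
      · intro p hp
        rw [hb']
        simp only [aX]
        rw [hAP p hp]
    · have h2 := hTW F a b hS (fun n => ξ (n : ZMod M))
        (fun m n => by simp only [Nat.cast_mul, map_mul]) (by simp) hn1 s hs
      have h3 : pser (aX a ξ) s + (LSeries b' s - pser (aX a ξ) s) = LSeries b' s := by ring
      rw [h3]
      exact h2

end

end Pool.Agent.SelDeg2
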