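import Pool.Agent.SelDeg2.TargetsC

/-! The end: from the Euler factors outside `N` to the function (E-FIN). -/

namespace Pool.Agent.SelDeg2.FIN2_

open Complex Filter Topology
open Pool.Agent.SelPole Pool.Agent.SelTwo Pool.Agent.SelDeg2

/-- powers of one prime -/
theorem summable_powers {p : ℕ} (hp : p.Prime) {ε : ℝ} (hε : 0 < ε) :
    Summable (fun n : ℕ => open Classical in
      if (∃ j : ℕ, n = p ^ j) then (n : ℝ) ^ (-ε) else 0) := by
  have hinj : Function.Injective (fun j : ℕ => p ^ j) := Nat.pow_right_injective hp.two_le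
  rw [← hinj.summable_iff]
  · have h1 : ((fun n : ℕ => open Classical in
        if (∃ j : ℕ, n = p ^ j) then (n : ℝ) ^ (-ε) else 0) ∘ fun j : ℕ => p ^ j) =
        fun j : ℕ => ((p : ℝ) ^ (-ε)) ^ j := by
      funext j
      simp only [Function.comp_apply]
      rw [if_pos ⟨j, rfl⟩]
      push_cast
      rw [← Real.rpow_natCast, ← Real.rpow_natCast, ← Real.rpow_mul (by positivity),
        ← Real.rpow_mul (by positivity)]
      congr 1
      ring
    rw [h1]
    refine summable_geometric_of_lt_one (by positivity) ?_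
    exact Real.rpow_lt_one_of_one_lt_of_neg (by exact_mod_cast hp.one_lt) (by linarith)
  · intro n hn
    rw [if_neg]
    rintro ⟨j, hj⟩
    exact hn ⟨j, hj.symm⟩

/-- powers of a natural number to a complex exponent -/
theorem pow_cpow (p : ℕ) (z : ℂ) (k : ℕ) : ((p ^ k : ℕ) : ℂ) ^ z = ((p : ℂ) ^ z) ^ k := by
  induction k with
  | zero => simp
  | succ k ih =>
    rw [pow_succ, Nat.cast_mul, Complex.natCast_mul_natCast_cpow, ih, pow_succ]

/-- The core: `P` has the coefficients `Λ(n) (1 + h(n))` -/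
theorem core {F : ℂ → ℂ} {a b : ℕ → ℂ} (hF : IsSelberg F a b) {N : ℕ} (hN : N ≠ 0)
    {P : ℂ → ℂ} {h : ℕ → ℂ} (hh : ∀ n, ‖h n‖ ≤ 1)
    (hP : EulerFE P (fun n => (ArithmeticFunction.vonMangoldt n : ℂ) * (1 + h n)))
    (hP1 : Tendsto (fun x : ℝ => P x) atTop (𝓝 1))
    (hb : ∀ p j : ℕ, p.Prime → ¬ p ∣ N → 1 ≤ j → b (p ^ j) = (1 + h (p ^ j)) / j) :
    ∀ s : ℂ, s ≠ 1 → F s = P s := by
  have hR := hF.isEulerProduct.toEulerFE
  obtain ⟨t, C, ht, hC⟩ := hF.b_bound
  set t₀ : ℝ := max t 0 with ht₀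
  have ht₀0 : 0 ≤ t₀ := le_max_right _ _
  have ht₀2 : t₀ < 1 / 2 := max_lt ht (by norm_num)
  set t' : ℝ := (t₀ + 1 / 2) / 2 with ht'
  have htt' : t₀ < t' := by rw [ht']; linarith
  have ht'2 : t' < 1 / 2 := by rw [ht']; linarith
  have ht'0 : 0 < t' := by rw [ht']; linarith
  set q : ℕ → ℂ := ldc b with hq
  set pp : ℕ → ℂ := fun n => (ArithmeticFunction.vonMangoldt n : ℂ) * (1 + h n) with hpp
  -- support of the difference
  have hsupp : ∀ n : ℕ, (¬ ∃ p ∈ N.primeFactors, ∃ j : ℕ, n = p ^ j) → (q - pp) n = 0 := by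
    intro n hn
    rw [Pi.sub_apply, hq, hpp]
    simp only [ldc]
    by_cases hpow : IsPrimePow n
    · obtain ⟨p, j, hp, hj, rfl⟩ := (isPrimePow_nat_iff n).1 hpow
      have hpN : ¬ p ∣ N := by
        intro hd
        exact hn ⟨p, Nat.mem_primeFactors.2 ⟨hp, hd, hN⟩, j, rfl⟩
      rw [hb p j hp hpN hj, ArithmeticFunction.vonMangoldt_apply_pow hj.ne',
        ArithmeticFunction.vonMangoldt_apply_prime hp]
      have hj0 : (j : ℂ) ≠ 0 := by exact_mod_cast hj.ne'
      rw [Nat.cast_pow, Real.log_pow]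
      push_cast
      field_simp
      ring
    · rw [hF.b_supp n hpow, ArithmeticFunction.vonMangoldt_eq_zero_iff.2 hpow]
      simp
  -- bound of the difference
  have hbd : ∃ K : ℝ, 0 ≤ K ∧ ∀ n : ℕ, 1 ≤ n → ‖(q - pp) n‖ ≤ K * (n : ℝ) ^ t' := by
    have hε : 0 < t' - t₀ := by linarith
    refine ⟨(|C| + 2) * (1 / (t' - t₀)), by positivity, ?_⟩
    intro n hn
    have hn1 : (1 : ℝ) ≤ n := by exact_mod_cast hn
    have hn0 : (0 : ℝ) < n := by linarith
    have hlog0 : 0 ≤ Real.log n := Real.log_nonneg hn1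
    have h1 : Real.log n ≤ (n : ℝ) ^ (t' - t₀) / (t' - t₀) :=
      Real.log_le_rpow_div hn0.le hε
    have h2 : ‖b n‖ ≤ |C| * (n : ℝ) ^ t₀ := by
      refine (hC n hn).trans ?_
      have h3 : (n : ℝ) ^ t ≤ (n : ℝ) ^ t₀ :=
        Real.rpow_le_rpow_of_exponent_le hn1 (le_max_left _ _)
      calc C * (n : ℝ) ^ t ≤ |C| * (n : ℝ) ^ t := by
            gcongr; exact le_abs_self C
        _ ≤ _ := by gcongr
    have h3 : ‖q n‖ ≤ Real.log n * (|C| * (n : ℝ) ^ t₀) := by
      rw [hq]
      simp only [ldc]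
      rw [norm_mul, Complex.norm_real, Real.norm_of_nonneg hlog0]
      gcongr
    have h4 : ‖pp n‖ ≤ Real.log n * 2 := by
      rw [hpp]
      simp only
      rw [norm_mul, Complex.norm_real, Real.norm_of_nonneg ArithmeticFunction.vonMangoldt_nonneg]
      refine mul_le_mul ArithmeticFunction.vonMangoldt_le_log ?_ (norm_nonneg _) hlog0
      refine (norm_add_le _ _).trans ?_
      rw [norm_one]
      linarith [hh n]
    have h5 : (1 : ℝ) ≤ (n : ℝ) ^ t₀ := Real.one_le_rpow hn1 ht₀0
    calc ‖(q - pp) n‖ ≤ ‖q n‖ + ‖pp n‖ := norm_sub_le _ _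
      _ ≤ Real.log n * (|C| * (n : ℝ) ^ t₀) + Real.log n * 2 := add_le_add h3 h4
      _ ≤ Real.log n * ((|C| + 2) * (n : ℝ) ^ t₀) := by
          have : Real.log n * 2 ≤ Real.log n * (2 * (n : ℝ) ^ t₀) := by
            gcongr; linarith
          nlinarith
      _ ≤ ((n : ℝ) ^ (t' - t₀) / (t' - t₀)) * ((|C| + 2) * (n : ℝ) ^ t₀) := by
          gcongr
      _ = (|C| + 2) * (1 / (t' - t₀)) * ((n : ℝ) ^ (t' - t₀) * (n : ℝ) ^ t₀) := by
          ring
      _ = (|C| + 2) * (1 / (t' - t₀)) * (n : ℝ) ^ t' := by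
          rw [← Real.rpow_add hn0]
          congr 2
          ring
  obtain ⟨K, hK0, hK⟩ := hbd
  have hab : LSeries.abscissaOfAbsConv (q - pp) ≤ (t' : ℝ) := by
    refine LSeries.abscissaOfAbsConv_le_of_forall_lt_LSeriesSummable (fun y hy => ?_)
    have hy' : 0 < y - t' := by linarith
    have hs : Summable (fun n : ℕ => K * ∑ p ∈ N.primeFactors, (open Classical in
        if (∃ j : ℕ, n = p ^ j) then (n : ℝ) ^ (-(y - t')) else 0)) := by
      refine Summable.mul_left K (summable_sum (fun p hp => ?_))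
      exact summable_powers (Nat.prime_of_mem_primeFactors hp) hy'
    refine Summable.of_norm_bounded hs (fun n => ?_)
    rw [LSeries.norm_term_eq, Complex.ofReal_re]
    have hnn : 0 ≤ ∑ p ∈ N.primeFactors, (open Classical in
        if (∃ j : ℕ, n = p ^ j) then (n : ℝ) ^ (-(y - t')) else 0) :=
      Finset.sum_nonneg (fun p _ => by split_ifs <;> positivity)
    split_ifs with hn
    · exact mul_nonneg hK0 hnn
    · have hn1 : 1 ≤ n := Nat.one_le_iff_ne_zero.2 hn
      have hn0 : (0 : ℝ) < n := by exact_mod_cast hn1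
      by_cases hex : ∃ p ∈ N.primeFactors, ∃ j : ℕ, n = p ^ j
      · obtain ⟨p, hp, hj⟩ := hex
        have h1 : (n : ℝ) ^ (-(y - t')) ≤ ∑ p ∈ N.primeFactors, (open Classical in
            if (∃ j : ℕ, n = p ^ j) then (n : ℝ) ^ (-(y - t')) else 0) := by
          classical
          have h2 := Finset.single_le_sum (f := fun p => 
            if (∃ j : ℕ, n = p ^ j) then (n : ℝ) ^ (-(y - t')) else 0)
            (fun p _ => by positivity) hp
          simp only [if_pos hj] at h2
          convert! h2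
        calc ‖(q - pp) n‖ / (n : ℝ) ^ y ≤ K * (n : ℝ) ^ t' / (n : ℝ) ^ y := by
              gcongr; exact hK n hn1
          _ = K * (n : ℝ) ^ (-(y - t')) := by
              rw [mul_div_assoc, ← Real.rpow_sub hn0]
              congr 2
              ring
          _ ≤ _ := by gcongr
      · rw [hsupp n hex, norm_zero, zero_div]
        exact mul_nonneg hK0 hnn
  have hrig := rigid hP hR ht'2 hab
  intro s hs
  exact eq_of_coeff hP hR hrig hP1 hF.isEulerProduct.tendsto_one s hs

end Pool.Agent.SelDeg2.FIN2_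

namespace Pool.Agent.SelDeg2

open Complex Filter Topology
open Pool.Agent.SelPole Pool.Agent.SelTwo FIN2_

theorem p_FIN2 (hLFE : T_LFE) : T_FIN2 := by
  intro F a b N _ θ χ hF hb
  have hN : N ≠ 0 := NeZero.ne N
  constructor
  · rintro ⟨hχ, hθ⟩ s hs
    have hP : EulerFE (fun s => riemannZeta s * riemannZeta s)
        (fun n => (ArithmeticFunction.vonMangoldt n : ℂ) * (1 + (1 : ℕ → ℂ) n)) := by
      refine (zeta_toEulerFE.mul zeta_toEulerFE).congr_coeff (fun n => ?_)
      simp only [Pi.add_apply, Pi.one_apply]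
      ring
    have hP1 : Tendsto (fun x : ℝ => riemannZeta x * riemannZeta x) atTop (𝓝 1) := by
      simpa using zeta_tendsto_one.mul zeta_tendsto_one
    have h1 := core hF hN (h := 1) (fun n => by simp) hP hP1 (fun p j hp hpN hj => by
      rw [hb p j hp hpN hj, hχ, hθ]
      have hu : IsUnit (p : ZMod N) :=
        (ZMod.isUnit_iff_coprime p N).2 ((Nat.Prime.coprime_iff_not_dvd hp).2 hpN)
      rw [MulChar.one_apply hu]
      simp)
    rw [h1 s hs, sq]
  · intro hχ
    have hf : χ.conductor ≠ 0 := fun h => hN (by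
      rwa [DirichletCharacter.conductor_eq_zero_iff_level_eq_zero] at h)
    have : NeZero χ.conductor := ⟨hf⟩
    have hprim := χ.primitiveCharacter_isPrimitive
    have hχ'1 : χ.primitiveCharacter ≠ 1 := by
      intro h
      apply hχ
      rw [← χ.changeLevel_primitiveCharacter, h]
      exact DirichletCharacter.changeLevel_one _
    refine ⟨χ.conductor, inferInstance, χ.primitiveCharacter, hprim, hχ'1, ?_⟩
    set χ' := χ.primitiveCharacter with hχ'
    set h : ℕ → ℂ := fun n => χ' (n : ZMod χ.conductor) * (n : ℂ) ^ (-((θ : ℂ) * I)) with hh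
    have hL := hLFE χ.conductor χ' θ hprim hχ'1
    have hP : EulerFE (fun s => riemannZeta s * DirichletCharacter.LFunction χ' (s + θ * I))
        (fun n => (ArithmeticFunction.vonMangoldt n : ℂ) * (1 + h n)) := by
      refine (zeta_toEulerFE.mul hL).congr_coeff (fun n => ?_)
      simp only [Pi.add_apply, hh]
      ring
    have hnormh : ∀ n, 1 ≤ n → ‖h n‖ ≤ 1 := by
      intro n hn
      simp only [hh]
      rw [norm_mul, Complex.norm_natCast_cpow_of_pos hn]
      simpa using DirichletCharacter.norm_le_one χ' _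
    -- behaviour at infinity
    have hLs : ∀ x : ℝ, 1 < x → DirichletCharacter.LFunction χ' ((x : ℂ) + θ * I) =
        LSeries h x := by
      intro x hx
      rw [DirichletCharacter.LFunction_eq_LSeries χ' (by simpa using hx)]
      unfold LSeries
      refine tsum_congr (fun n => ?_)
      rcases eq_or_ne n 0 with rfl | hn
      · simp
      · rw [LSeries.term_of_ne_zero hn, LSeries.term_of_ne_zero hn]
        have hn' : (n : ℂ) ≠ 0 := by exact_mod_cast hn
        simp only [hh]
        rw [Complex.cpow_add _ _ hn', Complex.cpow_neg]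
        field_simp
    have hab : LSeries.abscissaOfAbsConv h < ⊤ := by
      refine lt_of_le_of_lt (LSeries.abscissaOfAbsConv_le_of_le_const ⟨1, fun n hn => ?_⟩)
        (EReal.coe_lt_top 1)
      exact hnormh n (Nat.one_le_iff_ne_zero.2 hn)
    have hlim : Tendsto (fun x : ℝ => DirichletCharacter.LFunction χ' ((x : ℂ) + θ * I)) atTop
        (𝓝 1) := by
      have h1 := LSeries.tendsto_atTop hab
      have h2 : h 1 = 1 := by simp [hh]
      rw [h2] at h1
      refine h1.congr' ?_
      filter_upwards [eventually_gt_atTop 1] with x hx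
      rw [hLs x hx]
    have hP1 : Tendsto (fun x : ℝ => riemannZeta x *
        DirichletCharacter.LFunction χ' ((x : ℂ) + θ * I)) atTop (𝓝 1) := by
      simpa using zeta_tendsto_one.mul hlim
    -- replace the value at 0
    set h' : ℕ → ℂ := fun n => if n = 0 then 0 else h n with hh'
    have hPh' : EulerFE (fun s => riemannZeta s * DirichletCharacter.LFunction χ' (s + θ * I))
        (fun n => (ArithmeticFunction.vonMangoldt n : ℂ) * (1 + h' n)) := by
      refine hP.congr_coeff (fun n => ?_)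
      simp only [hh']
      split_ifs with hn
      · subst hn; simp
      · rfl
    refine core hF hN (h := h') (fun n => ?_) hPh' hP1 (fun p j hp hpN hj => ?_)
    · simp only [hh']
      split_ifs with hn
      · simp
      · exact hnormh n (Nat.one_le_iff_ne_zero.2 hn)
    · rw [hb p j hp hpN hj]
      have hpj : p ^ j ≠ 0 := pow_ne_zero _ hp.ne_zero
      simp only [hh', hh, if_neg hpj]
      congr 2
      have hcop : IsCoprime ((p : ℕ) : ℤ) (N : ℤ) :=
        Nat.isCoprime_iff_coprime.2 ((Nat.Prime.coprime_iff_not_dvd hp).2 hpN)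
      have h1 := χ.primitiveCharacter_apply_of_isCoprime hcop
      have h2 : χ' ((p : ℕ) : ZMod χ.conductor) = χ ((p : ℕ) : ZMod N) := by
        simpa using h1
      rw [mul_pow, pow_cpow, Nat.cast_pow, map_pow, h2]

end Pool.Agent.SelDeg2
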