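import Pool.Agent.SelDeg2.TargetsC

/-!
# D-FOU: Fourier analysis of the first stage
-/

namespace Pool.Agent.SelDeg2

open Complex Filter Topology MeasureTheory
open Pool.Agent.SelPole Pool.Agent.SelTwo

noncomputable section

namespace FOU_

variable {N : ℕ} [NeZero N]

omit [NeZero N] in
lemma conj_char (ψ : DirichletCharacter ℂ N) (x : (ZMod N)ˣ) :
    (starRingEnd ℂ) (ψ (x : ZMod N)) = ψ (((x⁻¹ : (ZMod N)ˣ)) : ZMod N) := by
  have h1 : (starRingEnd ℂ) (ψ (x : ZMod N)) = ψ⁻¹ (x : ZMod N) := MulChar.star_apply' ψ _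
  rw [h1, MulChar.inv_apply, Ring.inverse_unit]

lemma totient_ne : (N.totient : ℂ) ≠ 0 := by
  have := Nat.totient_pos.2 (Nat.pos_of_ne_zero (NeZero.ne N))
  exact_mod_cast this.ne'

/-- orthogonality, sum over the characters -/
lemma orth_char (x y : (ZMod N)ˣ) :
    ∑ ψ : DirichletCharacter ℂ N, (starRingEnd ℂ) (ψ (x : ZMod N)) * ψ (y : ZMod N) =
      if x = y then (N.totient : ℂ) else 0 := by
  have h1 : ∀ ψ : DirichletCharacter ℂ N, (starRingEnd ℂ) (ψ (x : ZMod N)) * ψ (y : ZMod N) =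
      ψ (((x⁻¹ * y : (ZMod N)ˣ)) : ZMod N) := by
    intro ψ
    rw [conj_char, ← map_mul, Units.val_mul]
  have h2 := DirichletCharacter.sum_characters_eq (R := ℂ) (n := N)
    (((x⁻¹ * y : (ZMod N)ˣ)) : ZMod N)
  have h3 : (((x⁻¹ * y : (ZMod N)ˣ)) : ZMod N) = 1 ↔ x = y := by
    rw [Units.val_eq_one, inv_mul_eq_one]
  simp only [h3] at h2
  rw [← h2]
  refine Finset.sum_congr ?_ fun ψ _ => h1 ψ
  ext ψ; simp

/-- orthogonality, sum over the units -/
lemma orth_unit (ψ ξ : DirichletCharacter ℂ N) :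
    ∑ x : (ZMod N)ˣ, (starRingEnd ℂ) (ψ (x : ZMod N)) * ξ (x : ZMod N) =
      if ψ = ξ then (N.totient : ℂ) else 0 := by
  split_ifs with h
  · subst h
    have : ∀ x : (ZMod N)ˣ, (starRingEnd ℂ) (ψ (x : ZMod N)) * ψ (x : ZMod N) = 1 := by
      intro x
      rw [conj_char, ← map_mul, ← Units.val_mul, inv_mul_cancel, Units.val_one, map_one]
    simp [this, ZMod.card_units_eq_totient]
  · have h0 : ψ⁻¹ * ξ ≠ 1 := by
      intro h1
      exact h ((inv_mul_eq_one.1 h1))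
    have h1 : ∀ x : (ZMod N)ˣ, (starRingEnd ℂ) (ψ (x : ZMod N)) * ξ (x : ZMod N) =
        (ψ⁻¹ * ξ) (x : ZMod N) := by
      intro x
      have h1 : (starRingEnd ℂ) (ψ (x : ZMod N)) = ψ⁻¹ (x : ZMod N) := MulChar.star_apply' ψ _
      rw [h1, MulChar.mul_apply]
    simp only [h1]
    obtain ⟨y, hy⟩ := (MulChar.ne_one_iff (χ := ψ⁻¹ * ξ)).1 h0
    have h2 : (ψ⁻¹ * ξ) (y : ZMod N) * ∑ x : (ZMod N)ˣ, (ψ⁻¹ * ξ) (x : ZMod N) =
        ∑ x : (ZMod N)ˣ, (ψ⁻¹ * ξ) (x : ZMod N) := by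
      rw [Finset.mul_sum]
      refine Fintype.sum_bijective (fun x => y * x) (Group.mulLeft_bijective y) _ _ fun x => ?_
      rw [Units.val_mul, map_mul]
    have h3 : ((ψ⁻¹ * ξ) (y : ZMod N) - 1) * ∑ x : (ZMod N)ˣ, (ψ⁻¹ * ξ) (x : ZMod N) = 0 := by
      rw [sub_mul, h2, one_mul, sub_self]
    rcases mul_eq_zero.1 h3 with h4 | h4
    · exact absurd (sub_eq_zero.1 h4) hy
    · exact h4

/-- `SS (gth θ a) α η` as a series at the point `pt η θ` -/
lemma SS_gth (a : ℕ → ℂ) (α θ η : ℝ) :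
    SS (gth θ a) α η = LSeries (fun n => a n * ee (n * α)) (pt η θ) := by
  unfold SS LSeries
  refine tsum_congr fun n => ?_
  rcases eq_or_ne n 0 with rfl | hn
  · simp
  · have hn' : (n : ℂ) ≠ 0 := Nat.cast_ne_zero.2 hn
    rw [LSeries.term_of_ne_zero hn, LSeries.term_of_ne_zero hn]
    unfold gth pt
    have h1 : (n : ℂ) ^ (1 + (η : ℂ) - θ * I) = (n : ℂ) ^ (1 + (η : ℂ)) / (n : ℂ) ^ ((θ : ℂ) * I) :=
      cpow_sub _ _ hn'
    rw [h1]
    have h2 : (n : ℂ) ^ ((θ : ℂ) * I) ≠ 0 := by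
      rw [Ne, cpow_eq_zero_iff]; tauto
    have h3 : (n : ℂ) ^ (1 + (η : ℂ)) ≠ 0 := by
      rw [Ne, cpow_eq_zero_iff]; tauto
    field_simp

lemma pt_re (η θ : ℝ) : (pt η θ).re = 1 + η := by
  simp [pt]

end FOU_

open FOU_ in
theorem p_FOU (hDEC : T_DEC) (hKB : T_KB) : T_FOU := by
  intro F a b r κ θ u N _ l c₀ X hF hu hκ hl hle hc₀ hX1 hlim hap
  have hφ : (N.totient : ℂ) ≠ 0 := totient_ne
  -- the coefficients
  set c : DirichletCharacter ℂ N → ℂ := fun ψ =>
    (1 / (N.totient : ℂ)) * ∑ x : (ZMod N)ˣ, X x * ψ (x : ZMod N) with hc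
  -- inversion
  have hinv : ∀ x : (ZMod N)ˣ, X x = ∑ ψ : DirichletCharacter ℂ N,
      c ψ * (starRingEnd ℂ) (ψ (x : ZMod N)) := by
    intro x
    have h1 : ∑ ψ : DirichletCharacter ℂ N, c ψ * (starRingEnd ℂ) (ψ (x : ZMod N)) =
        (1 / (N.totient : ℂ)) * ∑ y : (ZMod N)ˣ, X y * ∑ ψ : DirichletCharacter ℂ N,
          (starRingEnd ℂ) (ψ (x : ZMod N)) * ψ (y : ZMod N) := by
      simp only [hc, Finset.mul_sum, Finset.sum_mul]
      rw [Finset.sum_comm]
      refine Finset.sum_congr rfl fun y _ => Finset.sum_congr rfl fun ψ _ => ?_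
      ring
    rw [h1]
    simp only [orth_char, mul_ite, mul_zero, Finset.sum_ite_eq, Finset.mem_univ, if_true]
    field_simp
  refine ⟨c, ?_, hinv, ?_, ?_⟩
  · have h1 := hinv 1
    rw [hX1] at h1
    simpa using h1.symm
  · -- nonvanishing coefficients
    intro ψ hψ hT
    apply hψ
    obtain ⟨C, hC⟩ := hKB F a b hF N ψ
    -- the average of the additive twists
    set G : ℝ → ℂ := fun η => (1 / (N.totient : ℂ)) * ∑ x : (ZMod N)ˣ,
      (starRingEnd ℂ) (ψ (x : ZMod N)) *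
        ((η : ℂ) ^ r * SS (gth θ a) (κ * ((x : ZMod N).val : ℕ)) η) with hG
    have hG1 : Tendsto G l (𝓝 (c₀ * (starRingEnd ℂ) (c ψ))) := by
      have h2 : c₀ * (starRingEnd ℂ) (c ψ) = (1 / (N.totient : ℂ)) * ∑ x : (ZMod N)ˣ,
          (starRingEnd ℂ) (ψ (x : ZMod N)) * (c₀ * (starRingEnd ℂ) (X x)) := by
        simp only [hc, map_mul, map_sum, map_div₀, map_one, Complex.conj_natCast, Finset.mul_sum]
        refine Finset.sum_congr rfl fun x _ => ?_
        ring
      rw [h2]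
      refine Tendsto.const_mul _ (tendsto_finsetSum _ fun x _ => Tendsto.const_mul _ ?_)
      have h3 := hlim ((x : ZMod N).val) (ZMod.val_coe_unit_coprime x)
      have h4 : ZMod.unitOfCoprime ((x : ZMod N).val) (ZMod.val_coe_unit_coprime x) = x := by
        apply Units.ext
        rw [ZMod.coe_unitOfCoprime, ZMod.natCast_val, ZMod.cast_id', id]
      rw [h4] at h3
      exact h3
    -- the expansion in characters
    have hexp : ∀ η : ℝ, 0 < η → G η = ψ (u : ZMod N) * kap a N ψ (pt η θ) *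
        ((η : ℂ) ^ r * LSeries (aX a ψ) (pt η θ)) := by
      intro η hη
      have hs : 1 < (pt η θ).re := by rw [pt_re]; linarith
      have h5 : ∀ x : (ZMod N)ˣ, SS (gth θ a) (κ * ((x : ZMod N).val : ℕ)) η =
          ∑ ξ : DirichletCharacter ℂ N, ξ (x : ZMod N) *
            (ξ (u : ZMod N) * kap a N ξ (pt η θ) * LSeries (aX a ξ) (pt η θ)) := by
        intro x
        have hcop : (u * (x : ZMod N).val).Coprime N :=
          Nat.Coprime.mul_left hu (ZMod.val_coe_unit_coprime x)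
        have h6 := hDEC F a b hF N (u * (x : ZMod N).val) (pt η θ) hcop hs
        have h7 : κ * (((x : ZMod N).val : ℕ) : ℝ) = (((u * (x : ZMod N).val : ℕ) : ℝ)) / N := by
          rw [hκ]; push_cast; ring
        rw [SS_gth, h7, h6]
        refine Finset.sum_congr rfl fun ξ _ => ?_
        have h8 : (((u * (x : ZMod N).val : ℕ)) : ZMod N) = (u : ZMod N) * (x : ZMod N) := by
          rw [Nat.cast_mul, ZMod.natCast_val, ZMod.cast_id', id]
        rw [h8, map_mul]
        ring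
      have h9 : G η = (1 / (N.totient : ℂ)) * ∑ ξ : DirichletCharacter ℂ N,
          ((η : ℂ) ^ r * (ξ (u : ZMod N) * kap a N ξ (pt η θ) * LSeries (aX a ξ) (pt η θ))) *
          ∑ x : (ZMod N)ˣ, (starRingEnd ℂ) (ψ (x : ZMod N)) * ξ (x : ZMod N) := by
        simp only [hG, h5, Finset.mul_sum]
        rw [Finset.sum_comm]
        refine Finset.sum_congr rfl fun ξ _ => Finset.sum_congr rfl fun x _ => ?_
        ring
      rw [h9]
      simp only [orth_unit]
      simp only [mul_ite, mul_zero, Finset.sum_ite_eq, Finset.mem_univ, if_true]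
      field_simp
    have hG2 : Tendsto G l (𝓝 0) := by
      have h10 : Tendsto (fun η : ℝ => C * ‖(η : ℂ) ^ r * LSeries (aX a ψ) (pt η θ)‖) l (𝓝 0) := by
        have := (hT.mono_left hle).norm.const_mul C
        simpa using this
      refine squeeze_zero_norm' ?_ h10
      have h11 : ∀ᶠ η : ℝ in l, 0 < η := hle self_mem_nhdsWithin
      filter_upwards [h11] with η hη
      rw [hexp η hη, norm_mul, norm_mul]
      have hs : 1 < (pt η θ).re := by rw [pt_re]; linarith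
      have h12 := hC (pt η θ) hs
      have h13 : ‖ψ (u : ZMod N)‖ ≤ 1 := DirichletCharacter.norm_le_one ψ _
      have h14 : ‖ψ (u : ZMod N)‖ * ‖kap a N ψ (pt η θ)‖ ≤ 1 * C :=
        mul_le_mul h13 h12 (norm_nonneg _) zero_le_one
      rw [one_mul] at h14
      exact mul_le_mul_of_nonneg_right h14 (norm_nonneg _)
    have := hl
    have h15 := tendsto_nhds_unique hG1 hG2
    rcases mul_eq_zero.1 h15 with h16 | h16
    · exact absurd h16 hc₀
    · exact (map_eq_zero _).1 h16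
  · -- the form of `a p`
    obtain ⟨δ, K, hδ, hK⟩ := hap
    refine ⟨δ, K, hδ, fun p hp hpN => ?_⟩
    have hcop : p.Coprime N := (Nat.Prime.coprime_iff_not_dvd hp).2 hpN
    have h := hK p hp hcop
    rw [hinv (ZMod.unitOfCoprime p hcop), ZMod.coe_unitOfCoprime] at h
    exact h

end

end Pool.Agent.SelDeg2
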