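import Pool.Agent.SelDeg2.TargetsC

/-!
# `kap` is bounded on `Re s > 1` (target T_KB)
-/

namespace Pool.Agent.SelDeg2

open Complex Filter Topology MeasureTheory
open Pool.Agent.SelPole Pool.Agent.SelTwo

noncomputable section

namespace KB_

/-- the completely multiplicative function `n^(-1/2)` -/
def hf : ℕ →* ℝ where
  toFun n := (n : ℝ) ^ (-(1 / 2) : ℝ)
  map_one' := by simp
  map_mul' m n := by
    push_cast
    exact Real.mul_rpow (Nat.cast_nonneg m) (Nat.cast_nonneg n)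

lemma hf_apply (n : ℕ) : hf n = (n : ℝ) ^ (-(1 / 2) : ℝ) := rfl

lemma norm_ee (x : ℝ) : ‖ee x‖ = 1 := by
  have h : (2 * (Real.pi : ℂ) * I * x) = ((2 * Real.pi * x : ℝ) : ℂ) * I := by push_cast; ring
  rw [ee, h, Complex.norm_exp_ofReal_mul_I]

lemma norm_cG (M : ℕ) [NeZero M] (ξ : DirichletCharacter ℂ M) (G : ℕ) : ‖cG M ξ G‖ ≤ 1 := by
  have h0 : 0 < M.totient := Nat.totient_pos.mpr (Nat.pos_of_ne_zero (NeZero.ne M))
  have h1 : ‖∑ y : (ZMod M)ˣ, (starRingEnd ℂ) (ξ (y : ZMod M)) *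
      ee ((G : ℝ) * (((y : ZMod M).val : ℝ) / M))‖ ≤ M.totient := by
    refine (norm_sum_le _ _).trans ?_
    calc ∑ y : (ZMod M)ˣ, ‖(starRingEnd ℂ) (ξ (y : ZMod M)) *
          ee ((G : ℝ) * (((y : ZMod M).val : ℝ) / M))‖ ≤ ∑ _y : (ZMod M)ˣ, (1 : ℝ) := by
          apply Finset.sum_le_sum
          intro y _
          rw [norm_mul, norm_ee, mul_one, RCLike.norm_conj]
          exact ξ.norm_le_one _
      _ = (Fintype.card (ZMod M)ˣ : ℝ) := by simp
      _ = M.totient := by rw [ZMod.card_units_eq_totient]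
  rw [cG, norm_mul, norm_div, norm_one, Complex.norm_natCast]
  have h2 : (0 : ℝ) < M.totient := by exact_mod_cast h0
  calc 1 / (M.totient : ℝ) * ‖∑ y : (ZMod M)ˣ, (starRingEnd ℂ) (ξ (y : ZMod M)) *
      ee ((G : ℝ) * (((y : ZMod M).val : ℝ) / M))‖ ≤ 1 / (M.totient : ℝ) * M.totient :=
        mul_le_mul_of_nonneg_left h1 (by positivity)
    _ = 1 := by field_simp

end KB_

open KB_ in
theorem p_KB : T_KB := by
  classical
  intro F a b hF M _ ξ
  obtain ⟨C, hC⟩ := hF.ramanujan (1 / 2) (by norm_num)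
  set S : Set ℕ := Nat.factoredNumbers M.primeFactors with hS
  have hsum : Summable (fun m : S => ‖hf m‖) := by
    refine (EulerProduct.summable_and_hasSum_factoredNumbers_prod_filter_prime_geometric
      (f := hf) ?_ M.primeFactors).1
    intro p hp
    rw [hf_apply, Real.norm_of_nonneg (by positivity)]
    exact Real.rpow_lt_one_of_one_lt_of_neg (by exact_mod_cast hp.one_lt) (by norm_num)
  have hsum2 : Summable (S.indicator (fun m : ℕ => ‖hf m‖)) :=
    (summable_subtype_iff_indicator).mp hsum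
  have hsum3 : Summable (fun m : ℕ => C * S.indicator (fun m : ℕ => ‖hf m‖) m) :=
    hsum2.mul_left C
  refine ⟨∑' m : ℕ, C * S.indicator (fun m : ℕ => ‖hf m‖) m, ?_⟩
  intro s hs
  rw [kap, LSeries]
  refine tsum_of_norm_bounded hsum3.hasSum ?_
  intro n
  rcases Nat.eq_zero_or_pos n with hn | hn
  · subst hn
    rw [LSeries.term_zero, norm_zero]
    have : (0 : ℕ) ∉ S := fun h0 => (Nat.ne_zero_of_mem_factoredNumbers h0) rfl
    rw [Set.indicator_of_notMem this, mul_zero]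
  · rw [LSeries.term_of_ne_zero hn.ne']
    by_cases hc : ∀ p : ℕ, p.Prime → p ∣ n → p ∣ M
    · have hmem : n ∈ S := by
        rw [hS, Nat.mem_factoredNumbers']
        intro p hp hpn
        exact Nat.mem_primeFactors.mpr ⟨hp, hc p hp hpn, NeZero.ne M⟩
      rw [Set.indicator_of_mem hmem, if_pos hc, norm_div, norm_mul]
      have hn1 : (1 : ℝ) ≤ n := by exact_mod_cast hn
      have hnpos : (0 : ℝ) < n := by linarith
      have h1 : ‖(n : ℂ) ^ s‖ = (n : ℝ) ^ s.re := Complex.norm_natCast_cpow_of_pos hn s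
      have h2 : (n : ℝ) ≤ (n : ℝ) ^ s.re := by
        conv_lhs => rw [← Real.rpow_one (n : ℝ)]
        exact Real.rpow_le_rpow_of_exponent_le hn1 hs.le
      have h3 : ‖a n‖ * ‖cG M ξ n‖ ≤ C * (n : ℝ) ^ (1 / 2 : ℝ) := by
        calc ‖a n‖ * ‖cG M ξ n‖ ≤ ‖a n‖ * 1 :=
              mul_le_mul_of_nonneg_left (norm_cG M ξ n) (norm_nonneg _)
          _ = ‖a n‖ := mul_one _
          _ ≤ _ := hC n hn
      have h4 : 0 ≤ C * (n : ℝ) ^ (1 / 2 : ℝ) := (by positivity : 0 ≤ ‖a n‖ * ‖cG M ξ n‖).trans h3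
      rw [h1]
      calc ‖a n‖ * ‖cG M ξ n‖ / (n : ℝ) ^ s.re
          ≤ (C * (n : ℝ) ^ (1 / 2 : ℝ)) / (n : ℝ) := div_le_div₀ h4 h3 hnpos h2
        _ = C * ‖hf n‖ := by
            rw [hf_apply, Real.norm_of_nonneg (by positivity), mul_div_assoc]
            congr 1
            rw [div_eq_iff hnpos.ne']
            conv_rhs => rw [← Real.rpow_one (n : ℝ)]
            rw [← Real.rpow_mul hnpos.le, ← Real.rpow_add hnpos]
            norm_num
    · rw [if_neg hc]
      have hmem : n ∉ S := by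
        rw [hS, Nat.mem_factoredNumbers']
        intro h0
        exact hc (fun p hp hpn => (Nat.mem_primeFactors.mp (h0 p hp hpn)).2.1)
      rw [Set.indicator_of_notMem hmem, mul_zero, zero_div, norm_zero]

end

end Pool.Agent.SelDeg2
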