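import Pool.Agent.SelDeg2.TargetsC
import Pool.Agent.SelPole.Class

/-! Shifted Dirichlet `L`-functions of primitive characters belong to the class `EulerFE`. -/

namespace Pool.Agent.SelDeg2

open Complex Filter Topology MeasureTheory
open Pool.Agent.SelPole Pool.Agent.SelTwo
open scoped ComplexConjugate

namespace LFE_

variable {N : ℕ} [NeZero N]

theorem inv_eq_conj (χ : DirichletCharacter ℂ N) (a : ZMod N) : χ⁻¹ a = conj (χ a) := by
  have h : χ⁻¹ = star χ := (MulChar.star_eq_inv χ).symm
  rw [h]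
  rfl

theorem LSeries_conj (χ : DirichletCharacter ℂ N) (s : ℂ) :
    LSeries (fun n : ℕ => χ⁻¹ (n : ZMod N)) s = conj (LSeries (fun n : ℕ => χ (n : ZMod N)) (conj s)) := by
  rw [LSeries, LSeries, Complex.conj_tsum]
  refine tsum_congr (fun n => ?_)
  by_cases hn : n = 0
  · simp [hn]
  · rw [LSeries.term_of_ne_zero hn, LSeries.term_of_ne_zero hn, map_div₀, inv_eq_conj]
    congr 1
    have h3 : ((n : ℂ)).arg ≠ Real.pi := by
      rw [show ((n : ℂ)) = ((n : ℝ) : ℂ) by simp, Complex.arg_ofReal_of_nonneg (Nat.cast_nonneg n)]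
      exact Real.pi_pos.ne
    rw [Complex.cpow_conj _ _ h3]
    simp

theorem inv_ne_one {χ : DirichletCharacter ℂ N} (hχ : χ ≠ 1) : χ⁻¹ ≠ 1 := by
  intro h
  exact hχ (inv_eq_one.1 h)

theorem LFunction_conj {χ : DirichletCharacter ℂ N} (hχ : χ ≠ 1) (s : ℂ) :
    DirichletCharacter.LFunction χ⁻¹ s = conj (DirichletCharacter.LFunction χ (conj s)) := by
  have h1 : Differentiable ℂ (DirichletCharacter.LFunction χ⁻¹) :=
    DirichletCharacter.differentiable_LFunction (inv_ne_one hχ)
  have h2 : Differentiable ℂ (fun z => conj (DirichletCharacter.LFunction χ (conj z))) := by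
    intro z
    have h3 : DifferentiableAt ℂ (conj ∘ DirichletCharacter.LFunction χ ∘ conj)
        (conj (conj z)) :=
      (DirichletCharacter.differentiable_LFunction hχ (conj z)).conj_conj
    rw [Complex.conj_conj] at h3
    exact h3
  have h3 : AnalyticOnNhd ℂ (DirichletCharacter.LFunction χ⁻¹) Set.univ :=
    fun z _ => h1.analyticAt z
  have h4 : AnalyticOnNhd ℂ (fun z => conj (DirichletCharacter.LFunction χ (conj z))) Set.univ :=
    fun z _ => h2.analyticAt z
  have h5 : DirichletCharacter.LFunction χ⁻¹ =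
      fun z => conj (DirichletCharacter.LFunction χ (conj z)) := by
    apply h3.eq_of_eventuallyEq h4 (z₀ := 2)
    filter_upwards [(isOpen_lt continuous_const continuous_re).mem_nhds
      (show (1 : ℝ) < (2 : ℂ).re by norm_num)] with z hz
    have hz' : 1 < z.re := hz
    rw [DirichletCharacter.LFunction_eq_LSeries _ hz',
      DirichletCharacter.LFunction_eq_LSeries _ (by simpa using hz')]
    exact LSeries_conj χ z
  exact congrFun h5 s

/-- `0` for even, `1` for odd characters -/
noncomputable def par (χ : DirichletCharacter ℂ N) : ℝ := by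
  classical exact if χ.Even then 0 else 1

theorem par_nonneg (χ : DirichletCharacter ℂ N) : 0 ≤ par χ := by
  unfold par
  split_ifs <;> norm_num

theorem even_inv {χ : DirichletCharacter ℂ N} : χ⁻¹.Even ↔ χ.Even := by
  unfold DirichletCharacter.Even
  rw [inv_eq_conj]
  constructor
  · intro h
    have := congrArg conj h
    simpa using this
  · intro h
    rw [h, map_one]

theorem par_inv (χ : DirichletCharacter ℂ N) : par χ⁻¹ = par χ := by
  unfold par
  by_cases h : χ.Even
  · rw [if_pos h, if_pos (even_inv.2 h)]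
  · rw [if_neg h, if_neg (fun h' => h (even_inv.1 h'))]

theorem norm_gammaFactor (χ : DirichletCharacter ℂ N) (s : ℂ) :
    ‖DirichletCharacter.gammaFactor χ s‖ =
      Real.pi ^ (-(s.re + par χ) / 2) * ‖Gamma ((s + par χ) / 2)‖ := by
  have key : ∀ z : ℂ, ‖Gammaℝ z‖ = Real.pi ^ (-z.re / 2) * ‖Gamma (z / 2)‖ := by
    intro z
    rw [Gammaℝ_def, norm_mul, Complex.norm_cpow_eq_rpow_re_of_pos Real.pi_pos]
    congr 2
    simp
  rcases χ.even_or_odd with h | h
  · rw [h.gammaFactor_def, key]
    have hp : par χ = 0 := if_pos h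
    rw [hp]
    simp
  · rw [h.gammaFactor_def, key]
    have hp : par χ = 1 := if_neg h.not_even
    rw [hp]
    simp

/-- the completed function in absolute value -/
theorem norm_completed {χ : DirichletCharacter ℂ N} (hχ : χ ≠ 1) {s : ℂ} (hs : 0 < s.re) :
    ‖DirichletCharacter.completedLFunction χ s‖ =
      Real.pi ^ (-(s.re + par χ) / 2) * ‖Gamma ((s + par χ) / 2)‖ *
        ‖DirichletCharacter.LFunction χ s‖ := by
  have hN : N ≠ 1 := fun h => by
    subst h
    exact hχ (DirichletCharacter.level_one χ)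
  have hs0 : s ≠ 0 := by
    intro h
    rw [h] at hs
    simp at hs
  have hG : DirichletCharacter.gammaFactor χ s ≠ 0 := by
    rcases χ.even_or_odd with h | h
    · rw [h.gammaFactor_def]
      exact Gammaℝ_ne_zero_of_re_pos hs
    · rw [h.gammaFactor_def]
      exact Gammaℝ_ne_zero_of_re_pos (by simp; linarith)
  have h1 := DirichletCharacter.LFunction_eq_completed_div_gammaFactor χ s (Or.inl hs0)
  have h2 : DirichletCharacter.completedLFunction χ s =
      DirichletCharacter.gammaFactor χ s * DirichletCharacter.LFunction χ s := by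
    rw [h1]
    field_simp
  rw [h2, norm_mul, norm_gammaFactor]

theorem norm_completed_conj {χ : DirichletCharacter ℂ N} (hχ : χ ≠ 1) {s : ℂ} (hs : 0 < s.re) :
    ‖DirichletCharacter.completedLFunction χ⁻¹ s‖ =
      ‖DirichletCharacter.completedLFunction χ (conj s)‖ := by
  rw [norm_completed (inv_ne_one hχ) hs, norm_completed hχ (by simpa using hs), par_inv,
    LFunction_conj hχ, Complex.norm_conj, Complex.conj_re]
  congr 2
  rw [← Complex.norm_conj (Gamma ((s + par χ) / 2)), ← Complex.Gamma_conj]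
  congr 2
  rw [map_div₀, map_add, Complex.conj_ofReal, Complex.conj_ofNat]

theorem completed_ne_zero {χ : DirichletCharacter ℂ N} (hχ : χ ≠ 1) {s : ℂ} (hs : 1 < s.re) :
    DirichletCharacter.completedLFunction χ s ≠ 0 := by
  rw [← norm_ne_zero_iff, norm_completed hχ (by linarith)]
  have h1 : Gamma ((s + par χ) / 2) ≠ 0 := by
    apply Complex.Gamma_ne_zero_of_re_pos
    have := par_nonneg χ
    simp
    linarith
  have h2 : DirichletCharacter.LFunction χ s ≠ 0 :=
    DirichletCharacter.LFunction_ne_zero_of_one_le_re χ (Or.inl hχ) hs.le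
  have h3 := Real.rpow_pos_of_pos Real.pi_pos (-(s.re + par χ) / 2)
  have h4 := norm_pos_iff.2 h1
  have h5 := norm_pos_iff.2 h2
  positivity

theorem Gammaℝ_conj (s : ℂ) : Gammaℝ (conj s) = conj (Gammaℝ s) := by
  have h3 : ((Real.pi : ℂ)).arg ≠ Real.pi := by
    rw [Complex.arg_ofReal_of_nonneg Real.pi_pos.le]
    exact Real.pi_pos.ne
  rw [Gammaℝ_def, Gammaℝ_def, map_mul, ← Complex.Gamma_conj]
  congr 1
  · have h4 := Complex.cpow_conj (Real.pi : ℂ) (-s / 2) h3
    rw [Complex.conj_ofReal] at h4
    rw [← h4, map_div₀, map_neg, Complex.conj_ofNat]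
  · rw [map_div₀, Complex.conj_ofNat]

theorem gammaFactor_conj (χ : DirichletCharacter ℂ N) (s : ℂ) :
    DirichletCharacter.gammaFactor χ⁻¹ s = conj (DirichletCharacter.gammaFactor χ (conj s)) := by
  rcases χ.even_or_odd with h | h
  · rw [h.gammaFactor_def, (even_inv.2 h).gammaFactor_def, Gammaℝ_conj, Complex.conj_conj]
  · have h' : χ⁻¹.Odd := by
      rcases (χ⁻¹).even_or_odd with h2 | h2
      · exact absurd (even_inv.1 h2) h.not_even
      · exact h2
    rw [h.gammaFactor_def, h'.gammaFactor_def, ← Gammaℝ_conj, map_add, Complex.conj_conj, map_one]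

theorem completed_eq {χ : DirichletCharacter ℂ N} {s : ℂ} (hs : 0 < s.re) :
    DirichletCharacter.completedLFunction χ s =
      DirichletCharacter.gammaFactor χ s * DirichletCharacter.LFunction χ s := by
  have hs0 : s ≠ 0 := by
    intro h
    rw [h] at hs
    simp at hs
  have hG : DirichletCharacter.gammaFactor χ s ≠ 0 := by
    rcases χ.even_or_odd with h | h
    · rw [h.gammaFactor_def]
      exact Gammaℝ_ne_zero_of_re_pos hs
    · rw [h.gammaFactor_def]
      exact Gammaℝ_ne_zero_of_re_pos (by simp; linarith)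
  have h1 := DirichletCharacter.LFunction_eq_completed_div_gammaFactor χ s (Or.inl hs0)
  rw [h1]
  field_simp

theorem completed_conj {χ : DirichletCharacter ℂ N} (hχ : χ ≠ 1) (s : ℂ) :
    DirichletCharacter.completedLFunction χ⁻¹ s =
      conj (DirichletCharacter.completedLFunction χ (conj s)) := by
  have h1 : Differentiable ℂ (DirichletCharacter.completedLFunction χ⁻¹) :=
    DirichletCharacter.differentiable_completedLFunction (inv_ne_one hχ)
  have h2 : Differentiable ℂ (fun z => conj (DirichletCharacter.completedLFunction χ (conj z))) := by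
    intro z
    have h3 : DifferentiableAt ℂ (conj ∘ DirichletCharacter.completedLFunction χ ∘ conj)
        (conj (conj z)) :=
      (DirichletCharacter.differentiable_completedLFunction hχ (conj z)).conj_conj
    rw [Complex.conj_conj] at h3
    exact h3
  have h3 : AnalyticOnNhd ℂ (DirichletCharacter.completedLFunction χ⁻¹) Set.univ :=
    fun z _ => h1.analyticAt z
  have h4 : AnalyticOnNhd ℂ (fun z => conj (DirichletCharacter.completedLFunction χ (conj z)))
      Set.univ := fun z _ => h2.analyticAt z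
  have h5 : DirichletCharacter.completedLFunction χ⁻¹ =
      fun z => conj (DirichletCharacter.completedLFunction χ (conj z)) := by
    apply h3.eq_of_eventuallyEq h4 (z₀ := 2)
    filter_upwards [(isOpen_lt continuous_const continuous_re).mem_nhds
      (show (1 : ℝ) < (2 : ℂ).re by norm_num)] with z hz
    have hz' : 1 < z.re := hz
    rw [completed_eq (by linarith), completed_eq (by rw [Complex.conj_re]; linarith), map_mul,
      gammaFactor_conj, LFunction_conj hχ]
  exact congrFun h5 s

/-- the functional equation in absolute values, with the root number -/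
theorem norm_fe_aux {χ : DirichletCharacter ℂ N} (hp : χ.IsPrimitive) (hχ : χ ≠ 1) (s : ℂ) :
    ‖DirichletCharacter.completedLFunction χ (1 - s)‖ =
      (N : ℝ) ^ (s.re - 1 / 2) * ‖DirichletCharacter.rootNumber χ‖ *
        ‖DirichletCharacter.completedLFunction χ (conj s)‖ := by
  have hN : (0 : ℝ) < N := by exact_mod_cast Nat.pos_of_ne_zero (NeZero.ne N)
  rw [hp.completedLFunction_one_sub, norm_mul, norm_mul, completed_conj hχ, Complex.norm_conj]
  congr 2
  rw [show ((N : ℕ) : ℂ) = (((N : ℕ) : ℝ) : ℂ) by simp,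
    Complex.norm_cpow_eq_rpow_re_of_pos hN]
  congr 1
  simp

theorem norm_rootNumber {χ : DirichletCharacter ℂ N} (hp : χ.IsPrimitive) (hχ : χ ≠ 1) :
    ‖DirichletCharacter.rootNumber χ‖ = 1 := by
  have hN : (0 : ℝ) < N := by exact_mod_cast Nat.pos_of_ne_zero (NeZero.ne N)
  have h1 := norm_fe_aux hp hχ 2
  have h2 := norm_fe_aux hp hχ (-1)
  have e1 : (1 : ℂ) - 2 = -1 := by norm_num
  have e2 : (1 : ℂ) - (-1) = 2 := by norm_num
  have e3 : conj (2 : ℂ) = 2 := Complex.conj_ofNat 2
  have e4 : conj (-1 : ℂ) = -1 := by rw [map_neg, map_one]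
  rw [e1, e3] at h1
  rw [e2, e4, h1] at h2
  have h3 : 0 < ‖DirichletCharacter.completedLFunction χ 2‖ :=
    norm_pos_iff.2 (completed_ne_zero hχ (by norm_num))
  have e5 : (2 : ℂ).re = 2 := by norm_num
  have e6 : (-1 : ℂ).re = -1 := by norm_num
  rw [e5, e6] at h2
  have h4 : (N : ℝ) ^ ((-1 : ℝ) - 1 / 2) * (N : ℝ) ^ ((2 : ℝ) - 1 / 2) = 1 := by
    rw [← Real.rpow_add hN]
    norm_num
  set w := ‖DirichletCharacter.rootNumber χ‖ with hw
  set l := ‖DirichletCharacter.completedLFunction χ 2‖ with hl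
  have h5 : l = w ^ 2 * l := by
    calc l = (N : ℝ) ^ ((-1 : ℝ) - 1 / 2) * w * ((N : ℝ) ^ ((2 : ℝ) - 1 / 2) * w * l) := h2
      _ = ((N : ℝ) ^ ((-1 : ℝ) - 1 / 2) * (N : ℝ) ^ ((2 : ℝ) - 1 / 2)) * (w ^ 2 * l) := by ring
      _ = w ^ 2 * l := by rw [h4, one_mul]
  have h6 : w ^ 2 = 1 := by
    have h7 : (w ^ 2 - 1) * l = 0 := by linarith
    rcases mul_eq_zero.1 h7 with h | h
    · linarith
    · exact absurd h h3.ne'
  have h7 : 0 ≤ w := norm_nonneg _
  nlinarith

/-- the functional equation in absolute values -/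
theorem norm_fe_strip {χ : DirichletCharacter ℂ N} (hp : χ.IsPrimitive) (hχ : χ ≠ 1) (x y : ℝ) :
    ‖DirichletCharacter.completedLFunction χ ((x : ℂ) + y * I)‖ =
      (N : ℝ) ^ (1 / 2 - x) *
        ‖DirichletCharacter.completedLFunction χ (((1 - x : ℝ) : ℂ) + y * I)‖ := by
  have h1 := norm_fe_aux hp hχ (((1 - x : ℝ) : ℂ) - y * I)
  rw [norm_rootNumber hp hχ, mul_one] at h1
  have e1 : (1 : ℂ) - (((1 - x : ℝ) : ℂ) - y * I) = (x : ℂ) + y * I := by
    push_cast
    ring
  have e2 : conj (((1 - x : ℝ) : ℂ) - y * I) = ((1 - x : ℝ) : ℂ) + y * I := by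
    rw [map_sub, map_mul, Complex.conj_ofReal, Complex.conj_ofReal, Complex.conj_I]
    ring
  have e3 : ((((1 - x : ℝ) : ℂ) - y * I)).re - 1 / 2 = 1 / 2 - x := by
    simp
    ring
  rw [e1, e2, e3] at h1
  exact h1

end LFE_

open LFE_ in
theorem p_LFE : T_LFE := by
  intro N _ χ t hp hχ
  have hN : (0 : ℝ) < N := by exact_mod_cast Nat.pos_of_ne_zero (NeZero.ne N)
  have hre : ∀ s : ℂ, (s + (t : ℂ) * I).re = s.re := fun s => by simp
  -- the terms of the two series
  have hterm : ∀ (s : ℂ), LSeries.term (fun n : ℕ => (ArithmeticFunction.vonMangoldt n : ℂ) *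
      (χ (n : ZMod N) * (n : ℂ) ^ (-((t : ℂ) * I)))) s =
      LSeries.term ((fun n : ℕ => χ (n : ZMod N)) * fun n : ℕ =>
        (ArithmeticFunction.vonMangoldt n : ℂ)) (s + t * I) := by
    intro s
    funext n
    by_cases hn : n = 0
    · simp [hn]
    · rw [LSeries.term_of_ne_zero hn, LSeries.term_of_ne_zero hn]
      have hn' : (n : ℂ) ≠ 0 := by exact_mod_cast hn
      rw [Complex.cpow_add _ _ hn', Complex.cpow_neg]
      simp only [Pi.mul_apply]
      have h1 : (n : ℂ) ^ s ≠ 0 := by
        rw [Complex.cpow_ne_zero_iff]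
        exact Or.inl hn'
      have h2 : (n : ℂ) ^ ((t : ℂ) * I) ≠ 0 := by
        rw [Complex.cpow_ne_zero_iff]
        exact Or.inl hn'
      field_simp
  have hdiff := DirichletCharacter.differentiable_LFunction hχ
  refine ⟨?_, ?_, ?_, ?_, ?_, ?_⟩
  · refine ⟨0, fun s => DirichletCharacter.LFunction χ (s + t * I), ?_, fun s _ => by simp⟩
    exact hdiff.comp (differentiable_id.add_const _)
  · intro s hs
    exact DirichletCharacter.LFunction_ne_zero_of_one_le_re χ (Or.inl hχ) (by rw [hre]; exact hs.le)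
  · simp
  · intro s hs
    have h1 := DirichletCharacter.LSeriesSummable_twist_vonMangoldt χ (s := s + t * I)
      (by rw [hre]; exact hs)
    unfold LSeriesSummable at h1 ⊢
    rw [hterm s]
    exact h1
  · intro s hs
    have hs' : 1 < (s + (t : ℂ) * I).re := by rw [hre]; exact hs
    have h0 : HasDerivAt (fun z => DirichletCharacter.LFunction χ (z + t * I))
        (deriv (DirichletCharacter.LFunction χ) (s + t * I)) s := by
      have h1 := (hdiff (s + t * I)).hasDerivAt
      have h2 : HasDerivAt (fun z : ℂ => z + t * I) 1 s := (hasDerivAt_id s).add_const _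
      have h3 := h1.comp s h2
      rw [mul_one] at h3
      exact h3
    refine h0.congr_deriv ?_
    have h2 := DirichletCharacter.LSeries_twist_vonMangoldt_eq χ hs'
    have h3 : LSeries (fun n : ℕ => (ArithmeticFunction.vonMangoldt n : ℂ) *
      (χ (n : ZMod N) * (n : ℂ) ^ (-((t : ℂ) * I)))) s =
      LSeries ((fun n : ℕ => χ (n : ZMod N)) * fun n : ℕ =>
        (ArithmeticFunction.vonMangoldt n : ℂ)) (s + t * I) := by
      unfold LSeries
      rw [hterm s]
    rw [h3, h2, DirichletCharacter.deriv_LFunction_eq_deriv_LSeries χ hs',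
      DirichletCharacter.LFunction_eq_LSeries χ hs']
    have h4 := DirichletCharacter.LSeries_ne_zero_of_one_lt_re χ hs'
    field_simp
  · refine fe_of_norm (F := fun s => DirichletCharacter.LFunction χ (s + t * I))
      (k := 1) (Q := ((N : ℝ) / Real.pi) ^ (1 / 2 : ℝ)) (lam := fun _ => 1 / 2)
      (mu := fun _ => ((par χ : ℂ) + t * I) / 2) (Real.rpow_pos_of_pos (by positivity) _)
      (fun _ => by norm_num) (fun _ => ?_) ?_
    · have := par_nonneg χ
      simp
      linarith
    · intro σ u h0 h1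
      have key : ∀ x : ℝ, 0 < x → (((N : ℝ) / Real.pi) ^ (1 / 2 : ℝ)) ^ x *
          (∏ _j : Fin 1, ‖Gamma (((1 / 2 : ℝ) : ℂ) * ((x : ℂ) + u * I) +
            ((par χ : ℂ) + t * I) / 2)‖) *
          ‖DirichletCharacter.LFunction χ ((x : ℂ) + u * I + t * I)‖ =
          (N : ℝ) ^ (x / 2) * Real.pi ^ (par χ / 2) *
            ‖DirichletCharacter.completedLFunction χ ((x : ℂ) + ((u + t : ℝ) : ℂ) * I)‖ := by
        intro x hx
        have hs : 0 < ((x : ℂ) + ((u + t : ℝ) : ℂ) * I).re := by simpa using hx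
        rw [norm_completed hχ hs]
        have e1 : ((x : ℂ) + ((u + t : ℝ) : ℂ) * I).re = x := by simp
        have e2 : ((1 / 2 : ℝ) : ℂ) * ((x : ℂ) + u * I) + ((par χ : ℂ) + t * I) / 2 =
            ((x : ℂ) + ((u + t : ℝ) : ℂ) * I + par χ) / 2 := by
          push_cast
          ring
        have e3 : (x : ℂ) + u * I + t * I = (x : ℂ) + ((u + t : ℝ) : ℂ) * I := by
          push_cast
          ring
        simp only [Finset.prod_const, Finset.card_univ, Fintype.card_fin, pow_one]
        rw [e1, e2, e3]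
        have e4 : (((N : ℝ) / Real.pi) ^ (1 / 2 : ℝ)) ^ x =
            (N : ℝ) ^ (x / 2) * Real.pi ^ (-x / 2) := by
          rw [← Real.rpow_mul (by positivity), Real.div_rpow hN.le Real.pi_pos.le,
            show (1 / 2 : ℝ) * x = x / 2 by ring, neg_div, Real.rpow_neg Real.pi_pos.le]
          rfl
        have e5 : Real.pi ^ (-x / 2) = Real.pi ^ (par χ / 2) * Real.pi ^ (-(x + par χ) / 2) := by
          rw [← Real.rpow_add Real.pi_pos]
          congr 1
          ring
        rw [e4, e5]
        ring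
      rw [key σ h0, key (1 - σ) (by linarith), norm_fe_strip hp hχ σ (u + t)]
      have e6 : (N : ℝ) ^ (σ / 2) * (N : ℝ) ^ (1 / 2 - σ) = (N : ℝ) ^ ((1 - σ) / 2) := by
        rw [← Real.rpow_add hN]
        congr 1
        ring
      rw [← e6]
      ring

end Pool.Agent.SelDeg2
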