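import Pool.Agent.SelDeg2.TargetsC

/-!
# LOC: the local Euler factor as a power series
-/

namespace Pool.Agent.SelDeg2

open Complex Filter Topology

namespace LOC_

/-- the indicator function of the powers of `p` -/
noncomputable def ind (p : ℕ) (n : ℕ) : ℂ :=
  open Classical in if ∃ j : ℕ, n = p ^ j then 1 else 0

theorem ind_mul {p : ℕ} (hp : p.Prime) (m n : ℕ) : ind p (m * n) = ind p m * ind p n := by
  unfold ind
  by_cases hm : ∃ j : ℕ, m = p ^ j
  · by_cases hn : ∃ j : ℕ, n = p ^ j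
    · obtain ⟨i, hi⟩ := hm
      obtain ⟨j, hj⟩ := hn
      rw [if_pos ⟨i + j, by rw [hi, hj, pow_add]⟩, if_pos ⟨i, hi⟩, if_pos ⟨j, hj⟩, one_mul]
    · rw [if_neg hn, mul_zero, if_neg]
      rintro ⟨k, hk⟩
      exact hn ⟨_, ((Nat.dvd_prime_pow hp).1 (Dvd.intro_left m hk)).choose_spec.2⟩
  · rw [if_neg hm, zero_mul, if_neg]
    rintro ⟨k, hk⟩
    exact hm ⟨_, ((Nat.dvd_prime_pow hp).1 (Dvd.intro n hk)).choose_spec.2⟩

theorem ind_one (p : ℕ) : ind p 1 = 1 := by
  unfold ind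
  rw [if_pos ⟨0, by simp⟩]

theorem ind_norm (p n : ℕ) : ‖ind p n‖ ≤ 1 := by
  unfold ind
  split_ifs <;> simp

theorem ind_pow (p j : ℕ) : ind p (p ^ j) = 1 := by
  unfold ind
  rw [if_pos ⟨j, rfl⟩]

theorem pow_inj {p : ℕ} (hp : p.Prime) : Function.Injective (fun j : ℕ => p ^ j) :=
  Nat.pow_right_injective hp.two_le

/-- the Dirichlet series over the powers of `p` -/
theorem LSeries_ind {p : ℕ} (hp : p.Prime) (c : ℕ → ℂ) (s : ℂ) :
    LSeries (fun n => c n * ind p n) s = ∑' j : ℕ, c (p ^ j) * ((p : ℂ) ^ (-s)) ^ j := by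
  unfold LSeries
  have h1 : Function.support (LSeries.term (fun n => c n * ind p n) s) ⊆
      Set.range (fun j : ℕ => p ^ j) := by
    intro n hn
    rw [Function.mem_support] at hn
    by_contra h2
    apply hn
    rcases Nat.eq_zero_or_pos n with rfl | hn0
    · simp
    · rw [LSeries.term_of_ne_zero hn0.ne']
      have h3 : ind p n = 0 := by
        unfold ind
        rw [if_neg]
        rintro ⟨j, hj⟩
        exact h2 ⟨j, hj.symm⟩
      rw [h3, mul_zero, zero_div]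
  rw [← (pow_inj hp).tsum_eq h1]
  refine tsum_congr (fun j => ?_)
  have hpj : p ^ j ≠ 0 := pow_ne_zero _ hp.ne_zero
  rw [LSeries.term_of_ne_zero hpj, ind_pow, mul_one, div_eq_mul_inv]
  congr 1
  rw [← cpow_neg, Nat.cast_pow, ← natCast_cpow_natCast_mul, cpow_nat_mul]

/-- domination by a geometric series -/
theorem norm_le {p : ℕ} (hp : p.Prime) {c : ℂ} {C κ : ℝ} (hC : 0 ≤ C) (j : ℕ)
    (hc : ‖c‖ ≤ C * ((p ^ j : ℕ) : ℝ) ^ κ) {z : ℂ} (hz : ‖z‖ ≤ 1 / p) :
    ‖c * z ^ j‖ ≤ C * ((p : ℝ) ^ (κ - 1)) ^ j := by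
  have hp0 : (0 : ℝ) < p := by exact_mod_cast hp.pos
  rw [norm_mul, norm_pow]
  have h1 : ‖z‖ ^ j ≤ (1 / (p : ℝ)) ^ j := pow_le_pow_left₀ (norm_nonneg _) hz j
  have h2 : ((p ^ j : ℕ) : ℝ) ^ κ = ((p : ℝ) ^ κ) ^ j := by
    rw [Nat.cast_pow, ← Real.rpow_natCast, ← Real.rpow_mul hp0.le, mul_comm,
      Real.rpow_mul hp0.le, Real.rpow_natCast]
  have h3 : (p : ℝ) ^ (κ - 1) = (p : ℝ) ^ κ * (1 / p) := by
    rw [Real.rpow_sub hp0, Real.rpow_one, div_eq_mul_one_div]
  rw [h3, mul_pow, ← mul_assoc, ← h2]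
  exact mul_le_mul hc h1 (by positivity) (by positivity)

theorem geom {p : ℕ} (hp : p.Prime) {κ : ℝ} (hκ : κ < 1) :
    Summable (fun j : ℕ => ((p : ℝ) ^ (κ - 1)) ^ j) := by
  have hp1 : (1 : ℝ) < p := by exact_mod_cast hp.one_lt
  refine summable_geometric_of_lt_one (by positivity) ?_
  exact Real.rpow_lt_one_of_one_lt_of_neg hp1 (by linarith)

/-- continuity on the closed disc -/
theorem cont {p : ℕ} (hp : p.Prime) {C κ : ℝ} (hC : 0 ≤ C) (hκ : κ < 1) (c : ℕ → ℂ) (k : ℕ → ℕ)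
    (hk : Function.Injective k) (hc : ∀ j, ‖c j‖ ≤ C * ((p ^ (k j) : ℕ) : ℝ) ^ κ) :
    ContinuousOn (fun z : ℂ => ∑' j : ℕ, c j * z ^ (k j)) (Metric.closedBall 0 (1 / p)) := by
  refine continuousOn_tsum (u := fun j => C * ((p : ℝ) ^ (κ - 1)) ^ (k j)) (fun j => ?_) ?_ ?_
  · exact (continuous_const.mul (continuous_pow _)).continuousOn
  · exact ((geom hp hκ).mul_left C).comp_injective hk
  · intro j z hz
    exact norm_le hp hC (k j) (hc j) (by simpa using hz)

end LOC_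

open LOC_ in
/-- LOC: the local Euler factor as a power series -/
theorem p_LOC (hTW : T_TW) (_hMUL : T_MUL) : T_LOC := by
  intro F a b hF p hp
  have hp0 : (0 : ℝ) < p := by exact_mod_cast hp.pos
  have hp1 : (1 : ℝ) < p := by exact_mod_cast hp.one_lt
  obtain ⟨Ca, hCa⟩ := hF.ramanujan (1 / 4) (by norm_num)
  obtain ⟨κ, Cb, hκ, hCb⟩ := hF.b_bound
  have hCa' : ∀ n : ℕ, 1 ≤ n → ‖a n‖ ≤ |Ca| * (n : ℝ) ^ (1 / 4 : ℝ) := fun n hn =>
    (hCa n hn).trans (mul_le_mul_of_nonneg_right (le_abs_self _) (by positivity))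
  have hCb' : ∀ n : ℕ, 1 ≤ n → ‖b n‖ ≤ |Cb| * (n : ℝ) ^ κ := fun n hn =>
    (hCb n hn).trans (mul_le_mul_of_nonneg_right (le_abs_self _) (by positivity))
  have hb1 : b 1 = 0 := hF.b_supp 1 not_isPrimePow_one
  have ha : ∀ j : ℕ, ‖a (p ^ j)‖ ≤ |Ca| * ((p ^ j : ℕ) : ℝ) ^ (1 / 4 : ℝ) := fun j =>
    hCa' _ (Nat.one_le_pow _ _ hp.pos)
  have hb : ∀ j : ℕ, ‖b (p ^ (j + 1))‖ ≤ |Cb| * ((p ^ (j + 1) : ℕ) : ℝ) ^ κ := fun j =>
    hCb' _ (Nat.one_le_pow _ _ hp.pos)
  have hinj : Function.Injective (fun j : ℕ => j + 1) := add_left_injective 1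
  have hA := cont hp (abs_nonneg Ca) (by norm_num : (1 / 4 : ℝ) < 1) (fun j => a (p ^ j)) id
    Function.injective_id ha
  have hB := cont hp (abs_nonneg Cb) (by linarith : κ < 1) (fun j => b (p ^ (j + 1)))
    (fun j => j + 1) hinj hb
  -- the identity on the open disc
  have hopen : Set.EqOn (fun z : ℂ => ∑' j : ℕ, a (p ^ j) * z ^ (id j))
      (fun z : ℂ => exp (∑' j : ℕ, b (p ^ (j + 1)) * z ^ (j + 1))) (Metric.ball 0 (1 / p)) := by
    intro z hz
    simp only [id_eq]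
    rcases eq_or_ne z 0 with rfl | hz0
    · have h1 : ∑' j : ℕ, a (p ^ j) * (0 : ℂ) ^ j = a (p ^ 0) * (0 : ℂ) ^ 0 := by
        refine tsum_eq_single 0 (fun j hj => ?_)
        rw [zero_pow hj, mul_zero]
      have h2 : ∑' j : ℕ, b (p ^ (j + 1)) * (0 : ℂ) ^ (j + 1) = 0 := by
        simp
      rw [h1, h2]
      simp [hF.a_one]
    · have hz1 : ‖z‖ < 1 / p := by simpa using hz
      have hlp : 0 < Real.log p := Real.log_pos hp1
      set s : ℂ := -log z / (Real.log p : ℝ) with hs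
      have hps : (p : ℂ) ^ (-s) = z := by
        rw [cpow_def_of_ne_zero (by exact_mod_cast hp.ne_zero)]
        have h3 : log (p : ℂ) = ((Real.log p : ℝ) : ℂ) := by
          rw [← Complex.natCast_log]
        have h4 : ((Real.log p : ℝ) : ℂ) ≠ 0 := by exact_mod_cast hlp.ne'
        rw [h3, hs]
        have h5 : ((Real.log p : ℝ) : ℂ) * -(-log z / ((Real.log p : ℝ) : ℂ)) = log z := by
          field_simp
        rw [h5, exp_log hz0]
      have hsre : 1 < s.re := by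
        have h6 : s.re = -Real.log ‖z‖ / Real.log p := by
          rw [hs, div_ofReal_re, neg_re, log_re]
        rw [h6, lt_div_iff₀ hlp, one_mul, lt_neg, ← Real.log_inv]
        refine Real.log_lt_log (norm_pos_iff.2 hz0) ?_
        rwa [one_div] at hz1
      have h7 := hTW F a b hF (ind p) (ind_mul hp) (ind_one p) (ind_norm p) s hsre
      rw [LSeries_ind hp, LSeries_ind hp, hps] at h7
      rw [h7]
      congr 1
      have h8 : Summable (fun j : ℕ => b (p ^ j) * z ^ j) := by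
        rw [← summable_nat_add_iff 1]
        refine Summable.of_norm_bounded
          (g := fun j : ℕ => |Cb| * ((p : ℝ) ^ (κ - 1)) ^ (j + 1)) ?_ (fun j => ?_)
        · exact ((geom hp (by linarith : κ < 1)).mul_left |Cb|).comp_injective hinj
        · exact norm_le hp (abs_nonneg _) (j + 1) (hb j) hz1.le
      rw [h8.tsum_eq_zero_add, pow_zero, pow_zero, hb1, zero_mul, zero_add]
  have hclosed := hopen.of_subset_closure hA hB.cexp Metric.ball_subset_closedBall
    (by rw [closure_ball _ (by positivity)])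
  intro z hz
  refine ⟨?_, ?_, ?_⟩
  · refine Summable.of_nonneg_of_le (fun j => norm_nonneg _)
      (fun j => norm_le hp (abs_nonneg Ca) j (ha j) hz) ((geom hp (by norm_num)).mul_left _)
  · refine Summable.of_nonneg_of_le (fun j => norm_nonneg _)
      (fun j => norm_le hp (abs_nonneg Cb) (j + 1) (hb j) hz) ?_
    exact ((geom hp (by linarith : κ < 1)).mul_left |Cb|).comp_injective hinj
  · have h9 := hclosed (x := z) (by simpa using hz)
    simpa using h9

end Pool.Agent.SelDeg2
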