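import Pool.Agent.SelDeg2.TargetsC

/-!
# D-MER: from the meromorphic order to `HasPole` (MP_995735_nt)
-/

namespace Pool.Agent.SelDeg2

open Complex Filter Topology

theorem p_MER : T_MER := by
  intro F a b r _ hr hord
  have hm : MeromorphicAt F 1 := by
    by_contra h
    rw [meromorphicOrderAt_of_not_meromorphicAt h] at hord
    have h2 : (0 : ℤ) = -(r : ℤ) := by exact_mod_cast hord
    omega
  obtain ⟨g, hg, hg0, hev⟩ := (meromorphicOrderAt_eq_int_iff hm).1 hord
  refine ⟨g 1, hr, hg0, ?_⟩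
  refine (hg.continuousAt.tendsto.mono_left nhdsWithin_le_nhds).congr' ?_
  filter_upwards [hev, self_mem_nhdsWithin] with z hz hz1
  have h3 : (z - 1) ≠ 0 := sub_ne_zero.mpr (by simpa using hz1)
  rw [hz, smul_eq_mul, zpow_neg, zpow_natCast, ← mul_assoc, mul_inv_cancel₀ (pow_ne_zero r h3),
    one_mul]

end Pool.Agent.SelDeg2
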