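import Pool.Agent.SelDeg2.TargetsC

/-!
# DEG2-ORD: comparison of the pole orders
-/

set_option autoImplicit false

namespace Pool.Agent.SelDeg2

open Complex Filter Topology MeasureTheory
open Pool.Agent.SelPole Pool.Agent.SelTwo

namespace ORD_

lemma tendsto_Lg : Tendsto Lg (𝓝[>] 0) atTop := by
  have h : Lg = fun η => -Real.log η := by
    funext η
    unfold Lg
    rw [one_div, Real.log_inv]
  rw [h]
  exact tendsto_neg_atBot_atTop.comp Real.tendsto_log_nhdsGT_zero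

lemma Lg_nonneg {η : ℝ} (h0 : 0 < η) (h1 : η ≤ 1) : 0 ≤ Lg η :=
  Real.log_nonneg (by rw [le_div_iff₀ h0]; linarith)

lemma exp_neg_Lg {η : ℝ} (h0 : 0 < η) : Real.exp (-Lg η) = η := by
  unfold Lg
  rw [one_div, Real.log_inv, neg_neg, Real.exp_log h0]

lemma ev_unit : ∀ᶠ η : ℝ in 𝓝[>] 0, 0 < η ∧ η ≤ 1 := Ioc_mem_nhdsGT one_pos

/-- If `C` bounds the distance of `z Lg` to `w Lg`, then `z = w`. -/
lemma eq_of_bound {z w : ℂ} {f : ℝ → ℂ} {C C' : ℝ}
    (h1 : ∀ η : ℝ, 0 < η → η ≤ 1 → ‖f η - z * ((Lg η : ℝ) : ℂ)‖ ≤ C)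
    (h2 : ∀ η : ℝ, 0 < η → η ≤ 1 → ‖f η - w * ((Lg η : ℝ) : ℂ)‖ ≤ C') : z = w := by
  by_contra hne
  have hpos : 0 < ‖z - w‖ := norm_pos_iff.2 (sub_ne_zero.2 hne)
  obtain ⟨η, ⟨h0, h1'⟩, hL⟩ :=
    (ev_unit.and (tendsto_Lg.eventually_gt_atTop ((C + C') / ‖z - w‖))).exists
  have h3 : ‖(z - w) * ((Lg η : ℝ) : ℂ)‖ ≤ C + C' := by
    have : (z - w) * ((Lg η : ℝ) : ℂ) =
        (f η - w * ((Lg η : ℝ) : ℂ)) - (f η - z * ((Lg η : ℝ) : ℂ)) := by ring
    rw [this]
    have := norm_sub_le (f η - w * ((Lg η : ℝ) : ℂ)) (f η - z * ((Lg η : ℝ) : ℂ))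
    linarith [h1 η h0 h1', h2 η h0 h1']
  rw [norm_mul, Complex.norm_real, Real.norm_of_nonneg (Lg_nonneg h0 h1')] at h3
  rw [div_lt_iff₀ hpos] at hL
  linarith [mul_comm (Lg η) ‖z - w‖]

lemma norm_prime_cpow (q : Nat.Primes) {s : ℂ} {x : ℝ} (hx : x ≤ s.re) :
    ‖((q : ℕ) : ℂ) ^ (-s)‖ ≤ ((q : ℕ) : ℝ) ^ (-x) := by
  rw [Complex.norm_natCast_cpow_of_pos q.prop.pos, Complex.neg_re]
  exact Real.rpow_le_rpow_of_exponent_le (by exact_mod_cast q.prop.one_lt.le) (by linarith)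

lemma summable_char {M : ℕ} (χ : DirichletCharacter ℂ M) {s : ℂ} (hs : 1 < s.re) :
    Summable fun q : Nat.Primes => χ ((q : ℕ) : ZMod M) * ((q : ℕ) : ℂ) ^ (-s) := by
  refine Summable.of_norm_bounded (g := fun q : Nat.Primes => (((q : ℕ) : ℝ) ^ (-s.re)))
    (Nat.Primes.summable_rpow.2 (by linarith)) fun q => ?_
  rw [norm_mul]
  calc ‖χ ((q : ℕ) : ZMod M)‖ * ‖((q : ℕ) : ℂ) ^ (-s)‖ ≤ 1 * ((q : ℕ) : ℝ) ^ (-s.re) :=
        mul_le_mul (DirichletCharacter.norm_le_one _ _) (norm_prime_cpow q le_rfl)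
          (norm_nonneg _) zero_le_one
    _ = _ := one_mul _

open Classical in
/-- The leading coefficient of the sum over primes. -/
noncomputable def kc {N : ℕ} (θ : ℝ) (c : DirichletCharacter ℂ N → ℂ)
    (χ : DirichletCharacter ℂ N) (t : ℝ) : ℂ :=
  (if χ = 1 ∧ t = 0 then 1 else 0) + (if t + θ = 0 then c χ else 0)

/-- The sums over primes. -/
lemma pser_form (hPR : T_PR) {a : ℕ → ℂ} {N : ℕ} [NeZero N] {θ : ℝ}
    {c : DirichletCharacter ℂ N → ℂ} (h : AppForm a N θ c) (χ : DirichletCharacter ℂ N) (t : ℝ) :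
    ∃ C : ℝ, ∀ η : ℝ, 0 < η → η ≤ 1 →
      ‖pser (aX a χ) (1 + (η : ℂ) + t * I) - kc θ c χ t * ((Lg η : ℝ) : ℂ)‖ ≤ C := by
  classical
  obtain ⟨δ, K, hδ, hK⟩ := h
  obtain ⟨C₁, hC₁⟩ := hPR N χ t
  have h2 : ∀ ψ : DirichletCharacter ℂ N, ∃ C : ℝ, ∀ η : ℝ, 0 < η → η ≤ 1 →
      ‖pser (fun n => (ψ⁻¹ * χ) (n : ZMod N)) (1 + (η : ℂ) + ((t + θ : ℝ) : ℂ) * I) -
      (open Classical in if ψ⁻¹ * χ = 1 ∧ t + θ = 0 then ((Lg η : ℝ) : ℂ) else 0)‖ ≤ C :=
    fun ψ => hPR N (ψ⁻¹ * χ) (t + θ)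
  choose C₂ hC₂ using h2
  set E : ℕ → ℂ := fun p => a p - (1 + (p : ℂ) ^ (-((θ : ℂ) * I)) *
    ∑ ψ : DirichletCharacter ℂ N, c ψ * (starRingEnd ℂ) (ψ (p : ZMod N))) with hE
  have hsE : Summable fun q : Nat.Primes => |K| * (((q : ℕ) : ℝ) ^ (-1 - δ)) :=
    (Nat.Primes.summable_rpow.2 (by linarith)).mul_left _
  refine ⟨C₁ + ∑ ψ, ‖c ψ‖ * C₂ ψ + ∑' q : Nat.Primes, |K| * (((q : ℕ) : ℝ) ^ (-1 - δ)),
    fun η h0 h1 => ?_⟩
  set s : ℂ := 1 + (η : ℂ) + t * I with hs
  have hsre : s.re = 1 + η := by simp [hs]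
  set s' : ℂ := 1 + (η : ℂ) + ((t + θ : ℝ) : ℂ) * I with hs'
  have hsre' : s'.re = 1 + η := by simp [hs']
  have hss' : s' = s + (θ : ℂ) * I := by
    rw [hs, hs']
    push_cast
    ring
  -- bound of the error term
  have herr : ∀ q : Nat.Primes, ‖χ ((q : ℕ) : ZMod N) * E (q : ℕ) * ((q : ℕ) : ℂ) ^ (-s)‖ ≤
      |K| * (((q : ℕ) : ℝ) ^ (-1 - δ)) := by
    intro q
    by_cases hq : (q : ℕ) ∣ N
    · have : χ ((q : ℕ) : ZMod N) = 0 := by
        apply MulChar.map_nonunit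
        rw [ZMod.isUnit_iff_coprime]
        intro hcop
        exact q.prop.one_lt.ne' (Nat.eq_one_of_dvd_coprimes hcop (dvd_refl _) hq)
      rw [this, zero_mul, zero_mul, norm_zero]
      positivity
    · rw [norm_mul, norm_mul]
      have h3 : ‖E (q : ℕ)‖ ≤ |K| * ((q : ℕ) : ℝ) ^ (-δ) :=
        (hK q q.prop hq).trans
          (mul_le_mul_of_nonneg_right (le_abs_self K) (Real.rpow_nonneg (Nat.cast_nonneg _) _))
      have h4 : ‖((q : ℕ) : ℂ) ^ (-s)‖ ≤ ((q : ℕ) : ℝ) ^ (-1 : ℝ) :=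
        norm_prime_cpow q (by rw [hsre]; linarith)
      have h5 : ‖χ ((q : ℕ) : ZMod N)‖ * ‖E (q : ℕ)‖ ≤ 1 * (|K| * ((q : ℕ) : ℝ) ^ (-δ)) :=
        mul_le_mul (DirichletCharacter.norm_le_one _ _) h3 (norm_nonneg _) zero_le_one
      calc ‖χ ((q : ℕ) : ZMod N)‖ * ‖E (q : ℕ)‖ * ‖((q : ℕ) : ℂ) ^ (-s)‖
          ≤ 1 * (|K| * ((q : ℕ) : ℝ) ^ (-δ)) * ((q : ℕ) : ℝ) ^ (-1 : ℝ) :=
            mul_le_mul h5 h4 (norm_nonneg _) (by positivity)
        _ = |K| * (((q : ℕ) : ℝ) ^ (-1 - δ)) := by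
            rw [one_mul, mul_assoc, ← Real.rpow_add (by exact_mod_cast q.prop.pos)]
            congr 2
            ring
  have hsum3 : Summable fun q : Nat.Primes =>
      χ ((q : ℕ) : ZMod N) * E (q : ℕ) * ((q : ℕ) : ℂ) ^ (-s) :=
    Summable.of_norm_bounded hsE herr
  have hsum1 := summable_char χ (s := s) (by rw [hsre]; linarith)
  have hsum2 : ∀ ψ : DirichletCharacter ℂ N,
      Summable fun q : Nat.Primes => (ψ⁻¹ * χ) ((q : ℕ) : ZMod N) * ((q : ℕ) : ℂ) ^ (-s') :=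
    fun ψ => summable_char _ (by rw [hsre']; linarith)
  -- decomposition
  have hdec : pser (aX a χ) s = pser (fun n => χ (n : ZMod N)) s +
      ∑ ψ : DirichletCharacter ℂ N, c ψ * pser (fun n => (ψ⁻¹ * χ) (n : ZMod N)) s' +
      ∑' q : Nat.Primes, χ ((q : ℕ) : ZMod N) * E (q : ℕ) * ((q : ℕ) : ℂ) ^ (-s) := by
    have h6 : ∑ ψ : DirichletCharacter ℂ N, c ψ * pser (fun n => (ψ⁻¹ * χ) (n : ZMod N)) s' =
        ∑' q : Nat.Primes, ∑ ψ : DirichletCharacter ℂ N,
          c ψ * ((ψ⁻¹ * χ) ((q : ℕ) : ZMod N) * ((q : ℕ) : ℂ) ^ (-s')) := by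
      rw [Summable.tsum_finsetSum fun ψ _ => (hsum2 ψ).mul_left _]
      refine Finset.sum_congr rfl fun ψ _ => ?_
      rw [tsum_mul_left]
      rfl
    rw [h6]
    unfold pser
    rw [← Summable.tsum_add hsum1 (summable_sum fun ψ _ => (hsum2 ψ).mul_left _),
      ← Summable.tsum_add (hsum1.add (summable_sum fun ψ _ => (hsum2 ψ).mul_left _)) hsum3]
    refine tsum_congr fun q => ?_
    have hq0 : ((q : ℕ) : ℂ) ≠ 0 := by exact_mod_cast q.prop.ne_zero
    have h7 : ((q : ℕ) : ℂ) ^ (-s') = ((q : ℕ) : ℂ) ^ (-((θ : ℂ) * I)) * ((q : ℕ) : ℂ) ^ (-s) := by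
      rw [← Complex.cpow_add _ _ hq0, hss']
      congr 1
      ring
    have h8 : ∀ ψ : DirichletCharacter ℂ N, (ψ⁻¹ * χ) ((q : ℕ) : ZMod N) =
        (starRingEnd ℂ) (ψ ((q : ℕ) : ZMod N)) * χ ((q : ℕ) : ZMod N) := by
      intro ψ
      rw [MulChar.mul_apply, ← MulChar.star_apply' ψ]
      rfl
    have h9 : ∑ ψ : DirichletCharacter ℂ N,
        c ψ * ((ψ⁻¹ * χ) ((q : ℕ) : ZMod N) * ((q : ℕ) : ℂ) ^ (-s')) =
        χ ((q : ℕ) : ZMod N) * (((q : ℕ) : ℂ) ^ (-((θ : ℂ) * I)) *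
          ∑ ψ : DirichletCharacter ℂ N, c ψ * (starRingEnd ℂ) (ψ ((q : ℕ) : ZMod N))) *
          ((q : ℕ) : ℂ) ^ (-s) := by
      rw [Finset.mul_sum, Finset.mul_sum, Finset.sum_mul]
      refine Finset.sum_congr rfl fun ψ _ => ?_
      rw [h8, h7]
      ring
    rw [h9]
    show a (q : ℕ) * χ ((q : ℕ) : ZMod N) * ((q : ℕ) : ℂ) ^ (-s) = _
    simp only [hE]
    ring
  have hk : kc θ c χ t * ((Lg η : ℝ) : ℂ) =
      (if χ = 1 ∧ t = 0 then ((Lg η : ℝ) : ℂ) else 0) +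
      ∑ ψ : DirichletCharacter ℂ N, c ψ *
        (if ψ⁻¹ * χ = 1 ∧ t + θ = 0 then ((Lg η : ℝ) : ℂ) else 0) + 0 := by
    unfold kc
    have h10 : ∑ ψ : DirichletCharacter ℂ N, c ψ *
        (if ψ⁻¹ * χ = 1 ∧ t + θ = 0 then ((Lg η : ℝ) : ℂ) else 0) =
        (if t + θ = 0 then c χ else 0) * ((Lg η : ℝ) : ℂ) := by
      by_cases ht : t + θ = 0
      · simp only [ht, and_true, if_true]
        rw [Finset.sum_eq_single χ]
        · simp
        · intro ψ _ hψ
          rw [if_neg, mul_zero]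
          intro h11
          exact hψ (inv_mul_eq_one.1 h11)
        · intro h11
          exact (h11 (Finset.mem_univ _)).elim
      · simp [ht]
    rw [h10]
    split_ifs <;> ring
  rw [hdec, hk]
  have e1 := hC₁ η h0 h1
  have e2 : ‖∑ ψ : DirichletCharacter ℂ N, c ψ * pser (fun n => (ψ⁻¹ * χ) (n : ZMod N)) s' -
      ∑ ψ : DirichletCharacter ℂ N, c ψ *
        (if ψ⁻¹ * χ = 1 ∧ t + θ = 0 then ((Lg η : ℝ) : ℂ) else 0)‖ ≤ ∑ ψ, ‖c ψ‖ * C₂ ψ := by
    rw [← Finset.sum_sub_distrib]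
    refine (norm_sum_le _ _).trans (Finset.sum_le_sum fun ψ _ => ?_)
    rw [← mul_sub, norm_mul]
    refine mul_le_mul_of_nonneg_left ?_ (norm_nonneg _)
    convert hC₂ ψ η h0 h1
  have e3 : ‖∑' q : Nat.Primes, χ ((q : ℕ) : ZMod N) * E (q : ℕ) * ((q : ℕ) : ℂ) ^ (-s)‖ ≤
      ∑' q : Nat.Primes, |K| * (((q : ℕ) : ℝ) ^ (-1 - δ)) :=
    tsum_of_norm_bounded hsE.hasSum herr
  have e4 : ∀ A B C A' B' : ℂ, A + B + C - (A' + B' + 0) = (A - A') + (B - B') + C := by
    intros; ring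
  rw [e4]
  refine (norm_add₃_le).trans ?_
  have e1' : ‖pser (fun n => χ (n : ZMod N)) s -
      (if χ = 1 ∧ t = 0 then ((Lg η : ℝ) : ℂ) else 0)‖ ≤ C₁ := by
    convert e1
  linarith

/-- primes dividing `N` do not matter -/
lemma pser_diff {F : ℂ → ℂ} {a b : ℕ → ℂ} (hEXPB : T_EXPB) (hF : IsSelberg F a b) (N : ℕ)
    [NeZero N] : ∃ C : ℝ, ∀ s : ℂ, 1 < s.re →
      ‖pser a s - pser (aX a (1 : DirichletCharacter ℂ N)) s‖ ≤ C := by
  classical
  obtain ⟨C₀, _, h⟩ := hEXPB F a b hF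
  set f : Nat.Primes → ℝ := fun q => if (q : ℕ) ∣ N then ‖a (q : ℕ)‖ else 0 with hf
  have hfs : Summable f := by
    refine summable_of_hasFiniteSupport ?_
    refine Set.Finite.subset (s := {q : Nat.Primes | (q : ℕ) ≤ N}) ?_ ?_
    · exact Set.Finite.preimage Subtype.val_injective.injOn (Set.finite_le_nat N)
    · intro q hq
      simp only [hf, Function.mem_support, ne_eq, ite_eq_right_iff, Classical.not_imp] at hq
      exact Nat.le_of_dvd (Nat.pos_of_ne_zero (NeZero.ne N)) hq.1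
  refine ⟨∑' q, f q, fun s hs => ?_⟩
  have hs1 : Summable fun q : Nat.Primes => a (q : ℕ) * ((q : ℕ) : ℂ) ^ (-s) := by
    have := (h 1 (1 : DirichletCharacter ℂ 1) s hs).1
    refine Summable.of_norm (this.congr fun q => ?_)
    congr 2
    have h4 : (1 : DirichletCharacter ℂ 1) ((q : ℕ) : ZMod 1) = 1 := by
      have : IsUnit (((q : ℕ) : ZMod 1)) := by
        rw [Subsingleton.elim (((q : ℕ) : ZMod 1)) 1]
        exact isUnit_one
      exact MulChar.one_apply this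
    show a (q : ℕ) * (1 : DirichletCharacter ℂ 1) ((q : ℕ) : ZMod 1) = _
    rw [h4, mul_one]
  have hs2 : Summable fun q : Nat.Primes =>
      aX a (1 : DirichletCharacter ℂ N) (q : ℕ) * ((q : ℕ) : ℂ) ^ (-s) :=
    Summable.of_norm (h N 1 s hs).1
  unfold pser
  rw [← Summable.tsum_sub hs1 hs2]
  refine tsum_of_norm_bounded hfs.hasSum fun q => ?_
  by_cases hq : (q : ℕ) ∣ N
  · have : (1 : DirichletCharacter ℂ N) ((q : ℕ) : ZMod N) = 0 := by
      apply MulChar.map_nonunit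
      rw [ZMod.isUnit_iff_coprime]
      intro hcop
      exact q.prop.one_lt.ne' (Nat.eq_one_of_dvd_coprimes hcop (dvd_refl _) hq)
    have h5 : aX a (1 : DirichletCharacter ℂ N) (q : ℕ) = 0 := by
      show a (q : ℕ) * (1 : DirichletCharacter ℂ N) ((q : ℕ) : ZMod N) = 0
      rw [this, mul_zero]
    rw [h5, zero_mul, sub_zero, norm_mul, hf]
    simp only [if_pos hq]
    have h6 : ‖((q : ℕ) : ℂ) ^ (-s)‖ ≤ 1 := by
      refine (norm_prime_cpow q (x := 0) (by linarith)).trans ?_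
      simp
    exact mul_le_of_le_one_right (norm_nonneg _) h6
  · have : (1 : DirichletCharacter ℂ N) ((q : ℕ) : ZMod N) = 1 := by
      apply MulChar.one_apply
      rw [ZMod.isUnit_iff_coprime]
      exact (Nat.Prime.coprime_iff_not_dvd q.prop).2 hq
    have h5 : aX a (1 : DirichletCharacter ℂ N) (q : ℕ) = a (q : ℕ) := by
      show a (q : ℕ) * (1 : DirichletCharacter ℂ N) ((q : ℕ) : ZMod N) = _
      rw [this, mul_one]
    rw [h5, sub_self, norm_zero, hf]
    simp [hq]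

lemma pt_eq (η θ : ℝ) : pt η θ = 1 + (η : ℂ) + ((-θ : ℝ) : ℂ) * I := by
  unfold pt
  push_cast
  ring

lemma pt_re (η θ : ℝ) : (pt η θ).re = 1 + η := by
  simp [pt]

end ORD_

open ORD_ in
/-- Comparison of the pole orders. -/
theorem p_ORD (hEXPB : T_EXPB) (hPR : T_PR) (hPOLE : T_POLE) : T_ORD := by
  classical
  intro F a b r R₀ N _ θ c hF hpole hform hsum hnt
  obtain ⟨Ce, hCe0, hCe⟩ := hEXPB F a b hF
  have hr1 : 1 ≤ r := hpole.1
  -- (3) lower bounds
  have hlow : ∀ ψ, c ψ ≠ 0 → (r : ℝ) ≤ (kc θ c ψ (-θ)).re := by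
    intro ψ hψ
    by_contra hcon
    push Not at hcon
    apply hnt ψ hψ
    obtain ⟨C, hC⟩ := pser_form hPR hform ψ (-θ)
    set κ := kc θ c ψ (-θ) with hκ
    have hb : ∀ᶠ η : ℝ in 𝓝[>] 0, ‖(η : ℂ) ^ r * LSeries (aX a ψ) (pt η θ)‖ ≤
        Real.exp (C + Ce) * Real.exp (-((r - κ.re) * Lg η)) := by
      filter_upwards [ev_unit] with η hη
      obtain ⟨h0, h1⟩ := hη
      obtain ⟨_, e, he, hL⟩ := hCe N ψ (pt η θ) (by rw [pt_re]; linarith)
      rw [hL, norm_mul, norm_pow, Complex.norm_real, Real.norm_of_nonneg h0.le,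
        Complex.norm_exp, Complex.add_re]
      have h3 := hC η h0 h1
      rw [← pt_eq] at h3
      have h4 : (pser (aX a ψ) (pt η θ)).re ≤ κ.re * Lg η + C := by
        have h5 := (Complex.abs_re_le_norm _).trans h3
        have h6 := (abs_le.1 h5).2
        rw [Complex.sub_re, Complex.re_mul_ofReal] at h6
        linarith
      have h7 : e.re ≤ Ce := ((le_abs_self _).trans (Complex.abs_re_le_norm e)).trans he
      have h8 : η ^ r = Real.exp (-(r * Lg η)) := by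
        conv_lhs => rw [← exp_neg_Lg h0]
        rw [← Real.exp_nat_mul]
        congr 1
        ring
      rw [h8, ← Real.exp_add, ← Real.exp_add]
      exact Real.exp_le_exp.2 (by linarith)
    refine squeeze_zero_norm' hb ?_
    have h9 : Tendsto (fun η : ℝ => Real.exp (-((r - κ.re) * Lg η))) (𝓝[>] 0) (𝓝 0) := by
      refine Real.tendsto_exp_neg_atTop_nhds_zero.comp ?_
      exact tendsto_Lg.const_mul_atTop (by linarith)
    have := h9.const_mul (Real.exp (C + Ce))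
    rwa [mul_zero] at this
  -- (2) the order of the pole
  have hr : (r : ℂ) = kc θ c 1 0 := by
    obtain ⟨C, hC⟩ := pser_form hPR hform 1 0
    obtain ⟨C', hC'⟩ := hPOLE F a b r R₀ hF hpole
    obtain ⟨C'', hC''⟩ := pser_diff hEXPB hF N
    refine eq_of_bound (f := fun η : ℝ => pser a (1 + (η : ℂ))) hC' (C' := C + C'') ?_
    intro η h0 h1
    have h3 := hC η h0 h1
    have h4 := hC'' (1 + (η : ℂ)) (by simp [h0])
    have h5 : (1 + (η : ℂ) + ((0 : ℝ) : ℂ) * I) = 1 + (η : ℂ) := by simp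
    rw [h5] at h3
    have h6 : pser a (1 + (η : ℂ)) - kc θ c 1 0 * ((Lg η : ℝ) : ℂ) =
        (pser (aX a (1 : DirichletCharacter ℂ N)) (1 + (η : ℂ)) -
          kc θ c 1 0 * ((Lg η : ℝ) : ℂ)) +
        (pser a (1 + (η : ℂ)) - pser (aX a (1 : DirichletCharacter ℂ N)) (1 + (η : ℂ))) := by
      ring
    rw [h6]
    exact (norm_add_le _ _).trans (by linarith)
  -- a nonzero value is the only one
  have huniq : ∀ (S : Finset (DirichletCharacter ℂ N)), (∀ ψ ∈ S, c ψ ≠ 0 → 1 ≤ (c ψ).re) →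
      ∑ ψ ∈ S, c ψ = 1 → ∃ ψ₀ ∈ S, ∀ ψ ∈ S, c ψ = if ψ = ψ₀ then 1 else 0 := by
    intro S hS hS1
    obtain ⟨ψ₀, hψ₀, hne⟩ : ∃ ψ ∈ S, c ψ ≠ 0 := by
      by_contra hcon
      push Not at hcon
      rw [Finset.sum_eq_zero hcon] at hS1
      exact zero_ne_one hS1
    have h0 : ∀ ψ ∈ S, ψ ≠ ψ₀ → c ψ = 0 := by
      intro ψ hψ hψne
      by_contra h
      have h1 := hS ψ hψ h
      have h2 := hS ψ₀ hψ₀ hne
      have h3 : ∑ ψ ∈ ({ψ₀, ψ} : Finset (DirichletCharacter ℂ N)), (c ψ).re ≤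
          ∑ ψ ∈ S, (c ψ).re := by
        refine Finset.sum_le_sum_of_subset_of_nonneg ?_ ?_
        · intro x hx
          simp only [Finset.mem_insert, Finset.mem_singleton] at hx
          rcases hx with rfl | rfl <;> assumption
        · intro x hx _
          by_cases hx0 : c x = 0
          · rw [hx0]
            simp
          · linarith [hS x hx hx0]
      rw [Finset.sum_pair (Ne.symm hψne)] at h3
      have h4 : ∑ ψ ∈ S, (c ψ).re = 1 := by
        rw [← Complex.re_sum, hS1]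
        simp
      linarith
    refine ⟨ψ₀, hψ₀, fun ψ hψ => ?_⟩
    split_ifs with h
    · subst h
      rw [Finset.sum_eq_single ψ (fun x hx hne => h0 x hx hne)
        (fun h => (h hψ).elim)] at hS1
      exact hS1
    · exact h0 ψ hψ h
  by_cases hθ : θ = 0
  · subst hθ
    have hr' : c 1 = (r : ℂ) - 1 := by
      rw [hr]
      unfold kc
      simp
    have hlow' : ∀ ψ, ψ ≠ 1 → c ψ ≠ 0 → (r : ℝ) ≤ (c ψ).re := by
      intro ψ h1 h2
      have := hlow ψ h2
      unfold kc at this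
      simpa [h1] using this
    rcases Nat.lt_or_ge r 2 with h2 | h2
    · -- `r = 1`
      have hr1' : r = 1 := by omega
      subst hr1'
      have hc1 : c 1 = 0 := by rw [hr']; simp
      obtain ⟨ψ₀, _, hψ₀⟩ := huniq Finset.univ (fun ψ _ h => by
        have hne : ψ ≠ 1 := by
          rintro rfl
          exact h hc1
        have := hlow' ψ hne h
        simpa using this) hsum
      refine ⟨ψ₀, fun ψ => hψ₀ ψ (Finset.mem_univ _), Or.inr ⟨rfl, ?_⟩⟩
      rintro rfl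
      have := hψ₀ 1 (Finset.mem_univ _)
      rw [if_pos rfl, hc1] at this
      exact zero_ne_one this
    · -- `r ≥ 2`
      have hre : (∑ ψ, c ψ).re = 1 := by rw [hsum]; simp
      rw [Complex.re_sum, ← Finset.add_sum_erase _ _ (Finset.mem_univ
        (1 : DirichletCharacter ℂ N)), hr'] at hre
      have hnn : ∀ ψ ∈ Finset.univ.erase (1 : DirichletCharacter ℂ N), 0 ≤ (c ψ).re := by
        intro ψ hψ
        have h3 := Finset.ne_of_mem_erase hψ
        by_cases h4 : c ψ = 0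
        · rw [h4]
          simp
        · have := hlow' ψ h3 h4
          have : (0 : ℝ) ≤ r := Nat.cast_nonneg r
          linarith
      have hs0 : 0 ≤ ∑ ψ ∈ Finset.univ.erase (1 : DirichletCharacter ℂ N), (c ψ).re :=
        Finset.sum_nonneg hnn
      have h3 : ((r : ℂ) - 1).re = (r : ℝ) - 1 := by simp
      rw [h3] at hre
      have hr2 : r = 2 := by
        have h4 : (r : ℝ) ≤ 2 := by linarith
        have h5 : r ≤ 2 := by exact_mod_cast h4
        omega
      subst hr2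
      have hz : ∀ ψ, ψ ≠ 1 → c ψ = 0 := by
        intro ψ h4
        by_contra h5
        have h6 := hlow' ψ h4 h5
        have h7 : (c ψ).re ≤ ∑ ψ ∈ Finset.univ.erase (1 : DirichletCharacter ℂ N), (c ψ).re :=
          Finset.single_le_sum hnn (Finset.mem_erase.2 ⟨h4, Finset.mem_univ _⟩)
        push_cast at h6 hre
        linarith
      refine ⟨1, fun ψ => ?_, Or.inl ⟨rfl, rfl, rfl⟩⟩
      split_ifs with h4
      · subst h4
        rw [hr']
        norm_num
      · exact hz ψ h4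
  · -- `θ ≠ 0`
    have hr' : r = 1 := by
      have : (r : ℂ) = 1 := by
        rw [hr]
        unfold kc
        simp [hθ]
      exact_mod_cast this
    subst hr'
    obtain ⟨ψ₀, _, hψ₀⟩ := huniq Finset.univ (fun ψ _ h => by
      have := hlow ψ h
      unfold kc at this
      simpa [hθ] using this) hsum
    refine ⟨ψ₀, fun ψ => hψ₀ ψ (Finset.mem_univ _), Or.inr ⟨rfl, ?_⟩⟩
    rintro rfl
    have hc1 : c 1 = 1 := by
      have := hψ₀ 1 (Finset.mem_univ _)
      rwa [if_pos rfl] at this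
    -- the function is unbounded near `1 - i θ`
    obtain ⟨C, hC⟩ := pser_form hPR hform 1 (-θ)
    obtain ⟨C'', hC''⟩ := pser_diff hEXPB hF N
    have hk : kc θ c 1 (-θ) = 1 := by
      unfold kc
      simp [hθ, hc1]
    rw [hk] at hC
    have hbig : ∀ η : ℝ, 0 < η → η ≤ 1 →
        Real.exp (Lg η - (C + C'' + Ce)) ≤ ‖F (pt η θ)‖ := by
      intro η h0 h1
      have hre : 1 < (pt η θ).re := by rw [pt_re]; linarith
      obtain ⟨_, e, he, hL⟩ := hCe 1 (1 : DirichletCharacter ℂ 1) (pt η θ) hre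
      have h4 : aX a (1 : DirichletCharacter ℂ 1) = a := by
        funext n
        show a n * (1 : DirichletCharacter ℂ 1) (n : ZMod 1) = a n
        have : IsUnit ((n : ZMod 1)) := by
          rw [Subsingleton.elim ((n : ZMod 1)) 1]
          exact isUnit_one
        rw [MulChar.one_apply this, mul_one]
      rw [h4] at hL
      rw [hF.eq_series _ hre, hL, Complex.norm_exp, Complex.add_re]
      apply Real.exp_le_exp.2
      have h5 := hC η h0 h1
      rw [← pt_eq, one_mul] at h5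
      have h6 := hC'' (pt η θ) hre
      have h7 : ‖pser a (pt η θ) - ((Lg η : ℝ) : ℂ)‖ ≤ C + C'' := by
        have h8 : pser a (pt η θ) - ((Lg η : ℝ) : ℂ) =
            (pser (aX a (1 : DirichletCharacter ℂ N)) (pt η θ) - ((Lg η : ℝ) : ℂ)) +
            (pser a (pt η θ) - pser (aX a (1 : DirichletCharacter ℂ N)) (pt η θ)) := by ring
        rw [h8]
        exact (norm_add_le _ _).trans (by linarith)
      have h9 := (abs_le.1 ((Complex.abs_re_le_norm _).trans h7)).1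
      rw [Complex.sub_re, Complex.ofReal_re] at h9
      have h10 : -Ce ≤ e.re := by
        have := (abs_le.1 ((Complex.abs_re_le_norm e).trans he)).1
        exact this
      linarith
    -- but it is continuous there
    obtain ⟨m, g, hg, _, hgF⟩ := hF.continuation
    have hne : (1 : ℂ) - (θ : ℂ) * I ≠ 1 := by
      intro h
      have h1 : (θ : ℂ) * I = 0 := by
        have := congrArg (fun z => 1 - z) h
        simpa using this
      rcases mul_eq_zero.1 h1 with h2 | h2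
      · exact hθ (by exact_mod_cast h2)
      · exact I_ne_zero h2
    have hcont : Tendsto (fun η : ℝ => F (pt η θ)) (𝓝[>] 0)
        (𝓝 (g (1 - (θ : ℂ) * I) / ((1 - (θ : ℂ) * I) - 1) ^ m)) := by
      have hpt : Tendsto (fun η : ℝ => pt η θ) (𝓝[>] 0) (𝓝 (1 - (θ : ℂ) * I)) := by
        have h1 : Continuous fun η : ℝ => pt η θ := by
          unfold pt
          fun_prop
        have h2 := h1.tendsto 0
        have h3 : pt 0 θ = 1 - (θ : ℂ) * I := by
          unfold pt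
          simp
        rw [h3] at h2
        exact h2.mono_left nhdsWithin_le_nhds
      have hquo : Tendsto (fun z : ℂ => g z / (z - 1) ^ m) (𝓝 (1 - (θ : ℂ) * I))
          (𝓝 (g (1 - (θ : ℂ) * I) / ((1 - (θ : ℂ) * I) - 1) ^ m)) := by
        refine (hg.continuous.tendsto _).div ?_ (pow_ne_zero _ (sub_ne_zero.2 hne))
        have : Continuous fun z : ℂ => (z - 1) ^ m := by fun_prop
        exact this.tendsto _
      refine (hquo.comp hpt).congr' ?_
      filter_upwards [self_mem_nhdsWithin] with η hη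
      have h1 : pt η θ ≠ 1 := by
        intro h
        have := congrArg Complex.re h
        rw [pt_re] at this
        simp only [Complex.one_re] at this
        have hη' : 0 < η := hη
        linarith
      show g (pt η θ) / (pt η θ - 1) ^ m = F (pt η θ)
      rw [hgF _ h1]
      have : (pt η θ - 1) ^ m ≠ 0 := pow_ne_zero _ (sub_ne_zero.2 h1)
      field_simp
    have htop : Tendsto (fun η : ℝ => ‖F (pt η θ)‖) (𝓝[>] 0) atTop := by
      have h1 : Tendsto (fun η : ℝ => Real.exp (Lg η - (C + C'' + Ce))) (𝓝[>] 0) atTop := by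
        refine Real.tendsto_exp_atTop.comp ?_
        exact tendsto_atTop_add_const_right _ _ tendsto_Lg
      refine tendsto_atTop_mono' _ ?_ h1
      filter_upwards [ev_unit] with η hη
      exact hbig η hη.1 hη.2
    exact not_tendsto_nhds_of_tendsto_atTop htop _ hcont.norm

end Pool.Agent.SelDeg2
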