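import Pool.Agent.SelDeg2.TargetsC
import Pool.Agent.SelTwo.AP
import Pool.Agent.SelTwo.EXPD
import Pool.Agent.SelTwo.LAN

/-!
# POLE: the pole of order `r` and the sum over primes
-/

namespace Pool.Agent.SelDeg2

open Complex Filter Topology MeasureTheory
open Pool.Agent.SelPole Pool.Agent.SelTwo

noncomputable section

namespace POLE_

/-- the series of `log F` and the sum over primes differ by a bounded amount -/
theorem log_sub_pser {F : ℂ → ℂ} {a b : ℕ → ℂ} (hS : IsSelberg F a b) :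
    ∃ C : ℝ, ∀ s : ℂ, 1 < s.re → ‖LSeries b s - pser a s‖ ≤ C := by
  classical
  obtain ⟨θ, B, hθ, hB⟩ := hS.b_bound
  have hpp := LAN.pp_summable (σ := 1 - θ) (by linarith)
  set E : ℕ → ℝ := Set.indicator {n : ℕ | ∃ p k : ℕ, p.Prime ∧ 2 ≤ k ∧ p ^ k = n}
      (fun n : ℕ => (n : ℝ) ^ (-(1 - θ))) with hE
  have hE0 : ∀ n, 0 ≤ E n := fun n => Set.indicator_nonneg (fun m _ => by positivity) n
  have hAP := p_AP p_EXPD a b hS.b_supp hS.summable hS.log_summable
    (fun s hs => by rw [← hS.eq_series s hs, hS.log_series s hs])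
  refine ⟨∑' n, |B| * E n, fun s hs => ?_⟩
  have h1 : Summable (LSeries.term b s) := hS.log_summable s hs
  set P : Set ℕ := {n : ℕ | n.Prime} with hP
  have hsplit : LSeries b s = ∑' n, P.indicator (LSeries.term b s) n +
      ∑' n, Pᶜ.indicator (LSeries.term b s) n := by
    rw [← (h1.indicator P).tsum_add (h1.indicator Pᶜ)]
    unfold LSeries
    refine tsum_congr fun n => ?_
    rw [Set.indicator_self_add_compl_apply]
  have hprime : ∑' n, P.indicator (LSeries.term b s) n = pser a s := by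
    rw [← tsum_subtype P (LSeries.term b s)]
    unfold pser
    refine tsum_congr fun p => ?_
    have hp : (p : ℕ).Prime := p.2
    rw [LSeries.term_of_ne_zero hp.ne_zero, hAP p hp, cpow_neg, div_eq_mul_inv]
  rw [hsplit, hprime, add_sub_cancel_left]
  have hbd : ∀ n, ‖Pᶜ.indicator (LSeries.term b s) n‖ ≤ |B| * E n := by
    intro n
    by_cases hn : n ∈ Pᶜ
    swap
    · rw [Set.indicator_of_notMem hn, norm_zero]
      exact mul_nonneg (abs_nonneg _) (hE0 n)
    · rw [Set.indicator_of_mem hn]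
      by_cases hpow : IsPrimePow n
      swap
      · have : LSeries.term b s n = 0 := by
          rw [LSeries.term_def]
          split_ifs
          · rfl
          · rw [hS.b_supp n hpow, zero_div]
        rw [this, norm_zero]
        exact mul_nonneg (abs_nonneg _) (hE0 n)
      · have hn1 : 1 ≤ n := hpow.pos
        have hn1' : (1 : ℝ) ≤ n := by exact_mod_cast hn1
        have hn0 : (0 : ℝ) < n := by linarith
        have hmem : n ∈ {n : ℕ | ∃ p k : ℕ, p.Prime ∧ 2 ≤ k ∧ p ^ k = n} := by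
          obtain ⟨p, k, hp1, hk1, hpk⟩ := (isPrimePow_nat_iff n).1 hpow
          refine ⟨p, k, hp1, ?_, hpk⟩
          by_contra hcon
          have : k = 1 := by omega
          rw [this, pow_one] at hpk
          rw [← hpk] at hn
          exact hn hp1
        rw [hE, Set.indicator_of_mem hmem, LSeries.norm_term_eq, if_neg (by omega)]
        have h2 : (n : ℝ) ≤ (n : ℝ) ^ s.re := by
          calc (n : ℝ) = (n : ℝ) ^ (1 : ℝ) := (Real.rpow_one _).symm
            _ ≤ _ := Real.rpow_le_rpow_of_exponent_le hn1' hs.le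
        have h3 : ‖b n‖ ≤ |B| * (n : ℝ) ^ θ :=
          (hB n hn1).trans (mul_le_mul_of_nonneg_right (le_abs_self _) (by positivity))
        calc ‖b n‖ / (n : ℝ) ^ s.re ≤ (|B| * (n : ℝ) ^ θ) / (n : ℝ) := by gcongr
          _ = |B| * (n : ℝ) ^ (-(1 - θ)) := by
            rw [mul_div_assoc]
            congr 1
            rw [show -(1 - θ) = θ - 1 by ring, Real.rpow_sub hn0, Real.rpow_one]
  have hsum : Summable fun n => |B| * E n := hpp.mul_left _
  exact tsum_of_norm_bounded hsum.hasSum hbd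

/-- the entire function `(s-1)^r F(s)` -/
theorem exists_entire {F : ℂ → ℂ} {a b : ℕ → ℂ} {r : ℕ} {R₀ : ℂ} (hS : IsSelberg F a b)
    (hP : HasPole F r R₀) : ∃ G : ℂ → ℂ, Differentiable ℂ G ∧ G 1 = R₀ ∧
      ∀ s : ℂ, s ≠ 1 → G s = (s - 1) ^ r * F s := by
  obtain ⟨m, g, hg, -, hgF⟩ := hS.continuation
  obtain ⟨-, -, hlim⟩ := hP
  set G : ℂ → ℂ := Function.update (fun s => (s - 1) ^ r * F s) 1 R₀ with hG
  have hGne : ∀ s : ℂ, s ≠ 1 → G s = (s - 1) ^ r * F s := fun s hs => by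
    rw [hG, Function.update_of_ne hs]
  have hGd : ∀ s : ℂ, s ≠ 1 → DifferentiableAt ℂ G s := by
    intro s hs
    have h1 : G =ᶠ[𝓝 s] fun z => (z - 1) ^ r * (g z / (z - 1) ^ m) := by
      filter_upwards [isOpen_ne.mem_nhds hs] with z hz
      have hz' : (z - 1) ^ m ≠ 0 := pow_ne_zero _ (sub_ne_zero.2 hz)
      rw [hGne z hz, hgF z hz, mul_div_cancel_left₀ _ hz']
    refine DifferentiableAt.congr_of_eventuallyEq ?_ h1
    have hs' : (s - 1) ^ m ≠ 0 := pow_ne_zero _ (sub_ne_zero.2 hs)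
    exact ((differentiableAt_id.sub_const 1).pow r).mul
      ((hg s).div ((differentiableAt_id.sub_const 1).pow m) hs')
  have hGc : ContinuousAt G 1 := by
    rw [hG, continuousAt_update_same]
    exact hlim
  refine ⟨G, fun s => ?_, by rw [hG, Function.update_self], hGne⟩
  by_cases hs : s = 1
  · subst hs
    refine (analyticAt_of_differentiable_on_punctured_nhds_of_continuousAt ?_ hGc).differentiableAt
    filter_upwards [self_mem_nhdsWithin] with z hz using hGd z hz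
  · exact hGd s hs

/-- the series of `log F` near `s = 1` -/
theorem log_near_one {F : ℂ → ℂ} {a b : ℕ → ℂ} {r : ℕ} {R₀ : ℂ} (hS : IsSelberg F a b)
    (hP : HasPole F r R₀) : ∃ C : ℝ, ∀ η : ℝ, 0 < η → η ≤ 1 →
      ‖LSeries b (1 + (η : ℂ)) - r * ((Lg η : ℝ) : ℂ)‖ ≤ C := by
  obtain ⟨G, hG, hG1, hGF⟩ := exists_entire hS hP
  have hR : R₀ ≠ 0 := hP.2.1
  set K : ℝ → ℂ := fun η => LSeries b (1 + (η : ℂ)) + r * ((Real.log η : ℝ) : ℂ) with hK
  have hexp : ∀ η : ℝ, 0 < η → exp (K η) = G (1 + (η : ℂ)) := by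
    intro η hη
    have h1 : (1 : ℝ) < (1 + (η : ℂ)).re := by simp [hη]
    have h2 : (1 + (η : ℂ)) ≠ 1 := by
      intro h
      rw [h] at h1
      simp at h1
    rw [hGF _ h2, hS.log_series _ h1, hK]
    simp only
    rw [Complex.exp_add, Complex.exp_nat_mul, Complex.ofReal_log hη.le,
      Complex.exp_log (by exact_mod_cast hη.ne')]
    ring
  have hGne : ∀ η : ℝ, 0 ≤ η → G (1 + (η : ℂ)) ≠ 0 := by
    intro η hη
    rcases hη.eq_or_lt with h | h
    · rw [← h]
      simp [hG1, hR]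
    · rw [← hexp η h]
      exact exp_ne_zero _
  have habs : LSeries.abscissaOfAbsConv b ≤ 1 := by
    refine LSeries.abscissaOfAbsConv_le_of_forall_lt_LSeriesSummable (x := 1) ?_
    intro y hy
    exact hS.log_summable _ (by simpa using hy)
  have hKd : ∀ η : ℝ, 0 < η → HasDerivAt K (deriv G (1 + (η : ℂ)) / G (1 + (η : ℂ))) η := by
    intro η hη
    have h1 : (1 : ℝ) < (1 + (η : ℂ)).re := by simp [hη]
    have h2 : HasDerivAt (LSeries b) (-LSeries (LSeries.logMul b) (1 + (η : ℂ)))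
        (1 + (η : ℂ)) := by
      apply LSeries_hasDerivAt
      exact habs.trans_lt (by exact_mod_cast h1)
    have h3 : HasDerivAt (fun x : ℝ => 1 + (x : ℂ)) 1 η := by
      have := (hasDerivAt_id η).ofReal_comp
      simpa using this.const_add (1 : ℂ)
    have h4 : HasDerivAt (fun x : ℝ => LSeries b (1 + (x : ℂ)))
        (-LSeries (LSeries.logMul b) (1 + (η : ℂ)) * 1) η :=
      HasDerivAt.comp (h₂ := LSeries b) (h := fun x : ℝ => 1 + (x : ℂ)) η h2 h3
    have h5 : HasDerivAt (fun x : ℝ => (r : ℂ) * ((Real.log x : ℝ) : ℂ))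
        ((r : ℂ) * ((η⁻¹ : ℝ) : ℂ)) η :=
      ((Real.hasDerivAt_log hη.ne').ofReal_comp).const_mul _
    have h6 : HasDerivAt K (-LSeries (LSeries.logMul b) (1 + (η : ℂ)) * 1 +
        (r : ℂ) * ((η⁻¹ : ℝ) : ℂ)) η := h4.add h5
    have h7 : HasDerivAt (fun x => exp (K x)) (exp (K η) *
        (-LSeries (LSeries.logMul b) (1 + (η : ℂ)) * 1 + (r : ℂ) * ((η⁻¹ : ℝ) : ℂ))) η :=
      h6.cexp
    have h8 : HasDerivAt (fun x : ℝ => G (1 + (x : ℂ))) (deriv G (1 + (η : ℂ)) * 1) η :=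
      ((hG (1 + (η : ℂ))).hasDerivAt).comp η h3
    have h9 : (fun x : ℝ => exp (K x)) =ᶠ[𝓝 η] fun x : ℝ => G (1 + (x : ℂ)) := by
      filter_upwards [lt_mem_nhds hη] with x hx using hexp x hx
    have h10 := (h8.congr_of_eventuallyEq h9).unique h7
    rw [mul_one, hexp η hη] at h10
    rw [h10, mul_div_cancel_left₀ _ (hGne η hη.le)]
    exact h6
  have hcont : ContinuousOn (fun η : ℝ => deriv G (1 + (η : ℂ)) / G (1 + (η : ℂ)))
      (Set.Icc 0 1) := by
    have h1 : Continuous (fun η : ℝ => 1 + (η : ℂ)) := by fun_prop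
    have h2 : Continuous (deriv G) := (hG.contDiff (n := 1)).continuous_deriv le_rfl
    refine ContinuousOn.div (h2.comp h1).continuousOn (hG.continuous.comp h1).continuousOn ?_
    intro η hη
    exact hGne η hη.1
  obtain ⟨B, hB⟩ := isCompact_Icc.exists_bound_of_continuousOn hcont
  have hB0 : 0 ≤ B := (norm_nonneg _).trans (hB 1 ⟨zero_le_one, le_rfl⟩)
  refine ⟨‖K 1‖ + B, fun η hη hη1 => ?_⟩
  have h1 : ‖K η - K 1‖ ≤ B * ‖η - 1‖ := by
    refine Convex.norm_image_sub_le_of_norm_hasDerivWithin_le (s := Set.Ioc (0 : ℝ) 1)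
      (fun x hx => (hKd x hx.1).hasDerivWithinAt) (fun x hx => hB x ⟨hx.1.le, hx.2⟩)
      (convex_Ioc 0 1) ⟨one_pos, le_rfl⟩ ⟨hη, hη1⟩
  have h2 : ‖η - 1‖ ≤ 1 := by
    rw [Real.norm_eq_abs, abs_le]
    constructor <;> linarith
  have h3 : LSeries b (1 + (η : ℂ)) - r * ((Lg η : ℝ) : ℂ) = K 1 + (K η - K 1) := by
    rw [hK, Lg, one_div, Real.log_inv]
    push_cast
    ring
  rw [h3]
  calc ‖K 1 + (K η - K 1)‖ ≤ ‖K 1‖ + ‖K η - K 1‖ := norm_add_le _ _
    _ ≤ ‖K 1‖ + B * 1 := by gcongr; exact h1.trans (mul_le_mul_of_nonneg_left h2 hB0)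
    _ = ‖K 1‖ + B := by ring

end POLE_

/-- the hypothesis is not used -/
theorem p_POLE (_hTW : T_TW) : T_POLE := by
  intro F a b r R₀ hS hP
  obtain ⟨C₁, h1⟩ := POLE_.log_sub_pser hS
  obtain ⟨C₂, h2⟩ := POLE_.log_near_one hS hP
  refine ⟨C₁ + C₂, fun η hη hη1 => ?_⟩
  have h3 := h1 (1 + (η : ℂ)) (by simp [hη])
  have h4 := h2 η hη hη1
  have h5 : pser a (1 + (η : ℂ)) - r * ((Lg η : ℝ) : ℂ) =
      -(LSeries b (1 + (η : ℂ)) - pser a (1 + (η : ℂ))) +
        (LSeries b (1 + (η : ℂ)) - r * ((Lg η : ℝ) : ℂ)) := by ring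
  rw [h5]
  calc _ ≤ ‖-(LSeries b (1 + (η : ℂ)) - pser a (1 + (η : ℂ)))‖ + _ := norm_add_le _ _
    _ ≤ C₁ + C₂ := by rw [norm_neg]; gcongr

end

end Pool.Agent.SelDeg2
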