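import Pool.Agent.SelDeg2.TargetsC

/-! MP_995735_nt: the target `T_PP` (helper96). -/

namespace Pool.Agent.SelDeg2

open Complex Filter Topology MeasureTheory
open Pool.Agent.SelPole Pool.Agent.SelTwo

noncomputable section

namespace PP_


/-- the function supported on the powers of `p` -/
def gp (p : ℕ) (f : ℕ → ℂ) : ℕ → ℂ := fun n => open Classical in
  if ∃ j : ℕ, n = p ^ j then f n else 0

/-- the function supported on the integers prime to `p` -/
def hp (p : ℕ) (f : ℕ → ℂ) : ℕ → ℂ := fun n => open Classical in if p ∣ n then 0 else f n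

/-- a Dirichlet series supported on powers of `p` -/
lemma LSeries_pow (p : ℕ) (hp : p.Prime) (f : ℕ → ℂ) (s : ℂ)
    (hf : ∀ n : ℕ, n ≠ 0 → (¬ ∃ j : ℕ, n = p ^ j) → f n = 0) :
    LSeries f s = ∑' j : ℕ, f (p ^ j) * ((p : ℂ) ^ (-s)) ^ j := by
  have hinj : Function.Injective (fun j : ℕ => p ^ j) := Nat.pow_right_injective hp.two_le
  have h1 : LSeries f s = ∑' j : ℕ, LSeries.term f s (p ^ j) := by
    unfold LSeries
    refine (hinj.tsum_eq (f := fun n => LSeries.term f s n) ?_).symm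
    intro n hn
    rw [Function.mem_support] at hn
    by_contra hc
    apply hn
    by_cases hn0 : n = 0
    · rw [hn0]; exact LSeries.term_zero f s
    · rw [LSeries.term_of_ne_zero hn0, hf n hn0 (fun ⟨j, hj⟩ => hc ⟨j, hj.symm⟩), zero_div]
  rw [h1]
  refine tsum_congr (fun j => ?_)
  rw [LSeries.term_of_ne_zero (pow_ne_zero _ hp.ne_zero), div_eq_mul_inv]
  congr 1
  rw [← Complex.cpow_nat_mul]
  have : ((p ^ j : ℕ) : ℂ) ^ s = (p : ℂ) ^ ((j : ℂ) * s) := by
    push_cast
    rw [← Complex.natCast_cpow_natCast_mul]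
  rw [this, ← Complex.cpow_neg]
  congr 1
  ring

lemma cpow_pow (p : ℕ) (s : ℂ) (j : ℕ) :
    (p : ℂ) ^ (-((j : ℂ) * s)) = ((p : ℂ) ^ (-s)) ^ j := by
  rw [← Complex.cpow_nat_mul]
  congr 1; ring

lemma LpF_eq (a : ℕ → ℂ) (p : ℕ) (s : ℂ) :
    LpF a p s = ∑' j : ℕ, a (p ^ j) * ((p : ℂ) ^ (-s)) ^ j := by
  unfold LpF
  refine tsum_congr (fun j => ?_)
  rw [cpow_pow]

lemma norm_z_le (p : ℕ) (hp : p.Prime) (s : ℂ) (hs : 1 < s.re) :
    ‖(p : ℂ) ^ (-s)‖ ≤ 1 / p := by
  rw [Complex.norm_natCast_cpow_of_pos hp.pos]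
  have h1 : (1 : ℝ) ≤ p := by exact_mod_cast hp.one_lt.le
  calc (p : ℝ) ^ (-s).re ≤ (p : ℝ) ^ (-1 : ℝ) :=
        Real.rpow_le_rpow_of_exponent_le h1 (by simp; linarith)
    _ = 1 / p := by rw [Real.rpow_neg_one, one_div]

lemma conv_eq (a : ℕ → ℂ) (hmul : ∀ m n : ℕ, m.Coprime n → a (m * n) = a m * a n)
    (p : ℕ) (hpp : p.Prime) (n : ℕ) (hn : n ≠ 0) :
    LSeries.convolution (gp p a) (hp p a) n = a n := by
  classical
  rw [LSeries.convolution_def]
  set d := p ^ (n.factorization p) with hd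
  set e := n / p ^ (n.factorization p) with he
  have hde : d * e = n := Nat.ordProj_mul_ordCompl_eq_self n p
  have hpe : ¬ p ∣ e := Nat.not_dvd_ordCompl hpp hn
  have hcop : d.Coprime e := by
    rw [hd]
    exact Nat.Coprime.pow_left _ ((Nat.Prime.coprime_iff_not_dvd hpp).mpr hpe)
  change ∑ x ∈ n.divisorsAntidiagonal, gp p a x.1 * hp p a x.2 = a n
  rw [Finset.sum_eq_single (d, e)]
  · have h1 : gp p a d = a d := by
      unfold gp
      rw [if_pos ⟨_, hd⟩]
    have h2 : hp p a e = a e := by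
      unfold hp
      rw [if_neg hpe]
    simp only [h1, h2]
    rw [← hmul d e hcop, hde]
  · rintro ⟨x, y⟩ hxy hne
    rw [Nat.mem_divisorsAntidiagonal] at hxy
    simp only
    by_cases hx : ∃ j : ℕ, x = p ^ j
    · by_cases hy : p ∣ y
      · unfold hp
        rw [if_pos hy, mul_zero]
      · exfalso
        apply hne
        obtain ⟨j, hj⟩ := hx
        have hxy1 : x * y = n := hxy.1
        have hy0 : y ≠ 0 := fun h => hy (h ▸ dvd_zero p)
        have hfac : n.factorization p = j := by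
          rw [← hxy1, hj, Nat.factorization_mul (pow_ne_zero _ hpp.ne_zero) hy0]
          simp [hpp.factorization_self, Nat.factorization_eq_zero_of_not_dvd hy]
        have hxd : x = d := by rw [hd, hfac, hj]
        have hye : y = e := by
          have : d * y = d * e := by rw [hde, ← hxd, hxy1]
          exact Nat.eq_of_mul_eq_mul_left (pow_pos hpp.pos _) this
        rw [hxd, hye]
    · unfold gp
      rw [if_neg hx, zero_mul]
  · intro h
    exact absurd (Nat.mem_divisorsAntidiagonal.mpr ⟨hde, hn⟩) h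

lemma summ_gp (a : ℕ → ℂ) (p : ℕ) (s : ℂ) (h : LSeriesSummable a s) :
    LSeriesSummable (gp p a) s := by
  refine Summable.of_norm_bounded (g := fun n => ‖LSeries.term a s n‖) h.norm (fun n => ?_)
  apply LSeries.norm_term_le
  unfold gp
  split_ifs
  · exact le_rfl
  · rw [norm_zero]; exact norm_nonneg _

lemma summ_hp (a : ℕ → ℂ) (p : ℕ) (s : ℂ) (h : LSeriesSummable a s) :
    LSeriesSummable (hp p a) s := by
  refine Summable.of_norm_bounded (g := fun n => ‖LSeries.term a s n‖) h.norm (fun n => ?_)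
  apply LSeries.norm_term_le
  unfold hp
  split_ifs
  · rw [norm_zero]; exact norm_nonneg _
  · exact le_rfl

lemma split (a : ℕ → ℂ) (hmul : ∀ m n : ℕ, m.Coprime n → a (m * n) = a m * a n)
    (p : ℕ) (hpp : p.Prime) (s : ℂ) (h : LSeriesSummable a s) :
    LSeries a s = LpF a p s * LSeries (hp p a) s := by
  have h1 : LSeries a s = LSeries (LSeries.convolution (gp p a) (hp p a)) s :=
    LSeries_congr (fun {n} hn => (conv_eq a hmul p hpp n hn).symm) s
  rw [h1, LSeries_convolution' (summ_gp a p s h) (summ_hp a p s h)]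
  congr 1
  rw [LSeries_pow p hpp (gp p a) s (fun n _ hn => by unfold gp; rw [if_neg hn]), LpF_eq]
  refine tsum_congr (fun j => ?_)
  unfold gp
  rw [if_pos ⟨j, rfl⟩]

lemma aX_one (a : ℕ → ℂ) (p k : ℕ) (hpp : p.Prime) (hk : 1 ≤ k) (s : ℂ) :
    LSeries (aX a (1 : DirichletCharacter ℂ (p ^ k))) s = LSeries (hp p a) s := by
  classical
  refine LSeries_congr (fun {n} _ => ?_) s
  unfold aX hp
  by_cases h : p ∣ n
  · rw [if_pos h]
    have : ¬ IsUnit ((n : ℕ) : ZMod (p ^ k)) := by
      rw [ZMod.isUnit_iff_coprime]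
      intro hc
      have := Nat.Coprime.coprime_dvd_right (dvd_pow_self p (by omega : k ≠ 0)) hc
      have h2 := (Nat.Prime.coprime_iff_not_dvd hpp).mp this.symm
      exact h2 h
    rw [MulChar.map_nonunit _ this, mul_zero]
  · rw [if_neg h]
    have : IsUnit ((n : ℕ) : ZMod (p ^ k)) := by
      rw [ZMod.isUnit_iff_coprime]
      exact (Nat.Coprime.pow_left k ((Nat.Prime.coprime_iff_not_dvd hpp).mpr h)).symm
    rw [MulChar.one_apply this, mul_one]

lemma kap_one (a : ℕ → ℂ) (p k : ℕ) [NeZero (p ^ k)] (hpp : p.Prime) (hk : 1 ≤ k) (s : ℂ)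
    (hCS : T_CS) (hsum : Summable (fun j : ℕ => a (p ^ j) * ((p : ℂ) ^ (-s)) ^ j)) :
    kap a (p ^ k) (1 : DirichletCharacter ℂ (p ^ k)) s = Br a p k s := by
  classical
  set z : ℂ := (p : ℂ) ^ (-s) with hz
  unfold kap
  rw [LSeries_pow p hpp]
  · have hval : ∀ j : ℕ, (if (∀ q : ℕ, q.Prime → q ∣ p ^ j → q ∣ p ^ k) then
        a (p ^ j) * cG (p ^ k) (1 : DirichletCharacter ℂ (p ^ k)) (p ^ j) else 0) =
        a (p ^ j) * (if k ≤ j then 1 else if j = k - 1 then -(1 / ((p : ℂ) - 1)) else 0) := by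
      intro j
      rw [if_pos, hCS p k hpp hk j]
      intro q hq hqj
      exact (hq.dvd_of_dvd_pow hqj).trans (dvd_pow_self p (by omega))
    have hstep : (∑' j : ℕ, (fun G => open Classical in
        if (∀ q : ℕ, q.Prime → q ∣ G → q ∣ p ^ k) then
        a G * cG (p ^ k) (1 : DirichletCharacter ℂ (p ^ k)) G else 0) (p ^ j) * z ^ j) =
        ∑' j : ℕ, a (p ^ j) *
          (if k ≤ j then 1 else if j = k - 1 then -(1 / ((p : ℂ) - 1)) else 0) * z ^ j := by
      refine tsum_congr (fun j => ?_)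
      rw [← hval j]
    rw [hstep]
    set u : ℕ → ℂ := fun j => a (p ^ j) *
          (if k ≤ j then 1 else if j = k - 1 then -(1 / ((p : ℂ) - 1)) else 0) * z ^ j with hu
    have hu_ge : ∀ j : ℕ, u (j + k) = a (p ^ (j + k)) * z ^ (j + k) := by
      intro j
      simp only [hu]
      rw [if_pos (by omega), mul_one]
    have husum : Summable u := by
      rw [← summable_nat_add_iff k]
      have := (summable_nat_add_iff k).mpr hsum
      exact this.congr (fun j => (hu_ge j).symm)
    rw [← husum.sum_add_tsum_nat_add k]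
    have hfin : ∑ i ∈ Finset.range k, u i = -(a (p ^ (k - 1)) * z ^ (k - 1) / ((p : ℂ) - 1)) := by
      rw [Finset.sum_eq_single (k - 1)]
      · simp only [hu]
        rw [if_neg (by omega), if_true]
        ring
      · intro j hj hjk
        simp only [hu]
        rw [if_neg (by rw [Finset.mem_range] at hj; omega), if_neg hjk]
        ring
      · intro h
        exact absurd (Finset.mem_range.mpr (by omega)) h
    rw [hfin]
    unfold Br
    rw [cpow_pow p s (k - 1), ← hz]
    have htail : ∑' i : ℕ, u (i + k) =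
        ∑' j : ℕ, a (p ^ (k + j)) * (p : ℂ) ^ (-(((k + j : ℕ) : ℂ) * s)) := by
      refine tsum_congr (fun j => ?_)
      rw [hu_ge, cpow_pow p s (k + j), add_comm j k]
    rw [htail]
    ring
  · intro n hn hnp
    rw [if_neg]
    intro hall
    apply hnp
    refine ⟨n.factorization p, ?_⟩
    have hq : ∀ q : ℕ, q.Prime → q ∣ n → q = p := fun q hq hqn =>
      (Nat.prime_dvd_prime_iff_eq hq hpp).mp (hq.dvd_of_dvd_pow (hall q hq hqn))
    have h1 := Nat.ordProj_mul_ordCompl_eq_self n p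
    have h2 : n / p ^ (n.factorization p) = 1 := by
      by_contra hne
      obtain ⟨q, hqp, hqd⟩ := Nat.exists_prime_and_dvd hne
      have hqn : q ∣ n := hqd.trans (Nat.ordCompl_dvd n p)
      have := hq q hqp hqn
      rw [this] at hqd
      exact Nat.not_dvd_ordCompl hpp hn hqd
    rw [h2, mul_one] at h1
    exact h1.symm

end PP_

open PP_ in
theorem p_PP (hMUL : T_MUL) (hDEC : T_DEC) (hCS : T_CS) (hLOC : T_LOC) : T_PP := by
  classical
  intro F a b hF p k _ hpp hk s hs
  have hz := norm_z_le p hpp s hs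
  obtain ⟨hs1, -, hexp⟩ := hLOC F a b hF p hpp ((p : ℂ) ^ (-s)) hz
  have hLne : LpF a p s ≠ 0 := by
    rw [LpF_eq, hexp]
    exact Complex.exp_ne_zero _
  refine ⟨hLne, ?_⟩
  have hsplit := split a (fun m n h => hMUL F a b hF m n h) p hpp s (hF.summable s hs)
  have hdec := hDEC F a b hF (p ^ k) 1 s (Nat.coprime_one_left _) hs
  have hfun : (fun n : ℕ => a n * ee (n * (1 / ((p ^ k : ℕ) : ℝ)))) =
      (fun n : ℕ => a n * ee (n * (((1 : ℕ) : ℝ) / ((p ^ k : ℕ) : ℝ)))) := by
    simp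
  rw [hfun, hdec]
  have hone : ∀ ξ : DirichletCharacter ℂ (p ^ k), ξ ((1 : ℕ) : ZMod (p ^ k)) = 1 := by
    intro ξ
    rw [Nat.cast_one, map_one]
  rw [← Finset.add_sum_erase Finset.univ _ (Finset.mem_univ (1 : DirichletCharacter ℂ (p ^ k)))]
  congr 1
  · rw [hone, one_mul, kap_one a p k hpp hk s hCS hs1.of_norm, aX_one a p k hpp hk s, hsplit]
    field_simp
  · refine Finset.sum_congr ?_ (fun ξ _ => ?_)
    · ext ξ
      simp
    · rw [hone, one_mul]

end

end Pool.Agent.SelDeg2
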