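import Pool.Agent.SelDeg2.TargetsC

/-!
# C-PPL and C-GKP: the principal part at `1/p^k` and its transfer
-/

namespace Pool.Agent.SelDeg2

open Complex Filter Topology MeasureTheory
open Pool.Agent.SelPole Pool.Agent.SelTwo

noncomputable section

namespace PPL_

/-- the map `η ↦ 1 + η` tends to `1` in the punctured neighbourhood -/
theorem tendsto_shift : Tendsto (fun η : ℝ => (1 : ℂ) + (η : ℂ)) (𝓝[>] 0) (𝓝[≠] 1) := by
  rw [tendsto_nhdsWithin_iff]
  constructor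
  · have h : Tendsto (fun η : ℝ => (1 : ℂ) + (η : ℂ)) (𝓝 0) (𝓝 (1 + ((0 : ℝ) : ℂ))) := by
      apply Continuous.tendsto
      fun_prop
    rw [Complex.ofReal_zero, add_zero] at h
    exact h.mono_left nhdsWithin_le_nhds
  · filter_upwards [self_mem_nhdsWithin] with η hη
    have h0 : (0 : ℝ) < η := hη
    intro h
    have h1 : (1 : ℂ) + (η : ℂ) = 1 := h
    have h2 : (η : ℂ) = 0 := by
      have := congrArg (fun z => z - 1) h1
      simpa using this
    rw [Complex.ofReal_eq_zero] at h2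
    exact (ne_of_gt h0) h2

theorem tendsto_pole (F : ℂ → ℂ) (a b : ℕ → ℂ) (r : ℕ) (R₀ : ℂ) (hF : IsSelberg F a b)
    (hP : HasPole F r R₀) :
    Tendsto (fun η : ℝ => (η : ℂ) ^ r * LSeries a (1 + (η : ℂ))) (𝓝[>] 0) (𝓝 R₀) := by
  have h := hP.2.2.comp tendsto_shift
  refine h.congr' ?_
  filter_upwards [self_mem_nhdsWithin] with η hη
  have h0 : (0 : ℝ) < η := hη
  have hre : (1 : ℝ) < ((1 : ℂ) + (η : ℂ)).re := by
    simp [h0]
  simp only [Function.comp_apply]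
  rw [hF.eq_series _ hre]
  congr 2
  ring

theorem re_gt {η : ℝ} (h0 : 0 < η) : (1 : ℝ) < ((1 : ℂ) + (η : ℂ)).re := by
  simp [h0]

/-- a bounded function times a function tending to zero -/
theorem bdd_mul {l : Filter ℝ} (f g : ℝ → ℂ) (C : ℝ) (hf : ∀ᶠ η in l, ‖f η‖ ≤ C)
    (hg : Tendsto g l (𝓝 0)) : Tendsto (fun η => f η * g η) l (𝓝 0) := by
  rw [tendsto_zero_iff_norm_tendsto_zero] at hg ⊢
  have hg' : Tendsto (fun η => (max C 0) * ‖g η‖) l (𝓝 0) := by
    have := hg.const_mul (max C 0)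
    rwa [mul_zero] at this
  refine squeeze_zero' (Eventually.of_forall fun _ => norm_nonneg _) ?_ hg'
  filter_upwards [hf] with η h
  rw [norm_mul]
  exact mul_le_mul_of_nonneg_right (h.trans (le_max_left _ _)) (norm_nonneg _)

end PPL_

theorem p_PPL (hPP : T_PP) (hE1 : T_E1) (hKB : T_KB) : T_PPL := by
  intro F a b r R₀ l hF hP hl p k hne hp hk hχ
  classical
  have hpk : ((p : ℂ) ^ k) ≠ 0 := pow_ne_zero _ (by exact_mod_cast hp.ne_zero)
  obtain ⟨-, hBr⟩ := (hE1 F a b hF).1 p k hp hk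
  have h1 := (PPL_.tendsto_pole F a b r R₀ hF hP).mono_left hl
  have h2 := hBr.mono_left hl
  have hmain := h2.mul h1
  -- the other characters
  have hoth : Tendsto (fun η : ℝ => ∑ ξ ∈ (Finset.univ.filter
      (fun ξ : DirichletCharacter ℂ (p ^ k) => ξ ≠ 1)),
      kap a (p ^ k) ξ (1 + (η : ℂ)) * ((η : ℂ) ^ r * LSeries (aX a ξ) (1 + (η : ℂ)))) l
      (𝓝 (∑ ξ ∈ (Finset.univ.filter
      (fun ξ : DirichletCharacter ℂ (p ^ k) => ξ ≠ 1)), (0 : ℂ))) := by
    apply tendsto_finsetSum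
    intro ξ hξ
    obtain ⟨C, hC⟩ := hKB F a b hF (p ^ k) ξ
    apply PPL_.bdd_mul _ _ C
    · filter_upwards [hl self_mem_nhdsWithin] with η hη
      exact hC _ (PPL_.re_gt hη)
    · exact hχ ξ (Finset.mem_filter.1 hξ).2
  rw [Finset.sum_const_zero] at hoth
  have hsum := hmain.add hoth
  have hlim : Br a p k 1 / LpF a p 1 * R₀ + 0 = R₀ * (HH a p k / (p : ℂ) ^ k) := by
    unfold HH
    field_simp
    ring
  rw [hlim] at hsum
  refine hsum.congr' ?_
  filter_upwards [hl self_mem_nhdsWithin] with η hη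
  have hs := (hPP F a b hF p k hp hk (1 + (η : ℂ)) (PPL_.re_gt hη)).2
  unfold SS
  rw [hs, mul_add, Finset.mul_sum]
  congr 1
  · ring
  · refine Finset.sum_congr ?_ fun ξ _ => by ring
    ext ξ
    simp

theorem p_GKP : T_GKP := by
  intro a r R₀ A₁ κ θ l hr hR hD hl p k h hp hlim
  have hA := hD.A_ne
  have hκ := hD.κ_pos
  set q : ℝ := ((p ^ k : ℕ) : ℝ) with hq
  have hqpos : 0 < q := by
    rw [hq]
    exact_mod_cast Nat.pow_pos hp
  set α : ℝ := 1 / q with hα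
  have hαpos : 0 < α := by positivity
  obtain ⟨C, hC⟩ := hD.rel α hαpos
  have hκα : κ / α = κ * q := by
    rw [hα]
    field_simp
  rw [hκα] at hC
  -- eventually in `(0, 1]`
  have hev : ∀ᶠ η : ℝ in l, 0 < η ∧ η ≤ 1 := by
    apply hl
    have h1 : ∀ᶠ η : ℝ in 𝓝[>] (0 : ℝ), η ∈ Set.Ioi (0 : ℝ) := self_mem_nhdsWithin
    have h2 : ∀ᶠ η : ℝ in 𝓝[>] (0 : ℝ), η < 1 :=
      nhdsWithin_le_nhds (eventually_lt_nhds (by norm_num : (0 : ℝ) < 1))
    filter_upwards [h1, h2] with η a1 a2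
    exact ⟨a1, a2.le⟩
  have hη0 : Tendsto (fun η : ℝ => (η : ℂ) ^ r) l (𝓝 0) := by
    have h1 : Tendsto (fun η : ℝ => (η : ℂ) ^ r) (𝓝 0) (𝓝 (((0 : ℝ) : ℂ) ^ r)) := by
      apply Continuous.tendsto
      fun_prop
    rw [Complex.ofReal_zero, zero_pow (by omega)] at h1
    exact (h1.mono_left nhdsWithin_le_nhds).mono_left hl
  set B : ℂ := A₁ * (α : ℂ) ^ (1 + (θ : ℂ) * I) with hB
  have hBne : B ≠ 0 := by
    apply mul_ne_zero hA
    rw [Ne, Complex.cpow_eq_zero_iff]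
    intro hcon
    exact (ne_of_gt hαpos) (Complex.ofReal_eq_zero.1 hcon.1)
  set E : ℝ → ℂ := fun η => (((α ^ 2 / κ) ^ η : ℝ) : ℂ) with hE
  have hbase : 0 < α ^ 2 / κ := by positivity
  have hEne : ∀ η, E η ≠ 0 := by
    intro η
    simp only [hE]
    rw [Ne, Complex.ofReal_eq_zero]
    exact (Real.rpow_pos_of_pos hbase η).ne'
  have hE1 : Tendsto E l (𝓝 1) := by
    have h1 : Tendsto (fun η : ℝ => (((α ^ 2 / κ) ^ η : ℝ) : ℂ)) (𝓝 0)
        (𝓝 (((α ^ 2 / κ) ^ (0 : ℝ) : ℝ) : ℂ)) := by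
      apply Continuous.tendsto
      exact Complex.continuous_ofReal.comp (Real.continuous_const_rpow hbase.ne')
    rw [Real.rpow_zero, Complex.ofReal_one] at h1
    exact (h1.mono_left nhdsWithin_le_nhds).mono_left hl
  -- the difference tends to zero
  have hdiff : Tendsto (fun η : ℝ => (SS a α η - B * E η *
      (starRingEnd ℂ) (SS (gth θ a) (κ * q) η)) * (η : ℂ) ^ r) l (𝓝 0) := by
    apply PPL_.bdd_mul _ _ C _ hη0
    filter_upwards [hev] with η h1
    have := hC η h1.1 h1.2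
    simpa only [hB, hE, mul_assoc] using this
  have hX : Tendsto (fun η : ℝ => B * E η * ((η : ℂ) ^ r *
      (starRingEnd ℂ) (SS (gth θ a) (κ * q) η))) l (𝓝 (R₀ * (h / (p : ℂ) ^ k))) := by
    have h1 := hlim.sub hdiff
    rw [sub_zero] at h1
    refine h1.congr ?_
    intro η
    ring
  have hY : Tendsto (fun η : ℝ => (η : ℂ) ^ r *
      (starRingEnd ℂ) (SS (gth θ a) (κ * q) η)) l
      (𝓝 (R₀ * (h / (p : ℂ) ^ k) / (B * 1))) := by
    have h1 := hX.div (tendsto_const_nhds.mul hE1 : Tendsto (fun η => B * E η) l (𝓝 (B * 1)))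
      (by rw [mul_one]; exact hBne)
    refine h1.congr ?_
    intro η
    have h2 := hEne η
    rw [Pi.div_apply]
    field_simp
  have hZ := (Complex.continuous_conj.tendsto _).comp hY
  have hval : R₀ * (h / (p : ℂ) ^ k) / (B * 1) =
      R₀ / A₁ * (((p ^ k : ℕ) : ℂ) ^ ((θ : ℂ) * I) * h) := by
    have hqc : ((p : ℂ) ^ k) = (q : ℂ) := by
      rw [hq]
      push_cast
      rfl
    have hqc2 : (((p ^ k : ℕ)) : ℂ) = (q : ℂ) := by
      rw [hq]
      push_cast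
      rfl
    have hqne : (q : ℂ) ≠ 0 := by
      rw [Ne, Complex.ofReal_eq_zero]
      exact hqpos.ne'
    have hα1 : (α : ℂ) = (q : ℂ)⁻¹ := by
      rw [hα]
      push_cast
      rw [one_div]
    have hαθ : (α : ℂ) ^ (1 + (θ : ℂ) * I) = ((q : ℂ) * (q : ℂ) ^ ((θ : ℂ) * I))⁻¹ := by
      rw [hα1, Complex.inv_cpow, Complex.cpow_add _ _ hqne, Complex.cpow_one]
      rw [Complex.arg_ofReal_of_nonneg hqpos.le]
      exact Real.pi_pos.ne
    have hqθ : (q : ℂ) ^ ((θ : ℂ) * I) ≠ 0 := by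
      rw [Ne, Complex.cpow_eq_zero_iff]
      intro hcon
      exact hqne hcon.1
    rw [hqc2, hqc, hB, hαθ]
    field_simp
  rw [hval] at hZ
  have hfin : (starRingEnd ℂ) (R₀ / A₁ * (((p ^ k : ℕ) : ℂ) ^ ((θ : ℂ) * I) * h)) =
      (starRingEnd ℂ) (R₀ / A₁) *
      (starRingEnd ℂ) (((p ^ k : ℕ) : ℂ) ^ ((θ : ℂ) * I) * h) := map_mul _ _ _
  rw [hfin] at hZ
  refine hZ.congr ?_
  intro η
  simp only [Function.comp_apply, map_mul, map_pow, Complex.conj_ofReal, Complex.conj_conj]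

end

end Pool.Agent.SelDeg2
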