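import Pool.Agent.SelDeg2.TargetsC

/-!
# C-PRX: a nontrivial character mod `p^k` times any character of modulus prime to `p`
-/

namespace Pool.Agent.SelDeg2

open Complex Filter Topology MeasureTheory
open Pool.Agent.SelPole Pool.Agent.SelTwo

namespace PRX_

/-- evaluation of a lifted character at a natural number coprime to the big modulus -/
theorem lift_eval {m M : ℕ} (h : m ∣ M) (χ : DirichletCharacter ℂ m) (n : ℕ)
    (hn : IsUnit (n : ZMod M)) :
    DirichletCharacter.changeLevel h χ (n : ZMod M) = χ (n : ZMod m) := by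
  obtain ⟨u, hu⟩ := hn
  rw [← hu, DirichletCharacter.changeLevel_eq_cast_of_dvd χ h u, hu, ZMod.cast_natCast h]

theorem nonunit_of {m n : ℕ} (χ : DirichletCharacter ℂ m) (h : ¬ n.Coprime m) :
    χ (n : ZMod m) = 0 :=
  χ.map_nonunit (fun hu => h ((ZMod.isUnit_iff_coprime n m).1 hu))

theorem prod_eval (q N : ℕ) (χ : DirichletCharacter ℂ q) (ψ : DirichletCharacter ℂ N) (n : ℕ) :
    (DirichletCharacter.changeLevel (Dvd.intro N rfl : q ∣ q * N) χ *
      DirichletCharacter.changeLevel (Dvd.intro_left q rfl : N ∣ q * N) ψ) (n : ZMod (q * N)) =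
      χ (n : ZMod q) * ψ (n : ZMod N) := by
  by_cases h : IsUnit (n : ZMod (q * N))
  · rw [MulChar.mul_apply, lift_eval _ χ n h, lift_eval _ ψ n h]
  · rw [MulChar.map_nonunit _ h]
    have h1 : ¬ n.Coprime (q * N) := fun hc => h ((ZMod.isUnit_iff_coprime n _).2 hc)
    rw [Nat.coprime_mul_iff_right] at h1
    by_cases h2 : n.Coprime q
    · have h3 : ¬ n.Coprime N := fun h3 => h1 ⟨h2, h3⟩
      rw [nonunit_of ψ h3, mul_zero]
    · rw [nonunit_of χ h2, zero_mul]

theorem prod_ne_one (q N : ℕ) [NeZero q] [NeZero N] (hqN : q.Coprime N)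
    (χ : DirichletCharacter ℂ q) (ψ : DirichletCharacter ℂ N) (hχ : χ ≠ 1) :
    DirichletCharacter.changeLevel (Dvd.intro N rfl : q ∣ q * N) χ *
      DirichletCharacter.changeLevel (Dvd.intro_left q rfl : N ∣ q * N) ψ ≠ 1 := by
  intro h1
  apply hχ
  ext u
  obtain ⟨n, hn1, hn2⟩ := Nat.chineseRemainder hqN (u : ZMod q).val 1
  have e1 : ((n : ℕ) : ZMod q) = (u : ZMod q) := by
    have := (ZMod.natCast_eq_natCast_iff n (u : ZMod q).val q).2 hn1
    rw [this, ZMod.natCast_zmod_val]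
  have e2 : ((n : ℕ) : ZMod N) = 1 := by
    have := (ZMod.natCast_eq_natCast_iff n 1 N).2 hn2
    rw [this, Nat.cast_one]
  have c1 : n.Coprime q := (ZMod.isUnit_iff_coprime n q).1 (e1 ▸ u.isUnit)
  have c2 : n.Coprime N := (ZMod.isUnit_iff_coprime n N).1 (by rw [e2]; exact isUnit_one)
  have c3 : IsUnit (n : ZMod (q * N)) :=
    (ZMod.isUnit_iff_coprime n _).2 (Nat.Coprime.mul_right c1 c2)
  have h2 := prod_eval q N χ ψ n
  rw [h1, MulChar.one_apply c3, e1, e2, map_one, mul_one] at h2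
  rw [← h2, MulChar.one_apply u.isUnit]

end PRX_

theorem p_PRX (hPR : T_PR) : T_PRX := by
  intro p k N hN hpk hp hpN χ ψ t hχ
  have hco : (p ^ k).Coprime N := Nat.Coprime.pow_left k ((Nat.Prime.coprime_iff_not_dvd hp).2 hpN)
  obtain ⟨C, hC⟩ := hPR (p ^ k * N)
    (DirichletCharacter.changeLevel (Dvd.intro N rfl : p ^ k ∣ p ^ k * N) χ *
      DirichletCharacter.changeLevel (Dvd.intro_left (p ^ k) rfl : N ∣ p ^ k * N) ψ) t
  refine ⟨C, fun η h0 h1 => ?_⟩
  have h := hC η h0 h1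
  rw [if_neg (fun hh => PRX_.prod_ne_one (p ^ k) N hco χ ψ hχ hh.1), sub_zero] at h
  have hf : (fun n : ℕ => (DirichletCharacter.changeLevel (Dvd.intro N rfl : p ^ k ∣ p ^ k * N) χ *
      DirichletCharacter.changeLevel (Dvd.intro_left (p ^ k) rfl : N ∣ p ^ k * N) ψ)
      (n : ZMod (p ^ k * N))) =
      fun n : ℕ => χ (n : ZMod (p ^ k)) * ψ (n : ZMod N) := by
    funext n
    exact PRX_.prod_eval (p ^ k) N χ ψ n
  rw [hf] at h
  exact h

end Pool.Agent.SelDeg2
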