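import Pool.Agent.SelDeg2.TargetsC

/-!
# DEG2-SEL: selection of a filter along which almost all primes are inactive
-/

set_option autoImplicit false

namespace Pool.Agent.SelDeg2

open Complex Filter Topology MeasureTheory
open Pool.Agent.SelPole Pool.Agent.SelTwo

namespace SEL_

/-- A Bessel inequality for almost orthogonal functions. -/
lemma bessel {ι α : Type*} [Fintype ι] (w : α → ℝ) (hw : ∀ q, 0 ≤ w q)
    (hws : Summable w) (u : α → ℂ) (hu : Summable fun q => ‖u q‖ ^ 2 * w q)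
    (f : ι → α → ℂ) (hf : ∀ i q, ‖f i q‖ ≤ 1) (D C A : ℝ) (hD0 : 0 < D) (hC0 : 0 ≤ C)
    (hD : ∑' q, w q ≤ D)
    (hC : ∀ i j, i ≠ j → ‖∑' q, f i q * (starRingEnd ℂ) (f j q) * w q‖ ≤ C)
    (hA : ∑' q, ‖u q‖ ^ 2 * w q ≤ A) :
    ∑ i, ‖∑' q, u q * f i q * w q‖ ^ 2 ≤ A * (D + C * Fintype.card ι) := by
  classical
  set S : ι → ℂ := fun i => ∑' q, u q * f i q * w q with hS
  set T : ℝ := ∑ i, ‖S i‖ ^ 2 with hT
  set E : ℝ := D + C * Fintype.card ι with hE
  have hE0 : 0 < E := by positivity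
  -- summability
  have hu1 : Summable fun q => ‖u q‖ * w q := by
    refine Summable.of_nonneg_of_le (fun q => mul_nonneg (norm_nonneg _) (hw q)) (fun q => ?_)
      (hu.add hws)
    nlinarith [hw q, sq_nonneg (‖u q‖ - 1), norm_nonneg (u q),
      mul_nonneg (hw q) (sq_nonneg (‖u q‖ - 1)), mul_nonneg (hw q) (norm_nonneg (u q))]
  have hcw : ∀ q, ‖((w q : ℝ) : ℂ)‖ = w q := fun q => by
    rw [Complex.norm_real, Real.norm_of_nonneg (hw q)]
  have hs1 : ∀ i, Summable fun q => u q * f i q * w q := by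
    intro i
    refine Summable.of_norm (Summable.of_nonneg_of_le (fun _ => norm_nonneg _) (fun q => ?_) hu1)
    rw [norm_mul, norm_mul, hcw]
    have := hf i q
    have h1 : ‖u q‖ * ‖f i q‖ ≤ ‖u q‖ * 1 := mul_le_mul_of_nonneg_left this (norm_nonneg _)
    rw [mul_one] at h1
    exact mul_le_mul_of_nonneg_right h1 (hw q)
  have hs2 : ∀ i j, Summable fun q => f i q * (starRingEnd ℂ) (f j q) * w q := by
    intro i j
    refine Summable.of_norm (Summable.of_nonneg_of_le (fun _ => norm_nonneg _) (fun q => ?_) hws)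
    rw [norm_mul, norm_mul, hcw, RCLike.norm_conj]
    have h1 := hf i q
    have h2 := hf j q
    have h3 : ‖f i q‖ * ‖f j q‖ ≤ 1 * 1 :=
      mul_le_mul h1 h2 (norm_nonneg _) zero_le_one
    calc ‖f i q‖ * ‖f j q‖ * w q ≤ 1 * 1 * w q := mul_le_mul_of_nonneg_right h3 (hw q)
      _ = w q := by ring
  -- the combination
  set g : α → ℂ := fun q => ∑ i, (starRingEnd ℂ) (S i) * f i q with hg
  have hTg : (T : ℂ) = ∑' q, u q * g q * w q := by
    have h1 : ∀ q, u q * g q * w q = ∑ i, (starRingEnd ℂ) (S i) * (u q * f i q * w q) := by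
      intro q
      simp only [hg, Finset.mul_sum, Finset.sum_mul]
      refine Finset.sum_congr rfl fun i _ => ?_
      ring
    simp_rw [h1]
    rw [Summable.tsum_finsetSum fun i _ => (hs1 i).mul_left _]
    rw [hT]
    push_cast
    refine Finset.sum_congr rfl fun i _ => ?_
    have h2 : ((‖S i‖ : ℝ) : ℂ) ^ 2 = (starRingEnd ℂ) (S i) * S i := by
      rw [← Complex.normSq_eq_conj_mul_self, Complex.normSq_eq_norm_sq]
      push_cast
      rfl
    rw [tsum_mul_left]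
    exact h2
  have hgg : ∀ q, ((‖g q‖ ^ 2 * w q : ℝ) : ℂ) =
      ∑ i, ∑ j, (starRingEnd ℂ) (S i) * S j *
        (f i q * (starRingEnd ℂ) (f j q) * w q) := by
    intro q
    have h1 : ((‖g q‖ ^ 2 : ℝ) : ℂ) = g q * (starRingEnd ℂ) (g q) := by
      rw [Complex.mul_conj, Complex.normSq_eq_norm_sq]
    push_cast at h1 ⊢
    rw [h1, hg]
    simp only [map_sum, map_mul, Complex.conj_conj]
    rw [Finset.sum_mul_sum, Finset.sum_mul]
    refine Finset.sum_congr rfl fun i _ => ?_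
    rw [Finset.sum_mul]
    refine Finset.sum_congr rfl fun j _ => ?_
    ring
  have hsg : Summable fun q => ‖g q‖ ^ 2 * w q := by
    have h1 : Summable fun q => ((‖g q‖ ^ 2 * w q : ℝ) : ℂ) := by
      simp_rw [hgg]
      exact summable_sum fun i _ => summable_sum fun j _ => (hs2 i j).mul_left _
    exact Complex.summable_ofReal.1 h1
  have hG : ∑' q, ‖g q‖ ^ 2 * w q ≤ T * E := by
    have h1 : ((∑' q, ‖g q‖ ^ 2 * w q : ℝ) : ℂ) = ∑ i, ∑ j, (starRingEnd ℂ) (S i) * S j *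
        ∑' q, f i q * (starRingEnd ℂ) (f j q) * w q := by
      rw [Complex.ofReal_tsum]
      simp_rw [hgg]
      rw [Summable.tsum_finsetSum fun i _ => summable_sum fun j _ => (hs2 i j).mul_left _]
      refine Finset.sum_congr rfl fun i _ => ?_
      rw [Summable.tsum_finsetSum fun j _ => (hs2 i j).mul_left _]
      refine Finset.sum_congr rfl fun j _ => ?_
      rw [tsum_mul_left]
    have h2 : ∀ i j, ‖∑' q, f i q * (starRingEnd ℂ) (f j q) * w q‖ ≤
        (if i = j then D else 0) + C := by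
      intro i j
      by_cases hij : i = j
      · rw [if_pos hij]
        have h3 : ‖∑' q, f i q * (starRingEnd ℂ) (f j q) * w q‖ ≤ ∑' q, w q := by
          refine (norm_tsum_le_tsum_norm (hs2 i j).norm).trans
            ((hs2 i j).norm.tsum_le_tsum (fun q => ?_) hws)
          rw [norm_mul, norm_mul, hcw, RCLike.norm_conj]
          have h3 : ‖f i q‖ * ‖f j q‖ ≤ 1 * 1 :=
            mul_le_mul (hf i q) (hf j q) (norm_nonneg _) zero_le_one
          calc ‖f i q‖ * ‖f j q‖ * w q ≤ 1 * 1 * w q := mul_le_mul_of_nonneg_right h3 (hw q)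
            _ = w q := by ring
        linarith
      · rw [if_neg hij, zero_add]
        exact hC i j hij
    have h4 : ∑' q, ‖g q‖ ^ 2 * w q = ‖((∑' q, ‖g q‖ ^ 2 * w q : ℝ) : ℂ)‖ := by
      rw [Complex.norm_real, Real.norm_of_nonneg]
      exact tsum_nonneg fun q => mul_nonneg (sq_nonneg _) (hw q)
    rw [h4, h1]
    calc ‖∑ i, ∑ j, (starRingEnd ℂ) (S i) * S j *
          ∑' q, f i q * (starRingEnd ℂ) (f j q) * w q‖
        ≤ ∑ i, ∑ j, ‖S i‖ * ‖S j‖ * ((if i = j then D else 0) + C) := by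
          refine (norm_sum_le _ _).trans (Finset.sum_le_sum fun i _ =>
            (norm_sum_le _ _).trans (Finset.sum_le_sum fun j _ => ?_))
          rw [norm_mul, norm_mul, RCLike.norm_conj]
          exact mul_le_mul_of_nonneg_left (h2 i j) (by positivity)
      _ = D * T + C * (∑ i, ‖S i‖) ^ 2 := by
          have h5 : ∀ i, ∑ j, ‖S i‖ * ‖S j‖ * ((if i = j then D else 0) + C) =
              D * ‖S i‖ ^ 2 + C * (‖S i‖ * ∑ j, ‖S j‖) := by
            intro i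
            have h6 : ∀ j, ‖S i‖ * ‖S j‖ * ((if i = j then D else 0) + C) =
                (if i = j then ‖S i‖ * ‖S j‖ * D else 0) + C * (‖S i‖ * ‖S j‖) := by
              intro j
              split_ifs <;> ring
            simp_rw [h6]
            rw [Finset.sum_add_distrib, Finset.sum_ite_eq, if_pos (Finset.mem_univ _),
              ← Finset.mul_sum, ← Finset.mul_sum]
            ring
          simp_rw [h5]
          rw [Finset.sum_add_distrib, ← Finset.mul_sum, ← Finset.mul_sum, ← Finset.sum_mul]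
          ring
      _ ≤ D * T + C * (Fintype.card ι * T) := by
          have h7 : (∑ i, ‖S i‖) ^ 2 ≤ Fintype.card ι * T := by
            have := sq_sum_le_card_mul_sum_sq (s := (Finset.univ : Finset ι))
              (f := fun i => ‖S i‖)
            simpa using this
          have := mul_le_mul_of_nonneg_left h7 hC0
          linarith
      _ = T * E := by
          rw [hE]
          ring
  -- conclusion
  have hsug : Summable fun q => u q * g q * w q := by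
    have h1 : ∀ q, u q * g q * w q = ∑ i, (starRingEnd ℂ) (S i) * (u q * f i q * w q) := by
      intro q
      simp only [hg, Finset.mul_sum, Finset.sum_mul]
      refine Finset.sum_congr rfl fun i _ => ?_
      ring
    simp_rw [h1]
    exact summable_sum fun i _ => (hs1 i).mul_left _
  have hT0 : 0 ≤ T := Finset.sum_nonneg fun i _ => sq_nonneg _
  have h2T : 2 * T ≤ E * A + T := by
    have h1 : T = ‖(T : ℂ)‖ := by rw [Complex.norm_real, Real.norm_of_nonneg hT0]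
    have h2 : ‖(T : ℂ)‖ ≤ ∑' q, ‖u q * g q * w q‖ := by
      rw [hTg]
      exact norm_tsum_le_tsum_norm hsug.norm
    have h3 : Summable fun q => (E * (‖u q‖ ^ 2 * w q) + E⁻¹ * (‖g q‖ ^ 2 * w q)) / 2 :=
      ((hu.mul_left E).add (hsg.mul_left E⁻¹)).div_const 2
    have h4 : ∑' q, ‖u q * g q * w q‖ ≤
        ∑' q, (E * (‖u q‖ ^ 2 * w q) + E⁻¹ * (‖g q‖ ^ 2 * w q)) / 2 := by
      refine hsug.norm.tsum_le_tsum (fun q => ?_) h3
      rw [norm_mul, norm_mul, hcw]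
      have h5 : ‖u q‖ * ‖g q‖ ≤ (E * ‖u q‖ ^ 2 + E⁻¹ * ‖g q‖ ^ 2) / 2 := by
        have h6 : 0 ≤ (E * ‖u q‖ - ‖g q‖) ^ 2 * E⁻¹ := by positivity
        have h7 : (E * ‖u q‖ - ‖g q‖) ^ 2 * E⁻¹ =
            E * ‖u q‖ ^ 2 - 2 * (‖u q‖ * ‖g q‖) + E⁻¹ * ‖g q‖ ^ 2 := by
          field_simp
          ring
        rw [h7] at h6
        linarith
      have := mul_le_mul_of_nonneg_right h5 (hw q)
      calc ‖u q‖ * ‖g q‖ * w q ≤ (E * ‖u q‖ ^ 2 + E⁻¹ * ‖g q‖ ^ 2) / 2 * w q := this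
        _ = _ := by ring
    have h8 : ∑' q, (E * (‖u q‖ ^ 2 * w q) + E⁻¹ * (‖g q‖ ^ 2 * w q)) / 2 =
        (E * ∑' q, ‖u q‖ ^ 2 * w q + E⁻¹ * ∑' q, ‖g q‖ ^ 2 * w q) / 2 := by
      rw [tsum_div_const, Summable.tsum_add (hu.mul_left E) (hsg.mul_left E⁻¹), tsum_mul_left,
        tsum_mul_left]
    have h9 : E * ∑' q, ‖u q‖ ^ 2 * w q ≤ E * A := mul_le_mul_of_nonneg_left hA hE0.le
    have h10 : E⁻¹ * ∑' q, ‖g q‖ ^ 2 * w q ≤ T := by
      calc E⁻¹ * ∑' q, ‖g q‖ ^ 2 * w q ≤ E⁻¹ * (T * E) :=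
            mul_le_mul_of_nonneg_left hG (by positivity)
        _ = T := by field_simp
    rw [← h1] at h2
    linarith
  linarith [mul_comm E A]

/-- `p` is bad at `η`. -/
def Bad (a : ℕ → ℂ) (η : ℝ) (p : ℕ) : Prop :=
  ∃ (_ : NeZero (p ^ 1)) (χ : DirichletCharacter ℂ (p ^ 1)), χ ≠ 1 ∧
    Lg η / 2 < ‖pser (aX a χ) (1 + (η : ℂ))‖

/-- `Y` is frequently bad. -/
def FB (a : ℕ → ℂ) (Y : Finset ℕ) : Prop :=
  (∀ p ∈ Y, p.Prime) ∧ ∃ᶠ η : ℝ in 𝓝[>] 0, ∀ p ∈ Y, Bad a η p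

lemma tendsto_Lg : Tendsto Lg (𝓝[>] 0) atTop := by
  have h : Lg = fun η => -Real.log η := by
    funext η
    unfold Lg
    rw [one_div, Real.log_inv]
  rw [h]
  exact tendsto_neg_atBot_atTop.comp Real.tendsto_log_nhdsGT_zero

lemma cpow_real (q : Nat.Primes) (η : ℝ) :
    ((q : ℕ) : ℂ) ^ (-(1 + (η : ℂ))) = (((q : ℕ) : ℝ) ^ (-1 - η) : ℝ) := by
  rw [Complex.ofReal_cpow (Nat.cast_nonneg _)]
  push_cast
  congr 1
  ring

/-- Frequently bad sets are small. -/
lemma card_le (hPR : T_PR) (hPRX : T_PRX) (a : ℕ → ℂ) {A : ℝ} (hA0 : 0 ≤ A)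
    (hA : ∀ η : ℝ, 0 < η → η ≤ 1 →
      Summable (fun p : Nat.Primes => ‖a p‖ ^ 2 * ((p : ℕ) : ℝ) ^ (-1 - η)) ∧
      ∑' p : Nat.Primes, ‖a p‖ ^ 2 * ((p : ℕ) : ℝ) ^ (-1 - η) ≤ A * (1 + Real.log (1 / η)))
    (Y : Finset ℕ) (hY : FB a Y) : (Y.card : ℝ) ≤ 4 * (A + 1) := by
  classical
  obtain ⟨hprime, hfreq⟩ := hY
  by_contra hcon
  push Not at hcon
  have inst : ∀ i : {x // x ∈ Y}, NeZero ((i : ℕ) ^ 1) := fun i =>
    ⟨pow_ne_zero _ (hprime _ i.2).ne_zero⟩
  -- the off-diagonal constant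
  have hoff : ∀ (i j : {x // x ∈ Y}) (χ : DirichletCharacter ℂ ((i : ℕ) ^ 1))
      (ψ : DirichletCharacter ℂ ((j : ℕ) ^ 1)), ∃ C : ℝ, i ≠ j → χ ≠ 1 →
      ∀ η : ℝ, 0 < η → η ≤ 1 →
      ‖pser (fun n => χ (n : ZMod ((i : ℕ) ^ 1)) * ψ (n : ZMod ((j : ℕ) ^ 1)))
        (1 + (η : ℂ) + ((0 : ℝ) : ℂ) * I)‖ ≤ C := by
    intro i j χ ψ
    by_cases h : i ≠ j ∧ χ ≠ 1
    · obtain ⟨h1, h2⟩ := h
      have h3 : ¬ (i : ℕ) ∣ (j : ℕ) ^ 1 := by
        rw [pow_one]
        intro hd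
        rcases (Nat.dvd_prime (hprime _ j.2)).1 hd with h4 | h4
        · exact (hprime _ i.2).one_lt.ne' h4
        · exact h1 (Subtype.ext h4)
      have := inst i
      have := inst j
      obtain ⟨C, hC⟩ := hPRX (i : ℕ) 1 ((j : ℕ) ^ 1) (hprime _ i.2) h3 χ ψ 0 h2
      exact ⟨C, fun _ _ => hC⟩
    · exact ⟨0, fun h1 h2 => (h ⟨h1, h2⟩).elim⟩
  choose K hK using hoff
  have finI : ∀ i : {x // x ∈ Y}, Fintype (DirichletCharacter ℂ ((i : ℕ) ^ 1)) := fun i => by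
    have := inst i
    infer_instance
  set C : ℝ := ∑ i : {x // x ∈ Y}, ∑ j : {x // x ∈ Y},
    ∑ χ : DirichletCharacter ℂ ((i : ℕ) ^ 1), ∑ ψ : DirichletCharacter ℂ ((j : ℕ) ^ 1),
      |K i j χ ψ| with hCdef
  have hC0 : 0 ≤ C := Finset.sum_nonneg fun i _ => Finset.sum_nonneg fun j _ =>
    Finset.sum_nonneg fun χ _ => Finset.sum_nonneg fun ψ _ => abs_nonneg _
  have hKC : ∀ i j χ ψ, K i j χ ψ ≤ C := by
    intro i j χ ψ
    calc K i j χ ψ ≤ |K i j χ ψ| := le_abs_self _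
      _ ≤ ∑ ψ, |K i j χ ψ| := Finset.single_le_sum (f := fun ψ => |K i j χ ψ|)
          (fun _ _ => abs_nonneg _) (Finset.mem_univ ψ)
      _ ≤ ∑ χ, ∑ ψ, |K i j χ ψ| := Finset.single_le_sum (f := fun χ => ∑ ψ, |K i j χ ψ|)
          (fun _ _ => Finset.sum_nonneg fun _ _ => abs_nonneg _) (Finset.mem_univ χ)
      _ ≤ ∑ j, ∑ χ, ∑ ψ, |K i j χ ψ| := Finset.single_le_sum
          (f := fun j => ∑ χ, ∑ ψ, |K i j χ ψ|)
          (fun _ _ => Finset.sum_nonneg fun _ _ => Finset.sum_nonneg fun _ _ => abs_nonneg _)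
          (Finset.mem_univ j)
      _ ≤ C := Finset.single_le_sum (f := fun i => ∑ j, ∑ χ, ∑ ψ, |K i j χ ψ|)
          (fun _ _ => Finset.sum_nonneg fun _ _ => Finset.sum_nonneg fun _ _ =>
            Finset.sum_nonneg fun _ _ => abs_nonneg _)
          (Finset.mem_univ i)
  -- the diagonal constant
  obtain ⟨C1, hC1⟩ := hPR 1 (1 : DirichletCharacter ℂ 1) 0
  have hdiag : ∀ η : ℝ, 0 < η → η ≤ 1 →
      ∑' q : Nat.Primes, (((q : ℕ) : ℝ) ^ (-1 - η)) ≤ Lg η + |C1| := by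
    intro η h0 h1
    have h2 := hC1 η h0 h1
    rw [if_pos ⟨rfl, rfl⟩] at h2
    have h3 : pser (fun n => (1 : DirichletCharacter ℂ 1) (n : ZMod 1))
        (1 + (η : ℂ) + ((0 : ℝ) : ℂ) * I) =
        ((∑' q : Nat.Primes, (((q : ℕ) : ℝ) ^ (-1 - η)) : ℝ) : ℂ) := by
      unfold pser
      rw [Complex.ofReal_tsum]
      refine tsum_congr fun q => ?_
      rw [← cpow_real]
      have h4 : (1 : DirichletCharacter ℂ 1) ((q : ℕ) : ZMod 1) = 1 := by
        have : IsUnit (((q : ℕ) : ZMod 1)) := by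
          rw [Subsingleton.elim (((q : ℕ) : ZMod 1)) 1]
          exact isUnit_one
        exact MulChar.one_apply this
      show (1 : DirichletCharacter ℂ 1) ((q : ℕ) : ZMod 1) * _ = _
      rw [h4, one_mul]
      congr 2
      simp
    rw [h3, ← Complex.ofReal_sub, Complex.norm_real, Real.norm_eq_abs] at h2
    have h5 := (abs_le.1 (h2.trans (le_abs_self C1))).2
    linarith
  -- the inequality for bad η
  have hineq : ∀ η : ℝ, 0 < η → η ≤ 1 → (∀ p ∈ Y, Bad a η p) → 1 ≤ Lg η →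
      Y.card * (Lg η / 2) ^ 2 ≤ A * (1 + Lg η) * (Lg η + |C1| + C * Y.card) := by
    intro η h0 h1 hbad hL
    have hbad' : ∀ i : {x // x ∈ Y}, ∃ χ : DirichletCharacter ℂ ((i : ℕ) ^ 1), χ ≠ 1 ∧
        Lg η / 2 < ‖pser (aX a χ) (1 + (η : ℂ))‖ := by
      intro i
      obtain ⟨_, χ, h2, h3⟩ := hbad _ i.2
      exact ⟨χ, h2, h3⟩
    choose χ hχ1 hχ2 using hbad'
    have hws : Summable fun q : Nat.Primes => (((q : ℕ) : ℝ) ^ (-1 - η)) :=
      Nat.Primes.summable_rpow.2 (by linarith)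
    have hb := bessel (ι := {x // x ∈ Y}) (α := Nat.Primes)
      (fun q : Nat.Primes => (((q : ℕ) : ℝ) ^ (-1 - η)))
      (fun q => Real.rpow_nonneg (Nat.cast_nonneg _) _) hws
      (fun q : Nat.Primes => a (q : ℕ)) (hA η h0 h1).1
      (fun i q => χ i ((q : ℕ) : ZMod ((i : ℕ) ^ 1)))
      (fun i q => DirichletCharacter.norm_le_one _ _) (Lg η + |C1|) C (A * (1 + Lg η))
      (by positivity) hC0 (hdiag η h0 h1) (fun i j hij => ?_) (hA η h0 h1).2
    · have h5 : Fintype.card {x // x ∈ Y} = Y.card := Fintype.card_coe Y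
      rw [h5] at hb
      refine le_trans ?_ hb
      calc (Y.card : ℝ) * (Lg η / 2) ^ 2 = ∑ _i : {x // x ∈ Y}, (Lg η / 2) ^ 2 := by
            rw [Finset.sum_const, Finset.card_univ, h5, nsmul_eq_mul]
        _ ≤ _ := by
            refine Finset.sum_le_sum fun i _ => ?_
            have h6 : ∑' q : Nat.Primes, a (q : ℕ) * χ i ((q : ℕ) : ZMod ((i : ℕ) ^ 1)) *
                ((((q : ℕ) : ℝ) ^ (-1 - η) : ℝ) : ℂ) = pser (aX a (χ i)) (1 + (η : ℂ)) := by
              unfold pser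
              refine tsum_congr fun q => ?_
              rw [cpow_real]
              rfl
            rw [h6]
            exact pow_le_pow_left₀ (by linarith) (hχ2 i).le 2
    · have h7 : ∑' q : Nat.Primes, χ i ((q : ℕ) : ZMod ((i : ℕ) ^ 1)) *
          (starRingEnd ℂ) (χ j ((q : ℕ) : ZMod ((j : ℕ) ^ 1))) *
            ((((q : ℕ) : ℝ) ^ (-1 - η) : ℝ) : ℂ) =
          pser (fun n => χ i (n : ZMod ((i : ℕ) ^ 1)) * (χ j)⁻¹ (n : ZMod ((j : ℕ) ^ 1)))
            (1 + (η : ℂ) + ((0 : ℝ) : ℂ) * I) := by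
        unfold pser
        refine tsum_congr fun q => ?_
        rw [← cpow_real]
        have h8 : (starRingEnd ℂ) (χ j ((q : ℕ) : ZMod ((j : ℕ) ^ 1))) =
            (χ j)⁻¹ ((q : ℕ) : ZMod ((j : ℕ) ^ 1)) := by
          have := inst j
          exact MulChar.star_apply' (χ j) _
        rw [h8]
        congr 2
        simp
      rw [h7]
      exact (hK i j (χ i) (χ j)⁻¹ hij (hχ1 i) η h0 h1).trans (hKC _ _ _ _)
  -- contradiction
  set E : ℝ := |C1| + C * Y.card with hE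
  have hE0 : 0 ≤ E := by positivity
  have hev : ∀ᶠ η : ℝ in 𝓝[>] 0, (0 < η ∧ η ≤ 1) ∧ 1 + A * (1 + E) + A * E < Lg η := by
    refine Filter.Eventually.and ?_ (tendsto_Lg.eventually_gt_atTop _)
    exact Ioc_mem_nhdsGT one_pos
  obtain ⟨η, hbad, ⟨h0, h1⟩, hL⟩ := (hfreq.and_eventually hev).exists
  have hAE : 0 ≤ A * (1 + E) := by positivity
  have hAE' : 0 ≤ A * E := by positivity
  have hL1 : 1 ≤ Lg η := by linarith
  have h2 := hineq η h0 h1 hbad hL1
  have h3 : (A + 1) * Lg η ^ 2 ≤ Y.card * (Lg η / 2) ^ 2 := by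
    have : 4 * (A + 1) * (Lg η / 2) ^ 2 ≤ Y.card * (Lg η / 2) ^ 2 :=
      mul_le_mul_of_nonneg_right hcon.le (sq_nonneg _)
    calc (A + 1) * Lg η ^ 2 = 4 * (A + 1) * (Lg η / 2) ^ 2 := by ring
      _ ≤ _ := this
  have h4 : A * (1 + Lg η) * (Lg η + |C1| + C * Y.card) =
      A * Lg η ^ 2 + A * (1 + E) * Lg η + A * E := by
    rw [hE]
    ring
  rw [h4] at h2
  have h5 : Lg η ^ 2 ≤ A * (1 + E) * Lg η + A * E := by nlinarith
  have h6 : A * (1 + E) * Lg η + A * E ≤ (A * (1 + E) + A * E) * Lg η := by nlinarith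
  have h7 : (A * (1 + E) + A * E) * Lg η < Lg η * Lg η := by
    apply mul_lt_mul_of_pos_right _ (by linarith)
    linarith
  nlinarith

end SEL_

open SEL_ in
/-- Selection of a filter along which almost all primes are inactive. -/
theorem p_SEL (hPR : T_PR) (hPRX : T_PRX) : T_SEL := by
  classical
  rintro a ⟨A, hA⟩
  have hA' : ∀ η : ℝ, 0 < η → η ≤ 1 →
      Summable (fun p : Nat.Primes => ‖a p‖ ^ 2 * ((p : ℕ) : ℝ) ^ (-1 - η)) ∧
      ∑' p : Nat.Primes, ‖a p‖ ^ 2 * ((p : ℕ) : ℝ) ^ (-1 - η) ≤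
        |A| * (1 + Real.log (1 / η)) := by
    intro η h0 h1
    refine ⟨(hA η h0 h1).1, (hA η h0 h1).2.trans ?_⟩
    have : 0 ≤ Real.log (1 / η) := Real.log_nonneg (by rw [le_div_iff₀ h0]; linarith)
    exact mul_le_mul_of_nonneg_right (le_abs_self A) (by linarith)
  set B : ℕ := ⌊4 * (|A| + 1)⌋₊ with hB
  have hbound : ∀ Y, FB a Y → Y.card ≤ B := fun Y hY =>
    Nat.le_floor (card_le hPR hPRX a (abs_nonneg A) hA' Y hY)
  set Q : ℕ → Prop := fun n => ∃ Y, FB a Y ∧ Y.card = n with hQ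
  have hQ0 : Q 0 := by
    refine ⟨∅, ⟨by simp, ?_⟩, rfl⟩
    have h1 : ∀ᶠ η : ℝ in 𝓝[>] 0, ∀ p ∈ (∅ : Finset ℕ), Bad a η p := by
      filter_upwards with η p hp
      simp at hp
    exact h1.frequently
  obtain ⟨Y, hY, hYn⟩ : Q (Nat.findGreatest Q B) := Nat.findGreatest_spec (Nat.zero_le B) hQ0
  refine ⟨𝓝[>] 0 ⊓ 𝓟 {η : ℝ | ∀ p ∈ Y, Bad a η p}, Y, ?_, inf_le_left, ?_⟩
  · exact Filter.frequently_iff_neBot.1 hY.2
  · intro p hinst hp hpY χ hχ
    by_contra hcon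
    have h1 : ∃ᶠ η : ℝ in 𝓝[>] 0 ⊓ 𝓟 {η : ℝ | ∀ p ∈ Y, Bad a η p},
        ¬ ‖pser (aX a χ) (1 + (η : ℂ))‖ ≤ Lg η / 2 := by
      rw [Filter.not_eventually] at hcon
      exact hcon
    rw [Filter.frequently_inf_principal] at h1
    have h2 : FB a (insert p Y) := by
      refine ⟨?_, ?_⟩
      · intro q hq
        rcases Finset.mem_insert.1 hq with rfl | hq
        · exact hp
        · exact hY.1 q hq
      · refine h1.mono ?_
        rintro η ⟨h3, h4⟩ q hq
        rcases Finset.mem_insert.1 hq with rfl | hq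
        · exact ⟨hinst, χ, hχ, not_le.1 h4⟩
        · exact h3 q hq
    have h5 : (insert p Y).card ≤ Nat.findGreatest Q B :=
      Nat.le_findGreatest (hbound _ h2) ⟨_, h2, rfl⟩
    rw [Finset.card_insert_of_notMem hpY] at h5
    omega

end Pool.Agent.SelDeg2
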