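import Pool.Agent.SelDeg2.TargetsC

/-! MP_995735_nt: the target `T_SML` (helper96). -/

namespace Pool.Agent.SelDeg2

open Complex Filter Topology MeasureTheory
open Pool.Agent.SelPole Pool.Agent.SelTwo

noncomputable section

namespace SML_

lemma norm_cpow_prime (q : Nat.Primes) (s : ℂ) :
    ‖((q : ℕ) : ℂ) ^ (-s)‖ = ((q : ℕ) : ℝ) ^ (-s.re) := by
  rw [Complex.norm_natCast_cpow_of_pos q.2.pos]
  simp

lemma summable_of_bound (f : ℕ → ℂ) (K : ℝ) (hf : ∀ n, ‖f n‖ ≤ K) (s : ℂ) (hs : 1 < s.re) :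
    Summable (fun q : Nat.Primes => ‖f (q : ℕ) * ((q : ℕ) : ℂ) ^ (-s)‖) := by
  have h1 : Summable (fun q : Nat.Primes => K * ((q : ℕ) : ℝ) ^ (-s.re)) :=
    (Nat.Primes.summable_rpow.mpr (by linarith)).mul_left K
  refine Summable.of_nonneg_of_le (fun q => norm_nonneg _) (fun q => ?_) h1
  rw [norm_mul, norm_cpow_prime]
  exact mul_le_mul_of_nonneg_right (hf _) (by positivity)

/-- the error of the approximate form -/
def Er (a : ℕ → ℂ) {N : ℕ} (ψ₀ : DirichletCharacter ℂ N) (θ : ℝ) (q : ℕ) : ℂ :=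
  a q - (1 + (q : ℂ) ^ (-((θ : ℂ) * I)) * (starRingEnd ℂ) (ψ₀ (q : ZMod N)))

lemma err_summable (a : ℕ → ℂ) (N : ℕ) [NeZero N] (θ : ℝ) (ψ₀ : DirichletCharacter ℂ N)
    (h : AppForm a N θ (fun ψ => open Classical in if ψ = ψ₀ then 1 else 0)) :
    Summable (fun q : Nat.Primes => ‖Er a ψ₀ θ (q : ℕ)‖ * ((q : ℕ) : ℝ) ^ (-1 : ℝ)) := by
  classical
  obtain ⟨δ, K, hδ, hK⟩ := h
  have h1 : Summable (fun q : Nat.Primes => K * ((q : ℕ) : ℝ) ^ (-1 - δ : ℝ)) :=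
    (Nat.Primes.summable_rpow.mpr (by linarith)).mul_left K
  -- finitely many primes divide N
  have hfin : Set.Finite {q : Nat.Primes | (q : ℕ) ∣ N} := by
    have : Set.Finite {n : ℕ | n ∣ N} :=
      (Set.finite_le_nat N).subset (fun n hn => Nat.le_of_dvd (Nat.pos_of_ne_zero (NeZero.ne N)) hn)
    exact Set.Finite.preimage (f := fun q : Nat.Primes => (q : ℕ))
      (fun x _ y _ hxy => Subtype.ext hxy) this
  refine Summable.of_norm_bounded_eventually (g := fun q : Nat.Primes =>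
    K * ((q : ℕ) : ℝ) ^ (-1 - δ : ℝ)) h1 ?_
  have hcof : ∀ᶠ q : Nat.Primes in cofinite, ¬ (q : ℕ) ∣ N := by
    rw [Filter.eventually_cofinite]
    simpa using hfin
  filter_upwards [hcof] with q hq
  have h2 := hK q q.2 hq
  have h3 : ∑ ψ : DirichletCharacter ℂ N, (if ψ = ψ₀ then (1 : ℂ) else 0) *
      (starRingEnd ℂ) (ψ ((q : ℕ) : ZMod N)) = (starRingEnd ℂ) (ψ₀ ((q : ℕ) : ZMod N)) := by
    rw [Finset.sum_eq_single ψ₀]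
    · simp
    · intro b _ hb
      simp [hb]
    · intro h; exact absurd (Finset.mem_univ _) h
  have h4 : ‖Er a ψ₀ θ (q : ℕ)‖ ≤ K * ((q : ℕ) : ℝ) ^ (-δ) := by
    unfold Er
    rw [← h3]
    convert h2
  have hq0 : (0 : ℝ) < ((q : ℕ) : ℝ) := by exact_mod_cast q.2.pos
  rw [norm_mul, norm_norm, Real.norm_of_nonneg (by positivity : (0:ℝ) ≤ ((q : ℕ) : ℝ) ^ (-1 : ℝ))]
  calc ‖Er a ψ₀ θ (q : ℕ)‖ * ((q : ℕ) : ℝ) ^ (-1 : ℝ)
      ≤ (K * ((q : ℕ) : ℝ) ^ (-δ)) * ((q : ℕ) : ℝ) ^ (-1 : ℝ) :=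
        mul_le_mul_of_nonneg_right h4 (by positivity)
    _ = K * ((q : ℕ) : ℝ) ^ (-1 - δ : ℝ) := by
        rw [mul_assoc, ← Real.rpow_add hq0]
        congr 2; ring

end SML_

open SML_ in
theorem p_SML (hEXPB : T_EXPB) (hPRX : T_PRX) : T_SML := by
  classical
  intro F a b N _ θ ψ₀ hF hApp p k _ hp hpN χ hχ
  obtain ⟨C, hC0, hC⟩ := hEXPB F a b hF
  have h1 : ¬ p ∣ 1 := fun h => hp.one_lt.ne' (Nat.dvd_one.mp h)
  obtain ⟨C1, hC1⟩ := hPRX p k 1 hp h1 χ 1 0 hχ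
  obtain ⟨C2, hC2⟩ := hPRX p k N hp hpN χ (ψ₀⁻¹) θ hχ
  have hE := err_summable a N θ ψ₀ hApp
  set S : ℝ := ∑' q : Nat.Primes, ‖Er a ψ₀ θ (q : ℕ)‖ * ((q : ℕ) : ℝ) ^ (-1 : ℝ) with hS
  refine ⟨Real.exp (C1 + C2 + S + C), fun η hη0 hη1 => ?_⟩
  have hs : (1 : ℝ) < (1 + (η : ℂ)).re := by simp [hη0]
  obtain ⟨hsum, e, he, heq⟩ := hC (p ^ k) χ (1 + (η : ℂ)) hs
  have hχb : ∀ n : ℕ, ‖χ (n : ZMod (p ^ k))‖ ≤ 1 := fun n => DirichletCharacter.norm_le_one _ _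
  have hψb : ∀ n : ℕ, ‖(ψ₀⁻¹ : DirichletCharacter ℂ N) (n : ZMod N)‖ ≤ 1 :=
    fun n => DirichletCharacter.norm_le_one _ _
  have hstar : ∀ n : ℕ, (starRingEnd ℂ) (ψ₀ (n : ZMod N)) =
      (ψ₀⁻¹ : DirichletCharacter ℂ N) (n : ZMod N) := by
    intro n
    rw [← MulChar.star_eq_inv]
    rfl
  -- decomposition
  have hone : ∀ n : ℕ, (1 : DirichletCharacter ℂ 1) (n : ZMod 1) = 1 := by
    intro n
    have : (n : ZMod 1) = 1 := Subsingleton.elim _ _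
    rw [this, map_one]
  have hsA := summable_of_bound (fun n => χ (n : ZMod (p ^ k)) *
    (1 : DirichletCharacter ℂ 1) (n : ZMod 1)) 1
    (fun n => by rw [hone, mul_one]; exact hχb n) (1 + (η : ℂ) + (0 : ℝ) * I) (by simp [hη0])
  have hsB := summable_of_bound (fun n => χ (n : ZMod (p ^ k)) *
    (ψ₀⁻¹ : DirichletCharacter ℂ N) (n : ZMod N)) 1
    (fun n => by
      rw [norm_mul]
      exact mul_le_one₀ (hχb n) (norm_nonneg _) (hψb n)) (1 + (η : ℂ) + θ * I) (by simp [hη0])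
  have hEle : ∀ q : Nat.Primes, ‖Er a ψ₀ θ (q : ℕ) * χ ((q : ℕ) : ZMod (p ^ k)) *
      ((q : ℕ) : ℂ) ^ (-(1 + (η : ℂ)))‖ ≤ ‖Er a ψ₀ θ (q : ℕ)‖ * ((q : ℕ) : ℝ) ^ (-1 : ℝ) := by
    intro q
    have hq1 : (1 : ℝ) ≤ ((q : ℕ) : ℝ) := by exact_mod_cast q.2.one_lt.le
    rw [norm_mul, norm_mul, norm_cpow_prime]
    have h5 : ((q : ℕ) : ℝ) ^ (-(1 + (η : ℂ)).re) ≤ ((q : ℕ) : ℝ) ^ (-1 : ℝ) := by
      apply Real.rpow_le_rpow_of_exponent_le hq1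
      simp [hη0.le]
    calc ‖Er a ψ₀ θ (q : ℕ)‖ * ‖χ ((q : ℕ) : ZMod (p ^ k))‖ * ((q : ℕ) : ℝ) ^ (-(1 + (η : ℂ)).re)
        ≤ ‖Er a ψ₀ θ (q : ℕ)‖ * 1 * ((q : ℕ) : ℝ) ^ (-1 : ℝ) := by
          gcongr
          exact hχb q
      _ = _ := by rw [mul_one]
  have hsE : Summable (fun q : Nat.Primes => ‖Er a ψ₀ θ (q : ℕ) * χ ((q : ℕ) : ZMod (p ^ k)) *
      ((q : ℕ) : ℂ) ^ (-(1 + (η : ℂ)))‖) :=
    Summable.of_nonneg_of_le (fun q => norm_nonneg _) hEle hE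
  have hdec : pser (aX a χ) (1 + (η : ℂ)) =
      pser (fun n => χ (n : ZMod (p ^ k)) * (1 : DirichletCharacter ℂ 1) (n : ZMod 1))
        (1 + (η : ℂ) + (0 : ℝ) * I) +
      pser (fun n => χ (n : ZMod (p ^ k)) * (ψ₀⁻¹ : DirichletCharacter ℂ N) (n : ZMod N))
        (1 + (η : ℂ) + θ * I) +
      ∑' q : Nat.Primes, Er a ψ₀ θ (q : ℕ) * χ ((q : ℕ) : ZMod (p ^ k)) *
        ((q : ℕ) : ℂ) ^ (-(1 + (η : ℂ))) := by
    unfold pser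
    rw [← hsA.of_norm.tsum_add hsB.of_norm, ← (hsA.of_norm.add hsB.of_norm).tsum_add hsE.of_norm]
    refine tsum_congr (fun q => ?_)
    have hq0 : ((q : ℕ) : ℂ) ≠ 0 := by exact_mod_cast q.2.ne_zero
    simp only [aX, hone, mul_one, Er, hstar]
    have e1 : ((q : ℕ) : ℂ) ^ (-(1 + (η : ℂ) + ((0 : ℝ) : ℂ) * I)) =
        ((q : ℕ) : ℂ) ^ (-(1 + (η : ℂ))) := by
      congr 1; simp
    have e2 : ((q : ℕ) : ℂ) ^ (-(1 + (η : ℂ) + (θ : ℂ) * I)) =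
        ((q : ℕ) : ℂ) ^ (-((θ : ℂ) * I)) * ((q : ℕ) : ℂ) ^ (-(1 + (η : ℂ))) := by
      rw [← Complex.cpow_add _ _ hq0]
      congr 1; ring
    rw [e1, e2]
    ring
  have hpb : ‖pser (aX a χ) (1 + (η : ℂ))‖ ≤ C1 + C2 + S := by
    rw [hdec]
    refine (norm_add_le _ _).trans (add_le_add ((norm_add_le _ _).trans
      (add_le_add (hC1 η hη0 hη1) (hC2 η hη0 hη1))) ?_)
    refine (norm_tsum_le_tsum_norm hsE).trans ?_
    exact hsE.tsum_le_tsum hEle hE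
  rw [heq, Complex.norm_exp]
  apply Real.exp_le_exp.mpr
  calc (pser (aX a χ) (1 + (η : ℂ)) + e).re ≤ ‖pser (aX a χ) (1 + (η : ℂ)) + e‖ :=
        Complex.re_le_norm _
    _ ≤ ‖pser (aX a χ) (1 + (η : ℂ))‖ + ‖e‖ := norm_add_le _ _
    _ ≤ C1 + C2 + S + C := add_le_add hpb he

end

end Pool.Agent.SelDeg2
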