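import Pool.Agent.SelDeg2.TargetsC

/-! First stage of the arithmetic part (D-ST1). -/

namespace Pool.Agent.SelDeg2.ST1_

open Complex Filter Topology
open Pool.Agent.SelPole Pool.Agent.SelTwo Pool.Agent.SelDeg2

theorem ee_add_int (x : ℝ) (k : ℤ) : ee (x + k) = ee x := by
  unfold ee
  have : (2 * Real.pi * I * ((x + k : ℝ) : ℂ) : ℂ) = 2 * Real.pi * I * x + k * (2 * Real.pi * I) := by
    push_cast; ring
  rw [this, Complex.exp_add, Complex.exp_int_mul_two_pi_mul_I, mul_one]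

theorem SS_congr (g : ℕ → ℂ) {u N : ℕ} [NeZero N] {κ : ℝ} (hκ : κ = (u : ℝ) / N) {m m' : ℕ}
    (h : (m : ZMod N) = (m' : ZMod N)) (η : ℝ) : SS g (κ * m) η = SS g (κ * m') η := by
  unfold SS
  congr 1
  funext n
  congr 1
  have hN : (N : ℝ) ≠ 0 := by exact_mod_cast NeZero.ne N
  have h1 : ((m : ℤ) : ZMod N) = ((m' : ℤ) : ZMod N) := by exact_mod_cast h
  rw [ZMod.intCast_eq_intCast_iff_dvd_sub] at h1
  obtain ⟨k, hk⟩ := h1
  have h2 : (m' : ℝ) - m = N * k := by exact_mod_cast hk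
  have h3 : (n : ℝ) * (κ * m') = n * (κ * m) + ((n * u * k : ℤ) : ℝ) := by
    have : (m' : ℝ) = m + N * k := by linarith
    rw [this, hκ]
    push_cast
    field_simp
  rw [h3, ee_add_int]

theorem small_of_good {r : ℕ} (hr : 1 ≤ r) {l : Filter ℝ} (hl : l ≤ 𝓝[>] 0) {f S : ℝ → ℂ} {C : ℝ}
    (hf : ∀ η : ℝ, 0 < η → ∃ e : ℂ, ‖e‖ ≤ C ∧ f η = exp (S η + e))
    (hS : ∀ᶠ η in l, ‖S η‖ ≤ Lg η / 2) :
    Tendsto (fun η : ℝ => (η : ℂ) ^ r * f η) l (𝓝 0) := by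
  have h1 : Tendsto (fun η : ℝ => Real.exp C * η ^ (1 / 2 : ℝ)) l (𝓝 0) := by
    have h2 : Tendsto (fun η : ℝ => Real.exp C * η ^ (1 / 2 : ℝ)) (𝓝 0)
        (𝓝 (Real.exp C * (0 : ℝ) ^ (1 / 2 : ℝ))) :=
      ((Real.continuousAt_rpow_const 0 (1 / 2) (Or.inr (by norm_num))).tendsto).const_mul _
    rw [Real.zero_rpow (by norm_num), mul_zero] at h2
    exact h2.mono_left (hl.trans nhdsWithin_le_nhds)
  refine squeeze_zero_norm' ?_ h1
  have h0 : ∀ᶠ η in l, 0 < η ∧ η < 1 := by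
    refine hl ?_
    filter_upwards [Ioo_mem_nhdsGT (show (0 : ℝ) < 1 by norm_num)] with η hη using hη
  filter_upwards [h0, hS] with η hη hSη
  obtain ⟨hη0, hη1⟩ := hη
  obtain ⟨e, he, hfe⟩ := hf η hη0
  rw [norm_mul, norm_pow, Complex.norm_real, Real.norm_of_nonneg hη0.le, hfe, Complex.norm_exp]
  have h3 : (S η + e).re ≤ Lg η / 2 + C := by
    refine (Complex.re_le_norm _).trans ((norm_add_le _ _).trans (add_le_add hSη he))
  have h4 : Real.exp (S η + e).re ≤ Real.exp C * η ^ (-(1 / 2) : ℝ) := by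
    refine (Real.exp_le_exp.2 h3).trans (le_of_eq ?_)
    rw [add_comm, Real.exp_add, Real.rpow_def_of_pos hη0, Lg, one_div, Real.log_inv]
    congr 2
    ring
  have h5 : η ^ r ≤ η := by
    calc η ^ r ≤ η ^ 1 := pow_le_pow_of_le_one hη0.le hη1.le hr
      _ = η := pow_one η
  have h6 : η * η ^ (-(1 / 2) : ℝ) = η ^ (1 / 2 : ℝ) := by
    conv_lhs => rw [← Real.rpow_one η]
    rw [← Real.rpow_mul hη0.le, ← Real.rpow_add hη0]
    norm_num
  calc η ^ r * Real.exp (S η + e).re ≤ η * (Real.exp C * η ^ (-(1 / 2) : ℝ)) := by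
        gcongr
    _ = Real.exp C * (η * η ^ (-(1 / 2) : ℝ)) := by ring
    _ = Real.exp C * η ^ (1 / 2 : ℝ) := by rw [h6]

theorem SS_one (a : ℕ → ℂ) (η : ℝ) : SS a 1 η = LSeries a (1 + η) := by
  unfold SS
  refine LSeries_congr (fun {n} _ => ?_) _
  have h := ee_add_int 0 (n : ℤ)
  have h0 : ee 0 = 1 := by simp [ee]
  have : ee ((n : ℝ) * 1) = 1 := by
    rw [← h0, ← h]; congr 1; push_cast; ring
  rw [this, mul_one]

theorem pole_lim {F : ℂ → ℂ} {a b : ℕ → ℂ} (hF : IsSelberg F a b) {r : ℕ} {R₀ : ℂ}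
    (hP : HasPole F r R₀) {l : Filter ℝ} (hl : l ≤ 𝓝[>] 0) :
    Tendsto (fun η : ℝ => (η : ℂ) ^ r * LSeries a (1 + (η : ℂ))) l (𝓝 R₀) := by
  have h1 : Tendsto (fun η : ℝ => 1 + (η : ℂ)) l (𝓝[≠] 1) := by
    refine tendsto_nhdsWithin_iff.2 ⟨?_, ?_⟩
    · have : Tendsto (fun η : ℝ => 1 + (η : ℂ)) (𝓝 0) (𝓝 (1 + ((0 : ℝ) : ℂ))) :=
        (continuous_const.add Complex.continuous_ofReal).tendsto 0
      rw [Complex.ofReal_zero, add_zero] at this
      exact this.mono_left (hl.trans nhdsWithin_le_nhds)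
    · have h0 : ∀ᶠ η in l, (0 : ℝ) < η := hl self_mem_nhdsWithin
      filter_upwards [h0] with η hη h
      have h2 : (η : ℂ) = 0 := by
        have := (Set.mem_singleton_iff.1 h)
        linear_combination this
      have h3 : η = 0 := by exact_mod_cast h2
      linarith
  have h2 := hP.2.2.comp h1
  refine h2.congr' ?_
  have h0 : ∀ᶠ η in l, (0 : ℝ) < η := hl self_mem_nhdsWithin
  filter_upwards [h0] with η hη
  simp only [Function.comp_apply]
  rw [hF.eq_series _ (by simpa using hη)]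
  congr 2
  ring

end Pool.Agent.SelDeg2.ST1_

namespace Pool.Agent.SelDeg2

open Complex Filter Topology
open Pool.Agent.SelPole Pool.Agent.SelTwo ST1_

theorem p_ST1 (hEXPB : T_EXPB) (hSEL : T_SEL) (hPPL : T_PPL) (hGKP : T_GKP) (hE1 : T_E1) :
    T_ST1 := by
  intro F a b r R₀ A₁ κ θ u N _ hF hP hMS hD huN hκ
  obtain ⟨l, P₀, hne, hl, hgood⟩ := hSEL a hMS
  obtain ⟨hr, hR₀, -⟩ := id hP
  set c₀ : ℂ := (starRingEnd ℂ) (R₀ / A₁) with hc₀
  have hc₀ne : c₀ ≠ 0 := by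
    rw [hc₀, Ne, map_eq_zero]
    exact div_ne_zero hR₀ hD.A_ne
  obtain ⟨C, -, hC⟩ := hEXPB F a b hF
  -- limits at inactive primes
  have K1 : ∀ p : ℕ, p.Prime → p ∉ P₀ →
      Tendsto (fun η : ℝ => (η : ℂ) ^ r * SS (gth θ a) (κ * p) η) l
        (𝓝 (c₀ * (starRingEnd ℂ) ((p : ℂ) ^ ((θ : ℂ) * I) * HH a p 1))) := by
    intro p hp hpP
    have : NeZero (p ^ 1) := ⟨by simpa using hp.ne_zero⟩
    have h1 := hPPL F a b r R₀ l hF hP hl p 1 hp le_rfl (fun χ hχ => by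
      refine small_of_good hr hl (S := fun η => pser (aX a χ) (1 + (η : ℂ))) (C := C)
        (fun η hη => ?_) (hgood p hp hpP χ hχ)
      exact (hC (p ^ 1) χ (1 + (η : ℂ)) (by simpa using hη)).2)
    have h2 := hGKP a r R₀ A₁ κ θ l hr hR₀ hD hl p 1 (HH a p 1) hp.one_lt.le h1
    rw [pow_one] at h2
    exact h2
  have K3 : Tendsto (fun η : ℝ => (η : ℂ) ^ r * SS (gth θ a) (κ * (1 : ℕ)) η) l (𝓝 c₀) := by
    have h1 : Tendsto (fun η : ℝ => (η : ℂ) ^ r * SS a (1 / ((1 ^ 0 : ℕ) : ℝ)) η) l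
        (𝓝 (R₀ * (1 / ((1 : ℕ) : ℂ) ^ 0))) := by
      have h2 := pole_lim hF hP hl
      simpa [SS_one] using h2
    have h2 := hGKP a r R₀ A₁ κ θ l hr hR₀ hD hl 1 0 1 le_rfl h1
    rw [pow_zero] at h2
    rw [← hc₀] at h2
    simpa using h2
  -- a prime in every class
  have hex : ∀ x : (ZMod N)ˣ, ∃ p : ℕ, p.Prime ∧ (p : ZMod N) = (x : ZMod N) ∧ p ∉ P₀ := by
    intro x
    have h1 := Nat.infinite_setOfPred_prime_and_eq_mod (q := N) (a := (x : ZMod N)) x.isUnit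
    obtain ⟨p, hp, hpP⟩ := h1.exists_notMem_finset P₀
    exact ⟨p, hp.1, hp.2, hpP⟩
  choose P hPp hPx hPP using hex
  set X : (ZMod N)ˣ → ℂ := fun x => ((P x : ℕ) : ℂ) ^ ((θ : ℂ) * I) * HH a (P x) 1 with hX
  have hlim : ∀ (m : ℕ) (hm : m.Coprime N),
      Tendsto (fun η : ℝ => (η : ℂ) ^ r * SS (gth θ a) (κ * m) η) l
        (𝓝 (c₀ * (starRingEnd ℂ) (X (ZMod.unitOfCoprime m hm)))) := by
    intro m hm
    have h1 := K1 (P (ZMod.unitOfCoprime m hm)) (hPp _) (hPP _)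
    have h2 : ((P (ZMod.unitOfCoprime m hm) : ℕ) : ZMod N) = (m : ZMod N) := by
      rw [hPx]; exact ZMod.coe_unitOfCoprime m hm
    refine h1.congr (fun η => ?_)
    rw [SS_congr (gth θ a) hκ h2 η]
  have hX1 : X 1 = 1 := by
    have h1 := hlim 1 (Nat.coprime_one_left N)
    have h2 : ZMod.unitOfCoprime 1 (Nat.coprime_one_left N) = (1 : (ZMod N)ˣ) := by
      ext; simp
    rw [h2] at h1
    have h3 := tendsto_nhds_unique h1 K3
    have h4 : (starRingEnd ℂ) (X 1) = 1 := by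
      apply mul_left_cancel₀ hc₀ne
      rw [h3, mul_one]
    have h5 := congrArg (starRingEnd ℂ) h4
    simpa using h5
  refine ⟨l, c₀, X, hne, hl, hc₀ne, hX1, hlim, rfl, ?_⟩
  obtain ⟨-, δ, K, hδ, hK⟩ := hE1 F a b hF
  -- the finitely many remaining primes
  set M : ℝ := ∑ x, ‖X x‖ with hM
  have hMx : ∀ x, ‖X x‖ ≤ M := fun x =>
    Finset.single_le_sum (f := fun x => ‖X x‖) (fun _ _ => norm_nonneg _) (Finset.mem_univ x)
  have hM0 : 0 ≤ M := (norm_nonneg _).trans (hMx 1)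
  set K' : ℝ := |K| + ∑ p ∈ P₀, (‖a p‖ + 1 + M) * (p : ℝ) ^ δ with hK'
  have hsum0 : ∀ p ∈ P₀, 0 ≤ (‖a p‖ + 1 + M) * (p : ℝ) ^ δ := fun p _ => by positivity
  refine ⟨δ, K', hδ, ?_⟩
  intro p hp hpN
  have hp0 : (0 : ℝ) < p := by exact_mod_cast hp.pos
  have hpc : (p : ℂ) ≠ 0 := by exact_mod_cast hp.ne_zero
  have hnorm : ‖(p : ℂ) ^ (-((θ : ℂ) * I))‖ = 1 := by
    rw [Complex.norm_natCast_cpow_of_pos hp.pos]
    simp
  by_cases hpP : p ∈ P₀
  · have h1 : ‖a p - (1 + (p : ℂ) ^ (-((θ : ℂ) * I)) * X (ZMod.unitOfCoprime p hpN))‖ ≤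
        ‖a p‖ + 1 + M := by
      refine (norm_sub_le _ _).trans ?_
      rw [add_assoc]
      refine add_le_add le_rfl ((norm_add_le _ _).trans ?_)
      rw [norm_one, norm_mul, hnorm, one_mul]
      exact add_le_add le_rfl (hMx _)
    have h2 : (‖a p‖ + 1 + M) * (p : ℝ) ^ δ ≤ K' := by
      rw [hK']
      have := Finset.single_le_sum hsum0 hpP
      linarith [abs_nonneg K]
    refine h1.trans ?_
    rw [Real.rpow_neg hp0.le, ← div_eq_mul_inv, le_div_iff₀ (Real.rpow_pos_of_pos hp0 _)]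
    exact h2
  · have h1 := hlim p hpN
    have h2 := tendsto_nhds_unique h1 (K1 p hp hpP)
    have h3 : X (ZMod.unitOfCoprime p hpN) = (p : ℂ) ^ ((θ : ℂ) * I) * HH a p 1 := by
      have h4 := mul_left_cancel₀ hc₀ne h2
      exact (starRingEnd ℂ).injective h4
    have h5 : a p - (1 + (p : ℂ) ^ (-((θ : ℂ) * I)) * X (ZMod.unitOfCoprime p hpN)) =
        -(HH a p 1 - (a p - 1)) := by
      rw [h3, ← mul_assoc, ← Complex.cpow_add _ _ hpc]
      simp
      ring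
    rw [h5, norm_neg]
    refine (hK p hp).trans ?_
    have h6 : K ≤ K' := by
      rw [hK']
      have := Finset.sum_nonneg hsum0
      linarith [le_abs_self K]
    exact mul_le_mul_of_nonneg_right h6 (by positivity)

end Pool.Agent.SelDeg2
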