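import Pool.Agent.SelDeg2.TW
import Pool.Agent.SelDeg2.LOC
import Pool.Agent.SelDeg2.EXPB
import Pool.Agent.SelDeg2.PR
import Pool.Agent.SelDeg2.PRX
import Pool.Agent.SelDeg2.SEL
import Pool.Agent.SelDeg2.DEC
import Pool.Agent.SelDeg2.KB
import Pool.Agent.SelDeg2.CS
import Pool.Agent.SelDeg2.PP
import Pool.Agent.SelDeg2.PPL
import Pool.Agent.SelDeg2.POLE
import Pool.Agent.SelDeg2.FOU
import Pool.Agent.SelDeg2.ORD
import Pool.Agent.SelDeg2.SML
import Pool.Agent.SelDeg2.EXA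
import Pool.Agent.SelDeg2.MER
import Pool.Agent.SelDeg2.ST1
import Pool.Agent.SelDeg2.CD
import Pool.Agent.SelDeg2.E1
import Pool.Agent.SelDeg2.LFE
import Pool.Agent.SelDeg2.FIN2

/-! Assembly of parts C and D. -/

namespace Pool.Agent.SelDeg2

theorem all_LOC : T_LOC := p_LOC p_TW p_MUL

theorem all_EXPB : T_EXPB := p_EXPB p_TW

theorem all_PRX : T_PRX := p_PRX p_PR

theorem all_SEL : T_SEL := p_SEL p_PR all_PRX

theorem all_DEC : T_DEC := p_DEC p_MUL

theorem all_PP : T_PP := p_PP p_MUL all_DEC p_CS all_LOC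

theorem all_POLE : T_POLE := p_POLE p_TW

theorem all_FOU : T_FOU := p_FOU all_DEC p_KB

theorem all_ORD : T_ORD := p_ORD all_EXPB p_PR all_POLE

theorem all_SML : T_SML := p_SML all_EXPB all_PRX

theorem all_EXA : T_EXA := p_EXA all_LOC

theorem all_E1 : T_E1 := p_E1 all_LOC

theorem all_PPL : T_PPL := p_PPL all_PP all_E1 p_KB

theorem all_CD : T_CD :=
  p_CD (p_ST1 all_EXPB all_SEL all_PPL p_GKP all_E1) all_FOU all_ORD all_SML all_PPL p_GKP all_EXA

theorem all_FIN2 : T_FIN2 := p_FIN2 p_LFE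

end Pool.Agent.SelDeg2
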