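import Pool.Agent.SelPole.Final
import Pool.Agent.SelTwo.Targets

/-!
# Functions of degree 2 in the Selberg class with a pole at `s = 1`: common definitions

MP_995735_nt (helper19, helper72).
-/

namespace Pool.Agent.SelDeg2

open Complex Filter Topology MeasureTheory
open Pool.Agent.SelPole Pool.Agent.SelTwo

noncomputable section

/-- The second moment of the coefficients at primes grows at most like a logarithm:
`∑_p |a(p)|^2 p^(-1-η) ≤ C (1 + log (1/η))` for `0 < η ≤ 1`. -/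
def MeanSquare (a : ℕ → ℂ) : Prop :=
  ∃ C : ℝ, ∀ η : ℝ, 0 < η → η ≤ 1 →
    Summable (fun p : Nat.Primes => ‖a p‖ ^ 2 * ((p : ℕ) : ℝ) ^ (-1 - η)) ∧
    ∑' p : Nat.Primes, ‖a p‖ ^ 2 * ((p : ℕ) : ℝ) ^ (-1 - η) ≤ C * (1 + Real.log (1 / η))

/-- a pole of order exactly `r ≥ 1` at `s = 1` with leading coefficient `R₀` -/
def HasPole (F : ℂ → ℂ) (r : ℕ) (R₀ : ℂ) : Prop :=
  1 ≤ r ∧ R₀ ≠ 0 ∧ Tendsto (fun s : ℂ => (s - 1) ^ r * F s) (𝓝[≠] 1) (𝓝 R₀)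

/-- `e(x) = exp(2 π i x)` -/
def ee (x : ℝ) : ℂ := exp (2 * Real.pi * I * x)

/-- `∑_n a(n) e(n α) n^(-1-η)` -/
def SS (a : ℕ → ℂ) (α η : ℝ) : ℂ := LSeries (fun n => a n * ee (n * α)) (1 + η)

/-- the twisted sequence `a(n) n^(iθ)` -/
def gth (θ : ℝ) (a : ℕ → ℂ) : ℕ → ℂ := fun n => a n * (n : ℂ) ^ ((θ : ℂ) * I)

/-- the modular relation in terms of Dirichlet series -/
structure Drel (a : ℕ → ℂ) (A₁ : ℂ) (κ θ : ℝ) : Prop where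
  A_ne : A₁ ≠ 0
  κ_pos : 0 < κ
  rel : ∀ α : ℝ, 0 < α → ∃ C : ℝ, ∀ η : ℝ, 0 < η → η ≤ 1 →
    ‖SS a α η - A₁ * (α : ℂ) ^ (1 + (θ : ℂ) * I) * (((α ^ 2 / κ) ^ η : ℝ) : ℂ) *
      (starRingEnd ℂ) (SS (gth θ a) (κ / α) η)‖ ≤ C

end

end Pool.Agent.SelDeg2
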