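import Pool.Agent.SelDeg2.TargetsB

/-!
# Part B, EP: the sum of a nonnegative multiplicative function
-/

set_option autoImplicit false

namespace Pool.Agent.SelDeg2

open Filter Topology

namespace EP_

theorem inj : Function.Injective (fun x : Nat.Primes × ℕ => (x.1 : ℕ) ^ (x.2 + 1)) := by
  rintro ⟨p, k⟩ ⟨q, l⟩ h
  simp only at h
  have hp := p.2
  have hq := q.2
  have h1 : (p : ℕ) ∣ (q : ℕ) ^ (l + 1) := by
    rw [← h]
    exact dvd_pow_self _ (Nat.succ_ne_zero k)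
  have h2 : (p : ℕ) = q := (Nat.prime_dvd_prime_iff_eq hp hq).1 (hp.dvd_of_dvd_pow h1)
  have h3 : p = q := Subtype.ext h2
  subst h3
  have h4 := Nat.pow_right_injective hp.two_le h
  have h5 : k = l := by simpa using h4
  rw [h5]

end EP_

theorem p_EP : T_EP := by
  intro h h0 hz h1 hm hs
  have hs1 : Summable (fun x : Nat.Primes × ℕ => h ((x.1 : ℕ) ^ (x.2 + 1))) :=
    hs.comp_injective EP_.inj
  refine ⟨hs1, ?_⟩
  have hn : Summable (fun n => ‖h n‖) := by
    simpa only [Real.norm_of_nonneg (h0 _)] using hs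
  have hprod := EulerProduct.eulerProduct_hasProd (f := h) h1 (fun {m n} hmn => hm m n hmn) hn hz
  have hsp : ∀ p : Nat.Primes, Summable (fun k : ℕ => h ((p : ℕ) ^ (k + 1))) := fun p =>
    hs1.comp_injective (i := fun k : ℕ => (p, k)) (fun a b hab => by simpa using hab)
  have hsp' : ∀ p : Nat.Primes, Summable (fun k : ℕ => h ((p : ℕ) ^ k)) := fun p =>
    (summable_nat_add_iff 1).1 (hsp p)
  have hfac : ∀ p : Nat.Primes, ∑' e, h ((p : ℕ) ^ e) ≤ Real.exp (∑' k, h ((p : ℕ) ^ (k + 1))) := by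
    intro p
    rw [(hsp' p).tsum_eq_zero_add, pow_zero, h1, add_comm]
    exact Real.add_one_le_exp _
  have hsig : HasSum (fun p : Nat.Primes => ∑' k, h ((p : ℕ) ^ (k + 1)))
      (∑' x : Nat.Primes × ℕ, h ((x.1 : ℕ) ^ (x.2 + 1))) :=
    hs1.hasSum.prod_fiberwise fun p => (hsp p).hasSum
  refine le_of_tendsto' hprod fun S => ?_
  calc ∏ p ∈ S, ∑' e, h ((p : ℕ) ^ e)
      ≤ ∏ p ∈ S, Real.exp (∑' k, h ((p : ℕ) ^ (k + 1))) :=
        Finset.prod_le_prod (fun p _ => tsum_nonneg fun _ => h0 _) fun p _ => hfac p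
    _ = Real.exp (∑ p ∈ S, ∑' k, h ((p : ℕ) ^ (k + 1))) := (Real.exp_sum _ _).symm
    _ ≤ Real.exp (∑' x : Nat.Primes × ℕ, h ((x.1 : ℕ) ^ (x.2 + 1))) := by
        refine Real.exp_le_exp.2 ?_
        exact sum_le_hasSum S (fun p _ => tsum_nonneg fun _ => h0 _) hsig

end Pool.Agent.SelDeg2
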