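import Pool.Agent.SelDeg2.TargetsC

/-!
# D-EXA: the values `H(p^k) = w^k` determine the Euler factor at `p`
-/

namespace Pool.Agent.SelDeg2

open Complex Filter Topology
open Pool.Agent.SelPole Pool.Agent.SelTwo

namespace EXA_

/-- the radius of convergence -/
lemma radius_le {d : ℕ → ℂ} {r : NNReal} (hs : Summable fun j => ‖d j‖ * (r : ℝ) ^ j) :
    (r : ENNReal) ≤ (FormalMultilinearSeries.ofScalars ℂ d).radius := by
  apply FormalMultilinearSeries.le_radius_of_summable_norm
  simp only [FormalMultilinearSeries.ofScalars_norm]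
  exact hs

lemma sum_eq (d : ℕ → ℂ) (z : ℂ) :
    (FormalMultilinearSeries.ofScalars ℂ d).sum z = ∑' j, d j * z ^ j := by
  have := FormalMultilinearSeries.ofScalars_sum_eq (𝕜 := ℂ) (E := ℂ) d z
  rw [show (FormalMultilinearSeries.ofScalars ℂ d).sum z =
    FormalMultilinearSeries.ofScalarsSum d z from rfl, this]
  simp only [smul_eq_mul]

lemma onBall {d : ℕ → ℂ} {r : NNReal} (hr : 0 < r)
    (hs : Summable fun j => ‖d j‖ * (r : ℝ) ^ j) :
    HasFPowerSeriesOnBall (fun z => ∑' j, d j * z ^ j) (FormalMultilinearSeries.ofScalars ℂ d) 0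
      (r : ENNReal) := by
  have h1 := radius_le hs
  have h0 : (0 : ENNReal) < (r : ENNReal) := ENNReal.coe_pos.2 hr
  have h2 := (FormalMultilinearSeries.ofScalars ℂ d).hasFPowerSeriesOnBall (lt_of_lt_of_le h0 h1)
  have h3 := h2.mono h0 h1
  have e : (FormalMultilinearSeries.ofScalars ℂ d).sum = fun z => ∑' j, d j * z ^ j :=
    funext (sum_eq d)
  rw [e] at h3
  exact h3

/-- If `exp (∑ d j z^j) = 1` near `0` and `d 0 = 0` then all coefficients vanish. -/
lemma coeff_zero {d : ℕ → ℂ} {r : NNReal} (hr : 0 < r)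
    (hs : Summable fun j => ‖d j‖ * (r : ℝ) ^ j)
    (h0 : d 0 = 0) (h : ∀ z : ℂ, ‖z‖ < r → exp (∑' j, d j * z ^ j) = 1) : ∀ j, d j = 0 := by
  have hB := onBall hr hs
  set D : ℂ → ℂ := fun z => ∑' j, d j * z ^ j with hD
  have hball : Metric.eball (0 : ℂ) (r : ENNReal) = Metric.ball 0 r := by
    rw [Metric.eball_coe]
  have hdiff : DifferentiableOn ℂ D (Metric.ball 0 r) := by
    have := hB.differentiableOn
    rwa [hball] at this
  have hrR : (0 : ℝ) < r := hr
  have hD0 : D 0 = 0 := by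
    rw [hD]
    simp only
    rw [tsum_eq_single 0]
    · simp [h0]
    · intro j hj
      simp [hj]
  have hder : ∀ z ∈ Metric.ball (0 : ℂ) r, deriv D z = 0 := by
    intro z hz
    have hzd : DifferentiableAt ℂ D z := hdiff.differentiableAt (Metric.isOpen_ball.mem_nhds hz)
    have h1 : HasDerivAt (fun z => exp (D z)) (exp (D z) * deriv D z) z := hzd.hasDerivAt.cexp
    have h2 : (fun z => exp (D z)) =ᶠ[𝓝 z] fun _ => 1 := by
      filter_upwards [Metric.isOpen_ball.mem_nhds hz] with y hy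
      exact h y (by simpa using hy)
    have h3 : HasDerivAt (fun z => exp (D z)) 0 z :=
      (hasDerivAt_const z (1 : ℂ)).congr_of_eventuallyEq h2
    have h4 := h1.unique h3
    rcases mul_eq_zero.1 h4 with h5 | h5
    · exact absurd h5 (exp_ne_zero _)
    · exact h5
  have hconst : ∀ z ∈ Metric.ball (0 : ℂ) r, D z = 0 := by
    intro z hz
    have h1 := (convex_ball (0 : ℂ) r).is_const_of_fderivWithin_eq_zero (𝕜 := ℂ) hdiff (by
      intro y hy
      rw [fderivWithin_of_isOpen Metric.isOpen_ball hy]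
      ext
      simp [hder y hy]) (Metric.mem_ball_self hrR) hz
    rw [← h1, hD0]
  have hz0 : D =ᶠ[𝓝 0] 0 := by
    filter_upwards [Metric.ball_mem_nhds (0 : ℂ) hrR] with z hz
    exact hconst z hz
  have h5 : HasFPowerSeriesAt (0 : ℂ → ℂ) (FormalMultilinearSeries.ofScalars ℂ d) 0 :=
    hB.hasFPowerSeriesAt.congr hz0
  have h6 := h5.eq_zero
  have h7 : d = 0 := (FormalMultilinearSeries.ofScalars_series_eq_zero (𝕜 := ℂ) ℂ).1 h6
  intro j
  rw [h7]
  rfl

lemma geom2 {w z : ℂ} (hw : ‖w‖ = 1) (hz : ‖z‖ < 1) :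
    ∑' j : ℕ, (∑ i ∈ Finset.range (j + 1), w ^ i) * z ^ j = (1 - w * z)⁻¹ * (1 - z)⁻¹ := by
  have hwz : ‖w * z‖ < 1 := by rw [norm_mul, hw, one_mul]; exact hz
  have s1 : Summable fun j : ℕ => ‖(w * z) ^ j‖ := by
    simp only [norm_pow]
    exact summable_geometric_of_lt_one (norm_nonneg _) hwz
  have s2 : Summable fun j : ℕ => ‖z ^ j‖ := by
    simp only [norm_pow]
    exact summable_geometric_of_lt_one (norm_nonneg _) hz
  have h := tsum_mul_tsum_eq_tsum_sum_range_of_summable_norm s1 s2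
  rw [tsum_geometric_of_norm_lt_one hwz, tsum_geometric_of_norm_lt_one hz] at h
  rw [h]
  congr 1
  funext j
  rw [Finset.sum_mul]
  apply Finset.sum_congr rfl
  intro i hi
  have hij : i ≤ j := Nat.lt_succ_iff.1 (Finset.mem_range.1 hi)
  rw [mul_pow, mul_assoc, ← pow_add, Nat.add_sub_cancel' hij]

end EXA_

open EXA_ in
/-- D-EXA -/
theorem p_EXA (hLOC : T_LOC) : T_EXA := by
  intro F a b hF p w hp hw hH
  have hp0 : (p : ℂ) ≠ 0 := by exact_mod_cast hp.ne_zero
  have hp1 : (p : ℂ) - 1 ≠ 0 := by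
    intro h
    have : (p : ℂ) = ((1 : ℕ) : ℂ) := by
      rw [Nat.cast_one]
      linear_combination h
    exact hp.one_lt.ne' (by exact_mod_cast this)
  have hpR : (2 : ℝ) ≤ p := by exact_mod_cast hp.two_le
  set q : ℂ := (p : ℂ)⁻¹ with hq
  have hqn : ‖q‖ ≤ 1 / p := by
    rw [hq, norm_inv, Complex.norm_natCast, one_div]
  have hqp : q * p = 1 := inv_mul_cancel₀ hp0
  have hcpow : ∀ j : ℕ, (p : ℂ) ^ (-((j : ℂ) * 1)) = q ^ j := by
    intro j
    rw [mul_one, cpow_neg, cpow_natCast, hq, inv_pow]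
  obtain ⟨hs, -, hexp⟩ := hLOC F a b hF p hp q hqn
  set c : ℕ → ℂ := fun j => a (p ^ j) * q ^ j with hc
  have hcs : Summable c := hs.of_norm
  set A : ℕ → ℂ := fun k => ∑' j, c (k + j) with hA
  have hAs : ∀ k, Summable fun j => c (k + j) := fun k => by
    have := (summable_nat_add_iff k).2 hcs
    simpa only [add_comm] using this
  have hAstep : ∀ k, A k = c k + A (k + 1) := by
    intro k
    rw [hA]
    simp only
    rw [(hAs k).tsum_eq_zero_add, add_zero]
    congr 1
    apply tsum_congr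
    intro j
    congr 1
    ring
  have hA0 : LpF a p 1 = A 0 := by
    unfold LpF
    rw [hA]
    apply tsum_congr
    intro j
    rw [hcpow, hc, zero_add]
  have hA0ne : A 0 ≠ 0 := by
    have : A 0 = ∑' j : ℕ, a (p ^ j) * q ^ j := by
      rw [hA]
      apply tsum_congr
      intro j
      rw [hc, zero_add]
    rw [this, hexp]
    exact exp_ne_zero _
  have hBr : ∀ k : ℕ, Br a p (k + 1) 1 = A (k + 1) - c k / ((p : ℂ) - 1) := by
    intro k
    unfold Br
    rw [hA]
    congr 1
    · apply tsum_congr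
      intro j
      rw [hcpow]
    · rw [hcpow, Nat.add_sub_cancel]
  set x : ℂ := w * q with hx
  have hrel : ∀ k : ℕ, A (k + 1) - c k / ((p : ℂ) - 1) = x ^ (k + 1) * A 0 := by
    intro k
    have h1 := hH (k + 1) (by omega)
    unfold HH at h1
    rw [hBr, hA0] at h1
    rw [hx, mul_pow, ← h1]
    have h2 : q ^ (k + 1) * (p : ℂ) ^ (k + 1) = 1 := by
      rw [← mul_pow, hqp, one_pow]
    field_simp
    linear_combination (-(A (k + 1) * (p - 1) - c k)) * h2
  have hck : ∀ k, c k = ((p : ℂ) - 1) * (A (k + 1) - x ^ (k + 1) * A 0) := by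
    intro k
    have h1 := hrel k
    have h2 : c k / ((p : ℂ) - 1) = A (k + 1) - x ^ (k + 1) * A 0 := by
      linear_combination -h1
    rw [← h2]
    field_simp
  have hrec : ∀ k, A (k + 1) = q * A k + (1 - q) * (x ^ (k + 1) * A 0) := by
    intro k
    have h1 := hAstep k
    rw [hck k] at h1
    have h2 : (p : ℂ) * A (k + 1) = A k + (p - 1) * (x ^ (k + 1) * A 0) := by
      linear_combination -h1
    calc A (k + 1) = (q * p) * A (k + 1) := by rw [hqp, one_mul]
      _ = q * ((p : ℂ) * A (k + 1)) := by ring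
      _ = q * (A k + (p - 1) * (x ^ (k + 1) * A 0)) := by rw [h2]
      _ = q * A k + (q * p - q) * (x ^ (k + 1) * A 0) := by ring
      _ = _ := by rw [hqp]
  have hck2 : ∀ k, c k = (1 - q) * (A k - x ^ (k + 1) * A 0) := by
    intro k
    rw [hck k, hrec k]
    have : ((p : ℂ) - 1) * (q * A k + (1 - q) * (x ^ (k + 1) * A 0) - x ^ (k + 1) * A 0) =
      (q * p - q) * (A k - x ^ (k + 1) * A 0) := by ring
    rw [this, hqp]
  have hdiff : ∀ k, A k - x ^ (k + 1) * A 0 =
      (1 - x) * A 0 * ∑ i ∈ Finset.range (k + 1), q ^ i * x ^ (k - i) := by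
    intro k
    induction k with
    | zero =>
      simp
      ring
    | succ k ih =>
      rw [Finset.sum_range_succ']
      have h1 : ∑ i ∈ Finset.range (k + 1), q ^ (i + 1) * x ^ (k + 1 - (i + 1)) =
          q * ∑ i ∈ Finset.range (k + 1), q ^ i * x ^ (k - i) := by
        rw [Finset.mul_sum]
        apply Finset.sum_congr rfl
        intro i _
        rw [Nat.add_sub_add_right, pow_succ]
        ring
      rw [h1, pow_zero, one_mul, Nat.sub_zero, mul_add]
      have h2 : (1 - x) * A 0 * (q * ∑ i ∈ Finset.range (k + 1), q ^ i * x ^ (k - i)) =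
          q * (A k - x ^ (k + 1) * A 0) := by
        rw [ih]
        ring
      rw [h2, hrec k]
      ring
  have hc0 : c 0 = 1 := by
    rw [hc]
    simp only [pow_zero, mul_one]
    exact hF.a_one
  have hnorm : (1 - q) * ((1 - x) * A 0) = 1 := by
    have h1 := hck2 0
    rw [hc0, hdiff 0, zero_add, Finset.sum_range_one, pow_zero, Nat.sub_zero, pow_zero, mul_one,
      mul_one] at h1
    exact h1.symm
  have hcj : ∀ j, c j = ∑ i ∈ Finset.range (j + 1), q ^ i * x ^ (j - i) := by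
    intro j
    rw [hck2 j, hdiff j]
    calc _ = ((1 - q) * ((1 - x) * A 0)) * ∑ i ∈ Finset.range (j + 1), q ^ i * x ^ (j - i) := by
          ring
      _ = _ := by rw [hnorm, one_mul]
  have haj : ∀ j : ℕ, a (p ^ j) = ∑ i ∈ Finset.range (j + 1), w ^ i := by
    intro j
    have h1 := hcj j
    have h2 : ∑ i ∈ Finset.range (j + 1), q ^ i * x ^ (j - i) =
        (∑ i ∈ Finset.range (j + 1), w ^ i) * q ^ j := by
      rw [← Finset.sum_range_reflect (fun i => w ^ i) (j + 1), Finset.sum_mul]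
      apply Finset.sum_congr rfl
      intro i hi
      have hij : i ≤ j := Nat.lt_succ_iff.1 (Finset.mem_range.1 hi)
      rw [hx, mul_pow, show j + 1 - 1 - i = j - i by omega]
      have : q ^ j = q ^ i * q ^ (j - i) := by rw [← pow_add, Nat.add_sub_cancel' hij]
      rw [this]
      ring
    rw [h2] at h1
    have hq0 : q ^ j ≠ 0 := pow_ne_zero _ (inv_ne_zero hp0)
    exact mul_right_cancel₀ hq0 h1
  refine ⟨haj, ?_⟩
  -- the logarithm
  have hr : (0 : ℝ) < 1 / p := by positivity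
  have hr1 : (1 : ℝ) / p < 1 := by
    rw [div_lt_one (by linarith)]
    linarith
  set d : ℕ → ℂ := fun j => b (p ^ j) - (1 + w ^ j) / j with hd
  set d' : ℕ → ℂ := fun j => if j = 0 then 0 else d j with hd'
  have hlogs : ∀ z : ℂ, ‖z‖ ≤ 1 / p →
      HasSum (fun j : ℕ => (1 + w ^ (j + 1)) / ((j + 1 : ℕ) : ℂ) * z ^ (j + 1))
        (-log (1 - z) + -log (1 - w * z)) := by
    intro z hz
    have hz1 : ‖z‖ < 1 := lt_of_le_of_lt hz hr1
    have hz2 : ‖w * z‖ < 1 := by rw [norm_mul, hw, one_mul]; exact hz1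
    have h1 := (hasSum_taylorSeries_neg_log hz1).add (hasSum_taylorSeries_neg_log hz2)
    have h2 := (hasSum_nat_add_iff' 1).2 h1
    simp only [Finset.range_one, Finset.sum_singleton, Nat.cast_zero, div_zero, add_zero,
      sub_zero] at h2
    have e : (fun j : ℕ => (1 + w ^ (j + 1)) / ((j + 1 : ℕ) : ℂ) * z ^ (j + 1)) =
        fun j : ℕ => z ^ (j + 1) / ((j + 1 : ℕ) : ℂ) + (w * z) ^ (j + 1) / ((j + 1 : ℕ) : ℂ) := by
      funext j
      rw [mul_pow]
      ring
    rw [e]
    exact h2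
  have hsumd : ∀ z : ℂ, ‖z‖ ≤ 1 / p → Summable fun j : ℕ => d (j + 1) * z ^ (j + 1) := by
    intro z hz
    have h1 := (hLOC F a b hF p hp z hz).2.1.of_norm
    have h2 := h1.sub (hlogs z hz).summable
    refine h2.congr fun j => ?_
    rw [hd]
    ring
  have hexp1 : ∀ z : ℂ, ‖z‖ ≤ 1 / p → exp (∑' j : ℕ, d (j + 1) * z ^ (j + 1)) = 1 := by
    intro z hz
    have hz1 : ‖z‖ < 1 := lt_of_le_of_lt hz hr1
    have hz2 : ‖w * z‖ < 1 := by rw [norm_mul, hw, one_mul]; exact hz1
    obtain ⟨-, k2, k3⟩ := hLOC F a b hF p hp z hz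
    have e1 : ∑' j : ℕ, d (j + 1) * z ^ (j + 1) =
        ∑' j : ℕ, b (p ^ (j + 1)) * z ^ (j + 1) - (-log (1 - z) + -log (1 - w * z)) := by
      rw [← (hlogs z hz).tsum_eq, ← k2.of_norm.tsum_sub (hlogs z hz).summable]
      apply tsum_congr
      intro j
      rw [hd]
      ring
    have n1 : (1 : ℂ) - z ≠ 0 := by
      intro h
      rw [sub_eq_zero] at h
      rw [← h, norm_one] at hz1
      exact lt_irrefl _ hz1
    have n2 : (1 : ℂ) - w * z ≠ 0 := by
      intro h
      rw [sub_eq_zero] at h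
      rw [← h, norm_one] at hz2
      exact lt_irrefl _ hz2
    rw [e1, exp_sub, ← k3, exp_add, exp_neg, exp_neg, exp_log n1, exp_log n2]
    have e2 : ∑' j : ℕ, a (p ^ j) * z ^ j = (1 - w * z)⁻¹ * (1 - z)⁻¹ := by
      rw [← geom2 hw hz1]
      apply tsum_congr
      intro j
      rw [haj]
    rw [e2]
    field_simp
  have hsum' : ∀ z : ℂ, ‖z‖ ≤ 1 / p → Summable fun j : ℕ => d' j * z ^ j := by
    intro z hz
    rw [← summable_nat_add_iff 1]
    refine (hsumd z hz).congr fun j => ?_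
    rw [hd']
    simp
  have htsum' : ∀ z : ℂ, ‖z‖ ≤ 1 / p →
      ∑' j : ℕ, d' j * z ^ j = ∑' j : ℕ, d (j + 1) * z ^ (j + 1) := by
    intro z hz
    rw [(hsum' z hz).tsum_eq_zero_add]
    have : d' 0 = 0 := by rw [hd']; simp
    rw [this, zero_mul, zero_add]
    apply tsum_congr
    intro j
    rw [hd']
    simp
  have key := coeff_zero (d := d') (r := ⟨1 / p, hr.le⟩) hr (by
    have h1 := (hsum' ((1 / p : ℝ) : ℂ) (by
      rw [Complex.norm_real, Real.norm_eq_abs, abs_of_pos hr])).norm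
    refine h1.congr fun j => ?_
    rw [norm_mul, norm_pow, Complex.norm_real, Real.norm_eq_abs, abs_of_pos hr]
    rfl) (by rw [hd']; simp) (by
    intro z hz
    have hz' : ‖z‖ ≤ 1 / p := le_of_lt hz
    rw [htsum' z hz']
    exact hexp1 z hz')
  intro j hj
  have h1 := key j
  have hj0 : j ≠ 0 := by omega
  rw [hd'] at h1
  simp only [hj0, if_false] at h1
  rw [hd] at h1
  simp only at h1
  exact sub_eq_zero.1 h1

end Pool.Agent.SelDeg2
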