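import Pool.Agent.SelDeg2.TargetsC

/-!
# Degree 2 with a pole (MP_995735_nt), part B: irrational points, and the Mellin step of part A

Exact targets (helper72). Proofs in `BlueprintB.lean.txt`. One file per target,
`Pool/Agent/SelDeg2/<X>.lean`, theorem `p_X (deps) : T_X`.
-/

namespace Pool.Agent.SelDeg2

open Complex Filter Topology MeasureTheory
open Pool.Agent.SelPole Pool.Agent.SelTwo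

noncomputable section

/-! ## The Mellin step of part A -/

/-- A-MEL: the Mellin transform of `lam c (pX α ·)` over `(0, Y]` -/
def T_MEL : Prop := ∀ (c : ℕ → ℂ) (α Y : ℝ), (∀ s : ℂ, 1 < s.re → LSeriesSummable c s) → 0 < Y →
  ∃ K : ℝ, ∀ η : ℝ, 0 < η → η ≤ 1 →
    IntegrableOn (fun y : ℝ => lam c (pX α y) * ((y ^ η : ℝ) : ℂ)) (Set.Ioc 0 Y) ∧
    ‖(∫ y in Set.Ioc (0 : ℝ) Y, lam c (pX α y) * ((y ^ η : ℝ) : ℂ)) -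
      (((2 * Real.pi) ^ (-1 - η) * Real.Gamma (1 + η) : ℝ) : ℂ) * SS c α η‖ ≤ K

/-- A-PT: the relation with the base point and the height moved -/
def T_PT : Prop := ∀ (a : ℕ → ℂ) (A₁ : ℝ) (A : ℂ) (q θ α C : ℝ),
  (∀ n : ℕ, 1 ≤ n → ‖a n‖ ≤ A₁ * (n : ℝ) ^ (1 / 2 : ℝ)) → 0 < q → 0 < α →
  (∀ y : ℝ, 0 < y → y ≤ 1 →
    ‖lam a (pX α y) - A / pX α y * (4 * Real.pi ^ 2 / (q * pX α y)) ^ (-((θ : ℂ) * I)) *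
      lam (tw θ (cj a)) (4 * Real.pi ^ 2 / (q * pX α y))‖ ≤ C * y ^ (-(3 / 4) : ℝ)) →
  ∃ C' : ℝ, ∀ y : ℝ, 0 < y → y ≤ 1 →
    ‖lam a (pX α y) - A / (-(2 * Real.pi * I * α)) *
      (2 * Real.pi * I / (q * α)) ^ (-((θ : ℂ) * I)) *
      lam (tw θ (cj a)) (pX (-1 / (q * α)) (y / (q * α ^ 2)))‖ ≤ C' * y ^ (-(3 / 4) : ℝ)

/-! ## Part B -/

/-- the weight `n^(-1-η)` -/
def wt (η : ℝ) (n : ℕ) : ℝ := (n : ℝ) ^ (-1 - η)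

/-- the data used in part B -/
structure MD (g : ℕ → ℂ) : Prop where
  one : g 1 = 1
  mul : ∀ m n : ℕ, m.Coprime n → g (m * n) = g m * g n
  small : ∀ ε : ℝ, 0 < ε → ∃ C : ℝ, ∀ n : ℕ, 1 ≤ n → ‖g n‖ ≤ C * (n : ℝ) ^ ε
  ms : MeanSquare g

/-- B-MDG -/
def T_MDG : Prop := ∀ (F : ℂ → ℂ) (a b : ℕ → ℂ) (θ : ℝ), IsSelberg F a b → MeanSquare a →
  MD (gth θ a)

/-- B-EP: upper bound for the sum of a nonnegative multiplicative function -/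
def T_EP : Prop := ∀ h : ℕ → ℝ, (∀ n, 0 ≤ h n) → h 0 = 0 → h 1 = 1 →
  (∀ m n : ℕ, m.Coprime n → h (m * n) = h m * h n) → Summable h →
  Summable (fun x : Nat.Primes × ℕ => h ((x.1 : ℕ) ^ (x.2 + 1))) ∧
  ∑' n, h n ≤ Real.exp (∑' x : Nat.Primes × ℕ, h ((x.1 : ℕ) ^ (x.2 + 1)))

/-- B-EPS: the same for finite sets of smooth numbers -/
def T_EPS : Prop := ∀ h : ℕ → ℝ, (∀ n, 0 ≤ h n) → h 1 = 1 →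
  (∀ m n : ℕ, m.Coprime n → h (m * n) = h m * h n) →
  (∀ p : ℕ, p.Prime → Summable (fun k : ℕ => h (p ^ k))) →
  ∀ (P : ℕ) (T : Finset ℕ), (∀ n ∈ T, n ≠ 0 ∧ ∀ p : ℕ, p.Prime → p ∣ n → p ≤ P) →
  ∑ n ∈ T, h n ≤ Real.exp (∑ p ∈ (Finset.range (P + 1)).filter Nat.Prime, ∑' k : ℕ, h (p ^ (k + 1)))

/-- B-MOM2: the second moment -/
def T_MOM2 : Prop := ∀ g : ℕ → ℂ, MD g → ∃ C K : ℝ, 0 ≤ C ∧ 0 ≤ K ∧ ∀ η : ℝ, 0 < η → η ≤ 1 →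
  Summable (fun n : ℕ => ‖g n‖ ^ 2 * wt η n) ∧ ∑' n : ℕ, ‖g n‖ ^ 2 * wt η n ≤ C * (1 / η) ^ K

/-- B-MOM1: the first moment -/
def T_MOM1 : Prop := ∀ g : ℕ → ℂ, MD g → ∃ C K : ℝ, 0 ≤ C ∧ 0 ≤ K ∧ ∀ η : ℝ, 0 < η → η ≤ 1 →
  Summable (fun n : ℕ => ‖g n‖ * wt η n) ∧ ∑' n : ℕ, ‖g n‖ * wt η n ≤ C * (1 / η) ^ K

/-- B-PM1: the first moment over the primes -/
def T_PM1 : Prop := ∀ g : ℕ → ℂ, MeanSquare g → ∃ C : ℝ, 0 ≤ C ∧ ∀ η : ℝ, 0 < η → η ≤ 1 →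
  Summable (fun p : Nat.Primes => ‖g p‖ * wt η p) ∧
  ∑' p : Nat.Primes, ‖g p‖ * wt η p ≤ C * (1 + Real.log (1 / η))

/-- B-HAR: harmonic sums -/
def T_HAR : Prop := ∀ g : ℕ → ℂ, MD g → ∃ C K : ℝ, 0 ≤ C ∧ 0 ≤ K ∧ ∀ M : ℕ, 1 ≤ M →
  ∑ m ∈ Finset.Icc 1 M, ‖g m‖ / m ≤ C * (1 + Real.log M) ^ K

/-- B-SMO: sums over smooth numbers -/
def T_SMO : Prop := ∀ g : ℕ → ℂ, MD g → ∃ C K : ℝ, 0 ≤ C ∧ 0 ≤ K ∧ ∀ P : ℕ, 1 ≤ P →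
  ∀ T : Finset ℕ, (∀ n ∈ T, n ≠ 0 ∧ ∀ p : ℕ, p.Prime → p ∣ n → p ≤ P) →
  ∑ n ∈ T, ‖g n‖ / n ≤ C * (1 + Real.log P) ^ K

/-- B-DIO: an irrational number has long gaps in its approximations -/
def T_DIO : Prop := ∀ κ : ℝ, Irrational κ → ∀ N : ℕ, ∃ J : ℕ, N ≤ J ∧ 1 ≤ J ∧
  ∀ j : ℕ, 1 ≤ j → j ≤ J → ∀ z : ℤ, 1 / (4 * (J + 1) : ℝ) ≤ |j * κ - z|

/-- B-GEO: a geometric sum with a monotone weight -/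
def T_GEO : Prop := ∀ (β δ η : ℝ) (M₀ M : ℕ), 0 < δ → 0 < η → η ≤ 1 → 1 ≤ M₀ →
  (∀ z : ℤ, δ ≤ |β - z|) →
  ‖∑ m ∈ Finset.Ioc M₀ M, ((wt η m : ℝ) : ℂ) * ee (m * β)‖ ≤ 1 / (δ * M₀)

/-- B-SPC: spacing -/
def T_SPC : Prop := ∀ (κ β δ η : ℝ) (J P₀ : ℕ), 0 < δ → 0 < η → η ≤ 1 → 1 ≤ J → 1 ≤ P₀ →
  (∀ j : ℕ, 1 ≤ j → j ≤ J → ∀ z : ℤ, 2 * δ ≤ |j * κ - z|) →
  ∀ A : Finset ℕ, (∀ n ∈ A, P₀ < n ∧ ∃ z : ℤ, |n * κ - β - z| < δ) →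
  ∑ n ∈ A, wt η n ≤ 1 / P₀ + 2 / (J * η)

/-- the factor in the bilinear estimate -/
def BF (η δ : ℝ) (J P₀ M₀ : ℕ) : ℝ :=
  (2 / η) * (1 / P₀ + 2 / (J * η)) + 2 / (δ * M₀ * η)

/-- B-BIL: the bilinear estimate -/
def T_BIL : Prop := ∀ (κ δ η : ℝ) (J P₀ M₀ M : ℕ), 0 < δ → 0 < η → η ≤ 1 → 1 ≤ J → 1 ≤ P₀ →
  1 ≤ M₀ → (∀ j : ℕ, 1 ≤ j → j ≤ J → ∀ z : ℤ, 2 * δ ≤ |j * κ - z|) →
  ∀ (c d : ℕ → ℂ) (A : Finset ℕ), (∀ n ∈ A, P₀ < n) →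
  ‖∑ n ∈ A, ∑ m ∈ Finset.Ioc M₀ M, c n * d m * ee ((n * m : ℕ) * κ) *
    ((wt η n * wt η m : ℝ) : ℂ)‖ ^ 2 ≤
    (∑ m ∈ Finset.Ioc M₀ M, ‖d m‖ ^ 2 * wt η m) * (∑ n ∈ A, ‖c n‖ ^ 2 * wt η n) *
      BF η δ J P₀ M₀

/-- B-GRP: grouping a double sum by the product -/
def T_GRP : Prop := ∀ v : ℕ × ℕ → ℂ, Summable v → (∀ n, v (0, n) = 0 ∧ v (n, 0) = 0) →
  HasSum (fun n : ℕ => ∑ x ∈ n.divisorsAntidiagonal, v x) (∑' x, v x)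

/-- B-DVP: sums over multiples of a prime and of its square -/
def T_DVP : Prop := ∀ g : ℕ → ℂ, MD g → ∃ C : ℝ, 0 ≤ C ∧ ∀ (p : ℕ) (η : ℝ), p.Prime → 0 < η →
  η ≤ 1 →
  ∑' n : ℕ, (if p ∣ n then ‖g n‖ * wt η n else 0) ≤
    C * (p : ℝ) ^ (-(3 / 4) : ℝ) * ∑' n : ℕ, ‖g n‖ * wt η n ∧
  ∑' n : ℕ, (if p ^ 2 ∣ n then ‖g n‖ * wt η n else 0) ≤
    C * (p : ℝ) ^ (-(3 / 2) : ℝ) * ∑' n : ℕ, ‖g n‖ * wt η n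

/-- the number of prime factors larger than `P₀` -/
def om (P₀ n : ℕ) : ℕ := (n.primeFactors.filter (fun p => P₀ < p)).card

/-- `g` restricted to the primes larger than `P₀` -/
def uu (g : ℕ → ℂ) (P₀ n : ℕ) : ℂ := if n.Prime ∧ P₀ < n then g n else 0

/-- `g(m)/(om(m)+1)` -/
def dm (g : ℕ → ℂ) (P₀ m : ℕ) : ℂ := g m / ((om P₀ m : ℂ) + 1)

/-- the exceptional terms -/
def EE (g : ℕ → ℂ) (P₀ n : ℕ) : ℝ := open Classical in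
  if ∃ p : ℕ, p.Prime ∧ P₀ < p ∧ p ^ 2 ∣ n then
    ‖g n‖ + ∑ x ∈ n.divisorsAntidiagonal, ‖uu g P₀ x.1‖ * ‖g x.2‖ else 0

/-- B-RID: the identity of Ramare -/
def T_RID : Prop := ∀ (g : ℕ → ℂ) (P₀ n : ℕ), MD g → 1 ≤ n →
  ‖g n - ((if om P₀ n = 0 then g n else 0) +
    ∑ x ∈ n.divisorsAntidiagonal, uu g P₀ x.1 * dm g P₀ x.2)‖ ≤ EE g P₀ n

/-- B-EE: the exceptional terms are small -/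
def T_EE : Prop := ∀ g : ℕ → ℂ, MD g → ∃ C K : ℝ, 0 ≤ C ∧ 0 ≤ K ∧ ∀ (η : ℝ) (P₀ : ℕ), 0 < η →
  η ≤ 1 → 1 ≤ P₀ → Summable (fun n : ℕ => EE g P₀ n * wt η n) ∧
  ∑' n : ℕ, EE g P₀ n * wt η n ≤ C * (1 / η) ^ K * (P₀ : ℝ) ^ (-(1 / 4) : ℝ)

/-- B-RAM: the bound for the twisted series -/
def T_RAM : Prop := ∀ (g : ℕ → ℂ) (κ : ℝ), MD g → ∃ C K : ℝ, 0 ≤ C ∧ 0 ≤ K ∧
  ∀ (δ η : ℝ) (J P₀ M₀ : ℕ), 0 < δ → 0 < η → η ≤ 1 → 1 ≤ J → 1 ≤ P₀ → 1 ≤ M₀ →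
  (∀ j : ℕ, 1 ≤ j → j ≤ J → ∀ z : ℤ, 2 * δ ≤ |j * κ - z|) →
  ‖SS g κ η‖ ≤ C * (1 + Real.log P₀) ^ K + C * (1 + Real.log M₀) ^ K * (1 + Real.log (1 / η)) +
    C * (1 / η) ^ K * (P₀ : ℝ) ^ (-(1 / 4) : ℝ) + C * (1 / η) ^ K * Real.sqrt (BF η δ J P₀ M₀)

/-- B-IRR: at an irrational point the twisted series is small on a sequence -/
def T_IRR : Prop := ∀ (g : ℕ → ℂ) (κ : ℝ), MD g → Irrational κ → ∀ ε δ : ℝ, 0 < ε → 0 < δ →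
  ∃ η : ℝ, 0 < η ∧ η < δ ∧ η ≤ 1 ∧ η * ‖SS g κ η‖ < ε

/-- B-RAT: the relation at `α = 1` and the pole force `κ` to be rational -/
def T_KRAT : Prop := ∀ (F : ℂ → ℂ) (a b : ℕ → ℂ) (r : ℕ) (R₀ A₁ : ℂ) (κ θ : ℝ),
  IsSelberg F a b → HasPole F r R₀ → MeanSquare a → Drel a A₁ κ θ → ¬ Irrational κ

end

end Pool.Agent.SelDeg2
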