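import Pool.Agent.SelDeg2.TargetsA
import Pool.Agent.SelDeg2.TargetsB
import Pool.Agent.SelDeg2.CDall

/-!
# Functions of degree 2 in the Selberg class with a pole at `s = 1`: the classification
-/

namespace Pool.Agent.SelDeg2

open Complex Filter Topology
open Pool.Agent.SelPole Pool.Agent.SelTwo

/-- The classification, from the modular relation and the rationality of `κ`. -/
theorem classification (hDREL : T_DREL) (hKRAT : T_KRAT) {F : ℂ → ℂ} {a b : ℕ → ℂ} {r : ℕ}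
    (hF : IsSelberg F a b) (hdeg : DegreeTwo F) (hMS : MeanSquare a) (hr : 1 ≤ r)
    (hpole : meromorphicOrderAt F 1 = ((-(r : ℤ) : ℤ) : WithTop ℤ)) :
    (r = 2 ∧ ∀ s : ℂ, s ≠ 1 → F s = riemannZeta s ^ 2) ∨
    (r = 1 ∧ ∃ (q : ℕ) (_ : NeZero q) (χ : DirichletCharacter ℂ q) (θ : ℝ),
      χ.IsPrimitive ∧ χ ≠ 1 ∧ ∀ s : ℂ, s ≠ 1 →
        F s = riemannZeta s * DirichletCharacter.LFunction χ (s + θ * I)) := by
  obtain ⟨Q, k, l, m, w, hFE, hl⟩ := hdeg
  have hl1 : ∑ j, l j = 1 := by linarith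
  obtain ⟨R₀, hP⟩ := p_MER F a b r hF hr hpole
  obtain ⟨A, κ, hD⟩ := hDREL F a b Q k l m w hF hFE hl1
  set θ : ℝ := 2 * ∑ j, (m j).im with hθ
  have hκ : ¬ Irrational κ := hKRAT F a b r R₀ A κ θ hF hP hMS hD
  obtain ⟨N, hN, χ, hcase, hb⟩ := all_CD F a b r R₀ A κ θ hF hP hMS hD hκ
  have hfin := all_FIN2 F a b N θ χ hF hb
  rcases hcase with ⟨hr2, hθ0, hχ⟩ | ⟨hr1, hχ⟩
  · exact Or.inl ⟨hr2, hfin.1 ⟨hχ, hθ0⟩⟩
  · obtain ⟨f, hf, χ', hprim, hne, h⟩ := hfin.2 hχ
    exact Or.inr ⟨hr1, f, hf, χ', θ, hprim, hne, h⟩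

/-! ## Products -/

/-- `F = ζ^k E` with `E` entire, off `s = 1`. -/
def ZetaTimes (F : ℂ → ℂ) : Prop :=
  ∃ (k : ℕ) (E : ℂ → ℂ), Differentiable ℂ E ∧ ∀ s : ℂ, s ≠ 1 → F s = riemannZeta s ^ k * E s

theorem ZetaTimes.mul {F G : ℂ → ℂ} (hF : ZetaTimes F) (hG : ZetaTimes G) :
    ZetaTimes (fun s => F s * G s) := by
  obtain ⟨k, E, hE, h1⟩ := hF
  obtain ⟨l, D, hD, h2⟩ := hG
  refine ⟨k + l, fun s => E s * D s, hE.mul hD, fun s hs => ?_⟩
  simp only [h1 s hs, h2 s hs]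
  ring

theorem zetaTimes_one : ZetaTimes (fun _ => 1) :=
  ⟨0, fun _ => 1, differentiable_const _, fun s _ => by simp⟩

theorem zetaTimes_prod {ι : Type*} (S : Finset ι) (G : ι → ℂ → ℂ) (h : ∀ i ∈ S, ZetaTimes (G i)) :
    ZetaTimes (fun s => ∏ i ∈ S, G i s) := by
  classical
  induction S using Finset.induction_on with
  | empty => simpa using zetaTimes_one
  | insert i S hi ih =>
    have h1 := ih (fun j hj => h j (Finset.mem_insert_of_mem hj))
    have h2 := (h i (Finset.mem_insert_self i S)).mul h1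
    simpa [Finset.prod_insert hi] using h2

/-- A function with `(s-1)^m F(s)` entire and nonnegative order at `1` extends to an entire
function. -/
theorem ext_of_nonneg {F : ℂ → ℂ} {m : ℕ} {g : ℂ → ℂ} (hg : Differentiable ℂ g)
    (h : ∀ s : ℂ, s ≠ 1 → g s = (s - 1) ^ m * F s) (ho : 0 ≤ meromorphicOrderAt F 1) :
    ∃ E : ℂ → ℂ, Differentiable ℂ E ∧ ∀ s : ℂ, s ≠ 1 → F s = E s := by
  have hF : ∀ s : ℂ, s ≠ 1 → F s = g s / (s - 1) ^ m := by
    intro s hs
    rw [h s hs, mul_div_cancel_left₀ _ (pow_ne_zero _ (sub_ne_zero.2 hs))]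
  have hmer : MeromorphicAt F 1 := by
    have h1 : MeromorphicAt (fun s => g s / (s - 1) ^ m) 1 :=
      (hg.analyticAt 1).meromorphicAt.div ((analyticAt_id.sub analyticAt_const).pow m).meromorphicAt
    refine h1.congr ?_
    filter_upwards [self_mem_nhdsWithin] with s hs
    exact (hF s hs).symm
  obtain ⟨c, hc⟩ := tendsto_nhds_of_meromorphicOrderAt_nonneg hmer ho
  have hd : ∀ z : ℂ, z ≠ 1 → DifferentiableAt ℂ (Function.update F 1 c) z := by
    intro z hz
    have h1 : DifferentiableAt ℂ (fun s => g s / (s - 1) ^ m) z :=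
      (hg z).div ((differentiableAt_id.sub_const 1).pow m) (pow_ne_zero _ (sub_ne_zero.2 hz))
    refine h1.congr_of_eventuallyEq ?_
    filter_upwards [isOpen_ne.mem_nhds hz] with w hw
    rw [Function.update_of_ne hw, hF w hw]
  refine ⟨Function.update F 1 c, fun s => ?_, fun s hs => (Function.update_of_ne hs _ _).symm⟩
  by_cases hs : s = 1
  · rw [hs]
    refine (Complex.analyticAt_of_differentiable_on_punctured_nhds_of_continuousAt
      ?_ ?_).differentiableAt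
    · filter_upwards [self_mem_nhdsWithin] with z hz using hd z hz
    · exact continuousAt_update_same.mpr hc
  · exact hd s hs

/-- a function with `(s-1)^m F(s)` entire and nonnegative order at `1` -/
theorem zetaTimes_of_nonneg {F : ℂ → ℂ} {m : ℕ} {g : ℂ → ℂ} (hg : Differentiable ℂ g)
    (h : ∀ s : ℂ, s ≠ 1 → g s = (s - 1) ^ m * F s) (ho : 0 ≤ meromorphicOrderAt F 1) :
    ZetaTimes F := by
  obtain ⟨E, hE, h1⟩ := ext_of_nonneg hg h ho
  exact ⟨0, E, hE, fun s hs => by rw [h1 s hs, pow_zero, one_mul]⟩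

/-- `(s-1) ζ(s)` as an entire function -/
theorem exists_Z : ∃ Z : ℂ → ℂ, Differentiable ℂ Z ∧ Z 1 = 1 ∧
    ∀ s : ℂ, s ≠ 1 → Z s = (s - 1) * riemannZeta s := by
  have hd : ∀ z : ℂ, z ≠ 1 → DifferentiableAt ℂ
      (Function.update (fun s => (s - 1) * riemannZeta s) 1 1) z := by
    intro z hz
    have h1 : DifferentiableAt ℂ (fun s => (s - 1) * riemannZeta s) z :=
      (differentiableAt_id.sub_const 1).mul (differentiableAt_riemannZeta hz)
    refine h1.congr_of_eventuallyEq ?_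
    filter_upwards [isOpen_ne.mem_nhds hz] with w hw
    exact Function.update_of_ne hw _ _
  refine ⟨Function.update (fun s => (s - 1) * riemannZeta s) 1 1, fun s => ?_, by simp,
    fun s hs => Function.update_of_ne hs _ _⟩
  by_cases hs : s = 1
  · rw [hs]
    refine (Complex.analyticAt_of_differentiable_on_punctured_nhds_of_continuousAt
      ?_ ?_).differentiableAt
    · filter_upwards [self_mem_nhdsWithin] with z hz using hd z hz
    · exact continuousAt_update_same.mpr riemannZeta_residue_one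
  · exact hd s hs

/-- the order of `ζ^k E` at `1` -/
theorem order_zeta_pow_mul {E : ℂ → ℂ} (hE : Differentiable ℂ E) (k : ℕ) :
    meromorphicOrderAt (fun s => riemannZeta s ^ k * E s) 1 =
      ((-(k : ℤ) : ℤ) : WithTop ℤ) + meromorphicOrderAt E 1 := by
  obtain ⟨Z, hZ, hZ1, hZe⟩ := exists_Z
  have hζ : ∀ᶠ s in 𝓝[≠] (1 : ℂ), riemannZeta s ^ k = (s - 1) ^ (-(k : ℤ)) • (Z s ^ k) := by
    filter_upwards [self_mem_nhdsWithin] with s hs
    have h1 : s - 1 ≠ 0 := sub_ne_zero.2 hs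
    rw [hZe s hs, mul_pow, smul_eq_mul, zpow_neg, zpow_natCast, ← mul_assoc,
      inv_mul_cancel₀ (pow_ne_zero _ h1), one_mul]
  have hZan : AnalyticAt ℂ (fun s => Z s ^ k) 1 := (hZ.analyticAt 1).pow k
  have hmer : MeromorphicAt (fun s => riemannZeta s ^ k) 1 := by
    have h1 : MeromorphicAt (fun s : ℂ => (s - 1) ^ (-(k : ℤ)) • (Z s ^ k)) 1 :=
      (((MeromorphicAt.id 1).sub (MeromorphicAt.const 1 1)).zpow _).smul hZan.meromorphicAt
    exact h1.congr (hζ.mono (fun s hs => hs.symm))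
  have hord : meromorphicOrderAt (fun s => riemannZeta s ^ k) 1 =
      ((-(k : ℤ) : ℤ) : WithTop ℤ) :=
    (meromorphicOrderAt_eq_int_iff hmer).2 ⟨fun s => Z s ^ k, hZan, by simp [hZ1], hζ⟩
  rw [← hord]
  exact meromorphicOrderAt_mul hmer (hE.analyticAt 1).meromorphicAt

/-- The order of the pole is the exponent of zeta. -/
theorem ZetaTimes.of_order {F : ℂ → ℂ} (hF : ZetaTimes F) {r : ℕ}
    (ho : meromorphicOrderAt F 1 = ((-(r : ℤ) : ℤ) : WithTop ℤ)) :
    ∃ L₁ : ℂ → ℂ, Differentiable ℂ L₁ ∧ ∀ s : ℂ, s ≠ 1 → F s = riemannZeta s ^ r * L₁ s := by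
  obtain ⟨k, E, hE, hFE⟩ := hF
  have hcongr : F =ᶠ[𝓝[≠] 1] fun s => riemannZeta s ^ k * E s := by
    filter_upwards [self_mem_nhdsWithin] with s hs using hFE s hs
  rw [meromorphicOrderAt_congr hcongr, order_zeta_pow_mul hE] at ho
  have hE0 : 0 ≤ meromorphicOrderAt E 1 := (hE.analyticAt 1).meromorphicOrderAt_nonneg
  -- the order of `E`
  obtain ⟨e, he⟩ : ∃ e : ℤ, meromorphicOrderAt E 1 = (e : WithTop ℤ) := by
    cases h : meromorphicOrderAt E 1 with
    | top => rw [h, WithTop.add_top] at ho; exact absurd ho WithTop.top_ne_coe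
    | coe e => exact ⟨e, rfl⟩
  rw [he] at ho hE0
  have ho' : -(k : ℤ) + e = -(r : ℤ) := by exact_mod_cast ho
  have he0 : 0 ≤ e := by exact_mod_cast hE0
  obtain ⟨n, rfl⟩ : ∃ n : ℕ, k = r + n := ⟨k - r, by omega⟩
  obtain ⟨Z, hZ, hZ1, hZe⟩ := exists_Z
  have hL : meromorphicOrderAt (fun s => riemannZeta s ^ n * E s) 1 = 0 := by
    rw [order_zeta_pow_mul hE, he]
    have h1 : -(n : ℤ) + e = 0 := by push_cast at ho'; omega
    rw [← WithTop.coe_add, h1]
    rfl
  obtain ⟨L, hLd, hLe⟩ := ext_of_nonneg (F := fun s => riemannZeta s ^ n * E s) (m := n)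
    (g := fun s => Z s ^ n * E s) ((hZ.pow n).mul hE) (fun s hs => by
      rw [hZe s hs, mul_pow]
      ring) hL.ge
  refine ⟨L, hLd, fun s hs => ?_⟩
  rw [← hLe s hs, hFE s hs]
  ring

/-- The case of products. -/
theorem products (hDREL : T_DREL) (hKRAT : T_KRAT) (n : ℕ) (G : Fin n → ℂ → ℂ)
    (hG : ∀ i, ∃ a b : ℕ → ℂ, IsSelberg (G i) a b ∧
      (0 ≤ meromorphicOrderAt (G i) 1 ∨ (∀ s : ℂ, s ≠ 1 → G i s = riemannZeta s) ∨
        (DegreeTwo (G i) ∧ MeanSquare a)))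
    (r : ℕ) (hr : meromorphicOrderAt (fun s => ∏ i, G i s) 1 = ((-(r : ℤ) : ℤ) : WithTop ℤ)) :
    ∃ L₁ : ℂ → ℂ, Differentiable ℂ L₁ ∧
      ∀ s : ℂ, s ≠ 1 → ∏ i, G i s = riemannZeta s ^ r * L₁ s := by
  refine ZetaTimes.of_order (zetaTimes_prod Finset.univ G (fun i _ => ?_)) hr
  obtain ⟨a, b, hS, hcase⟩ := hG i
  obtain ⟨m, g, hg, -, hgF⟩ := hS.continuation
  by_cases hpos : 0 ≤ meromorphicOrderAt (G i) 1
  · exact zetaTimes_of_nonneg hg hgF hpos
  rcases hcase with h0 | hz | ⟨hdeg, hMS⟩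
  · exact absurd h0 hpos
  · exact ⟨1, fun _ => 1, differentiable_const _, fun s hs => by rw [hz s hs]; ring⟩
  · -- the order is a negative integer
    obtain ⟨e, he⟩ : ∃ e : ℤ, meromorphicOrderAt (G i) 1 = (e : WithTop ℤ) := by
      cases h : meromorphicOrderAt (G i) 1 with
      | top => rw [h] at hpos; simp at hpos
      | coe e => exact ⟨e, rfl⟩
    have he0 : e < 0 := by
      rw [he] at hpos
      by_contra h
      exact hpos (by exact_mod_cast not_lt.1 h)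
    obtain ⟨k, hk, hk1⟩ : ∃ k : ℕ, e = -(k : ℤ) ∧ 1 ≤ k := ⟨e.natAbs, by omega, by omega⟩
    rw [hk] at he
    rcases classification hDREL hKRAT hS hdeg hMS hk1 he with ⟨-, h⟩ | ⟨-, q, hq, χ, θ, -, hχ, h⟩
    · exact ⟨2, fun _ => 1, differentiable_const _, fun s hs => by rw [h s hs]; ring⟩
    · refine ⟨1, fun s => DirichletCharacter.LFunction χ (s + θ * I), ?_, fun s hs => by
        rw [h s hs]; ring⟩
      exact (DirichletCharacter.differentiable_LFunction hχ).comp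
        (differentiable_id.add_const _)

end Pool.Agent.SelDeg2
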