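import Pool.Agent.SelTwo.FINAL
import Pool.Agent.SelDeg2.PM1

/-!
# Conditions that imply `MeanSquare`
-/

namespace Pool.Agent.SelDeg2

open Complex Filter Topology
open Pool.Agent.SelPole Pool.Agent.SelTwo Pool.Agent.SelTwo.LAN

/-- The Landau step with squares. -/
theorem landau_sq (h1 : T_ZB) (h2 : T_AP) {F : ℂ → ℂ} {a b : ℕ → ℂ} (hF : IsSelberg F a b)
    {c₀ : ℂ} (hc₀ : c₀ ≠ 0) (hlim : Tendsto (fun s => (s - 1) ^ 2 * F s) (𝓝[≠] 1) (𝓝 c₀))
    {E : Set ℕ} {κ : ℤ} (hthin : Thin E) (hκ : κ = 1 ∨ κ = -1)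
    (hpE0 : ∀ p : ℕ, p.Prime → p ∉ E → 0 ≤ κ * (2 - (a p).re))
    (hpE : ∀ ε : ℝ, 0 < ε → ∃ C : ℝ, ∀ p : ℕ, p.Prime → p ∉ E →
      ‖a p - 2‖ ^ 2 ≤ C * (p : ℝ) ^ ε * (κ * (2 - (a p).re))) :
    Summable (fun n : ℕ => open Classical in
      if n.Prime ∧ n ∉ E then ‖a n - 2‖ ^ 2 / n else 0) := by
  classical
  obtain ⟨η, hη, hE⟩ := hthin
  obtain ⟨hz0, hz2, hzp, hz⟩ := h1
  have hap : ∀ p : ℕ, p.Prime → a p = b p := h2 a b hF.b_supp hF.summable hF.log_summable
    (fun s hs => by rw [← hF.eq_series s hs, hF.log_series s hs])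
  have hb1 : ∀ ε : ℝ, 0 < ε → ∃ C : ℝ, ∀ p : ℕ, p.Prime → ‖b p‖ ≤ C * (p : ℝ) ^ ε := by
    intro ε hε
    obtain ⟨C, hC⟩ := hF.ramanujan ε hε
    refine ⟨C, fun p hp => ?_⟩
    rw [← hap p hp]
    exact hC p hp.one_lt.le
  obtain ⟨σ, hσ1, hbad⟩ := bad_summable hη hE hF.b_supp hz0 hz2 hb1 hF.b_bound
  obtain ⟨S, hS⟩ : ∃ S : Set ℕ, S = {n : ℕ | n.Prime ∧ n ∉ E} := ⟨_, rfl⟩
  rw [← hS] at hbad
  have hSm : ∀ n, n ∈ S → n.Prime ∧ n ∉ E := by
    intro n hn
    rw [hS] at hn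
    exact hn
  have hb2S : ∀ n ∈ S, 0 ≤ κ * (2 - (b n).re) := by
    intro n hn
    rw [← hap n (hSm n hn).1]
    exact hpE0 n (hSm n hn).1 (hSm n hn).2
  have hκ1 : |(κ : ℝ)| = 1 := by rcases hκ with h | h <;> rw [h] <;> norm_num
  have hκn : ‖(κ : ℂ)‖ = 1 := by rcases hκ with h | h <;> rw [h] <;> norm_num
  have hzS : ∀ n ∈ S, b2 n = 2 := by
    intro n hn
    have := hzp n 1 (hSm n hn).1 le_rfl
    rw [pow_one] at this
    rw [this]
    simp
  obtain ⟨c, hcd⟩ : ∃ c : ℕ → ℝ, c = fun n => if n ∈ S then 2 * (κ * (2 - (b n).re)) else 0 :=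
    ⟨_, rfl⟩
  obtain ⟨r, hrd⟩ : ∃ r : ℕ → ℂ, r = fun n => if n ∈ S then 0 else
      κ * (2 * b2 n - b n - cj b n) :=
    ⟨_, rfl⟩
  have hc0 : ∀ n, 0 ≤ c n := by
    intro n
    rw [hcd]
    simp only
    split_ifs with h
    · have h4 := hb2S n h
      linarith
    · exact le_rfl
  have hc8 : ∀ n, c n ≤ 4 + 2 * ‖b n‖ := by
    intro n
    rw [hcd]
    simp only
    split_ifs with h
    · have h3 := abs_re_le_norm (b n)
      have h4 : κ * (2 - (b n).re) ≤ 2 + ‖b n‖ := by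
        calc κ * (2 - (b n).re) ≤ |κ * (2 - (b n).re)| := le_abs_self _
          _ = |2 - (b n).re| := by rw [abs_mul, hκ1, one_mul]
          _ ≤ |2| + |(b n).re| := abs_sub _ _
          _ ≤ 2 + ‖b n‖ := by rw [abs_of_pos (by norm_num : (0 : ℝ) < 2)]; linarith
      linarith
    · positivity
  have hsum : (fun n => (c n : ℂ)) + r = (κ : ℂ) • ((2 : ℂ) • b2 - b - cj b) := by
    funext n
    simp only [Pi.add_apply, Pi.sub_apply, Pi.smul_apply, smul_eq_mul]
    rw [hcd, hrd]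
    simp only
    split_ifs with h
    · rw [hzS n h, add_zero]
      have h3 := Complex.add_conj (b n)
      unfold cj
      have h4 : (starRingEnd ℂ) (b n) = ((2 * (b n).re : ℝ) : ℂ) - b n := by
        rw [← h3]
        ring
      rw [h4]
      push_cast
      ring
    · simp
  have hbad0 : ∀ n, 0 ≤ Sᶜ.indicator (fun n => (‖b n‖ + ‖b2 n‖) * (n : ℝ) ^ (-σ)) n := by
    intro n
    apply Set.indicator_nonneg
    intro n _
    positivity
  have hr : LSeriesSummable r σ := by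
    refine Summable.of_norm_bounded (hbad.mul_left 2) (fun n => ?_)
    rw [LSeries.norm_term_eq]
    by_cases hn : n = 0
    · rw [if_pos hn]
      exact mul_nonneg (by norm_num) (hbad0 n)
    · rw [if_neg hn, ofReal_re]
      by_cases hnS : n ∈ S
      · rw [hrd]
        simp only [hnS, if_true, norm_zero, zero_div]
        exact mul_nonneg (by norm_num) (hbad0 n)
      · rw [Set.indicator_of_mem (Set.mem_compl hnS)]
        have h3 : ‖r n‖ ≤ 2 * (‖b n‖ + ‖b2 n‖) := by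
          rw [hrd]
          simp only [hnS, if_false]
          have h4 := norm_sub_le (2 * b2 n - b n) (cj b n)
          have h5 := norm_sub_le (2 * b2 n) (b n)
          have h6 : ‖cj b n‖ = ‖b n‖ := by
            unfold cj
            exact Complex.norm_conj _
          rw [norm_mul, Complex.norm_ofNat] at h5
          rw [norm_mul, hκn, one_mul]
          linarith
        rw [Real.rpow_neg (Nat.cast_nonneg n), ← div_eq_mul_inv, ← mul_div_assoc]
        exact div_le_div_of_nonneg_right h3 (Real.rpow_nonneg (Nat.cast_nonneg n) _)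
  have hrabs : LSeries.abscissaOfAbsConv r ≤ (σ : EReal) := by
    have := hr.abscissaOfAbsConv_le
    rwa [ofReal_re] at this
  have hrd' : ∀ s : ℂ, σ < s.re → DifferentiableAt ℂ (LSeries r) s := by
    intro s hs
    exact (LSeries_hasDerivAt (lt_of_le_of_lt hrabs (by exact_mod_cast hs))).differentiableAt
  have hrs : ∀ s : ℂ, 1 < s.re → LSeriesSummable r s := by
    intro s hs
    exact LSeriesSummable_of_abscissaOfAbsConv_lt_re
      (lt_of_le_of_lt hrabs (by exact_mod_cast (hσ1.trans hs)))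
  have hcs : ∀ s : ℂ, 1 < s.re → LSeriesSummable (fun n => (c n : ℂ)) s := by
    intro s hs
    have h3 : Summable fun n => ‖LSeries.term (fun _ => (4 : ℂ)) s n‖ :=
      (LSeriesSummable_of_bounded_of_one_lt_re (m := 4) (f := fun _ => (4 : ℂ))
        (fun n _ => by simp) hs).norm
    refine Summable.of_norm_bounded (h3.add ((hF.log_summable s hs).norm.mul_left 2)) (fun n => ?_)
    rw [LSeries.norm_term_eq, LSeries.norm_term_eq, LSeries.norm_term_eq]
    by_cases hn : n = 0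
    · simp [hn]
    · rw [if_neg hn, if_neg hn, if_neg hn, norm_real, Real.norm_eq_abs, abs_of_nonneg (hc0 n)]
      rw [← mul_div_assoc, ← add_div]
      refine div_le_div_of_nonneg_right ?_ (Real.rpow_nonneg (Nat.cast_nonneg n) _)
      have := hc8 n
      simpa using this
  have hcabs : LSeries.abscissaOfAbsConv (fun n => (c n : ℂ)) ≤ ((1 : ℝ) : EReal) := by
    refine LSeries.abscissaOfAbsConv_le_of_forall_lt_LSeriesSummable (fun y hy => ?_)
    exact hcs y (by simpa using hy)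
  -- the functions near `1`
  have hFd : ∀ z : ℂ, z ≠ 1 → DifferentiableAt ℂ F z := by
    intro z hz1
    obtain ⟨m, g, hg, -, hge⟩ := hF.continuation
    have h3 : DifferentiableAt ℂ (fun s => g s / (s - 1) ^ m) z := by
      refine (hg z).div ?_ (pow_ne_zero _ (sub_ne_zero.2 hz1))
      exact (differentiableAt_id.sub_const 1).pow m
    refine h3.congr_of_eventuallyEq ?_
    filter_upwards [isOpen_ne.mem_nhds hz1] with w hw
    rw [hge w hw, mul_div_cancel_left₀ _ (pow_ne_zero _ (sub_ne_zero.2 hw))]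
  obtain ⟨G, hGd⟩ : ∃ G : ℂ → ℂ, G = Function.update (fun s => (s - 1) ^ 2 * F s) 1 c₀ := ⟨_, rfl⟩
  obtain ⟨Z, hZd⟩ : ∃ Z : ℂ → ℂ, Z = Function.update (fun s => (s - 1) * riemannZeta s) 1 1 :=
    ⟨_, rfl⟩
  have hG : Differentiable ℂ G := by
    rw [hGd]
    refine entire_update (fun z hz1 => ?_) hlim
    exact ((differentiableAt_id.sub_const 1).pow 2).mul (hFd z hz1)
  have hZ : Differentiable ℂ Z := by
    rw [hZd]
    refine entire_update (fun z hz1 => ?_) riemannZeta_residue_one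
    exact (differentiableAt_id.sub_const 1).mul (differentiableAt_riemannZeta hz1)
  have hG1 : G 1 = c₀ := by rw [hGd, Function.update_self]
  have hZ1 : Z 1 = 1 := by rw [hZd, Function.update_self]
  have hGs : ∀ s : ℂ, s ≠ 1 → G s = (s - 1) ^ 2 * F s := by
    intro s hs
    rw [hGd, Function.update_of_ne hs]
  have hZs : ∀ s : ℂ, s ≠ 1 → Z s = (s - 1) * riemannZeta s := by
    intro s hs
    rw [hZd, Function.update_of_ne hs]
  obtain ⟨Gt, hGtd⟩ : ∃ Gt : ℂ → ℂ, Gt = fun s => (starRingEnd ℂ) (G ((starRingEnd ℂ) s)) :=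
    ⟨_, rfl⟩
  have hGt : Differentiable ℂ Gt := by
    intro s
    have h3 : DifferentiableAt ℂ ((starRingEnd ℂ) ∘ G ∘ (starRingEnd ℂ))
        ((starRingEnd ℂ) ((starRingEnd ℂ) s)) := (hG ((starRingEnd ℂ) s)).conj_conj
    rw [Complex.conj_conj] at h3
    rw [hGtd]
    exact h3
  have hGt1 : Gt 1 = (starRingEnd ℂ) c₀ := by
    rw [hGtd]
    simp only [map_one, hG1]
  have hGt1' : Gt 1 ≠ 0 := by
    rw [hGt1]
    simpa using hc₀
  have hG1' : G 1 ≠ 0 := by rwa [hG1]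
  have hlocal := local_log (H := fun s => (Z s ^ 4 / (G s * Gt s)) ^ κ * exp (-LSeries r s))
    (f := LSeries (fun n => (c n : ℂ))) (by
      have e1 : ∀ᶠ s in 𝓝 (1 : ℂ), G s ≠ 0 := hG.continuous.continuousAt.eventually_ne hG1'
      have e2 : ∀ᶠ s in 𝓝 (1 : ℂ), Gt s ≠ 0 := hGt.continuous.continuousAt.eventually_ne hGt1'
      have e3 : ∀ᶠ s in 𝓝 (1 : ℂ), σ < s.re :=
        (isOpen_lt continuous_const continuous_re).mem_nhds (by simpa using hσ1)
      have e4 : ∀ᶠ s in 𝓝 (1 : ℂ), Z s ≠ 0 :=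
        hZ.continuous.continuousAt.eventually_ne (by rw [hZ1]; exact one_ne_zero)
      filter_upwards [e1, e2, e3, e4] with s s1 s2 s3 s4
      exact ((((hZ s).pow 4).div ((hG s).mul (hGt s)) (mul_ne_zero s1 s2)).zpow
        (Or.inl (div_ne_zero (pow_ne_zero 4 s4) (mul_ne_zero s1 s2)))).mul
        (hrd' s s3).neg.cexp)
    (by
      rw [hZ1]
      exact mul_ne_zero (zpow_ne_zero _ (div_ne_zero (by norm_num) (mul_ne_zero hG1' hGt1')))
        (exp_ne_zero _))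
    (fun s hs => (LSeries_hasDerivAt (lt_of_le_of_lt hcabs
      (by exact_mod_cast hs))).differentiableAt)
    (Eventually.of_forall (fun s hs => by
      have hs1 : s ≠ 1 := by
        intro h
        rw [h] at hs
        simp at hs
      have hs1' : (starRingEnd ℂ) s ≠ 1 := by
        intro h
        apply hs1
        have := congrArg (starRingEnd ℂ) h
        simpa using this
      have hsc : 1 < ((starRingEnd ℂ) s).re := by simpa using hs
      have e0 : s - 1 ≠ 0 := sub_ne_zero.2 hs1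
      have e1 : LSeries (fun n => (c n : ℂ)) s =
          κ * (2 * LSeries b2 s - LSeries b s - LSeries (cj b) s) - LSeries r s := by
        have h3 := LSeries_add (hcs s hs) (hrs s hs)
        rw [hsum, LSeries_smul, LSeries_sub (((hz s hs).1.smul 2).sub (hF.log_summable s hs))
          (conj_summable (hF.log_summable _ hsc)),
          LSeries_sub ((hz s hs).1.smul 2) (hF.log_summable s hs), LSeries_smul] at h3
        rw [h3]
        ring
      have e2 : Gt s = (s - 1) ^ 2 * exp (LSeries (cj b) s) := by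
        rw [hGtd]
        simp only
        rw [hGs _ hs1', hF.log_series _ hsc, map_mul, map_pow, map_sub, map_one,
          Complex.conj_conj, ← exp_conj, conj_LSeries]
      have e3 : exp (2 * LSeries b2 s) = riemannZeta s ^ 4 := by
        rw [show 2 * LSeries b2 s = LSeries b2 s + LSeries b2 s by ring, exp_add, (hz s hs).2]
        ring
      rw [e1, e2, hGs s hs1, hZs s hs1, hF.log_series s hs, sub_eq_add_neg, exp_add, exp_int_mul,
        exp_sub, exp_sub, e3]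
      congr 2
      have n1 := exp_ne_zero (LSeries b s)
      have n2 := exp_ne_zero (LSeries (cj b) s)
      field_simp))
  obtain ⟨ε, h, hε, hh, heq⟩ := hlocal
  obtain ⟨δ, hδ, hδs⟩ := landau hc0 (x := 1) hε hcabs (h := h) (by simpa using hh)
    (by simpa using heq)
  -- the final estimate
  obtain ⟨C, hC⟩ := hpE (δ / 2) (by linarith)
  have hfin1 : Summable (fun n => ‖LSeries.term (fun n => (c n : ℂ)) ((1 - δ : ℝ) : ℂ) n‖) :=
    hδs.norm
  refine Summable.of_nonneg_of_le (fun n => by split_ifs <;> positivity) (fun n => ?_)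
    (hfin1.mul_left |C|)
  have ht0 : 0 ≤ ‖LSeries.term (fun n => (c n : ℂ)) ((1 - δ : ℝ) : ℂ) n‖ := norm_nonneg _
  by_cases hnS : n.Prime ∧ n ∉ E
  · have hnS' : n ∈ S := by rw [hS]; exact hnS
    have hn : n ≠ 0 := hnS.1.ne_zero
    have hn1 : (1 : ℝ) ≤ n := by exact_mod_cast Nat.one_le_iff_ne_zero.2 hn
    have hnp : (0 : ℝ) < n := by linarith
    rw [if_pos hnS, LSeries.norm_term_eq, if_neg hn, ofReal_re, norm_real, Real.norm_eq_abs,
      abs_of_nonneg (hc0 n)]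
    have h5 := hC n hnS.1 hnS.2
    have h6 := hb2S n hnS'
    have h7 : 0 ≤ (n : ℝ) ^ (δ / 2) := Real.rpow_nonneg hnp.le _
    have h4 : ‖a n - 2‖ ^ 2 ≤ |C| * (n : ℝ) ^ (δ / 2) * c n := by
      rw [hcd]
      simp only [hnS', if_true]
      rw [← hap n hnS.1] at h6 ⊢
      calc ‖a n - 2‖ ^ 2 ≤ C * (n : ℝ) ^ (δ / 2) * (κ * (2 - (a n).re)) := h5
        _ ≤ |C| * (n : ℝ) ^ (δ / 2) * (κ * (2 - (a n).re)) :=
          mul_le_mul_of_nonneg_right (mul_le_mul_of_nonneg_right (le_abs_self _) h7) h6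
        _ ≤ |C| * (n : ℝ) ^ (δ / 2) * (2 * (κ * (2 - (a n).re))) :=
          mul_le_mul_of_nonneg_left (by linarith) (mul_nonneg (abs_nonneg _) h7)
    have h8 : (n : ℝ) ^ (δ / 2) / n ≤ 1 / (n : ℝ) ^ (1 - δ) := by
      rw [div_le_div_iff₀ hnp (Real.rpow_pos_of_pos hnp _), ← Real.rpow_add hnp, one_mul]
      calc (n : ℝ) ^ (δ / 2 + (1 - δ)) ≤ (n : ℝ) ^ (1 : ℝ) :=
            Real.rpow_le_rpow_of_exponent_le hn1 (by linarith)
        _ = n := Real.rpow_one _
    calc ‖a n - 2‖ ^ 2 / n ≤ |C| * (n : ℝ) ^ (δ / 2) * c n / n :=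
          div_le_div_of_nonneg_right h4 hnp.le
      _ = |C| * c n * ((n : ℝ) ^ (δ / 2) / n) := by ring
      _ ≤ |C| * c n * (1 / (n : ℝ) ^ (1 - δ)) :=
          mul_le_mul_of_nonneg_left h8 (mul_nonneg (abs_nonneg _) (hc0 n))
      _ = |C| * (c n / (n : ℝ) ^ (1 - δ)) := by ring
  · rw [if_neg hnS]
    positivity

open PM1_ in
/-- Outside a thin set, `a(p)` is bounded up to an error which is square summable with the weight
`1/p`. -/
theorem meanSquare_of {a c : ℕ → ℂ} {E : Set ℕ} {K : ℝ}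
    (hR : ∀ ε : ℝ, 0 < ε → ∃ C : ℝ, ∀ n : ℕ, 1 ≤ n → ‖a n‖ ≤ C * (n : ℝ) ^ ε) (hE : Thin E)
    (hc : ∀ p : ℕ, p.Prime → ‖c p‖ ≤ K)
    (hs : Summable (fun n : ℕ => open Classical in
      if n.Prime ∧ n ∉ E then ‖a n - c n‖ ^ 2 / n else 0)) : MeanSquare a := by
  classical
  obtain ⟨C₁, hC₁⟩ := sum_wt
  obtain ⟨η₀, hη₀, hEs⟩ := hE
  set ε : ℝ := (1 - η₀) / 2 with hε
  have hε0 : 0 < ε := by rw [hε]; linarith
  obtain ⟨C₂, hC₂⟩ := hR ε hε0
  set f₁ : ℕ → ℝ := fun n => if n.Prime ∧ n ∉ E then ‖a n - c n‖ ^ 2 / n else 0 with hf₁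
  set f₂ : ℕ → ℝ := fun n : ℕ => E.indicator (fun n : ℕ => (n : ℝ) ^ (-η₀)) n with hf₂
  have hf₁0 : ∀ n, 0 ≤ f₁ n := fun n => by rw [hf₁]; simp only; split_ifs <;> positivity
  have hf₂0 : ∀ n, 0 ≤ f₂ n := fun n => Set.indicator_nonneg (fun n _ => by positivity) n
  have hinj : Function.Injective (fun p : Nat.Primes => (p : ℕ)) := Nat.Primes.coe_nat_injective
  have hs₁ : Summable (fun p : Nat.Primes => f₁ p) := hs.comp_injective hinj
  have hs₂ : Summable (fun p : Nat.Primes => f₂ p) := hEs.comp_injective hinj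
  -- the pointwise bound
  have hpt : ∀ (η : ℝ) (p : Nat.Primes), 0 < η → ‖a p‖ ^ 2 * ((p : ℕ) : ℝ) ^ (-1 - η) ≤
      2 * f₁ p + 2 * K ^ 2 * wt η p + C₂ ^ 2 * f₂ p := by
    intro η p hη
    have hp := p.2
    have hp1 : (1 : ℝ) ≤ ((p : ℕ) : ℝ) := by exact_mod_cast hp.one_lt.le
    have hp0 : (0 : ℝ) < ((p : ℕ) : ℝ) := by linarith
    have hw0 : 0 ≤ wt η p := wt_nonneg η p
    have hw1 : wt η p ≤ 1 / ((p : ℕ) : ℝ) := by
      rw [one_div, ← Real.rpow_neg_one]
      exact Real.rpow_le_rpow_of_exponent_le hp1 (by linarith)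
    have hw : ((p : ℕ) : ℝ) ^ (-1 - η) = wt η p := rfl
    rw [hw]
    by_cases hpE : (p : ℕ) ∈ E
    · have h1 := hC₂ p hp.one_lt.le
      have h2 : ‖a p‖ ^ 2 ≤ C₂ ^ 2 * (((p : ℕ) : ℝ) ^ ε) ^ 2 := by
        rw [← mul_pow]
        exact pow_le_pow_left₀ (norm_nonneg _) h1 2
      have h3 : (((p : ℕ) : ℝ) ^ ε) ^ 2 * (1 / ((p : ℕ) : ℝ)) = ((p : ℕ) : ℝ) ^ (-η₀) := by
        rw [← Real.rpow_natCast, ← Real.rpow_mul hp0.le, one_div, ← Real.rpow_neg_one,
          ← Real.rpow_add hp0]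
        congr 1
        rw [hε]
        push_cast
        ring
      have h4 : f₂ p = ((p : ℕ) : ℝ) ^ (-η₀) := by
        rw [hf₂]
        simp only
        rw [Set.indicator_of_mem hpE]
      have h5 : ‖a p‖ ^ 2 * wt η p ≤ C₂ ^ 2 * f₂ p := by
        calc ‖a p‖ ^ 2 * wt η p ≤ (C₂ ^ 2 * (((p : ℕ) : ℝ) ^ ε) ^ 2) * (1 / ((p : ℕ) : ℝ)) :=
              mul_le_mul h2 hw1 hw0 (by positivity)
          _ = C₂ ^ 2 * f₂ p := by rw [h4, ← h3]; ring
      have h6 := hf₁0 p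
      have h7 : 0 ≤ 2 * K ^ 2 * wt η p := by positivity
      linarith
    · have h1 : f₁ p = ‖a p - c p‖ ^ 2 / ((p : ℕ) : ℝ) := by
        rw [hf₁]
        simp only
        rw [if_pos ⟨hp, hpE⟩]
      have h2 : ‖a p‖ ^ 2 ≤ 2 * ‖a p - c p‖ ^ 2 + 2 * K ^ 2 := by
        have h3 : ‖a p‖ ≤ ‖a p - c p‖ + K := by
          calc ‖a p‖ = ‖(a p - c p) + c p‖ := by rw [sub_add_cancel]
            _ ≤ ‖a p - c p‖ + ‖c p‖ := norm_add_le _ _
            _ ≤ _ := by linarith [hc p hp]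
        nlinarith [norm_nonneg (a p), sq_nonneg (‖a p - c p‖ - K)]
      have h3 : 2 * ‖a p - c p‖ ^ 2 * wt η p ≤ 2 * f₁ p := by
        rw [h1]
        calc 2 * ‖a p - c p‖ ^ 2 * wt η p ≤ 2 * ‖a p - c p‖ ^ 2 * (1 / ((p : ℕ) : ℝ)) :=
              mul_le_mul_of_nonneg_left hw1 (by positivity)
          _ = _ := by ring
      have h4 : 0 ≤ C₂ ^ 2 * f₂ p := mul_nonneg (sq_nonneg _) (hf₂0 p)
      calc ‖a p‖ ^ 2 * wt η p ≤ (2 * ‖a p - c p‖ ^ 2 + 2 * K ^ 2) * wt η p :=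
            mul_le_mul_of_nonneg_right h2 hw0
        _ = 2 * ‖a p - c p‖ ^ 2 * wt η p + 2 * K ^ 2 * wt η p := by ring
        _ ≤ _ := by linarith
  refine ⟨2 * (∑' p : Nat.Primes, f₁ p) + 2 * K ^ 2 * (1 + |C₁|) +
    C₂ ^ 2 * ∑' p : Nat.Primes, f₂ p, fun η h0 h1 => ?_⟩
  have hsum : Summable (fun p : Nat.Primes => 2 * f₁ p + 2 * K ^ 2 * wt η p + C₂ ^ 2 * f₂ p) :=
    ((hs₁.mul_left 2).add ((summable_wt h0).mul_left _)).add (hs₂.mul_left _)
  have hS : Summable (fun p : Nat.Primes => ‖a p‖ ^ 2 * ((p : ℕ) : ℝ) ^ (-1 - η)) :=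
    Summable.of_nonneg_of_le (fun p => by positivity) (fun p => hpt η p h0) hsum
  refine ⟨hS, ?_⟩
  have hL : 0 ≤ Real.log (1 / η) := Real.log_nonneg (by rw [le_div_iff₀ h0]; linarith)
  have h2 : ∑' p : Nat.Primes, ‖a p‖ ^ 2 * ((p : ℕ) : ℝ) ^ (-1 - η) ≤
      2 * (∑' p : Nat.Primes, f₁ p) + 2 * K ^ 2 * (∑' p : Nat.Primes, wt η p) +
        C₂ ^ 2 * ∑' p : Nat.Primes, f₂ p := by
    refine (hS.tsum_le_tsum (fun p => hpt η p h0) hsum).trans_eq ?_
    rw [((hs₁.mul_left 2).add ((summable_wt h0).mul_left _)).tsum_add (hs₂.mul_left _),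
      (hs₁.mul_left 2).tsum_add ((summable_wt h0).mul_left _), tsum_mul_left, tsum_mul_left,
      tsum_mul_left]
  have h3 : ∑' p : Nat.Primes, wt η p ≤ (1 + |C₁|) * (1 + Real.log (1 / η)) := by
    have h4 := hC₁ η h0 h1
    rw [Lg] at h4
    have h5 := le_abs_self C₁
    have h6 : 0 ≤ |C₁| * Real.log (1 / η) := mul_nonneg (abs_nonneg _) hL
    nlinarith
  have h4 : 0 ≤ ∑' p : Nat.Primes, f₁ p := tsum_nonneg (fun p => hf₁0 p)
  have h5 : 0 ≤ ∑' p : Nat.Primes, f₂ p := tsum_nonneg (fun p => hf₂0 p)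
  have h6 : 0 ≤ (2 * (∑' p : Nat.Primes, f₁ p)) * Real.log (1 / η) := by positivity
  have h7 : 0 ≤ (C₂ ^ 2 * ∑' p : Nat.Primes, f₂ p) * Real.log (1 / η) := by positivity
  have h8 : 2 * K ^ 2 * (∑' p : Nat.Primes, wt η p) ≤
      2 * K ^ 2 * ((1 + |C₁|) * (1 + Real.log (1 / η))) :=
    mul_le_mul_of_nonneg_left h3 (by positivity)
  nlinarith

/-- bounded coefficients at the primes outside a thin set -/
theorem meanSquare_of_bounded {F : ℂ → ℂ} {a b : ℕ → ℂ} (hF : IsSelberg F a b) {E : Set ℕ}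
    (hE : Thin E) {K : ℝ} (h : ∀ p : ℕ, p.Prime → p ∉ E → ‖a p‖ ≤ K) : MeanSquare a := by
  classical
  refine meanSquare_of (c := fun n => if n ∈ E then 0 else a n) (K := |K|) hF.ramanujan hE
    (fun p hp => ?_) ?_
  · by_cases h1 : p ∈ E
    · simp [h1]
    · simpa [h1] using (h p hp h1).trans (le_abs_self K)
  · refine summable_zero.congr (fun n => ?_)
    by_cases h1 : n.Prime ∧ n ∉ E
    · rw [if_pos h1, if_neg h1.2]
      simp
    · rw [if_neg h1]

/-- The one-sided condition implies `MeanSquare`, for a double pole. -/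
theorem meanSquare_of_oneSided {F : ℂ → ℂ} {a b : ℕ → ℂ} (hF : IsSelberg F a b)
    (hpole : meromorphicOrderAt F 1 = ((-2 : ℤ) : WithTop ℤ)) (ha : OneSided a) :
    MeanSquare a := by
  classical
  obtain ⟨c₀, hc₀, hlim⟩ := tendsto_of_order hpole
  obtain ⟨E, κ, hE, hκ, h0, h1⟩ := ha
  exact meanSquare_of (c := fun _ => 2) (K := 2) hF.ramanujan hE (fun p _ => by simp)
    (landau_sq p_ZB (p_AP p_EXPD) hF hc₀ hlim hE hκ h0 h1)

end Pool.Agent.SelDeg2
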