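import Pool.Agent.SelDeg2.ABall
import Pool.Agent.SelDeg2.MAIN
import Pool.Agent.SelDeg2.MSQ

/-!
# Functions of degree 2 in the Selberg class with a pole at `s = 1`: the result
-/

namespace Pool.Agent.SelDeg2

open Complex Filter Topology
open Pool.Agent.SelPole Pool.Agent.SelTwo

/-- The result. -/
theorem degree_two_pole {F : ℂ → ℂ} {a b : ℕ → ℂ} {r : ℕ} (hF : IsSelberg F a b)
    (hdeg : DegreeTwo F) (hMS : MeanSquare a) (hr : 1 ≤ r)
    (hpole : meromorphicOrderAt F 1 = ((-(r : ℤ) : ℤ) : WithTop ℤ)) :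
    ∃ L₁ : ℂ → ℂ, Differentiable ℂ L₁ ∧ (∀ s : ℂ, s ≠ 1 → F s = riemannZeta s ^ r * L₁ s) ∧
      ((r = 2 ∧ ∀ s : ℂ, L₁ s = 1) ∨
        (r = 1 ∧ ∃ (q : ℕ) (_ : NeZero q) (χ : DirichletCharacter ℂ q) (θ : ℝ),
          χ.IsPrimitive ∧ χ ≠ 1 ∧ ∀ s : ℂ, L₁ s = DirichletCharacter.LFunction χ (s + θ * I))) := by
  rcases classification all_DREL all_KRAT hF hdeg hMS hr hpole with
    ⟨hr2, h⟩ | ⟨hr1, q, hq, χ, θ, hprim, hχ, h⟩
  · refine ⟨fun _ => 1, differentiable_const _, fun s hs => ?_, Or.inl ⟨hr2, fun _ => rfl⟩⟩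
    rw [h s hs, hr2, mul_one]
  · refine ⟨fun s => DirichletCharacter.LFunction χ (s + θ * I), ?_, fun s hs => ?_,
      Or.inr ⟨hr1, q, hq, χ, θ, hprim, hχ, fun _ => rfl⟩⟩
    · exact (DirichletCharacter.differentiable_LFunction hχ).comp
        (differentiable_id.add_const _)
    · rw [h s hs, hr1, pow_one]

end Pool.Agent.SelDeg2
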