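import Pool.Agent.SelDeg2.TargetsB

/-!
# B-RAM: the bound for the twisted series (MP_995735_nt, job for helper72)
-/

namespace Pool.Agent.SelDeg2

open Complex Filter Topology MeasureTheory
open Pool.Agent.SelPole Pool.Agent.SelTwo

noncomputable section

lemma RAM_wt_nonneg (η : ℝ) (n : ℕ) : 0 ≤ wt η n := Real.rpow_nonneg (Nat.cast_nonneg n) _

lemma RAM_wt_zero {η : ℝ} (hη : 0 < η) : wt η 0 = 0 := by
  unfold wt
  rw [Nat.cast_zero, Real.zero_rpow (by linarith)]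

lemma RAM_wt_mul (η : ℝ) (m n : ℕ) : wt η (m * n) = wt η m * wt η n := by
  unfold wt
  rw [Nat.cast_mul, Real.mul_rpow (Nat.cast_nonneg m) (Nat.cast_nonneg n)]

lemma RAM_wt_le {η : ℝ} (hη : 0 < η) {n : ℕ} (hn : 1 ≤ n) : wt η n ≤ 1 / n := by
  unfold wt
  have h1 : (1 : ℝ) ≤ n := by exact_mod_cast hn
  calc (n : ℝ) ^ (-1 - η) ≤ (n : ℝ) ^ (-1 : ℝ) :=
        Real.rpow_le_rpow_of_exponent_le h1 (by linarith)
    _ = 1 / n := by rw [Real.rpow_neg_one, one_div]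

lemma RAM_norm_ee (x : ℝ) : ‖ee x‖ = 1 := by
  unfold ee
  rw [show (2 * Real.pi * I * x : ℂ) = ((2 * Real.pi * x : ℝ) : ℂ) * I by push_cast; ring]
  exact Complex.norm_exp_ofReal_mul_I _

lemma RAM_SS (g : ℕ → ℂ) (κ : ℝ) {η : ℝ} (hη : 0 < η) :
    SS g κ η = ∑' n : ℕ, g n * ee (n * κ) * ((wt η n : ℝ) : ℂ) := by
  unfold SS LSeries
  refine tsum_congr fun n => ?_
  rw [LSeries.term_def]
  rcases Nat.eq_zero_or_pos n with h | h
  · subst h
    simp [RAM_wt_zero hη]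
  · rw [if_neg (by omega)]
    have hpos : (0 : ℝ) < n := by exact_mod_cast h
    have h1 : ((n : ℂ)) ^ (1 + (η : ℂ)) = (((n : ℝ) ^ (1 + η) : ℝ) : ℂ) := by
      rw [Complex.ofReal_cpow hpos.le]; push_cast; rfl
    rw [h1]
    unfold wt
    rw [show (-1 - η : ℝ) = -(1 + η) by ring, Real.rpow_neg hpos.le, div_eq_mul_inv]
    push_cast
    rfl

lemma RAM_norm_uu (g : ℕ → ℂ) (P₀ n : ℕ) : ‖uu g P₀ n‖ ≤ ‖g n‖ := by
  unfold uu
  split_ifs
  · exact le_refl _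
  · simp

lemma RAM_norm_dm (g : ℕ → ℂ) (P₀ n : ℕ) : ‖dm g P₀ n‖ ≤ ‖g n‖ := by
  unfold dm
  rw [norm_div]
  have h1 : ‖((om P₀ n : ℂ) + 1)‖ = (om P₀ n : ℝ) + 1 := by
    rw [show ((om P₀ n : ℂ) + 1) = (((om P₀ n : ℝ) + 1 : ℝ) : ℂ) by push_cast; rfl,
      Complex.norm_real, Real.norm_eq_abs, abs_of_nonneg (by positivity)]
  rw [h1]
  exact div_le_self (norm_nonneg _) (by have : (0 : ℝ) ≤ om P₀ n := Nat.cast_nonneg _; linarith)

/-- the pair series -/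
def RAM_v (g : ℕ → ℂ) (κ η : ℝ) (P₀ : ℕ) (x : ℕ × ℕ) : ℂ :=
  uu g P₀ x.1 * dm g P₀ x.2 * ee ((x.1 * x.2 : ℕ) * κ) * ((wt η x.1 * wt η x.2 : ℝ) : ℂ)

lemma RAM_v_norm (g : ℕ → ℂ) (κ η : ℝ) (P₀ : ℕ) (x : ℕ × ℕ) :
    ‖RAM_v g κ η P₀ x‖ ≤ (‖uu g P₀ x.1‖ * wt η x.1) * (‖g x.2‖ * wt η x.2) := by
  unfold RAM_v
  rw [norm_mul, norm_mul, norm_mul, RAM_norm_ee, Complex.norm_real, Real.norm_eq_abs,
    abs_of_nonneg (mul_nonneg (RAM_wt_nonneg η _) (RAM_wt_nonneg η _)), mul_one]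
  have h1 := RAM_norm_dm g P₀ x.2
  have h2 := RAM_wt_nonneg η x.1
  have h3 := RAM_wt_nonneg η x.2
  calc ‖uu g P₀ x.1‖ * ‖dm g P₀ x.2‖ * (wt η x.1 * wt η x.2)
      ≤ ‖uu g P₀ x.1‖ * ‖g x.2‖ * (wt η x.1 * wt η x.2) := by gcongr
    _ = _ := by ring

/-- the small moduli -/
lemma RAM_part1 (g : ℕ → ℂ) (κ : ℝ) {η : ℝ} (hη : 0 < η) (P₀ : ℕ) (B : ℝ)
    (hs : Summable (fun n : ℕ => ‖g n‖ * wt η n))
    (hB : ∀ T : Finset ℕ, (∀ n ∈ T, n ≠ 0 ∧ ∀ p : ℕ, p.Prime → p ∣ n → p ≤ P₀) →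
      ∑ n ∈ T, ‖g n‖ / n ≤ B) :
    Summable (fun n : ℕ => (if om P₀ n = 0 then g n else 0) * ee (n * κ) * ((wt η n : ℝ) : ℂ)) ∧
    ‖∑' n : ℕ, (if om P₀ n = 0 then g n else 0) * ee (n * κ) * ((wt η n : ℝ) : ℂ)‖ ≤ B := by
  have hn : ∀ n : ℕ, ‖(if om P₀ n = 0 then g n else 0) * ee (n * κ) * ((wt η n : ℝ) : ℂ)‖ =
      (if om P₀ n = 0 then ‖g n‖ else 0) * wt η n := by
    intro n
    rw [norm_mul, norm_mul, RAM_norm_ee, Complex.norm_real, Real.norm_eq_abs,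
      abs_of_nonneg (RAM_wt_nonneg η _), mul_one]
    split_ifs <;> simp
  have hsn : Summable (fun n : ℕ =>
      ‖(if om P₀ n = 0 then g n else 0) * ee (n * κ) * ((wt η n : ℝ) : ℂ)‖) := by
    refine Summable.of_nonneg_of_le (fun n => norm_nonneg _) (fun n => ?_) hs
    rw [hn n]
    refine mul_le_mul_of_nonneg_right ?_ (RAM_wt_nonneg η n)
    split_ifs
    · exact le_refl _
    · exact norm_nonneg _
  refine ⟨hsn.of_norm, ?_⟩
  refine (norm_tsum_le_tsum_norm hsn).trans ?_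
  refine Real.tsum_le_of_sum_le (fun n => norm_nonneg _) fun T => ?_
  classical
  refine le_trans ?_ (hB (T.filter (fun n => n ≠ 0 ∧ om P₀ n = 0)) ?_)
  · rw [Finset.sum_filter]
    refine Finset.sum_le_sum fun n _ => ?_
    rw [hn n]
    by_cases h0 : n = 0
    · subst h0
      rw [RAM_wt_zero hη]
      simp
    · by_cases h1 : om P₀ n = 0
      · rw [if_pos h1, if_pos ⟨h0, h1⟩]
        have h2 := RAM_wt_le hη (Nat.one_le_iff_ne_zero.mpr h0)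
        calc ‖g n‖ * wt η n ≤ ‖g n‖ * (1 / n) := by gcongr
          _ = ‖g n‖ / n := by ring
      · rw [if_neg h1, if_neg (fun h => h1 h.2)]
        simp
  · intro n hn
    obtain ⟨_, h0, h1⟩ := Finset.mem_filter.mp hn
    refine ⟨h0, fun p hp hd => ?_⟩
    by_contra hlt
    unfold om at h1
    rw [Finset.card_eq_zero] at h1
    have : p ∈ n.primeFactors.filter (fun p => P₀ < p) :=
      Finset.mem_filter.mpr ⟨Nat.mem_primeFactors.mpr ⟨hp, hd, h0⟩, by omega⟩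
    rw [h1] at this
    simp at this

lemma RAM_uu_sum (g : ℕ → ℂ) {η : ℝ} (P₀ : ℕ) (B : ℝ)
    (hs : Summable (fun n : ℕ => ‖g n‖ * wt η n))
    (hB : ∑' p : Nat.Primes, ‖g p‖ * wt η p ≤ B) :
    Summable (fun n : ℕ => ‖uu g P₀ n‖ * wt η n) ∧ ∑' n : ℕ, ‖uu g P₀ n‖ * wt η n ≤ B := by
  have hsu : Summable (fun n : ℕ => ‖uu g P₀ n‖ * wt η n) :=
    Summable.of_nonneg_of_le (fun n => mul_nonneg (norm_nonneg _) (RAM_wt_nonneg η n))
      (fun n => mul_le_mul_of_nonneg_right (RAM_norm_uu g P₀ n) (RAM_wt_nonneg η n)) hs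
  refine ⟨hsu, le_trans ?_ hB⟩
  have h1 : ∑' p : Nat.Primes, ‖g p‖ * wt η p =
      ∑' n : ℕ, Set.indicator {n : ℕ | n.Prime} (fun n : ℕ => ‖g n‖ * wt η n) n :=
    tsum_subtype {n : ℕ | n.Prime} (fun n : ℕ => ‖g n‖ * wt η n)
  rw [h1]
  refine Summable.tsum_le_tsum (fun n => ?_) hsu (hs.indicator _)
  by_cases hn : n.Prime
  · rw [Set.indicator_of_mem (show n ∈ {n : ℕ | n.Prime} from hn)]
    exact mul_le_mul_of_nonneg_right (RAM_norm_uu g P₀ n) (RAM_wt_nonneg η n)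
  · rw [Set.indicator_of_notMem (show n ∉ {n : ℕ | n.Prime} from hn)]
    unfold uu
    rw [if_neg (fun h => hn h.1)]
    simp

lemma RAM_le_rpow {C C' x K K' : ℝ} (hC : C ≤ C') (hC' : 0 ≤ C') (hx : 1 ≤ x) (hK : K ≤ K') :
    C * x ^ K ≤ C' * x ^ K' := by
  have h1 : x ^ K ≤ x ^ K' := Real.rpow_le_rpow_of_exponent_le hx hK
  have h2 : 0 ≤ x ^ K := Real.rpow_nonneg (by linarith) _
  calc C * x ^ K ≤ C' * x ^ K := mul_le_mul_of_nonneg_right hC h2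
    _ ≤ C' * x ^ K' := mul_le_mul_of_nonneg_left h1 hC'

/-- the small `m` -/
lemma RAM_small (g : ℕ → ℂ) (κ : ℝ) {η : ℝ} (hη : 0 < η) (P₀ M₀ : ℕ) (BP BH : ℝ)
    (hBP0 : 0 ≤ BP)
    (hs : Summable (fun n : ℕ => ‖g n‖ * wt η n))
    (hus : Summable (fun n : ℕ => ‖uu g P₀ n‖ * wt η n))
    (hu : ∑' n : ℕ, ‖uu g P₀ n‖ * wt η n ≤ BP)
    (hH : ∑ m ∈ Finset.Icc 1 M₀, ‖g m‖ / m ≤ BH) :
    Summable (fun x : ℕ × ℕ => if x.2 ≤ M₀ then RAM_v g κ η P₀ x else 0) ∧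
    ‖∑' x : ℕ × ℕ, (if x.2 ≤ M₀ then RAM_v g κ η P₀ x else 0)‖ ≤ BP * BH := by
  have hf : Summable (fun m : ℕ => if m ≤ M₀ then ‖g m‖ * wt η m else 0) := by
    refine Summable.of_nonneg_of_le (fun n => ?_) (fun n => ?_) hs
    · split_ifs
      · exact mul_nonneg (norm_nonneg _) (RAM_wt_nonneg η n)
      · exact le_refl _
    · split_ifs
      · exact le_refl _
      · exact mul_nonneg (norm_nonneg _) (RAM_wt_nonneg η n)
  have hprod : Summable (fun x : ℕ × ℕ => (‖uu g P₀ x.1‖ * wt η x.1) *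
      (if x.2 ≤ M₀ then ‖g x.2‖ * wt η x.2 else 0)) := by
    refine hus.mul_of_nonneg hf (fun n => mul_nonneg (norm_nonneg _) (RAM_wt_nonneg η n))
      (fun n => ?_)
    show (0 : ℝ) ≤ if n ≤ M₀ then ‖g n‖ * wt η n else 0
    split_ifs
    · exact mul_nonneg (norm_nonneg _) (RAM_wt_nonneg η n)
    · exact le_refl _
  have hle : ∀ x : ℕ × ℕ, ‖(if x.2 ≤ M₀ then RAM_v g κ η P₀ x else 0)‖ ≤
      (‖uu g P₀ x.1‖ * wt η x.1) * (if x.2 ≤ M₀ then ‖g x.2‖ * wt η x.2 else 0) := by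
    intro x
    split_ifs
    · exact RAM_v_norm g κ η P₀ x
    · simp
  refine ⟨Summable.of_norm_bounded hprod hle, ?_⟩
  refine (tsum_of_norm_bounded hprod.hasSum hle).trans ?_
  rw [← Summable.tsum_mul_tsum hus hf hprod]
  have h2 : ∑' m : ℕ, (if m ≤ M₀ then ‖g m‖ * wt η m else 0) ≤ BH := by
    refine le_trans ?_ hH
    rw [tsum_eq_sum (s := Finset.Icc 1 M₀)]
    · refine Finset.sum_le_sum fun m hm => ?_
      obtain ⟨h1, h2⟩ := Finset.mem_Icc.mp hm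
      rw [if_pos h2]
      have := RAM_wt_le hη h1
      calc ‖g m‖ * wt η m ≤ ‖g m‖ * (1 / m) := by gcongr
        _ = ‖g m‖ / m := by ring
    · intro m hm
      rcases Nat.eq_zero_or_pos m with h | h
      · subst h
        simp [RAM_wt_zero hη]
      · rw [if_neg]
        intro h'
        exact hm (Finset.mem_Icc.mpr ⟨h, h'⟩)
  have h3 : 0 ≤ ∑' m : ℕ, (if m ≤ M₀ then ‖g m‖ * wt η m else 0) := by
    refine tsum_nonneg fun n => ?_
    split_ifs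
    · exact mul_nonneg (norm_nonneg _) (RAM_wt_nonneg η n)
    · exact le_refl _
  exact mul_le_mul hu h2 h3 hBP0

/-- the large `m` -/
lemma RAM_large (hBIL : T_BIL) (g : ℕ → ℂ) (κ : ℝ) {δ η : ℝ} (hδ : 0 < δ) (hη : 0 < η)
    (hη1 : η ≤ 1) (J P₀ M₀ : ℕ) (hJ : 1 ≤ J) (hP₀ : 1 ≤ P₀) (hM₀ : 1 ≤ M₀)
    (hκ : ∀ j : ℕ, 1 ≤ j → j ≤ J → ∀ z : ℤ, 2 * δ ≤ |j * κ - z|) (D : ℝ)
    (h2s : Summable (fun n : ℕ => ‖g n‖ ^ 2 * wt η n))
    (h2 : ∑' n : ℕ, ‖g n‖ ^ 2 * wt η n ≤ D)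
    (hv : Summable (fun x : ℕ × ℕ => if M₀ < x.2 then RAM_v g κ η P₀ x else 0)) :
    ‖∑' x : ℕ × ℕ, (if M₀ < x.2 then RAM_v g κ η P₀ x else 0)‖ ≤
      D * Real.sqrt (BF η δ J P₀ M₀) := by
  classical
  have hD0 : 0 ≤ D := le_trans (tsum_nonneg fun n =>
    mul_nonneg (by positivity) (RAM_wt_nonneg η n)) h2
  have hBF : 0 ≤ BF η δ J P₀ M₀ := by
    unfold BF
    positivity
  have hlim : Tendsto (fun N : ℕ => ∑ x ∈ Finset.range (N + 1) ×ˢ Finset.range (N + 1),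
      (if M₀ < x.2 then RAM_v g κ η P₀ x else 0)) atTop
      (𝓝 (∑' x : ℕ × ℕ, (if M₀ < x.2 then RAM_v g κ η P₀ x else 0))) := by
    have h1 : Tendsto (fun N : ℕ => Finset.range (N + 1) ×ˢ Finset.range (N + 1)) atTop
        (atTop : Filter (Finset (ℕ × ℕ))) := by
      have ha : Tendsto (fun N : ℕ => Finset.range (N + 1)) atTop (atTop : Filter (Finset ℕ)) :=
        tendsto_finset_range.comp (tendsto_add_atTop_nat 1)
      have hb : Tendsto (fun N : ℕ => (Finset.range (N + 1), Finset.range (N + 1))) atTop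
          ((atTop : Filter (Finset ℕ)) ×ˢ (atTop : Filter (Finset ℕ))) := ha.prodMk ha
      rw [prod_atTop_atTop_eq] at hb
      exact tendsto_finsetProd_atTop.comp hb
    exact hv.hasSum.comp h1
  have hkey : ∀ N : ℕ, ‖∑ x ∈ Finset.range (N + 1) ×ˢ Finset.range (N + 1),
      (if M₀ < x.2 then RAM_v g κ η P₀ x else 0)‖ ≤ D * Real.sqrt (BF η δ J P₀ M₀) := by
    intro N
    have hb := hBIL κ δ η J P₀ M₀ N hδ hη hη1 hJ hP₀ hM₀ hκ (uu g P₀) (dm g P₀)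
      ((Finset.range (N + 1)).filter (fun n => P₀ < n)) (fun n hn => (Finset.mem_filter.mp hn).2)
    have heq : ∑ x ∈ Finset.range (N + 1) ×ˢ Finset.range (N + 1),
        (if M₀ < x.2 then RAM_v g κ η P₀ x else 0) =
        ∑ n ∈ (Finset.range (N + 1)).filter (fun n => P₀ < n), ∑ m ∈ Finset.Ioc M₀ N,
          uu g P₀ n * dm g P₀ m * ee ((n * m : ℕ) * κ) * ((wt η n * wt η m : ℝ) : ℂ) := by
      rw [Finset.sum_product, Finset.sum_filter]
      refine Finset.sum_congr rfl fun n _ => ?_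
      by_cases hn : P₀ < n
      · rw [if_pos hn, ← Finset.sum_filter]
        refine Finset.sum_congr ?_ fun m _ => rfl
        ext m
        simp only [Finset.mem_filter, Finset.mem_range, Finset.mem_Ioc]
        omega
      · rw [if_neg hn]
        refine Finset.sum_eq_zero fun m _ => ?_
        have h0 : uu g P₀ n = 0 := by
          unfold uu
          rw [if_neg (fun h => hn h.2)]
        simp [RAM_v, h0]
    rw [heq]
    have hd : ∑ m ∈ Finset.Ioc M₀ N, ‖dm g P₀ m‖ ^ 2 * wt η m ≤ D := by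
      refine le_trans ?_ h2
      refine le_trans ?_ (h2s.sum_le_tsum (Finset.Ioc M₀ N)
        (fun n _ => mul_nonneg (by positivity) (RAM_wt_nonneg η n)))
      refine Finset.sum_le_sum fun m _ => mul_le_mul_of_nonneg_right ?_ (RAM_wt_nonneg η m)
      exact pow_le_pow_left₀ (norm_nonneg _) (RAM_norm_dm g P₀ m) 2
    have hc : ∑ n ∈ (Finset.range (N + 1)).filter (fun n => P₀ < n),
        ‖uu g P₀ n‖ ^ 2 * wt η n ≤ D := by
      refine le_trans ?_ h2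
      refine le_trans ?_ (h2s.sum_le_tsum ((Finset.range (N + 1)).filter (fun n => P₀ < n))
        (fun n _ => mul_nonneg (by positivity) (RAM_wt_nonneg η n)))
      refine Finset.sum_le_sum fun m _ => mul_le_mul_of_nonneg_right ?_ (RAM_wt_nonneg η m)
      exact pow_le_pow_left₀ (norm_nonneg _) (RAM_norm_uu g P₀ m) 2
    have hc0 : 0 ≤ ∑ n ∈ (Finset.range (N + 1)).filter (fun n => P₀ < n),
        ‖uu g P₀ n‖ ^ 2 * wt η n :=
      Finset.sum_nonneg fun n _ => mul_nonneg (by positivity) (RAM_wt_nonneg η n)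
    have h3 : (∑ m ∈ Finset.Ioc M₀ N, ‖dm g P₀ m‖ ^ 2 * wt η m) *
        (∑ n ∈ (Finset.range (N + 1)).filter (fun n => P₀ < n), ‖uu g P₀ n‖ ^ 2 * wt η n) *
        BF η δ J P₀ M₀ ≤ D * D * BF η δ J P₀ M₀ :=
      mul_le_mul_of_nonneg_right (mul_le_mul hd hc hc0 hD0) hBF
    have h4 := Real.abs_le_sqrt (hb.trans h3)
    rw [abs_of_nonneg (norm_nonneg _), Real.sqrt_mul (mul_nonneg hD0 hD0),
      Real.sqrt_mul_self hD0] at h4
    exact h4
  exact le_of_tendsto (hlim.norm) (Eventually.of_forall hkey)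

theorem p_RAM (hMOM2 : T_MOM2) (hMOM1 : T_MOM1) (hPM1 : T_PM1) (hHAR : T_HAR) (hSMO : T_SMO)
    (hBIL : T_BIL) (hGRP : T_GRP) (hRID : T_RID) (hEE : T_EE) : T_RAM := by
  intro g κ hg
  obtain ⟨C2, K2, hC2, hK2, h2⟩ := hMOM2 g hg
  obtain ⟨C1, K1, hC1, hK1, h1⟩ := hMOM1 g hg
  obtain ⟨CP, hCP, hP⟩ := hPM1 g hg.ms
  obtain ⟨CH, KH, hCH, hKH, hH⟩ := hHAR g hg
  obtain ⟨CS, KS, hCS, hKS, hS⟩ := hSMO g hg
  obtain ⟨CE, KE, hCE, hKE, hE⟩ := hEE g hg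
  have hCC : 0 ≤ CS + CP * CH + CE + C2 := by positivity
  have hmulCC : 0 ≤ CP * CH := mul_nonneg hCP hCH
  refine ⟨CS + CP * CH + CE + C2, KS + KH + KE + K2, hCC, by positivity, ?_⟩
  intro δ η J P₀ M₀ hδ hη hη1 hJ hP₀ hM₀ hκ
  obtain ⟨h1s, -⟩ := h1 η hη hη1
  obtain ⟨h2s, h2b⟩ := h2 η hη hη1
  obtain ⟨hPs, hPb⟩ := hP η hη hη1
  obtain ⟨hEs, hEb⟩ := hE η P₀ hη hη1 hP₀
  have hHb := hH M₀ hM₀
  obtain ⟨hp1s, hp1⟩ := RAM_part1 g κ hη P₀ _ h1s (hS P₀ hP₀)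
  obtain ⟨hus, hub⟩ := RAM_uu_sum g P₀ _ h1s hPb
  have hlog : 0 ≤ Real.log (1 / η) := Real.log_nonneg (by rw [le_div_iff₀ hη]; linarith)
  have hBP0 : 0 ≤ CP * (1 + Real.log (1 / η)) := mul_nonneg hCP (by linarith)
  obtain ⟨hv1s, hv1⟩ := RAM_small g κ hη P₀ M₀ _ _ hBP0 h1s hus hub hHb
  -- the pair series
  have hprod : Summable (fun x : ℕ × ℕ => (‖uu g P₀ x.1‖ * wt η x.1) * (‖g x.2‖ * wt η x.2)) :=
    hus.mul_of_nonneg h1s (fun n => mul_nonneg (norm_nonneg _) (RAM_wt_nonneg η n))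
      (fun n => mul_nonneg (norm_nonneg _) (RAM_wt_nonneg η n))
  have hvs : Summable (RAM_v g κ η P₀) :=
    Summable.of_norm_bounded hprod (RAM_v_norm g κ η P₀)
  have hv2s : Summable (fun x : ℕ × ℕ => if M₀ < x.2 then RAM_v g κ η P₀ x else 0) := by
    refine Summable.of_norm_bounded hprod (fun x => ?_)
    split_ifs
    · exact RAM_v_norm g κ η P₀ x
    · rw [norm_zero]
      exact mul_nonneg (mul_nonneg (norm_nonneg _) (RAM_wt_nonneg η _))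
        (mul_nonneg (norm_nonneg _) (RAM_wt_nonneg η _))
  have hv2 := RAM_large hBIL g κ hδ hη hη1 J P₀ M₀ hJ hP₀ hM₀ hκ _ h2s h2b hv2s
  have hvsplit : ∑' x, RAM_v g κ η P₀ x =
      ∑' x : ℕ × ℕ, (if x.2 ≤ M₀ then RAM_v g κ η P₀ x else 0) +
      ∑' x : ℕ × ℕ, (if M₀ < x.2 then RAM_v g κ η P₀ x else 0) := by
    rw [← hv1s.tsum_add hv2s]
    refine tsum_congr fun x => ?_
    by_cases hx : x.2 ≤ M₀
    · rw [if_pos hx, if_neg (by omega), add_zero]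
    · rw [if_neg hx, if_pos (by omega), zero_add]
  have hgrp := hGRP (RAM_v g κ η P₀) hvs (fun n => by
    constructor
    · simp [RAM_v, RAM_wt_zero hη]
    · simp [RAM_v, RAM_wt_zero hη])
  have hgrp2 : HasSum (fun n : ℕ => (∑ x ∈ n.divisorsAntidiagonal,
      uu g P₀ x.1 * dm g P₀ x.2) * ee (n * κ) * ((wt η n : ℝ) : ℂ)) (∑' x, RAM_v g κ η P₀ x) := by
    convert hgrp using 2 with n
    rw [Finset.sum_mul, Finset.sum_mul]
    refine Finset.sum_congr rfl fun x hx => ?_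
    have hx' := (Nat.mem_divisorsAntidiagonal.mp hx).1
    unfold RAM_v
    rw [← RAM_wt_mul, hx']
  -- the error
  have hes : Summable (fun n : ℕ => (g n - ((if om P₀ n = 0 then g n else 0) +
      ∑ x ∈ n.divisorsAntidiagonal, uu g P₀ x.1 * dm g P₀ x.2)) * ee (n * κ) *
        ((wt η n : ℝ) : ℂ)) ∧
      ‖∑' n : ℕ, (g n - ((if om P₀ n = 0 then g n else 0) +
      ∑ x ∈ n.divisorsAntidiagonal, uu g P₀ x.1 * dm g P₀ x.2)) * ee (n * κ) *
        ((wt η n : ℝ) : ℂ)‖ ≤ CE * (1 / η) ^ KE * (P₀ : ℝ) ^ (-(1 / 4) : ℝ) := by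
    have hle : ∀ n : ℕ, ‖(g n - ((if om P₀ n = 0 then g n else 0) +
      ∑ x ∈ n.divisorsAntidiagonal, uu g P₀ x.1 * dm g P₀ x.2)) * ee (n * κ) *
        ((wt η n : ℝ) : ℂ)‖ ≤ EE g P₀ n * wt η n := by
      intro n
      rw [norm_mul, norm_mul, RAM_norm_ee, Complex.norm_real, Real.norm_eq_abs,
        abs_of_nonneg (RAM_wt_nonneg η _), mul_one]
      rcases Nat.eq_zero_or_pos n with h | h
      · subst h
        rw [RAM_wt_zero hη]
        simp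
      · exact mul_le_mul_of_nonneg_right (hRID g P₀ n hg h) (RAM_wt_nonneg η n)
    refine ⟨Summable.of_norm_bounded hEs hle, ?_⟩
    exact (tsum_of_norm_bounded hEs.hasSum hle).trans hEb
  have hSSeq : SS g κ η =
      (∑' n : ℕ, (if om P₀ n = 0 then g n else 0) * ee (n * κ) * ((wt η n : ℝ) : ℂ)) +
      (∑' x : ℕ × ℕ, (if x.2 ≤ M₀ then RAM_v g κ η P₀ x else 0)) +
      (∑' n : ℕ, (g n - ((if om P₀ n = 0 then g n else 0) +
      ∑ x ∈ n.divisorsAntidiagonal, uu g P₀ x.1 * dm g P₀ x.2)) * ee (n * κ) *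
        ((wt η n : ℝ) : ℂ)) +
      (∑' x : ℕ × ℕ, (if M₀ < x.2 then RAM_v g κ η P₀ x else 0)) := by
    rw [RAM_SS g κ hη]
    have ht := ((hp1s.hasSum.add hgrp2).add hes.1.hasSum).tsum_eq
    rw [hvsplit] at ht
    have hc : ∑' n : ℕ, g n * ee (n * κ) * ((wt η n : ℝ) : ℂ) =
        ∑' n : ℕ, ((if om P₀ n = 0 then g n else 0) * ee (n * κ) * ((wt η n : ℝ) : ℂ) +
        (∑ x ∈ n.divisorsAntidiagonal, uu g P₀ x.1 * dm g P₀ x.2) * ee (n * κ) *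
          ((wt η n : ℝ) : ℂ) +
        (g n - ((if om P₀ n = 0 then g n else 0) +
      ∑ x ∈ n.divisorsAntidiagonal, uu g P₀ x.1 * dm g P₀ x.2)) * ee (n * κ) *
        ((wt η n : ℝ) : ℂ)) := tsum_congr fun n => by ring
    rw [hc, ht]
    ring
  rw [hSSeq]
  refine (norm_add_le _ _).trans ?_
  refine add_le_add ((norm_add_le _ _).trans (add_le_add ((norm_add_le _ _).trans
    (add_le_add ?_ ?_)) ?_)) ?_
  · refine hp1.trans (RAM_le_rpow ?_ hCC ?_ ?_)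
    · linarith
    · have := Real.log_nonneg (show (1 : ℝ) ≤ P₀ by exact_mod_cast hP₀)
      linarith
    · linarith
  · refine hv1.trans ?_
    have h5 : CP * (1 + Real.log (1 / η)) * (CH * (1 + Real.log M₀) ^ KH) =
        (CP * CH) * (1 + Real.log M₀) ^ KH * (1 + Real.log (1 / η)) := by ring
    rw [h5]
    refine mul_le_mul_of_nonneg_right (RAM_le_rpow ?_ hCC ?_ ?_) (by linarith)
    · linarith
    · have := Real.log_nonneg (show (1 : ℝ) ≤ M₀ by exact_mod_cast hM₀)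
      linarith
    · linarith
  · refine hes.2.trans ?_
    refine mul_le_mul_of_nonneg_right (RAM_le_rpow ?_ hCC ?_ ?_)
      (Real.rpow_nonneg (Nat.cast_nonneg _) _)
    · linarith
    · rw [le_div_iff₀ hη]; linarith
    · linarith
  · refine hv2.trans ?_
    refine mul_le_mul_of_nonneg_right (RAM_le_rpow ?_ hCC ?_ ?_) (Real.sqrt_nonneg _)
    · linarith
    · rw [le_div_iff₀ hη]; linarith
    · linarith

end

end Pool.Agent.SelDeg2
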