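import Pool.Agent.SelDeg2.Defs

/-!
# Degree 2 with a pole (MP_995735_nt), part A: the modular relation

Exact targets. Versions of the targets of `SelTwo` on the lines `Re s = 5/4`, `Re s = -1/4`, with a
pole of arbitrary order, and the relation in the form needed here (`T_DREL`).
-/

namespace Pool.Agent.SelDeg2

open Complex Filter Topology MeasureTheory
open Pool.Agent.SelPole Pool.Agent.SelTwo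

noncomputable section

/-- The function `s ↦ (s-1)^M F(s)` extends to an entire function of finite order. -/
def ContM (F : ℂ → ℂ) (M : ℕ) : Prop :=
  ∃ g : ℂ → ℂ, Differentiable ℂ g ∧ FiniteOrder g ∧ ∀ s : ℂ, s ≠ 1 → g s = (s - 1) ^ M * F s

/-- LAM -/
def T_LAM : Prop := ∀ (a : ℕ → ℂ) (θ : ℝ) (Y : ℂ), LSeriesSummable a (5 / 4) → 0 < Y.re →
  Integrable (fun t : ℝ => Gamma (vl (5 / 4) t - θ * I) * Y ^ (-vl (5 / 4) t) *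
    LSeries a (vl (5 / 4) t)) ∧
  ∫ t : ℝ, Gamma (vl (5 / 4) t - θ * I) * Y ^ (-vl (5 / 4) t) * LSeries a (vl (5 / 4) t) =
    2 * Real.pi * Y ^ (-((θ : ℂ) * I)) * lam (tw θ a) Y

/-- RAT -/
def T_RAT : Prop := ∀ (k : ℕ) (l : Fin k → ℝ) (m : Fin k → ℂ), (∀ j, 0 < l j) →
  (∀ j, 0 ≤ (m j).re) → ∑ j, l j = 1 →
  Continuous (fun τ : ℝ => gP k l m (vl (5 / 4) τ)) ∧
  ∃ C : ℝ, ∀ τ : ℝ, ‖gP k l m (vl (5 / 4) τ)‖ ≤ C * (1 + |τ|) ^ 2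

/-- KER -/
def T_KER : Prop := ∀ (k : ℕ) (l : Fin k → ℝ) (m : Fin k → ℂ), (∀ j, 0 < l j) →
  (∀ j, 0 ≤ (m j).re) → ∑ j, l j = 1 → ∃ (A : ℂ) (R C : ℝ), A ≠ 0 ∧ 0 < R ∧
    (∀ τ : ℝ, 0 ≤ τ → ‖Gamma (1 - vl (5 / 4) τ) * gP k l m (vl (5 / 4) τ) -
      A * (R : ℂ) ^ (vl (5 / 4) τ) *
        Gamma (vl (5 / 4) τ - (2 * ∑ j, (m j).im : ℝ) * I)‖ ≤
          C * (1 + τ) ^ (-(1 / 4) : ℝ) * Real.exp (-(Real.pi * τ / 2))) ∧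
    (∀ τ : ℝ, τ ≤ 0 → ‖Gamma (1 - vl (5 / 4) τ) * gP k l m (vl (5 / 4) τ) -
      A * (R : ℂ) ^ (vl (5 / 4) τ) *
        Gamma (vl (5 / 4) τ - (2 * ∑ j, (m j).im : ℝ) * I)‖ ≤
        C * (1 + |τ|) * Real.exp (Real.pi * τ / 2))

/-- FE -/
def T_FE : Prop := ∀ (F : ℂ → ℂ) (M : ℕ) (Q : ℝ) (k : ℕ) (l : Fin k → ℝ) (m : Fin k → ℂ) (w : ℂ),
  ContM F M → FEq F Q k l m w → ∀ t : ℝ,
    F (vl (-1 / 4) t) = w * (Q : ℂ) ^ (1 - 2 * vl (-1 / 4) t) * gP k l m (vl (5 / 4) (-t)) *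
      (starRingEnd ℂ) (F (vl (5 / 4) t))

/-- PL -/
def T_PL : Prop := ∀ (F : ℂ → ℂ) (M : ℕ), ContM F M →
  (∃ B : ℝ, ∀ t : ℝ, ‖F (vl (5 / 4) t)‖ ≤ B) →
  (∃ B : ℝ, ∀ t : ℝ, ‖F (vl (-1 / 4) t)‖ ≤ B * (1 + |t|) ^ 2) →
  ∃ C : ℝ, ∀ s : ℂ, -1 / 4 ≤ s.re → s.re ≤ 5 / 4 → 1 ≤ |s.im| →
    ‖F s‖ ≤ C * (1 + |s.im|) ^ (M + 2)

/-- SHIFT -/
def T_SHIFT : Prop := ∀ (F : ℂ → ℂ) (N : ℕ), (∀ s : ℂ, s ≠ 1 → DifferentiableAt ℂ F s) →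
  (∃ C : ℝ, ∀ s : ℂ, -1 / 4 ≤ s.re → s.re ≤ 5 / 4 → 1 ≤ |s.im| →
    ‖F s‖ ≤ C * (1 + |s.im|) ^ N) →
  ∀ K : ℝ, 1 ≤ K → ∃ C : ℝ, ∀ X : ℂ, 0 < X.re → 1 / K ≤ ‖X‖ → ‖X‖ ≤ K →
    Integrable (fun t : ℝ => Gamma (vl (5 / 4) t) * X ^ (-vl (5 / 4) t) * F (vl (5 / 4) t)) ∧
    Integrable (fun t : ℝ => Gamma (vl (-1 / 4) t) * X ^ (-vl (-1 / 4) t) * F (vl (-1 / 4) t)) ∧
    ‖(∫ t : ℝ, Gamma (vl (5 / 4) t) * X ^ (-vl (5 / 4) t) * F (vl (5 / 4) t)) -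
      ∫ t : ℝ, Gamma (vl (-1 / 4) t) * X ^ (-vl (-1 / 4) t) * F (vl (-1 / 4) t)‖ ≤ C

/-- ERR -/
def T_ERR : Prop := ∀ (K C₁ B : ℝ), 1 ≤ K → 0 ≤ C₁ → 0 ≤ B → ∃ C : ℝ, ∀ X : ℂ,
  0 < X.re → X.im < 0 → 1 / K ≤ ‖X‖ → ‖X‖ ≤ K → ∀ E h : ℝ → ℂ, Continuous E → Continuous h →
  (∀ τ, 0 ≤ τ → ‖E τ‖ ≤ C₁ * (1 + τ) ^ (-(1 / 4) : ℝ) * Real.exp (-(Real.pi * τ / 2))) →
  (∀ τ, τ ≤ 0 → ‖E τ‖ ≤ C₁ * (1 + |τ|) * Real.exp (Real.pi * τ / 2)) →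
  (∀ τ, ‖h τ‖ ≤ B) →
  Integrable (fun τ : ℝ => E τ * X ^ (vl (5 / 4) τ - 1) * h τ) ∧
  ‖∫ τ : ℝ, E τ * X ^ (vl (5 / 4) τ - 1) * h τ‖ ≤ C * X.re ^ (-(3 / 4) : ℝ)

/-- REL: the modular relation near a positive real point `α`, up to `O(y^(-3/4))` -/
def T_REL : Prop := ∀ (F : ℂ → ℂ) (M : ℕ) (a : ℕ → ℂ) (Q : ℝ) (k : ℕ) (l : Fin k → ℝ)
  (m : Fin k → ℂ) (w : ℂ), (∀ s : ℂ, 1 < s.re → LSeriesSummable a s) →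
  (∀ s : ℂ, 1 < s.re → F s = LSeries a s) → ContM F M → FEq F Q k l m w → ∑ j, l j = 1 →
  ∃ (A : ℂ) (q : ℝ), A ≠ 0 ∧ 0 < q ∧ ∀ α : ℝ, 0 < α → ∃ C : ℝ, ∀ y : ℝ, 0 < y → y ≤ 1 →
    ‖lam a (pX α y) - A / pX α y *
      (4 * Real.pi ^ 2 / (q * pX α y)) ^ (-(((2 * ∑ j, (m j).im : ℝ) : ℂ) * I)) *
      lam (tw (2 * ∑ j, (m j).im) (cj a)) (4 * Real.pi ^ 2 / (q * pX α y))‖ ≤
      C * y ^ (-(3 / 4) : ℝ)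

/-- DREL1: from the relation at heights `y` to the relation of Dirichlet series -/
def T_DREL1 : Prop := ∀ (a : ℕ → ℂ) (A₁ : ℝ) (A : ℂ) (q θ α C : ℝ),
  (∀ n : ℕ, 1 ≤ n → ‖a n‖ ≤ A₁ * (n : ℝ) ^ (1 / 2 : ℝ)) →
  (∀ s : ℂ, 1 < s.re → LSeriesSummable a s) → 0 < q → 0 < α →
  (∀ y : ℝ, 0 < y → y ≤ 1 →
    ‖lam a (pX α y) - A / pX α y * (4 * Real.pi ^ 2 / (q * pX α y)) ^ (-((θ : ℂ) * I)) *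
      lam (tw θ (cj a)) (4 * Real.pi ^ 2 / (q * pX α y))‖ ≤ C * y ^ (-(3 / 4) : ℝ)) →
  ∃ C' : ℝ, ∀ η : ℝ, 0 < η → η ≤ 1 →
    ‖SS a α η - (q * A / (-(2 * Real.pi * I)) * (2 * Real.pi * I / q) ^ (-((θ : ℂ) * I))) *
      (α : ℂ) ^ (1 + (θ : ℂ) * I) * (((q * α ^ 2) ^ η : ℝ) : ℂ) *
      (starRingEnd ℂ) (SS (gth θ a) (1 / (q * α)) η)‖ ≤ C'

/-- DREL: the relation between additive twists, for real `s = 1 + η`, `η → 0+` -/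
def T_DREL : Prop := ∀ (F : ℂ → ℂ) (a b : ℕ → ℂ) (Q : ℝ) (k : ℕ) (l : Fin k → ℝ)
  (m : Fin k → ℂ) (w : ℂ), IsSelberg F a b → FEq F Q k l m w → ∑ j, l j = 1 →
  ∃ (A : ℂ) (κ : ℝ), Drel a A κ (2 * ∑ j, (m j).im)

end

end Pool.Agent.SelDeg2
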