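import Pool.Agent.SelDeg2.Defs

/-!
# Functions of degree 2 in the Selberg class with a pole at `s = 1`: parts C and D (arithmetic)

Exact targets (MP_995735_nt, helper19). The proofs are described in `BlueprintC.lean.txt`.
-/

namespace Pool.Agent.SelDeg2

open Complex Filter Topology MeasureTheory
open Pool.Agent.SelPole Pool.Agent.SelTwo

noncomputable section

/-! ## Definitions -/

/-- the point `1 + η - i θ` -/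
def pt (η θ : ℝ) : ℂ := 1 + (η : ℂ) - θ * I

/-- the sum over primes `∑_p f(p) p^(-s)` -/
def pser (f : ℕ → ℂ) (s : ℂ) : ℂ := ∑' p : Nat.Primes, f (p : ℕ) * ((p : ℕ) : ℂ) ^ (-s)

/-- `log (1/η)` -/
def Lg (η : ℝ) : ℝ := Real.log (1 / η)

/-- the sequence `a(n) ξ(n)` for a Dirichlet character `ξ` -/
def aX (a : ℕ → ℂ) {M : ℕ} (ξ : DirichletCharacter ℂ M) : ℕ → ℂ := fun n => a n * ξ (n : ZMod M)

/-- the finite set of all characters -/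
noncomputable instance (M : ℕ) [NeZero M] : Fintype (DirichletCharacter ℂ M) := Fintype.ofFinite _

/-- `c_M(ξ, G) = (1/φ(M)) ∑_y conj ξ(y) e(G y / M)` -/
def cG (M : ℕ) [NeZero M] (ξ : DirichletCharacter ℂ M) (G : ℕ) : ℂ :=
  (1 / (M.totient : ℂ)) * ∑ y : (ZMod M)ˣ, (starRingEnd ℂ) (ξ (y : ZMod M)) *
    ee ((G : ℝ) * (((y : ZMod M).val : ℝ) / M))

/-- the series over the integers composed of primes dividing `M` -/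
def kap (a : ℕ → ℂ) (M : ℕ) [NeZero M] (ξ : DirichletCharacter ℂ M) (s : ℂ) : ℂ :=
  LSeries (fun G => open Classical in
    if (∀ p : ℕ, p.Prime → p ∣ G → p ∣ M) then a G * cG M ξ G else 0) s

/-- the Euler factor at `p` -/
def LpF (a : ℕ → ℂ) (p : ℕ) (s : ℂ) : ℂ := ∑' j : ℕ, a (p ^ j) * (p : ℂ) ^ (-((j : ℂ) * s))

/-- the bracket of the principal part at `1/p^k` -/
def Br (a : ℕ → ℂ) (p k : ℕ) (s : ℂ) : ℂ :=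
  (∑' j : ℕ, a (p ^ (k + j)) * (p : ℂ) ^ (-(((k + j : ℕ) : ℂ) * s))) -
    a (p ^ (k - 1)) * (p : ℂ) ^ (-(((k - 1 : ℕ) : ℂ) * s)) / ((p : ℂ) - 1)

/-- `H(p^k)`, the normalised principal part at `1/p^k` -/
def HH (a : ℕ → ℂ) (p k : ℕ) : ℂ := (p : ℂ) ^ k * (Br a p k 1 / LpF a p 1)

/-- the form of `a(p)` up to a small error: `a(p) = 1 + p^(-iθ) ∑_ψ c(ψ) conj ψ(p) + O(p^(-δ))` -/
def AppForm (a : ℕ → ℂ) (N : ℕ) [NeZero N] (θ : ℝ) (c : DirichletCharacter ℂ N → ℂ) : Prop :=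
  ∃ (δ K : ℝ), 0 < δ ∧ ∀ p : ℕ, p.Prime → ¬ p ∣ N →
    ‖a p - (1 + (p : ℂ) ^ (-((θ : ℂ) * I)) *
      ∑ ψ : DirichletCharacter ℂ N, c ψ * (starRingEnd ℂ) (ψ (p : ZMod N)))‖ ≤ K * (p : ℝ) ^ (-δ)

/-! ## Part C: multiplicativity, logarithms, sums over primes, selection -/

/-- C-MUL: the coefficients are multiplicative -/
def T_MUL : Prop := ∀ (F : ℂ → ℂ) (a b : ℕ → ℂ), IsSelberg F a b →
  ∀ m n : ℕ, m.Coprime n → a (m * n) = a m * a n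

/-- C-TW: twisting by a completely multiplicative function -/
def T_TW : Prop := ∀ (F : ℂ → ℂ) (a b : ℕ → ℂ), IsSelberg F a b → ∀ h : ℕ → ℂ,
  (∀ m n, h (m * n) = h m * h n) → h 1 = 1 → (∀ n, ‖h n‖ ≤ 1) → ∀ s : ℂ, 1 < s.re →
  LSeries (fun n => a n * h n) s = exp (LSeries (fun n => b n * h n) s)

/-- C-LOC: the local Euler factor as a power series -/
def T_LOC : Prop := ∀ (F : ℂ → ℂ) (a b : ℕ → ℂ), IsSelberg F a b → ∀ p : ℕ, p.Prime → ∀ z : ℂ,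
  ‖z‖ ≤ 1 / p → Summable (fun j : ℕ => ‖a (p ^ j) * z ^ j‖) ∧
    Summable (fun j : ℕ => ‖b (p ^ (j + 1)) * z ^ (j + 1)‖) ∧
    ∑' j : ℕ, a (p ^ j) * z ^ j = exp (∑' j : ℕ, b (p ^ (j + 1)) * z ^ (j + 1))

/-- C-EXPB: twisted Dirichlet series and sums over primes, uniformly -/
def T_EXPB : Prop := ∀ (F : ℂ → ℂ) (a b : ℕ → ℂ), IsSelberg F a b → ∃ C : ℝ, 0 ≤ C ∧
  ∀ (M : ℕ) [NeZero M] (ξ : DirichletCharacter ℂ M) (s : ℂ), 1 < s.re →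
    Summable (fun p : Nat.Primes => ‖aX a ξ p * ((p : ℕ) : ℂ) ^ (-s)‖) ∧
    ∃ e : ℂ, ‖e‖ ≤ C ∧ LSeries (aX a ξ) s = exp (pser (aX a ξ) s + e)

/-- C-PR: the sum of a Dirichlet character over the primes -/
def T_PR : Prop := ∀ (M : ℕ) [NeZero M] (ξ : DirichletCharacter ℂ M) (t : ℝ), ∃ C : ℝ,
  ∀ η : ℝ, 0 < η → η ≤ 1 →
    ‖pser (fun n => ξ (n : ZMod M)) (1 + (η : ℂ) + t * I) -
      (open Classical in if ξ = 1 ∧ t = 0 then ((Lg η : ℝ) : ℂ) else 0)‖ ≤ C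

/-- C-PRX: a nontrivial character mod `p^k` times any character of modulus prime to `p` -/
def T_PRX : Prop := ∀ (p k N : ℕ) [NeZero N] [NeZero (p ^ k)], p.Prime → ¬ p ∣ N →
  ∀ (χ : DirichletCharacter ℂ (p ^ k)) (ψ : DirichletCharacter ℂ N) (t : ℝ), χ ≠ 1 →
  ∃ C : ℝ, ∀ η : ℝ, 0 < η → η ≤ 1 →
    ‖pser (fun n => χ (n : ZMod (p ^ k)) * ψ (n : ZMod N)) (1 + (η : ℂ) + t * I)‖ ≤ C

/-- C-SEL: selection of a filter along which almost all primes are inactive -/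
def T_SEL : Prop := ∀ a : ℕ → ℂ, MeanSquare a →
  ∃ (l : Filter ℝ) (P₀ : Finset ℕ), l.NeBot ∧ l ≤ 𝓝[>] 0 ∧
  ∀ (p : ℕ) [NeZero (p ^ 1)], p.Prime → p ∉ P₀ → ∀ χ : DirichletCharacter ℂ (p ^ 1), χ ≠ 1 →
    ∀ᶠ η : ℝ in l, ‖pser (aX a χ) (1 + (η : ℂ))‖ ≤ Lg η / 2

/-- C-DEC: expansion of an additive twist in characters -/
def T_DEC : Prop := ∀ (F : ℂ → ℂ) (a b : ℕ → ℂ), IsSelberg F a b → ∀ (M : ℕ) [NeZero M] (u : ℕ)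
  (s : ℂ), u.Coprime M → 1 < s.re → LSeries (fun n => a n * ee (n * ((u : ℝ) / M))) s =
    ∑ ξ : DirichletCharacter ℂ M, ξ (u : ZMod M) * kap a M ξ s * LSeries (aX a ξ) s

/-- C-KB: `kap` is bounded on `Re s > 1` -/
def T_KB : Prop := ∀ (F : ℂ → ℂ) (a b : ℕ → ℂ), IsSelberg F a b → ∀ (M : ℕ) [NeZero M]
  (ξ : DirichletCharacter ℂ M), ∃ C : ℝ, ∀ s : ℂ, 1 < s.re → ‖kap a M ξ s‖ ≤ C

/-- C-CS: evaluation of the character sums for the trivial character mod `p^k` -/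
def T_CS : Prop := ∀ (p k : ℕ) [NeZero (p ^ k)], p.Prime → 1 ≤ k → ∀ j : ℕ,
  cG (p ^ k) (1 : DirichletCharacter ℂ (p ^ k)) (p ^ j) =
    if k ≤ j then 1 else if j = k - 1 then -(1 / ((p : ℂ) - 1)) else 0

/-- C-PP: the additive twist at `1/p^k` -/
def T_PP : Prop := ∀ (F : ℂ → ℂ) (a b : ℕ → ℂ), IsSelberg F a b → ∀ (p k : ℕ) [NeZero (p ^ k)],
  p.Prime → 1 ≤ k → ∀ s : ℂ, 1 < s.re → LpF a p s ≠ 0 ∧
  LSeries (fun n => a n * ee (n * (1 / ((p ^ k : ℕ) : ℝ)))) s =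
    Br a p k s / LpF a p s * LSeries a s +
    ∑ ξ ∈ (open Classical in Finset.univ.filter (fun ξ : DirichletCharacter ℂ (p ^ k) => ξ ≠ 1)),
      kap a (p ^ k) ξ s * LSeries (aX a ξ) s

/-- C-E1: continuity of the local quantities at `s = 1`, and their size for large `p` -/
def T_E1 : Prop := ∀ (F : ℂ → ℂ) (a b : ℕ → ℂ), IsSelberg F a b →
  (∀ p k : ℕ, p.Prime → 1 ≤ k → LpF a p 1 ≠ 0 ∧
    Tendsto (fun η : ℝ => Br a p k (1 + (η : ℂ)) / LpF a p (1 + (η : ℂ))) (𝓝[>] 0)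
      (𝓝 (Br a p k 1 / LpF a p 1))) ∧
  ∃ δ K : ℝ, 0 < δ ∧ ∀ p : ℕ, p.Prime → ‖HH a p 1 - (a p - 1)‖ ≤ K * (p : ℝ) ^ (-δ)

/-- C-PPL: the principal part at `1/p^k` in the limit -/
def T_PPL : Prop := ∀ (F : ℂ → ℂ) (a b : ℕ → ℂ) (r : ℕ) (R₀ : ℂ) (l : Filter ℝ),
  IsSelberg F a b → HasPole F r R₀ → l ≤ 𝓝[>] 0 → ∀ (p k : ℕ) [NeZero (p ^ k)], p.Prime → 1 ≤ k →
  (∀ χ : DirichletCharacter ℂ (p ^ k), χ ≠ 1 →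
    Tendsto (fun η : ℝ => (η : ℂ) ^ r * LSeries (aX a χ) (1 + (η : ℂ))) l (𝓝 0)) →
  Tendsto (fun η : ℝ => (η : ℂ) ^ r * SS a (1 / ((p ^ k : ℕ) : ℝ)) η) l
    (𝓝 (R₀ * (HH a p k / (p : ℂ) ^ k)))

/-- C-GKP: transfer through the modular relation to the points `κ p^k` -/
def T_GKP : Prop := ∀ (a : ℕ → ℂ) (r : ℕ) (R₀ A₁ : ℂ) (κ θ : ℝ) (l : Filter ℝ),
  1 ≤ r → R₀ ≠ 0 → Drel a A₁ κ θ → l ≤ 𝓝[>] 0 → ∀ (p k : ℕ) (h : ℂ), 1 ≤ p →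
  Tendsto (fun η : ℝ => (η : ℂ) ^ r * SS a (1 / ((p ^ k : ℕ) : ℝ)) η) l
    (𝓝 (R₀ * (h / (p : ℂ) ^ k))) →
  Tendsto (fun η : ℝ => (η : ℂ) ^ r * SS (gth θ a) (κ * ((p ^ k : ℕ) : ℝ)) η) l
    (𝓝 ((starRingEnd ℂ) (R₀ / A₁) *
      (starRingEnd ℂ) (((p ^ k : ℕ) : ℂ) ^ ((θ : ℂ) * I) * h)))

/-- C-POLE: the pole of order `r` and the sum over primes -/
def T_POLE : Prop := ∀ (F : ℂ → ℂ) (a b : ℕ → ℂ) (r : ℕ) (R₀ : ℂ), IsSelberg F a b →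
  HasPole F r R₀ → ∃ C : ℝ, ∀ η : ℝ, 0 < η → η ≤ 1 →
    ‖pser a (1 + (η : ℂ)) - r * ((Lg η : ℝ) : ℂ)‖ ≤ C

/-! ## Part D: the form of `a(p)` and the Euler factors -/

/-- D-ST1: the first stage. `κ = u/N` in lowest terms. -/
def T_ST1 : Prop := ∀ (F : ℂ → ℂ) (a b : ℕ → ℂ) (r : ℕ) (R₀ A₁ : ℂ) (κ θ : ℝ) (u N : ℕ)
  [NeZero N], IsSelberg F a b → HasPole F r R₀ → MeanSquare a → Drel a A₁ κ θ →
  u.Coprime N → κ = (u : ℝ) / N →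
  ∃ (l : Filter ℝ) (c₀ : ℂ) (X : (ZMod N)ˣ → ℂ), l.NeBot ∧ l ≤ 𝓝[>] 0 ∧ c₀ ≠ 0 ∧ X 1 = 1 ∧
    (∀ (m : ℕ) (hm : m.Coprime N), Tendsto (fun η : ℝ => (η : ℂ) ^ r * SS (gth θ a) (κ * m) η) l
      (𝓝 (c₀ * (starRingEnd ℂ) (X (ZMod.unitOfCoprime m hm))))) ∧
    c₀ = (starRingEnd ℂ) (R₀ / A₁) ∧
    ∃ (δ K : ℝ), 0 < δ ∧ ∀ (p : ℕ) (_ : p.Prime) (hp : p.Coprime N),
      ‖a p - (1 + (p : ℂ) ^ (-((θ : ℂ) * I)) * X (ZMod.unitOfCoprime p hp))‖ ≤ K * (p : ℝ) ^ (-δ)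

/-- D-FOU: Fourier analysis of the first stage -/
def T_FOU : Prop := ∀ (F : ℂ → ℂ) (a b : ℕ → ℂ) (r : ℕ) (κ θ : ℝ) (u N : ℕ) [NeZero N]
  (l : Filter ℝ) (c₀ : ℂ) (X : (ZMod N)ˣ → ℂ), IsSelberg F a b →
  u.Coprime N → κ = (u : ℝ) / N → l.NeBot → l ≤ 𝓝[>] 0 → c₀ ≠ 0 → X 1 = 1 →
  (∀ (m : ℕ) (hm : m.Coprime N), Tendsto (fun η : ℝ => (η : ℂ) ^ r * SS (gth θ a) (κ * m) η) l
      (𝓝 (c₀ * (starRingEnd ℂ) (X (ZMod.unitOfCoprime m hm))))) →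
  (∃ (δ K : ℝ), 0 < δ ∧ ∀ (p : ℕ) (_ : p.Prime) (hp : p.Coprime N),
      ‖a p - (1 + (p : ℂ) ^ (-((θ : ℂ) * I)) * X (ZMod.unitOfCoprime p hp))‖ ≤
        K * (p : ℝ) ^ (-δ)) →
  ∃ c : DirichletCharacter ℂ N → ℂ, ∑ ψ, c ψ = 1 ∧
    (∀ x : (ZMod N)ˣ, X x = ∑ ψ : DirichletCharacter ℂ N,
      c ψ * (starRingEnd ℂ) (ψ (x : ZMod N))) ∧
    (∀ ψ, c ψ ≠ 0 → ¬ Tendsto (fun η : ℝ => (η : ℂ) ^ r * LSeries (aX a ψ) (pt η θ))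
      (𝓝[>] 0) (𝓝 0)) ∧ AppForm a N θ c

/-- D-ORD: comparison of the pole orders -/
def T_ORD : Prop := ∀ (F : ℂ → ℂ) (a b : ℕ → ℂ) (r : ℕ) (R₀ : ℂ) (N : ℕ) [NeZero N] (θ : ℝ)
  (c : DirichletCharacter ℂ N → ℂ), IsSelberg F a b → HasPole F r R₀ → AppForm a N θ c →
  ∑ ψ, c ψ = 1 →
  (∀ ψ, c ψ ≠ 0 → ¬ Tendsto (fun η : ℝ => (η : ℂ) ^ r * LSeries (aX a ψ) (pt η θ))
    (𝓝[>] 0) (𝓝 0)) →
  ∃ ψ₀ : DirichletCharacter ℂ N, (∀ ψ, c ψ = (open Classical in if ψ = ψ₀ then 1 else 0)) ∧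
    ((r = 2 ∧ θ = 0 ∧ ψ₀ = 1) ∨ (r = 1 ∧ ψ₀ ≠ 1))

/-- D-SML: all primes not dividing `N` are inactive, for all powers -/
def T_SML : Prop := ∀ (F : ℂ → ℂ) (a b : ℕ → ℂ) (N : ℕ) [NeZero N] (θ : ℝ)
  (ψ₀ : DirichletCharacter ℂ N), IsSelberg F a b →
  AppForm a N θ (fun ψ => open Classical in if ψ = ψ₀ then 1 else 0) →
  ∀ (p k : ℕ) [NeZero (p ^ k)], p.Prime → ¬ p ∣ N →
  ∀ χ : DirichletCharacter ℂ (p ^ k), χ ≠ 1 →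
  ∃ C : ℝ, ∀ η : ℝ, 0 < η → η ≤ 1 → ‖LSeries (aX a χ) (1 + (η : ℂ))‖ ≤ C

/-- D-EXA: the values `H(p^k) = w^k` determine the Euler factor at `p` -/
def T_EXA : Prop := ∀ (F : ℂ → ℂ) (a b : ℕ → ℂ), IsSelberg F a b → ∀ (p : ℕ) (w : ℂ),
  p.Prime → ‖w‖ = 1 → (∀ k : ℕ, 1 ≤ k → HH a p k = w ^ k) →
  (∀ j : ℕ, a (p ^ j) = ∑ i ∈ Finset.range (j + 1), w ^ i) ∧
  ∀ j : ℕ, 1 ≤ j → b (p ^ j) = (1 + w ^ j) / j

/-- D-MER: from the meromorphic order to `HasPole` -/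
def T_MER : Prop := ∀ (F : ℂ → ℂ) (a b : ℕ → ℂ) (r : ℕ), IsSelberg F a b → 1 ≤ r →
  meromorphicOrderAt F 1 = ((-(r : ℤ) : ℤ) : WithTop ℤ) → ∃ R₀ : ℂ, HasPole F r R₀

/-- CD: the outcome of parts C and D -/
def T_CD : Prop := ∀ (F : ℂ → ℂ) (a b : ℕ → ℂ) (r : ℕ) (R₀ A₁ : ℂ) (κ θ : ℝ),
  IsSelberg F a b → HasPole F r R₀ → MeanSquare a → Drel a A₁ κ θ → ¬ Irrational κ →
  ∃ (N : ℕ) (_ : NeZero N) (χ : DirichletCharacter ℂ N),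
    ((r = 2 ∧ θ = 0 ∧ χ = 1) ∨ (r = 1 ∧ χ ≠ 1)) ∧
    ∀ p j : ℕ, p.Prime → ¬ p ∣ N → 1 ≤ j →
      b (p ^ j) = (1 + (χ (p : ZMod N) * (p : ℂ) ^ (-((θ : ℂ) * I))) ^ j) / j

/-! ## Part E: suggested targets for the end -/

/-- E-LFE: shifted Dirichlet `L`-functions belong to the class `EulerFE` -/
def T_LFE : Prop := ∀ (N : ℕ) [NeZero N] (χ : DirichletCharacter ℂ N) (t : ℝ), χ.IsPrimitive →
  χ ≠ 1 → EulerFE (fun s => DirichletCharacter.LFunction χ (s + t * I))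
    (fun n => (ArithmeticFunction.vonMangoldt n : ℂ) * (χ (n : ZMod N) *
      (n : ℂ) ^ (-((t : ℂ) * I))))

/-- E-FIN: the end, from the Euler factors outside `N` -/
def T_FIN2 : Prop := ∀ (F : ℂ → ℂ) (a b : ℕ → ℂ) (N : ℕ) [NeZero N] (θ : ℝ)
  (χ : DirichletCharacter ℂ N), IsSelberg F a b →
  (∀ p j : ℕ, p.Prime → ¬ p ∣ N → 1 ≤ j →
    b (p ^ j) = (1 + (χ (p : ZMod N) * (p : ℂ) ^ (-((θ : ℂ) * I))) ^ j) / j) →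
  ((χ = 1 ∧ θ = 0) → ∀ s : ℂ, s ≠ 1 → F s = riemannZeta s ^ 2) ∧
  (χ ≠ 1 → ∃ (f : ℕ) (_ : NeZero f) (χ' : DirichletCharacter ℂ f), χ'.IsPrimitive ∧ χ' ≠ 1 ∧
    ∀ s : ℂ, s ≠ 1 → F s = riemannZeta s * DirichletCharacter.LFunction χ' (s + θ * I))

end

end Pool.Agent.SelDeg2
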